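import Pool.Agent.Lib.MP_478c11_gt.U.Spec

section
set_option autoImplicit false

open Real MeasureTheory Set Filter Topology
open scoped ContDiff InnerProductSpace

namespace Rim478

namespace RATM

lemma ab {a b A B : ℝ} (ha : |a| ≤ A) (hb : |b| ≤ B) : |a * b| ≤ A * B := by
  rw [abs_mul]
  exact mul_le_mul ha hb (abs_nonneg _) ((abs_nonneg _).trans ha)

/-- the normalised pointwise estimates -/
lemma core (i j : ℕ) (t s η R x y e₁ e₂ μ μt μh α β p ν τ χ D : ℝ) (ht : 0 < t) (ht1 : t ≤ 1)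
    (hη0 : 0 ≤ η) (hη : ((i : ℝ) + j + 3) * η ≤ 1 / 1000) (hs : 0 ≤ s) (hsR : s ≤ |R|)
    (hs1 : ((i : ℝ) + j + 3) * s ≤ 1 / 1000) (hx : |x - 1| ≤ η) (hy : |y - 1| ≤ η) (he₁ : |e₁| ≤ η) (he₂ : |e₂| ≤ η)
    (hμ : |μ| ≤ s) (hμt : |μt| ≤ s) (hμh : |μh| ≤ s) (hα : |α| ≤ s) (hβ : |β| ≤ s) (hp : p * x = 1)
    (hν : ν = μ * p) (hτ : τ = t * μt * p - μ * (j + e₁) * p ^ 2) (hχ : χ = μh * p - μ * α * p ^ 2)
    (hD : D = ν ^ 2 - R * (y * p)) :
    |D + R| ≤ |R| / 10 ∧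
    |2 * ν * τ - R * ((i + e₂) * p - y * (j + e₁) * p ^ 2) - ((i : ℝ) - j) * D| ≤ |R| / 10 ∧
    |2 * ν * χ - (β * p - R * y * α * p ^ 2)| ≤ 3 * |R| ∧
    |ν| ≤ 2 * s ∧ |τ| ≤ 4 * (j + 3) * s ∧ |χ| ≤ 6 * s := by
  have hi : (0 : ℝ) ≤ i := Nat.cast_nonneg i
  have hj : (0 : ℝ) ≤ j := Nat.cast_nonneg j
  have hρ : 0 ≤ |R| := abs_nonneg R
  have iη : 0 ≤ (i : ℝ) * η := mul_nonneg hi hη0
  have jη : 0 ≤ (j : ℝ) * η := mul_nonneg hj hη0
  have is : 0 ≤ (i : ℝ) * s := mul_nonneg hi hs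
  have js : 0 ≤ (j : ℝ) * s := mul_nonneg hj hs
  have hη3 : η ≤ 1 / 3000 := by linarith
  have hs3 : s ≤ 1 / 3000 := by linarith
  obtain ⟨hx1, hx2⟩ := abs_le.1 hx
  obtain ⟨hy1, hy2⟩ := abs_le.1 hy
  have hx0 : (0.9 : ℝ) < x := by linarith
  have hxp : 0 < x := by linarith
  have hpx : p = x⁻¹ := eq_inv_of_mul_eq_one_left hp
  have hp0 : 0 < p := by rw [hpx]; exact inv_pos.2 hxp
  have hp2 : p ≤ 1.5 := by
    have := mul_le_mul_of_nonneg_left hx0.le hp0.le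
    linarith
  have hpa : |p| ≤ 1.5 := abs_le.2 ⟨by linarith, hp2⟩
  have hppa : |p ^ 2| ≤ 2.25 := by
    rw [sq]
    have := ab hpa hpa
    linarith
  have hya : |y| ≤ 1.1 := abs_le.2 ⟨by linarith, by linarith⟩
  have hta : |t| ≤ 1 := abs_le.2 ⟨by linarith, ht1⟩
  have hje : |(j : ℝ) + e₁| ≤ j + 1 := by
    have := abs_le.1 he₁
    exact abs_le.2 ⟨by linarith, by linarith⟩
  have hνb : |ν| ≤ 2 * s := by
    rw [hν]
    have := ab hμ hpa
    linarith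
  have hτb : |τ| ≤ 4 * (j + 3) * s := by
    rw [hτ]
    have h1 := ab (ab hta hμt) hpa
    have h2 := ab (ab hμ hje) hppa
    have h3 := abs_sub (t * μt * p) (μ * (j + e₁) * p ^ 2)
    linarith
  have ss : s * s ≤ 1 / 3000 * s := mul_le_mul_of_nonneg_right hs3 hs
  have sR : s * s ≤ 1 / 3000 * |R| := mul_le_mul hs3 hsR hs (by norm_num)
  have hχb : |χ| ≤ 6 * s := by
    rw [hχ]
    have h1 := ab hμh hpa
    have h2 := ab (ab hμ hα) hppa
    have h3 := abs_sub (μh * p) (μ * α * p ^ 2)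
    linarith
  have hν2 : ν ^ 2 ≤ 4 * (s * s) := by
    have := ab hνb hνb
    rw [← sq, abs_of_nonneg (sq_nonneg ν)] at this
    linarith
  -- `y p - 1`
  have hyp : |y * p - 1| ≤ 4 * η := by
    have e : y * p - 1 = (y - x) * p := by linear_combination hp
    rw [e]
    have h1 : |y - x| ≤ 2 * η := abs_le.2 ⟨by linarith, by linarith⟩
    have := ab h1 hpa
    linarith
  have Rη : |R| * η ≤ |R| * (1 / 3000) := mul_le_mul_of_nonneg_left hη3 hρ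
  have Rs : |R| * s ≤ |R| * (1 / 3000) := mul_le_mul_of_nonneg_left hs3 hρ
  refine ⟨?_, ?_, ?_, hνb, hτb, hχb⟩
  · have e : D + R = ν ^ 2 - R * (y * p - 1) := by rw [hD]; ring
    rw [e]
    have h1 := ab (le_refl |R|) hyp
    have h3 := abs_sub (ν ^ 2) (R * (y * p - 1))
    rw [abs_of_nonneg (sq_nonneg ν)] at h3
    linarith
  · have e : 2 * ν * τ - R * ((i + e₂) * p - y * (j + e₁) * p ^ 2) - ((i : ℝ) - j) * D =
        2 * (ν * τ) - ((i : ℝ) - j) * ν ^ 2 - R * ((i * x * (1 - y) - j * y * (1 - x) + e₂ * x - e₁ * y) * p ^ 2) := by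
      rw [hD]
      have : p = p ^ 2 * x := by rw [sq, mul_assoc, hp, mul_one]
      linear_combination (-R * (i + e₂) + R * ((i:ℝ) - j) * y) * this
    rw [e]
    have hij : |(i : ℝ) - j| ≤ i + j := abs_le.2 ⟨by linarith, by linarith⟩
    have hxa : |x| ≤ 1.1 := abs_le.2 ⟨by linarith, by linarith⟩
    have hia : |(i : ℝ)| ≤ i := by rw [abs_of_nonneg hi]
    have hja : |(j : ℝ)| ≤ j := by rw [abs_of_nonneg hj]
    have hy' : |1 - y| ≤ η := by rw [abs_sub_comm]; exact hy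
    have hx' : |1 - x| ≤ η := by rw [abs_sub_comm]; exact hx
    have k1 : |ν * τ| ≤ 2 * s * (4 * (j + 3) * s) := ab hνb hτb
    have hνa : |ν ^ 2| ≤ 4 * (s * s) := by rw [abs_of_nonneg (sq_nonneg ν)]; exact hν2
    have k2 : |((i : ℝ) - j) * ν ^ 2| ≤ (i + j) * (4 * (s * s)) := ab hij hνa
    have k3 : |(i * x * (1 - y) - j * y * (1 - x) + e₂ * x - e₁ * y)| ≤ 2 * ((i + j + 3) * η) := by
      have a1 := ab (ab hia hxa) hy'
      have a2 := ab (ab hja hya) hx'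
      have a3 := ab he₂ hxa
      have a4 := ab he₁ hya
      have b1 := abs_sub (i * x * (1 - y) - j * y * (1 - x) + e₂ * x) (e₁ * y)
      have b2 := abs_add_le (i * x * (1 - y) - j * y * (1 - x)) (e₂ * x)
      have b3 := abs_sub (i * x * (1 - y)) (j * y * (1 - x))
      linarith
    have k4 := ab k3 hppa
    have k5 := ab (le_refl |R|) k4
    have b1 := abs_sub (2 * (ν * τ) - ((i : ℝ) - j) * ν ^ 2) (R * ((i * x * (1 - y) - j * y * (1 - x) + e₂ * x - e₁ * y) * p ^ 2))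
    have b2 := abs_sub (2 * (ν * τ)) (((i : ℝ) - j) * ν ^ 2)
    have b3 : |2 * (ν * τ)| = 2 * |ν * τ| := by rw [abs_mul, abs_of_pos (by norm_num : (0:ℝ) < 2)]
    have d1 : ((j : ℝ) + 3) * s ≤ 1 / 1000 := by linarith
    have d2 : ((i : ℝ) + j) * s ≤ 1 / 1000 := by linarith
    have f1 : ((j : ℝ) + 3) * s * s ≤ 1 / 1000 * |R| := mul_le_mul d1 hsR hs (by norm_num)
    have f2 : ((i : ℝ) + j) * s * s ≤ 1 / 1000 * |R| := mul_le_mul d2 hsR hs (by norm_num)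
    have f3 : |R| * (((i : ℝ) + j + 3) * η) ≤ |R| * (1 / 1000) := mul_le_mul_of_nonneg_left hη hρ
    linarith
  · have h1 := ab hνb hχb
    have h2 := ab hβ hpa
    have h3 := ab (ab (ab (le_refl |R|) hya) hα) hppa
    have b1 := abs_sub (2 * (ν * χ)) (β * p - R * y * α * p ^ 2)
    have b2 := abs_sub (β * p) (R * y * α * p ^ 2)
    have b3 : |2 * (ν * χ)| = 2 * |ν * χ| := by rw [abs_mul, abs_of_pos (by norm_num : (0:ℝ) < 2)]
    have e : 2 * ν * χ = 2 * (ν * χ) := by ring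
    rw [e]
    linarith

/-- the pointwise estimates -/
lemma ptw (i j : ℕ) (t κ η A B a at' ah b bt bh m mt mh : ℝ) (ht : 0 < t) (ht1 : t ≤ 1) (hA : A ≠ 0) (hB : B ≠ 0)
    (hη0 : 0 ≤ η) (hη : ((i : ℝ) + j + 3) * η ≤ 1 / 1000) (hκ : 0 ≤ κ) (hκB : κ ≤ |B|)
    (hκA : ((i : ℝ) + j + 3) * κ ≤ |A| / 1000) (h1 : |a - A| ≤ η * |A|) (h2 : |b - B| ≤ η * |B|)
    (h3 : |t * at' - j * A| ≤ η * |A|) (h4 : |t * bt - i * B| ≤ η * |B|) (hm : |m| ≤ κ) (hmt : |mt| ≤ κ) (hmh : |mh| ≤ κ)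
    (hah : |ah| ≤ κ) (hbh : |bh| ≤ κ) (D Dt Dh ν νt νh : ℝ) (eD : D = (m ^ 2 - b * a) / a ^ 2) (eν : ν = m / a)
    (eνt : νt = (mt * a - m * at') / a ^ 2) (eνh : νh = (mh * a - m * ah) / a ^ 2)
    (eDt : Dt = 2 * ν * νt - (bt * a - b * at') / a ^ 2) (eDh : Dh = 2 * ν * νh - (bh * a - b * ah) / a ^ 2) :
    a ≠ 0 ∧ |D + B / A| ≤ |B / A| / 10 ∧ |t * Dt - ((i : ℝ) - j) * D| ≤ 1 / 8 * |D| ∧ |Dh| ≤ 4 * |D| ∧
    |ν| ≤ 1 ∧ |νh| ≤ 1 ∧ |ν| ≤ 4 * √|D| ∧ |νt| ≤ 8 * (j + 3) / t * √|D| ∧ |νh| ≤ 12 * √|D| := by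
  have hi : (0 : ℝ) ≤ i := Nat.cast_nonneg i
  have hj : (0 : ℝ) ≤ j := Nat.cast_nonneg j
  have hA' : 0 < |A| := abs_pos.2 hA
  have hB' : 0 < |B| := abs_pos.2 hB
  obtain ⟨x, rfl⟩ : ∃ x, a = A * x := ⟨a / A, by field_simp⟩
  obtain ⟨y, rfl⟩ : ∃ y, b = B * y := ⟨b / B, by field_simp⟩
  obtain ⟨e₁, he₁⟩ : ∃ e, t * at' = A * (j + e) := ⟨t * at' / A - j, by field_simp; ring⟩
  obtain ⟨e₂, he₂⟩ : ∃ e, t * bt = B * (i + e) := ⟨t * bt / B - i, by field_simp; ring⟩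
  obtain ⟨μ, rfl⟩ : ∃ x, m = A * x := ⟨m / A, by field_simp⟩
  obtain ⟨μt, rfl⟩ : ∃ x, mt = A * x := ⟨mt / A, by field_simp⟩
  obtain ⟨μh, rfl⟩ : ∃ x, mh = A * x := ⟨mh / A, by field_simp⟩
  obtain ⟨α, rfl⟩ : ∃ x, ah = A * x := ⟨ah / A, by field_simp⟩
  obtain ⟨β, rfl⟩ : ∃ x, bh = A * x := ⟨bh / A, by field_simp⟩
  have nrm : ∀ z : ℝ, |A * z| ≤ κ → |z| ≤ κ / |A| := by
    intro z hz
    rw [abs_mul] at hz
    rw [le_div_iff₀ hA']
    linarith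
  have kx : |x - 1| ≤ η := by
    have e : A * x - A = A * (x - 1) := by ring
    rw [e, abs_mul, mul_comm] at h1
    exact le_of_mul_le_mul_right h1 hA'
  have ky : |y - 1| ≤ η := by
    have e : B * y - B = B * (y - 1) := by ring
    rw [e, abs_mul, mul_comm] at h2
    exact le_of_mul_le_mul_right h2 hB'
  have k₁ : |e₁| ≤ η := by
    have e : t * at' - j * A = A * e₁ := by rw [he₁]; ring
    rw [e, abs_mul, mul_comm] at h3
    exact le_of_mul_le_mul_right h3 hA'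
  have k₂ : |e₂| ≤ η := by
    have e : t * bt - i * B = B * e₂ := by rw [he₂]; ring
    rw [e, abs_mul, mul_comm] at h4
    exact le_of_mul_le_mul_right h4 hB'
  have iη : 0 ≤ (i : ℝ) * η := mul_nonneg hi hη0
  have jη : 0 ≤ (j : ℝ) * η := mul_nonneg hj hη0
  have hx0 : 0 < x := by
    have := (abs_le.1 kx).1
    linarith
  have hs0 : 0 ≤ κ / |A| := div_nonneg hκ hA'.le
  have hsR : κ / |A| ≤ |B / A| := by
    rw [abs_div]
    exact div_le_div_of_nonneg_right hκB hA'.le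
  have hs1 : ((i : ℝ) + j + 3) * (κ / |A|) ≤ 1 / 1000 := by
    rw [← mul_div_assoc, div_le_iff₀ hA']
    linarith
  have hR : 0 < |B / A| := abs_pos.2 (div_ne_zero hB hA)
  have hat : at' = A * (j + e₁) / t := by field_simp; linarith
  have hbt : bt = B * (i + e₂) / t := by field_simp; linarith
  have key := core i j t (κ / |A|) η (B / A) x y e₁ e₂ μ μt μh α β x⁻¹ ν (t * νt) νh D ht ht1 hη0 hη hs0 hsR hs1 kx ky k₁ k₂
    (nrm _ hm) (nrm _ hmt) (nrm _ hmh) (nrm _ hah) (nrm _ hbh) (inv_mul_cancel₀ hx0.ne')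
    (by rw [eν]; field_simp) (by rw [eνt, hat]; field_simp) (by rw [eνh]; field_simp) (by rw [eD, eν]; field_simp)
  obtain ⟨c1, c2, c3, c4, c5, c6⟩ := key
  have hD1 : |B / A| ≤ 10 / 9 * |D| := by
    have := abs_sub (D + B / A) D
    rw [add_sub_cancel_left] at this
    linarith
  have hD0 : 0 < |D| := by linarith
  have js : 0 ≤ (j : ℝ) * (κ / |A|) := mul_nonneg hj hs0
  have is : 0 ≤ (i : ℝ) * (κ / |A|) := mul_nonneg hi hs0
  have hs3 : κ / |A| ≤ 1 / 3000 := by linarith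
  have hsq : κ / |A| ≤ 2 * √|D| := by
    have e : (κ / |A|) ^ 2 ≤ |B / A| := by
      rw [sq]
      calc κ / |A| * (κ / |A|) ≤ 1 * |B / A| := mul_le_mul (by linarith) hsR hs0 (by norm_num)
        _ = |B / A| := one_mul _
    have e2 : κ / |A| ≤ √(4 * |D|) := Real.le_sqrt_of_sq_le (by linarith)
    have e3 : √(4 * |D|) = 2 * √|D| := by
      rw [Real.sqrt_mul (by norm_num), show (4:ℝ) = 2 ^ 2 by norm_num, Real.sqrt_sq (by norm_num)]
    rwa [e3] at e2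
  refine ⟨mul_ne_zero hA hx0.ne', c1, ?_, ?_, by linarith, by linarith, by linarith, ?_, by linarith⟩
  · have e : t * Dt = 2 * ν * (t * νt) - B / A * ((i + e₂) * x⁻¹ - y * (j + e₁) * x⁻¹ ^ 2) := by
      rw [eDt, hat, hbt]
      field_simp
    rw [e]
    linarith
  · have e : Dh = 2 * ν * νh - (β * x⁻¹ - B / A * y * α * x⁻¹ ^ 2) := by
      rw [eDh]
      field_simp
    rw [e]
    linarith
  · have e1 : |t * νt| = t * |νt| := by rw [abs_mul, abs_of_pos ht]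
    rw [e1] at c5
    have e2 : 4 * ((j:ℝ) + 3) * (κ / |A|) ≤ 4 * ((j:ℝ) + 3) * (2 * √|D|) := mul_le_mul_of_nonneg_left hsq (by linarith)
    have e3 : 8 * ((j:ℝ) + 3) / t * √|D| = (4 * ((j:ℝ) + 3) * (2 * √|D|)) / t := by ring
    rw [e3, le_div_iff₀ ht]
    linarith

/-- a flat function is small -/
lemma flat_small (hFLT : SpecFLT) {J : Set ℝ} {u : ℝ → ℝ → ℝ} {t₀ : ℝ} (hJ : IsOpen J) (hu : SJ J u) (hp : Per J u)
    (ht₀ : t₀ ∈ J) (hf : Fl t₀ u) (M : ℕ) : ∀ᶠ t in 𝓝[>] (0 : ℝ), ∀ θ, |u (t₀ + t) θ| ≤ t ^ M := by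
  obtain ⟨C, δ, hδ, h⟩ := hFLT.est hJ hu hp ht₀ hf (M + 1)
  have hC : 0 < |C| + 1 := by positivity
  have e1 : ∀ᶠ t in 𝓝[>] (0 : ℝ), t ∈ Ioo 0 (min δ (1 / (|C| + 1))) :=
    Ioo_mem_nhdsGT (lt_min hδ (by positivity))
  filter_upwards [e1] with t ht θ
  have h1 := h (t₀ + t) (by
    rw [add_sub_cancel_left, abs_of_pos ht.1]
    exact lt_of_lt_of_le ht.2 (min_le_left _ _)) θ
  rw [add_sub_cancel_left, abs_of_pos ht.1, Real.norm_eq_abs] at h1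
  have h2 : t < 1 / (|C| + 1) := lt_of_lt_of_le ht.2 (min_le_right _ _)
  rw [lt_div_iff₀ hC] at h2
  have h3 : C * t ≤ 1 := by
    have := mul_le_mul_of_nonneg_right (le_abs_self C) ht.1.le
    nlinarith [ht.1]
  calc |u (t₀ + t) θ| ≤ C * t ^ (M + 1) := h1
    _ = C * t * t ^ M := by ring
    _ ≤ 1 * t ^ M := mul_le_mul_of_nonneg_right h3 (pow_nonneg ht.1.le M)
    _ = t ^ M := one_mul _

/-- leading terms -/
lemma lead_small (hNFL : SpecNFL) {J : Set ℝ} {u : ℝ → ℝ} {t₀ : ℝ} {k : ℕ} (hJ : IsOpen J) (hu : ContDiffOn ℝ ∞ u J)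
    (ht₀ : t₀ ∈ J) (h0 : ∀ i < k, iteratedDeriv i u t₀ = 0) (h1 : iteratedDeriv k u t₀ ≠ 0) :
    ∃ c : ℝ, c ≠ 0 ∧ ∀ η : ℝ, 0 < η → ∀ᶠ t in 𝓝[>] (0 : ℝ), |u (t₀ + t) - c * t ^ k| ≤ η * |c * t ^ k| ∧
      |t * deriv u (t₀ + t) - k * (c * t ^ k)| ≤ η * |c * t ^ k| := by
  obtain ⟨c, δ, C, hc, hδ, hC, h⟩ := hNFL J u t₀ k hJ hu ht₀ h0 h1
  refine ⟨c, hc, fun η hη => ?_⟩
  have hc' : 0 < |c| := abs_pos.2 hc
  have e1 : ∀ᶠ t in 𝓝[>] (0 : ℝ), t ∈ Ioo 0 (min δ (η * |c| / C)) :=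
    Ioo_mem_nhdsGT (lt_min hδ (by positivity))
  filter_upwards [e1] with t ht
  have h2 : t < η * |c| / C := lt_of_lt_of_le ht.2 (min_le_right _ _)
  rw [lt_div_iff₀ hC] at h2
  have h3 : C * t ^ (k + 1) ≤ η * |c * t ^ k| := by
    rw [abs_mul, abs_of_pos (pow_pos ht.1 k)]
    calc C * t ^ (k + 1) = t * C * t ^ k := by ring
      _ ≤ η * |c| * t ^ k := mul_le_mul_of_nonneg_right h2.le (pow_nonneg ht.1.le k)
      _ = η * (|c| * t ^ k) := by ring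
  obtain ⟨h4, h5⟩ := h t ⟨ht.1, lt_of_lt_of_le ht.2 (min_le_left _ _)⟩
  refine ⟨h4.trans h3, ?_⟩
  rw [← mul_assoc]
  exact h5.trans h3

lemma pow_small (i j : ℕ) {c : ℝ} (hc : 0 < c) : ∀ᶠ t in 𝓝[>] (0 : ℝ), t ^ (i + j + 1) ≤ c * t ^ i ∧
    t ^ (i + j + 1) ≤ c * t ^ j := by
  have e1 : ∀ᶠ t in 𝓝[>] (0 : ℝ), t ∈ Ioo 0 (min 1 c) := Ioo_mem_nhdsGT (lt_min one_pos hc)
  filter_upwards [e1] with t ht
  have h1 : t ≤ 1 := (lt_of_lt_of_le ht.2 (min_le_left _ _)).le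
  have h2 : t ≤ c := (lt_of_lt_of_le ht.2 (min_le_right _ _)).le
  have key : ∀ a b : ℕ, t ^ (a + b + 1) ≤ c * t ^ a := by
    intro a b
    calc t ^ (a + b + 1) = t * t ^ b * t ^ a := by ring
      _ ≤ c * 1 * t ^ a := by
        refine mul_le_mul_of_nonneg_right ?_ (pow_nonneg ht.1.le a)
        exact mul_le_mul h2 (pow_le_one₀ ht.1.le h1) (pow_nonneg ht.1.le b) hc.le
      _ = c * t ^ a := by ring
  refine ⟨key i j, ?_⟩
  have := key j i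
  rwa [add_comm j i] at this

/-- the sum of a leading term and a flat term -/
lemma sum_small {u v A η κ z : ℝ} (k : ℝ) (h1 : |u - k * A| ≤ η / 2 * |A|) (h2 : |v| ≤ κ) (h3 : κ ≤ η * |A|) (h4 : z = u + v / 2) :
    |z - k * A| ≤ η * |A| := by
  rw [h4]
  have e : u + v / 2 - k * A = (u - k * A) + v / 2 := by ring
  rw [e]
  have h5 := abs_add_le (u - k * A) (v / 2)
  have h6 : |v / 2| = |v| / 2 := by rw [abs_div, abs_of_pos (by norm_num : (0:ℝ) < 2)]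
  rw [h6] at h5
  linarith

lemma half {v κ : ℝ} (h : |v| ≤ κ) : |v / 2| ≤ κ := by
  rw [abs_div, abs_of_pos (by norm_num : (0:ℝ) < 2)]
  have := abs_nonneg v
  linarith

/-- the constant in the estimates -/
lemma bundle (hDR2 : SpecDR2) (hNFL : SpecNFL) (hFLT : SpecFLT) {J : Set ℝ} {t₀ : ℝ} {l₀ n₀ : ℝ → ℝ} {i j : ℕ}
    {l m n : ℝ → ℝ → ℝ} (hJ : IsOpen J) (ht₀ : t₀ ∈ J) (hl₀ : ContDiffOn ℝ ∞ l₀ J) (hn₀ : ContDiffOn ℝ ∞ n₀ J)
    (hl1 : ∀ k < i, iteratedDeriv k l₀ t₀ = 0) (hl2 : iteratedDeriv i l₀ t₀ ≠ 0)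
    (hn1 : ∀ k < j, iteratedDeriv k n₀ t₀ = 0) (hn2 : iteratedDeriv j n₀ t₀ ≠ 0)
    (sl : SJ J l) (sm : SJ J m) (sn : SJ J n) (pl : Per J l) (pm : Per J m) (pn : Per J n)
    (fl : Fl t₀ l) (fm : Fl t₀ m) (fn : Fl t₀ n) :
    ∃ c₁ c₂ δ : ℝ, c₁ ≠ 0 ∧ c₂ ≠ 0 ∧ 0 < δ ∧ ∀ t ∈ Ioo 0 δ, t₀ + t ∈ J ∧ t ≤ 1 ∧ ∀ θ,
    ∀ a at' ah b bt bh m' mt mh : ℝ, a = n₀ (t₀ + t) + n (t₀ + t) θ / 2 →
    at' = deriv n₀ (t₀ + t) + pt n (t₀ + t) θ / 2 → ah = ph n (t₀ + t) θ / 2 → b = l₀ (t₀ + t) + l (t₀ + t) θ / 2 →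
    bt = deriv l₀ (t₀ + t) + pt l (t₀ + t) θ / 2 → bh = ph l (t₀ + t) θ / 2 → m' = m (t₀ + t) θ / 2 →
    mt = pt m (t₀ + t) θ / 2 → mh = ph m (t₀ + t) θ / 2 →
    ∀ D Dt Dh ν νt νh : ℝ, D = (m' ^ 2 - b * a) / a ^ 2 → ν = m' / a →
    νt = (mt * a - m' * at') / a ^ 2 → νh = (mh * a - m' * ah) / a ^ 2 →
    Dt = 2 * ν * νt - (bt * a - b * at') / a ^ 2 → Dh = 2 * ν * νh - (bh * a - b * ah) / a ^ 2 →
    a ≠ 0 ∧ |D + (c₂ * t ^ i) / (c₁ * t ^ j)| ≤ |(c₂ * t ^ i) / (c₁ * t ^ j)| / 10 ∧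
    |t * Dt - ((i : ℝ) - j) * D| ≤ 1 / 8 * |D| ∧ |Dh| ≤ 4 * |D| ∧
    |ν| ≤ 1 ∧ |νh| ≤ 1 ∧ |ν| ≤ 4 * √|D| ∧ |νt| ≤ 8 * (j + 3) / t * √|D| ∧ |νh| ≤ 12 * √|D| := by
  obtain ⟨c₂, hc₂, H2⟩ := lead_small hNFL hJ hl₀ ht₀ hl1 hl2
  obtain ⟨c₁, hc₁, H1⟩ := lead_small hNFL hJ hn₀ ht₀ hn1 hn2
  have hc₁' : 0 < |c₁| := abs_pos.2 hc₁
  have hc₂' : 0 < |c₂| := abs_pos.2 hc₂
  have hη : (0 : ℝ) < 1 / (1000 * ((i : ℝ) + j + 3)) := by positivity
  obtain ⟨η, hη'⟩ : ∃ η : ℝ, η = 1 / (1000 * ((i : ℝ) + j + 3)) := ⟨_, rfl⟩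
  rw [← hη'] at hη
  have hη1 : ((i : ℝ) + j + 3) * η ≤ 1 / 1000 := by
    rw [hη']
    apply le_of_eq
    field_simp
  have hη2 : η ≤ 1 := by
    rw [hη', div_le_one (by positivity)]
    have hi : (0 : ℝ) ≤ i := Nat.cast_nonneg i
    have hj : (0 : ℝ) ≤ j := Nat.cast_nonneg j
    linarith
  have hin : ∀ᶠ t in 𝓝[>] (0 : ℝ), t₀ + t ∈ J := by
    have hc : Tendsto (fun t : ℝ => t₀ + t) (𝓝 0) (𝓝 (t₀ + 0)) := (continuous_const.add continuous_id).tendsto 0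
    rw [add_zero] at hc
    exact (hc.mono_left nhdsWithin_le_nhds).eventually (hJ.mem_nhds ht₀)
  have h01 : ∀ᶠ t in 𝓝[>] (0 : ℝ), t ∈ Ioo (0 : ℝ) 1 := Ioo_mem_nhdsGT one_pos
  have A1 := flat_small hFLT hJ sl pl ht₀ fl (i + j + 1)
  have A2 := flat_small hFLT hJ (hDR2.spt hJ sl) (hDR2.perp hJ pl) ht₀ (hFLT.fp fl) (i + j + 1)
  have A3 := flat_small hFLT hJ (hDR2.sph hJ sl) (hDR2.perh pl) ht₀ (hFLT.fh hJ sl ht₀ fl) (i + j + 1)
  have B1 := flat_small hFLT hJ sm pm ht₀ fm (i + j + 1)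
  have B2 := flat_small hFLT hJ (hDR2.spt hJ sm) (hDR2.perp hJ pm) ht₀ (hFLT.fp fm) (i + j + 1)
  have B3 := flat_small hFLT hJ (hDR2.sph hJ sm) (hDR2.perh pm) ht₀ (hFLT.fh hJ sm ht₀ fm) (i + j + 1)
  have C1 := flat_small hFLT hJ sn pn ht₀ fn (i + j + 1)
  have C2 := flat_small hFLT hJ (hDR2.spt hJ sn) (hDR2.perp hJ pn) ht₀ (hFLT.fp fn) (i + j + 1)
  have C3 := flat_small hFLT hJ (hDR2.sph hJ sn) (hDR2.perh pn) ht₀ (hFLT.fh hJ sn ht₀ fn) (i + j + 1)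
  have P1 := pow_small i j (show 0 < η * |c₁| by positivity)
  have P2 := pow_small i j (show 0 < η * |c₂| by positivity)
  obtain ⟨δ, hδ, hall⟩ := mem_nhdsGT_iff_exists_Ioo_subset.1
    (hin.and (h01.and (A1.and (A2.and (A3.and (B1.and (B2.and (B3.and (C1.and (C2.and (C3.and (P1.and (P2.and
      ((H1 (η / 2) (half_pos hη)).and (H2 (η / 2) (half_pos hη))))))))))))))))
  refine ⟨c₁, c₂, δ, hc₁, hc₂, hδ, fun t ht => ?_⟩
  obtain ⟨q1, q2, a1, a2, a3, b1, b2, b3, d1, d2, d3, p1, p2, r1, r2⟩ := hall ht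
  refine ⟨q1, q2.2.le, fun θ a at' ah b bt bh m' mt mh ea eat eah eb ebt ebh em emt emh D Dt Dh ν νt νh eD eν eνt eνh eDt eDh => ?_⟩
  have ht0 : 0 < t := ht.1
  have hκ : 0 ≤ t ^ (i + j + 1) := pow_nonneg ht0.le _
  have hA : |c₁ * t ^ j| = |c₁| * t ^ j := by rw [abs_mul, abs_of_pos (pow_pos ht0 j)]
  have hB : |c₂ * t ^ i| = |c₂| * t ^ i := by rw [abs_mul, abs_of_pos (pow_pos ht0 i)]
  have hκA : t ^ (i + j + 1) ≤ η * |c₁ * t ^ j| := by rw [hA, ← mul_assoc]; exact p1.2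
  have hκB : t ^ (i + j + 1) ≤ η * |c₂ * t ^ i| := by rw [hB, ← mul_assoc]; exact p2.1
  have tsm : ∀ v : ℝ, |v| ≤ t ^ (i + j + 1) → |t * v| ≤ t ^ (i + j + 1) := by
    intro v hv
    have := ab (show |t| ≤ 1 by rw [abs_of_pos ht0]; exact q2.2.le) hv
    linarith
  refine ptw i j t (t ^ (i + j + 1)) η (c₁ * t ^ j) (c₂ * t ^ i) a at' ah b bt bh m' mt mh ht0 q2.2.le
    (mul_ne_zero hc₁ (pow_ne_zero _ ht0.ne')) (mul_ne_zero hc₂ (pow_ne_zero _ ht0.ne')) hη.le hη1 hκ ?_ ?_ ?_ ?_ ?_ ?_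
    (by rw [em]; exact half (b1 θ)) (by rw [emt]; exact half (b2 θ)) (by rw [emh]; exact half (b3 θ))
    (by rw [eah]; exact half (d3 θ)) (by rw [ebh]; exact half (a3 θ)) D Dt Dh ν νt νh eD eν eνt eνh eDt eDh
  · have h1 : η * |c₂ * t ^ i| ≤ 1 * |c₂ * t ^ i| := mul_le_mul_of_nonneg_right hη2 (abs_nonneg _)
    linarith
  · calc ((i : ℝ) + j + 3) * t ^ (i + j + 1) ≤ ((i : ℝ) + j + 3) * (η * |c₁ * t ^ j|) :=
        mul_le_mul_of_nonneg_left hκA (by positivity)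
      _ = ((i : ℝ) + j + 3) * η * |c₁ * t ^ j| := by ring
      _ ≤ 1 / 1000 * |c₁ * t ^ j| := mul_le_mul_of_nonneg_right hη1 (abs_nonneg _)
      _ = |c₁ * t ^ j| / 1000 := by ring
  · have := sum_small (z := a) 1 (by rw [one_mul]; exact r1.1) (d1 θ) hκA ea
    rwa [one_mul] at this
  · have := sum_small (z := b) 1 (by rw [one_mul]; exact r2.1) (a1 θ) hκB eb
    rwa [one_mul] at this
  · exact sum_small (z := t * at') j r1.2 (tsm _ (d2 θ)) hκA (by rw [eat]; ring)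
  · exact sum_small (z := t * bt) i r2.2 (tsm _ (a2 θ)) hκB (by rw [ebt]; ring)

lemma derD {f g h : ℝ → ℝ} {x f' g' h' : ℝ} (hf : HasDerivAt f f' x) (hg : HasDerivAt g g' x) (hh : HasDerivAt h h' x)
    (h0 : h x ≠ 0) : deriv (fun s => (f s ^ 2 - g s * h s) / h s ^ 2) x =
      2 * (f x / h x) * deriv (fun s => f s / h s) x - (g' * h x - g x * h') / h x ^ 2 := by
  have e1 := (((hf.pow 2).sub (hg.mul hh)).div (hh.pow 2) (pow_ne_zero 2 h0)).deriv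
  have e2 := (hf.div hh h0).deriv
  have e1' : deriv (fun s => (f s ^ 2 - g s * h s) / h s ^ 2) x = _ := e1
  have e2' : deriv (fun s => f s / h s) x = _ := e2
  rw [e1', e2']
  simp only [Nat.cast_ofNat, Pi.pow_apply, Pi.mul_apply, Pi.sub_apply, Nat.add_one_sub_one, pow_one]
  field_simp
  ring

end RATM

open RATM in
/-- **RAT** -/
theorem specRAT (hDR2 : SpecDR2) (hNFL : SpecNFL) (hFLT : SpecFLT) : SpecRAT := by
  intro J t₀ l₀ n₀ i j l m n hJ ht₀ hl₀ hn₀ hij hl1 hl2 hn1 hn2 sl sm sn pl pm pn fl fm fn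
  obtain ⟨c₁, c₂, δ, hc₁, hc₂, hδ, key⟩ := bundle hDR2 hNFL hFLT hJ ht₀ hl₀ hn₀ hl1 hl2 hn1 hn2 sl sm sn pl pm pn fl fm fn
  have hin : ∀ t ∈ Ioo 0 δ, t₀ + t ∈ J := fun t ht => (key t ht).1
  have hle : ∀ t ∈ Ioo 0 δ, t ≤ 1 := fun t ht => (key t ht).2.1
  have hne : ∀ t ∈ Ioo 0 δ, ∀ θ, n₀ (t₀ + t) + n (t₀ + t) θ / 2 ≠ 0 := fun t ht θ =>
    ((key t ht).2.2 θ _ _ _ _ _ _ _ _ _ rfl rfl rfl rfl rfl rfl rfl rfl rfl _ _ _ _ _ _ rfl rfl rfl rfl rfl rfl).1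
  have hj : (0 : ℝ) ≤ j := Nat.cast_nonneg j
  obtain ⟨C, hC⟩ : ∃ C : ℝ, C = 8 * (j + 3) + 2 * |c₂ / c₁| := ⟨_, rfl⟩
  have hC0 : 0 ≤ |c₂ / c₁| := abs_nonneg _
  have hC24 : 24 ≤ C := by linarith
  refine ⟨δ, C, hδ, by linarith, hin, hne, fun D ν hD hν => ?_⟩
  -- derivatives
  have dm : ∀ t ∈ Ioo 0 δ, ∀ θ, HasDerivAt (fun s => m (t₀ + s) θ / 2) (pt m (t₀ + t) θ / 2) t := fun t ht θ =>
    ((hDR2.hpt hJ sm (t₀ + t) (hin t ht) θ).comp_const_add t₀ t).div_const 2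
  have dl : ∀ t ∈ Ioo 0 δ, ∀ θ, HasDerivAt (fun s => l₀ (t₀ + s) + l (t₀ + s) θ / 2)
      (deriv l₀ (t₀ + t) + pt l (t₀ + t) θ / 2) t := fun t ht θ =>
    ((((hl₀.contDiffAt (hJ.mem_nhds (hin t ht))).differentiableAt (by simp)).hasDerivAt).comp_const_add t₀ t).add
      (((hDR2.hpt hJ sl (t₀ + t) (hin t ht) θ).comp_const_add t₀ t).div_const 2)
  have dn : ∀ t ∈ Ioo 0 δ, ∀ θ, HasDerivAt (fun s => n₀ (t₀ + s) + n (t₀ + s) θ / 2)
      (deriv n₀ (t₀ + t) + pt n (t₀ + t) θ / 2) t := fun t ht θ =>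
    ((((hn₀.contDiffAt (hJ.mem_nhds (hin t ht))).differentiableAt (by simp)).hasDerivAt).comp_const_add t₀ t).add
      (((hDR2.hpt hJ sn (t₀ + t) (hin t ht) θ).comp_const_add t₀ t).div_const 2)
  have em : ∀ t ∈ Ioo 0 δ, ∀ θ, HasDerivAt (fun s => m (t₀ + t) s / 2) (ph m (t₀ + t) θ / 2) θ := fun t ht θ =>
    (hDR2.hph hJ sm (t₀ + t) (hin t ht) θ).div_const 2
  have el : ∀ t ∈ Ioo 0 δ, ∀ θ, HasDerivAt (fun s => l₀ (t₀ + t) + l (t₀ + t) s / 2) (ph l (t₀ + t) θ / 2) θ :=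
    fun t ht θ => ((hDR2.hph hJ sl (t₀ + t) (hin t ht) θ).div_const 2).const_add _
  have en : ∀ t ∈ Ioo 0 δ, ∀ θ, HasDerivAt (fun s => n₀ (t₀ + t) + n (t₀ + t) s / 2) (ph n (t₀ + t) θ / 2) θ :=
    fun t ht θ => ((hDR2.hph hJ sn (t₀ + t) (hin t ht) θ).div_const 2).const_add _
  have key2 : ∀ t ∈ Ioo 0 δ, ∀ θ, |D t θ + (c₂ * t ^ i) / (c₁ * t ^ j)| ≤ |(c₂ * t ^ i) / (c₁ * t ^ j)| / 10 ∧
      |t * pt D t θ - ((i : ℝ) - j) * D t θ| ≤ 1 / 8 * |D t θ| ∧ |ph D t θ| ≤ 4 * |D t θ| ∧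
      |ν t θ| ≤ 1 ∧ |ph ν t θ| ≤ 1 ∧ |ν t θ| ≤ 4 * √|D t θ| ∧ |pt ν t θ| ≤ 8 * (j + 3) / t * √|D t θ| ∧
      |ph ν t θ| ≤ 12 * √|D t θ| := by
    intro t ht θ
    have h0 := hne t ht θ
    have h02 := pow_ne_zero 2 h0
    refine ((key t ht).2.2 θ _ _ _ _ _ _ _ _ _ rfl rfl rfl rfl rfl rfl rfl rfl rfl (D t θ) (pt D t θ) (ph D t θ) (ν t θ)
      (pt ν t θ) (ph ν t θ) (by rw [hD]) (by rw [hν]) ?_ ?_ ?_ ?_).2
    · rw [hν]
      exact ((dm t ht θ).div (dn t ht θ) h0).deriv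
    · rw [hν]
      exact ((em t ht θ).div (en t ht θ) h0).deriv
    · rw [hν, hD]
      exact derD (dm t ht θ) (dl t ht θ) (dn t ht θ) h0
    · rw [hν, hD]
      exact derD (em t ht θ) (el t ht θ) (en t ht θ) h0
  -- smoothness
  have shift : ContDiff ℝ ∞ (fun p : ℝ × ℝ => (t₀ + p.1, p.2)) := (contDiff_const.add contDiff_fst).prodMk contDiff_snd
  have maps : MapsTo (fun p : ℝ × ℝ => (t₀ + p.1, p.2)) (Ioo 0 δ ×ˢ univ) (J ×ˢ univ) := fun p hp => ⟨hin p.1 hp.1, mem_univ _⟩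
  have cm : ContDiffOn ℝ ∞ (fun p : ℝ × ℝ => m (t₀ + p.1) p.2 / 2) (Ioo 0 δ ×ˢ univ) :=
    (ContDiffOn.comp (g := fun p : ℝ × ℝ => m p.1 p.2) sm shift.contDiffOn maps).div_const 2
  have cl : ContDiffOn ℝ ∞ (fun p : ℝ × ℝ => l₀ (t₀ + p.1) + l (t₀ + p.1) p.2 / 2) (Ioo 0 δ ×ˢ univ) := by
    refine ContDiffOn.add ?_ ((ContDiffOn.comp (g := fun p : ℝ × ℝ => l p.1 p.2) sl shift.contDiffOn maps).div_const 2)
    exact ContDiffOn.comp (g := l₀) (f := fun p : ℝ × ℝ => t₀ + p.1) hl₀ (contDiff_const.add contDiff_fst).contDiffOn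
      (fun p hp => hin p.1 hp.1)
  have cn : ContDiffOn ℝ ∞ (fun p : ℝ × ℝ => n₀ (t₀ + p.1) + n (t₀ + p.1) p.2 / 2) (Ioo 0 δ ×ˢ univ) := by
    refine ContDiffOn.add ?_ ((ContDiffOn.comp (g := fun p : ℝ × ℝ => n p.1 p.2) sn shift.contDiffOn maps).div_const 2)
    exact ContDiffOn.comp (g := n₀) (f := fun p : ℝ × ℝ => t₀ + p.1) hn₀ (contDiff_const.add contDiff_fst).contDiffOn
      (fun p hp => hin p.1 hp.1)
  have hR : ∀ t ∈ Ioo 0 δ, 0 < |(c₂ * t ^ i) / (c₁ * t ^ j)| := fun t ht =>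
    abs_pos.2 (div_ne_zero (mul_ne_zero hc₂ (pow_ne_zero _ ht.1.ne')) (mul_ne_zero hc₁ (pow_ne_zero _ ht.1.ne')))
  refine ⟨?_, ?_, ?_, ?_, ?_, ?_, ?_, ?_, ?_⟩
  · rw [hD]
    exact ((cm.pow 2).sub (cl.mul cn)).div (cn.pow 2) (fun p hp => pow_ne_zero 2 (hne p.1 hp.1 p.2))
  · rw [hν]
    exact cm.div cn (fun p hp => hne p.1 hp.1 p.2)
  · intro t ht θ
    rw [hD]
    simp only [pm _ (hin t ht) θ, pn _ (hin t ht) θ, pl _ (hin t ht) θ]
  · intro t ht θ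
    rw [hν]
    simp only [pm _ (hin t ht) θ, pn _ (hin t ht) θ]
  · rcases lt_or_gt_of_ne (div_ne_zero hc₂ hc₁) with h | h
    · left
      intro t ht θ
      have h1 := (key2 t ht θ).1
      have h2 : (c₂ * t ^ i) / (c₁ * t ^ j) = c₂ / c₁ * (t ^ i / t ^ j) := by rw [mul_div_mul_comm]
      have h3 : c₂ / c₁ * (t ^ i / t ^ j) < 0 := mul_neg_of_neg_of_pos h (div_pos (pow_pos ht.1 _) (pow_pos ht.1 _))
      rw [h2, abs_of_neg h3] at h1
      have := (abs_le.1 h1).1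
      linarith
    · right
      intro t ht θ
      have h1 := (key2 t ht θ).1
      have h2 : (c₂ * t ^ i) / (c₁ * t ^ j) = c₂ / c₁ * (t ^ i / t ^ j) := by rw [mul_div_mul_comm]
      have h3 : 0 < c₂ / c₁ * (t ^ i / t ^ j) := mul_pos h (div_pos (pow_pos ht.1 _) (pow_pos ht.1 _))
      rw [h2, abs_of_pos h3] at h1
      have := (abs_le.1 h1).2
      linarith
  · intro t ht θ
    have h1 := (key2 t ht θ).1
    have h2 : |(c₂ * t ^ i) / (c₁ * t ^ j)| = |c₂ / c₁| * (t ^ i / t ^ j) := by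
      rw [mul_div_mul_comm, abs_mul, abs_of_pos (div_pos (pow_pos ht.1 i) (pow_pos ht.1 j))]
    have h3 : t ^ i / t ^ j ≤ 1 / t := by
      rw [div_le_div_iff₀ (pow_pos ht.1 _) ht.1, one_mul, ← pow_succ]
      exact pow_le_pow_of_le_one ht.1.le (hle t ht) hij
    have h4 : |c₂ / c₁| * (t ^ i / t ^ j) ≤ |c₂ / c₁| * (1 / t) := mul_le_mul_of_nonneg_left h3 hC0
    have h5 := abs_sub (D t θ + (c₂ * t ^ i) / (c₁ * t ^ j)) ((c₂ * t ^ i) / (c₁ * t ^ j))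
    rw [add_sub_cancel_right] at h5
    have h6 := (hR t ht).le
    have h7 : C / t = 8 * (j + 3) / t + 2 * (|c₂ / c₁| * (1 / t)) := by rw [hC]; ring
    have h8 : 0 ≤ 8 * ((j:ℝ) + 3) / t := div_nonneg (by linarith) ht.1.le
    rw [h7]
    linarith
  · exact fun t ht θ => (key2 t ht θ).2.1
  · intro t ht θ
    have h1 := (key2 t ht θ).2.2.1
    have h2 : 4 * |D t θ| ≤ C * |D t θ| := mul_le_mul_of_nonneg_right (by linarith) (abs_nonneg _)
    linarith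
  · intro t ht θ
    obtain ⟨-, -, -, h1, h2, h3, h4, h5⟩ := key2 t ht θ
    have h6 : C ≤ C / t := by
      rw [le_div_iff₀ ht.1]
      have := mul_le_mul_of_nonneg_left (hle t ht) (show (0:ℝ) ≤ C by linarith)
      linarith
    have h7 : 0 ≤ √|D t θ| := Real.sqrt_nonneg _
    refine ⟨by linarith, by linarith, ?_, ?_, ?_⟩
    · have := mul_le_mul_of_nonneg_right (show 4 ≤ C / t by linarith) h7
      linarith
    · have h8 : 8 * ((j:ℝ) + 3) / t ≤ C / t := div_le_div_of_nonneg_right (by linarith) ht.1.le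
      have := mul_le_mul_of_nonneg_right h8 h7
      linarith
    · have := mul_le_mul_of_nonneg_right (show 12 ≤ C / t by linarith) h7
      linarith

end Rim478
end

section
set_option autoImplicit false

/-!
Module REV of MP_478c11_gt, part U (helper19): surfaces of revolution as strips; the orders of the principal curvatures.
-/

open Real MeasureTheory Set Filter Topology
open scoped ContDiff InnerProductSpace

namespace Rim478

namespace REVM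

/-- radial unit vector -/
noncomputable def ux (φ : ℝ) : E3 := !₂[cos φ, sin φ, 0]
/-- tangential unit vector -/
noncomputable def wx (φ : ℝ) : E3 := !₂[-sin φ, cos φ, 0]
/-- vertical unit vector -/
noncomputable def kz : E3 := !₂[0, 0, 1]
noncomputable def ex : E3 := !₂[1, 0, 0]
noncomputable def ey : E3 := !₂[0, 1, 0]

lemma ux_eq : ux = fun φ => cos φ • ex + sin φ • ey := by
  funext φ; ext i; fin_cases i <;> simp [ux, ex, ey]

lemma wx_eq : wx = fun φ => (-sin φ) • ex + cos φ • ey := by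
  funext φ; ext i; fin_cases i <;> simp [wx, ex, ey]

lemma hu (φ : ℝ) : HasDerivAt ux (wx φ) φ := by
  rw [wx_eq, ux_eq]
  exact ((hasDerivAt_cos φ).smul_const ex).add ((hasDerivAt_sin φ).smul_const ey)

lemma hw (φ : ℝ) : HasDerivAt wx (-ux φ) φ := by
  rw [ux_eq, wx_eq]
  have h := ((hasDerivAt_sin φ).neg.smul_const ex).add ((hasDerivAt_cos φ).smul_const ey)
  have e : -(cos φ • ex + sin φ • ey) = (-cos φ) • ex + (-sin φ) • ey := by
    rw [neg_add, neg_smul, neg_smul]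
  rw [e]
  exact h

lemma su : ContDiff ℝ ∞ ux := by
  rw [ux_eq]
  exact (contDiff_cos.smul contDiff_const).add (contDiff_sin.smul contDiff_const)

lemma in3 (a b : E3) : ⟪a, b⟫_ℝ = a 0 * b 0 + a 1 * b 1 + a 2 * b 2 := by
  rw [PiLp.inner_apply, Fin.sum_univ_three]
  simp only [RCLike.inner_apply, conj_trivial]
  ring

lemma iuu (φ : ℝ) : ⟪ux φ, ux φ⟫_ℝ = 1 := by
  rw [in3]; simp [ux]; nlinarith [sin_sq_add_cos_sq φ]

lemma iww (φ : ℝ) : ⟪wx φ, wx φ⟫_ℝ = 1 := by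
  rw [in3]; simp [wx]; nlinarith [sin_sq_add_cos_sq φ]

lemma iuw (φ : ℝ) : ⟪ux φ, wx φ⟫_ℝ = 0 := by
  rw [in3]; simp [ux, wx]; ring

lemma iuk (φ : ℝ) : ⟪ux φ, kz⟫_ℝ = 0 := by
  rw [in3]; simp [ux, kz]

lemma iwk (φ : ℝ) : ⟪wx φ, kz⟫_ℝ = 0 := by
  rw [in3]; simp [wx, kz]

lemma ikk : ⟪kz, kz⟫_ℝ = 1 := by
  rw [in3]; simp [kz]

lemma crv (a b c φ : ℝ) : cr (a • ux φ + b • kz) (c • wx φ) = (a * c) • kz - (b * c) • ux φ := by
  ext i
  fin_cases i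
  · simp [cr, ux, wx, kz]; ring
  · simp [cr, ux, wx, kz]; ring
  · simp [cr, ux, wx, kz]
    have := sin_sq_add_cos_sq φ
    linear_combination (a * c) * this

lemma rveq (r z : ℝ → ℝ) (t φ : ℝ) : rv r z t φ = r t • ux φ + z t • kz := by
  ext i; fin_cases i <;> simp [rv, ux, kz]

section
variable {J : Set ℝ} {r z : ℝ → ℝ}

lemma hda {f : ℝ → ℝ} (hJ : IsOpen J) (hf : ContDiffOn ℝ ∞ f J) {t : ℝ} (ht : t ∈ J) : HasDerivAt f (deriv f t) t :=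
  ((hf.differentiableOn (by simp)).differentiableAt (hJ.mem_nhds ht)).hasDerivAt

lemma sd {f : ℝ → ℝ} (hJ : IsOpen J) (hf : ContDiffOn ℝ ∞ f J) : ContDiffOn ℝ ∞ (deriv f) J :=
  hf.deriv_of_isOpen hJ (by simp)

lemma SJ1 {f : ℝ → ℝ} (hf : ContDiffOn ℝ ∞ f J) : SJ J (fun t _ => f t) :=
  hf.comp contDiffOn_fst (fun _ hp => hp.1)

lemma SJrv (hr : ContDiffOn ℝ ∞ r J) (hz : ContDiffOn ℝ ∞ z J) : SJ J (rv r z) := by
  unfold SJ
  have e : (fun p : ℝ × ℝ => rv r z p.1 p.2) = fun p => r p.1 • ux p.2 + z p.1 • kz := by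
    funext p; exact rveq r z p.1 p.2
  rw [e]
  exact ((SJ1 hr).smul (su.comp contDiff_snd).contDiffOn).add ((SJ1 hz).smul contDiffOn_const)

lemma pa (hJ : IsOpen J) {f g : ℝ → ℝ} (hf : ContDiffOn ℝ ∞ f J) (hg : ContDiffOn ℝ ∞ g J) (v w : E3) {t : ℝ} (ht : t ∈ J) :
    deriv (fun s => f s • v + g s • w) t = deriv f t • v + deriv g t • w :=
  (((hda hJ hf ht).smul_const v).add ((hda hJ hg ht).smul_const w)).deriv

lemma p1 (hJ : IsOpen J) (hr : ContDiffOn ℝ ∞ r J) (hz : ContDiffOn ℝ ∞ z J) {t : ℝ} (ht : t ∈ J) (φ : ℝ) :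
    pt (rv r z) t φ = deriv r t • ux φ + deriv z t • kz := by
  unfold pt
  rw [show (fun s => rv r z s φ) = fun s => r s • ux φ + z s • kz from funext fun s => rveq r z s φ]
  exact pa hJ hr hz _ _ ht

lemma h1 (r z : ℝ → ℝ) (t φ : ℝ) : ph (rv r z) t φ = r t • wx φ := by
  unfold ph
  rw [show (fun s => rv r z t s) = fun s => r t • ux s + z t • kz from funext fun s => rveq r z t s]
  exact (((hu φ).const_smul (r t)).add_const (z t • kz)).deriv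

lemma p2 (hD : SpecDR2) (hJ : IsOpen J) (hr : ContDiffOn ℝ ∞ r J) (hz : ContDiffOn ℝ ∞ z J) {t : ℝ} (ht : t ∈ J) (φ : ℝ) :
    pt (pt (rv r z)) t φ = deriv (deriv r) t • ux φ + deriv (deriv z) t • kz := by
  rw [hD.pcg hJ (G := pt (rv r z)) (H := fun t φ => deriv r t • ux φ + deriv z t • kz) (fun t ht φ => p1 hJ hr hz ht φ) t ht φ]
  exact pa hJ (sd hJ hr) (sd hJ hz) _ _ ht

lemma ph2 (hJ : IsOpen J) (hr : ContDiffOn ℝ ∞ r J) {t : ℝ} (ht : t ∈ J) (φ : ℝ) :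
    pt (ph (rv r z)) t φ = deriv r t • wx φ := by
  unfold pt
  rw [show (fun s => ph (rv r z) s φ) = fun s => r s • wx φ from funext fun s => h1 r z s φ]
  exact ((hda hJ hr ht).smul_const _).deriv

lemma hh2 (r z : ℝ → ℝ) (t φ : ℝ) : ph (ph (rv r z)) t φ = r t • (-ux φ) := by
  conv_lhs => unfold ph
  rw [show (fun s => deriv (fun s => rv r z t s) s) = fun s => r t • wx s from funext fun s => h1 r z t s]
  exact ((hw φ).const_smul (r t)).deriv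

lemma Neq (hJ : IsOpen J) (hr : ContDiffOn ℝ ∞ r J) (hz : ContDiffOn ℝ ∞ z J) (h0 : ∀ t ∈ J, 0 < r t) {t : ℝ} (ht : t ∈ J) (φ : ℝ) :
    eN (fun t _ => r t) (rv r z) t φ = deriv r t • kz - deriv z t • ux φ := by
  unfold eN
  rw [p1 hJ hr hz ht, h1, crv, smul_sub, smul_smul, smul_smul]
  have := (h0 t ht).ne'
  congr 2 <;> field_simp

theorem str (hJ : IsOpen J) (hr : ContDiffOn ℝ ∞ r J) (hz : ContDiffOn ℝ ∞ z J) (h0 : ∀ t ∈ J, 0 < r t)
    (hu1 : ∀ t ∈ J, deriv r t ^ 2 + deriv z t ^ 2 = 1) : Str J (fun t _ => r t) (rv r z) where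
  sm := SJrv hr hz
  per := by
    intro t _ θ
    rw [rveq, rveq]
    congr 2
    ext i; fin_cases i <;> simp [ux]
  sr := SJ1 hr
  pos := fun t ht _ => h0 t ht
  tt := by
    intro t ht φ
    rw [p1 hJ hr hz ht]
    simp only [inner_add_left, inner_add_right, real_inner_smul_left, real_inner_smul_right, iuu, iuk, ikk,
      real_inner_comm (ux φ) kz]
    linear_combination hu1 t ht
  th := by
    intro t ht φ
    rw [p1 hJ hr hz ht, h1]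
    simp only [inner_add_left, real_inner_smul_left, real_inner_smul_right, iuw, iwk,
      real_inner_comm (wx φ) kz]
    ring
  hh := by
    intro t ht φ
    rw [h1]
    simp only [real_inner_smul_left, real_inner_smul_right, iww]
    ring

theorem frm (hD : SpecDR2) (hJ : IsOpen J) (hr : ContDiffOn ℝ ∞ r J) (hz : ContDiffOn ℝ ∞ z J) (h0 : ∀ t ∈ J, 0 < r t)
    {t : ℝ} (ht : t ∈ J) (φ : ℝ) :
    lf (fun t _ => r t) (rv r z) t φ = deriv r t * deriv (deriv z) t - deriv (deriv r) t * deriv z t ∧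
    mf (fun t _ => r t) (rv r z) t φ = 0 ∧ nf (fun t _ => r t) (rv r z) t φ = deriv z t / r t := by
  have hr0 := (h0 t ht).ne'
  refine ⟨?_, ?_, ?_⟩
  · unfold lf
    rw [Neq hJ hr hz h0 ht, p2 hD hJ hr hz ht]
    simp only [inner_add_left, inner_sub_right, real_inner_smul_left, real_inner_smul_right, iuu, iuk, ikk,
      real_inner_comm (ux φ) kz]
    ring
  · unfold mf
    rw [Neq hJ hr hz h0 ht, ph2 hJ hr ht]
    simp only [inner_sub_right, real_inner_smul_left, real_inner_smul_right, iwk, real_inner_comm (ux φ) (wx φ), iuw]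
    ring
  · unfold nf
    rw [Neq hJ hr hz h0 ht, hh2]
    simp only [inner_sub_right, real_inner_smul_left, real_inner_smul_right, inner_neg_left, iuu, iuk]
    field_simp
    ring

/-! ### orders -/

/-- Leibniz: a product is flat up to order `N` if one factor is -/
lemma lz {f g : ℝ → ℝ} {x : ℝ} (hf : ContDiffAt ℝ ∞ f x) (hg : ContDiffAt ℝ ∞ g x) (N : ℕ)
    (h : ∀ k ≤ N, iteratedDeriv k g x = 0) : iteratedDeriv N (fun t => f t * g t) x = 0 := by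
  rw [iteratedDeriv_fun_mul (hf.of_le (by exact_mod_cast le_top)) (hg.of_le (by exact_mod_cast le_top))]
  refine Finset.sum_eq_zero fun i _ => ?_
  rw [h (N - i) (Nat.sub_le _ _), mul_zero]

/-- Leibniz: the first nonzero derivative -/
lemma lz1 {f g : ℝ → ℝ} {x : ℝ} (hf : ContDiffAt ℝ ∞ f x) (hg : ContDiffAt ℝ ∞ g x) (N : ℕ)
    (h : ∀ k < N, iteratedDeriv k g x = 0) :
    iteratedDeriv N (fun t => f t * g t) x = f x * iteratedDeriv N g x := by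
  rw [iteratedDeriv_fun_mul (hf.of_le (by exact_mod_cast le_top)) (hg.of_le (by exact_mod_cast le_top)),
    Finset.sum_range_succ']
  rw [Finset.sum_eq_zero]
  · simp
  · intro i hi
    rw [h (N - (i + 1)) (by have := Finset.mem_range.mp hi; omega), mul_zero]

theorem ord (hJ : IsOpen J) (hr : ContDiffOn ℝ ∞ r J) (hz : ContDiffOn ℝ ∞ z J) (h0 : ∀ t ∈ J, 0 < r t)
    (hu1 : ∀ t ∈ J, deriv r t ^ 2 + deriv z t ^ 2 = 1) {t₁ : ℝ} (ht₁ : t₁ ∈ J)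
    (hk : ∃ k : ℕ, iteratedDeriv k (deriv (deriv r)) t₁ ≠ 0) :
    ∃ i j : ℕ, j ≤ i + 1 ∧
      (∀ k < i, iteratedDeriv k (fun t => deriv r t * deriv (deriv z) t - deriv (deriv r) t * deriv z t) t₁ = 0) ∧
      iteratedDeriv i (fun t => deriv r t * deriv (deriv z) t - deriv (deriv r) t * deriv z t) t₁ ≠ 0 ∧
      (∀ k < j, iteratedDeriv k (fun t => deriv z t / r t) t₁ = 0) ∧ iteratedDeriv j (fun t => deriv z t / r t) t₁ ≠ 0 := by
  classical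
  set κ : ℝ → ℝ := fun t => deriv r t * deriv (deriv z) t - deriv (deriv r) t * deriv z t with hκ
  set n : ℝ → ℝ := fun t => deriv z t / r t with hn
  have hJn := hJ.mem_nhds ht₁
  have sr : ContDiffAt ℝ ∞ r t₁ := hr.contDiffAt hJn
  have sr1 : ContDiffAt ℝ ∞ (deriv r) t₁ := (sd hJ hr).contDiffAt hJn
  have sr2 : ContDiffAt ℝ ∞ (deriv (deriv r)) t₁ := (sd hJ (sd hJ hr)).contDiffAt hJn
  have sz1 : ContDiffAt ℝ ∞ (deriv z) t₁ := (sd hJ hz).contDiffAt hJn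
  have sz2 : ContDiffAt ℝ ∞ (deriv (deriv z)) t₁ := (sd hJ (sd hJ hz)).contDiffAt hJn
  have sκ : ContDiffAt ℝ ∞ κ t₁ := (sr1.mul sz2).sub (sr2.mul sz1)
  have sn : ContDiffAt ℝ ∞ n t₁ := sz1.div sr (h0 t₁ ht₁).ne'
  -- `r' r'' + z' z'' = 0`
  have hdd : ∀ t ∈ J, deriv r t * deriv (deriv r) t + deriv z t * deriv (deriv z) t = 0 := by
    intro t ht
    have e1 : HasDerivAt (fun s => deriv r s ^ 2 + deriv z s ^ 2)
        (2 * deriv r t * deriv (deriv r) t + 2 * deriv z t * deriv (deriv z) t) t := by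
      have a := ((hda hJ (sd hJ hr) ht).fun_pow 2).fun_add ((hda hJ (sd hJ hz) ht).fun_pow 2)
      simpa using a
    have e2 : HasDerivAt (fun s => deriv r s ^ 2 + deriv z s ^ 2) 0 t := by
      refine (hasDerivAt_const t (1:ℝ)).congr_of_eventuallyEq ?_
      filter_upwards [hJ.mem_nhds ht] with s hs using hu1 s hs
    have := e1.unique e2
    linarith
  -- `κ z' = - r''`
  have hkz : ∀ᶠ t in 𝓝 t₁, deriv z t * κ t = (-1) * deriv (deriv r) t := by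
    filter_upwards [hJn] with t ht
    have a := hdd t ht
    have b := hu1 t ht
    simp only [hκ]
    linear_combination (deriv r t) * a - (deriv (deriv r) t) * b
  -- `z'' = r' κ`
  have hz2 : ∀ᶠ t in 𝓝 t₁, deriv (deriv z) t = deriv r t * κ t := by
    filter_upwards [hJn] with t ht
    have a := hdd t ht
    have b := hu1 t ht
    simp only [hκ]
    linear_combination (deriv z t) * a - (deriv (deriv z) t) * b
  have hzn : ∀ᶠ t in 𝓝 t₁, deriv z t = r t * n t := by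
    filter_upwards [hJn] with t ht
    have := (h0 t ht).ne'
    simp only [hn]
    field_simp
  obtain ⟨k, hk⟩ := hk
  have hk' : iteratedDeriv k (fun t => deriv z t * κ t) t₁ ≠ 0 := by
    rw [Filter.EventuallyEq.eq_of_nhds (Filter.EventuallyEq.iteratedDeriv hkz k)]
    rw [iteratedDeriv_const_mul_field]
    simpa using hk
  have eκ : ∃ i, iteratedDeriv i κ t₁ ≠ 0 := by
    by_contra hc
    push Not at hc
    exact hk' (lz sz1 sκ k fun m _ => hc m)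
  have en : ∃ j, iteratedDeriv j n t₁ ≠ 0 := by
    by_contra hc
    push Not at hc
    apply hk'
    have e1 : (fun t => deriv z t * κ t) =ᶠ[𝓝 t₁] fun t => (κ t * r t) * n t := by
      filter_upwards [hzn] with t ht
      rw [ht]; ring
    rw [Filter.EventuallyEq.eq_of_nhds (Filter.EventuallyEq.iteratedDeriv e1 k)]
    exact lz (sκ.mul sr) sn k fun m _ => hc m
  refine ⟨Nat.find eκ, Nat.find en, ?_, fun m hm => not_not.mp (Nat.find_min eκ hm), Nat.find_spec eκ,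
    fun m hm => not_not.mp (Nat.find_min en hm), Nat.find_spec en⟩
  by_contra hc
  push Not at hc
  have hc1 : ∀ m ≤ Nat.find eκ + 1, iteratedDeriv m n t₁ = 0 := fun m hm =>
    not_not.mp (Nat.find_min en (lt_of_le_of_lt hm hc))
  have hc2 : ∀ m ≤ Nat.find eκ + 1, iteratedDeriv m (deriv z) t₁ = 0 := by
    intro m hm
    rw [Filter.EventuallyEq.eq_of_nhds (Filter.EventuallyEq.iteratedDeriv hzn m)]
    exact lz sr sn m fun q hq => hc1 q (hq.trans hm)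
  have hz0 : deriv z t₁ = 0 := by simpa using hc2 0 (Nat.zero_le _)
  have hr1 : deriv r t₁ ≠ 0 := by
    intro h
    have := hu1 t₁ ht₁
    rw [h, hz0] at this
    norm_num at this
  have h3 := hc2 (Nat.find eκ + 1) le_rfl
  rw [iteratedDeriv_succ', Filter.EventuallyEq.eq_of_nhds (Filter.EventuallyEq.iteratedDeriv hz2 _),
    lz1 sr1 sκ _ (fun m hm => not_not.mp (Nat.find_min eκ hm))] at h3
  exact (mul_ne_zero hr1 (Nat.find_spec eκ)) h3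

end

end REVM

open REVM in
theorem specREV (hDR2 : SpecDR2) : SpecREV where
  str := fun hJ hr hz h0 hu => REVM.str hJ hr hz h0 hu
  frm := fun hJ hr hz h0 _ _ ht φ => REVM.frm hDR2 hJ hr hz h0 ht φ
  ord := fun hJ hr hz h0 hu _ ht₁ hk => REVM.ord hJ hr hz h0 hu ht₁ hk

end Rim478
end

section
set_option autoImplicit false

/-!
# MP_478c11_gt, part U: RFL (reflection)
-/

open Real MeasureTheory Set Filter Topology
open scoped ContDiff InnerProductSpace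

namespace Rim478

namespace RFLM

theorem pt_neg {V : Type} [NormedAddCommGroup V] [NormedSpace ℝ V] (G : ℝ → ℝ → V) (t θ : ℝ) :
    pt (fun t θ => G (-t) θ) t θ = -pt G (-t) θ := by
  unfold pt
  exact deriv_comp_neg (fun s => G s θ) t

theorem pt_neg' {V : Type} [NormedAddCommGroup V] [NormedSpace ℝ V] (G : ℝ → ℝ → V) (t θ : ℝ) :
    pt (fun t θ => -G (-t) θ) t θ = pt G (-t) θ := by
  unfold pt
  have h1 : deriv (fun s => -G (-s) θ) t = -deriv (fun s => G (-s) θ) t := deriv.fun_neg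
  have h2 := deriv_comp_neg (fun s => G s θ) t
  rw [h1, h2, neg_neg]

theorem ph_neg {V : Type} [NormedAddCommGroup V] [NormedSpace ℝ V] (G : ℝ → ℝ → V) (t θ : ℝ) :
    ph (fun t θ => G (-t) θ) t θ = ph G (-t) θ := rfl

theorem sj_neg {V : Type} [NormedAddCommGroup V] [NormedSpace ℝ V] {J : Set ℝ} {G : ℝ → ℝ → V}
    (hG : SJ J G) : SJ {t | -t ∈ J} (fun t θ => G (-t) θ) := by
  unfold SJ at *
  have h1 : ContDiffOn ℝ ∞ (fun p : ℝ × ℝ => ((-p.1, p.2) : ℝ × ℝ)) ({t | -t ∈ J} ×ˢ univ) :=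
    (contDiff_fst.neg.prodMk contDiff_snd).contDiffOn
  exact hG.comp h1 (fun p hp => ⟨hp.1, mem_univ _⟩)

theorem cr_neg_left (a b : E3) : cr (-a) b = -cr a b := by
  unfold cr
  ext i
  fin_cases i
  · simp; ring
  · simp; ring
  · simp; ring

end RFLM

open RFLM in
/-- **RFL**. -/
theorem specRFL : SpecRFL := by
  intro J ρ Y _ hS
  have e1 : (pt fun t θ => Y (-t) θ) = fun t θ => -pt Y (-t) θ := by
    funext t θ
    exact pt_neg Y t θ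
  have e2 : (ph fun t θ => Y (-t) θ) = fun t θ => ph Y (-t) θ := rfl
  have eN' : ∀ t θ, eN (fun t θ => ρ (-t) θ) (fun t θ => Y (-t) θ) t θ = -eN ρ Y (-t) θ := by
    intro t θ
    unfold eN
    rw [e1, e2, cr_neg_left, smul_neg]
  refine ⟨⟨sj_neg hS.sm, fun t ht θ => hS.per (-t) ht θ, sj_neg hS.sr,
    fun t ht θ => hS.pos (-t) ht θ, ?_, ?_, ?_⟩, ?_⟩
  · intro t ht θ
    rw [e1]
    simp only [inner_neg_neg]
    exact hS.tt (-t) ht θ
  · intro t ht θ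
    rw [e1, e2]
    simp only [inner_neg_left]
    rw [hS.th (-t) ht θ, neg_zero]
  · intro t ht θ
    rw [e2]
    exact hS.hh (-t) ht θ
  · intro t ht θ
    refine ⟨?_, ?_, ?_⟩
    · unfold lf
      rw [eN', e1, inner_neg_right]
      rw [pt_neg']
    · unfold mf
      rw [eN', e2, inner_neg_right, pt_neg, inner_neg_left, neg_neg]
    · unfold nf
      rw [eN', e2, inner_neg_right, mul_neg]
      rfl

end Rim478
end
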