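import Pool.Agent.Lib.MP_478c11_gt.Spec

set_option autoImplicit false

/-!
# MP_478c11_gt, part U (helper9): C^∞ UNIQUENESS.  SURFACES OF REVOLUTION CANNOT BE BENT

THEOREM.  Let `X (t, φ) = (r cos φ, r sin φ, z)` (`t` in an open interval `J`, unit speed) be a `C^∞` surface of revolution, embedded or not, with or without boundary, such that the Gauss curvature `-r''/r` vanishes nowhere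
to infinite order and such that some horizontal tangent `z'(t₀) = 0` has `z''(t₀) ≠ 0` (a rim: a plane touches along the parallel).  Then every isometric `C^∞` strip which is `C⁴`-close to `X` ALONG THE RIM is congruent to `X`; in particular every bending is trivial.
So every bending of a (generic) torus of revolution with arbitrary profile is trivial, in the class `C^∞`.

Part 1 (done): the rim is rigid, so the difference of the second fundamental forms is flat at `t = t₀`.  THIS PART: unique continuation in `t`, across all changes of type of the Codazzi system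
(`K < 0`: energy; `K > 0`: Almgren frequency function), including the degenerate parallels.  All coefficients may be as singular as `1/t`.

Strips: metric `dt² + ρ² dθ²`, `e₁ = Y_t`, `e₂ = Y_θ/ρ`, `N = e₁ × e₂`, `ℓ = ⟨Y_tt, N⟩`, `m = ⟨Y_tθ, N⟩/ρ`, `n = ⟨Y_θθ, N⟩/ρ²`.

Module `XXX` = file `Pool/Agent/Lib/MP_478c11_gt/U/XXX.lean` (import `Pool.Agent.Lib.MP_478c11_gt.U.Spec`), theorem `specXXX (hYYY : SpecYYY) … : SpecXXX`, namespace `Rim478`, own lemmas in the namespace `Rim478.XXXM`.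
-/

open Real MeasureTheory Set Filter Topology
open scoped ContDiff InnerProductSpace

namespace Rim478

section
variable {V : Type} [NormedAddCommGroup V] [NormedSpace ℝ V]

/-- derivative in the first variable -/
noncomputable def pt (G : ℝ → ℝ → V) : ℝ → ℝ → V := fun t θ => deriv (fun s => G s θ) t

/-- derivative in the second variable -/
noncomputable def ph (G : ℝ → ℝ → V) : ℝ → ℝ → V := fun t θ => deriv (fun s => G t s) θ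

/-- smooth on `J × ℝ` -/
def SJ (J : Set ℝ) (G : ℝ → ℝ → V) : Prop := ContDiffOn ℝ ∞ (fun p : ℝ × ℝ => G p.1 p.2) (J ×ˢ univ)

/-- `2π`-periodic in the second variable -/
def Per (J : Set ℝ) (G : ℝ → ℝ → V) : Prop := ∀ t ∈ J, ∀ θ, G t (θ + 2 * π) = G t θ

/-- flat at `t = t₀` -/
def Fl (t₀ : ℝ) (G : ℝ → ℝ → V) : Prop := ∀ (k : ℕ) (θ : ℝ), (pt^[k] G) t₀ θ = 0

end

/-- **DR2** (150 lines).  Partial derivatives on an open strip `J × ℝ` (`(J ×ˢ univ)` is open; `pt G t θ = fderiv ℝ (uncurried G) (t, θ) (1, 0)` there; `ContDiffOn.fderiv_of_isOpen`, `ContDiffAt.isSymmSndFDerivAt`).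
`pcg`, `hcg`: functions which agree on `J × ℝ` have the same derivatives there. -/
structure SpecDR2 : Prop where
  spt : ∀ {V : Type} [NormedAddCommGroup V] [NormedSpace ℝ V] {J : Set ℝ} {G : ℝ → ℝ → V}, IsOpen J → SJ J G → SJ J (pt G)
  sph : ∀ {V : Type} [NormedAddCommGroup V] [NormedSpace ℝ V] {J : Set ℝ} {G : ℝ → ℝ → V}, IsOpen J → SJ J G → SJ J (ph G)
  hpt : ∀ {V : Type} [NormedAddCommGroup V] [NormedSpace ℝ V] {J : Set ℝ} {G : ℝ → ℝ → V}, IsOpen J → SJ J G →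
    ∀ t ∈ J, ∀ θ, HasDerivAt (fun s => G s θ) (pt G t θ) t
  hph : ∀ {V : Type} [NormedAddCommGroup V] [NormedSpace ℝ V] {J : Set ℝ} {G : ℝ → ℝ → V}, IsOpen J → SJ J G →
    ∀ t ∈ J, ∀ θ, HasDerivAt (fun s => G t s) (ph G t θ) θ
  comm : ∀ {V : Type} [NormedAddCommGroup V] [NormedSpace ℝ V] {J : Set ℝ} {G : ℝ → ℝ → V}, IsOpen J → SJ J G →
    ∀ t ∈ J, ∀ θ, pt (ph G) t θ = ph (pt G) t θ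
  pcg : ∀ {V : Type} [NormedAddCommGroup V] [NormedSpace ℝ V] {J : Set ℝ} {G H : ℝ → ℝ → V}, IsOpen J →
    (∀ t ∈ J, ∀ θ, G t θ = H t θ) → ∀ t ∈ J, ∀ θ, pt G t θ = pt H t θ
  hcg : ∀ {V : Type} [NormedAddCommGroup V] [NormedSpace ℝ V] {J : Set ℝ} {G H : ℝ → ℝ → V},
    (∀ t ∈ J, ∀ θ, G t θ = H t θ) → ∀ t ∈ J, ∀ θ, ph G t θ = ph H t θ
  perp : ∀ {V : Type} [NormedAddCommGroup V] [NormedSpace ℝ V] {J : Set ℝ} {G : ℝ → ℝ → V}, IsOpen J → Per J G → Per J (pt G)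
  perh : ∀ {V : Type} [NormedAddCommGroup V] [NormedSpace ℝ V] {J : Set ℝ} {G : ℝ → ℝ → V}, Per J G → Per J (ph G)
  cont : ∀ {V : Type} [NormedAddCommGroup V] [NormedSpace ℝ V] {J : Set ℝ} {G : ℝ → ℝ → V}, SJ J G → ∀ t ∈ J,
    ContDiff ℝ ∞ (fun θ => G t θ)

/-- **INT** (from DR2; 120 lines).  Integrals over a period of a smooth function.  `ibp`: `∫ (f g)_θ = 0`. -/
structure SpecINT : Prop where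
  der : ∀ {J : Set ℝ} {f : ℝ → ℝ → ℝ}, IsOpen J → SJ J f → ∀ t ∈ J,
    HasDerivAt (fun s => ∫ θ in (0:ℝ)..(2 * π), f s θ) (∫ θ in (0:ℝ)..(2 * π), pt f t θ) t
  ibp : ∀ {J : Set ℝ} {f g : ℝ → ℝ → ℝ}, IsOpen J → SJ J f → SJ J g → Per J f → Per J g → ∀ t ∈ J,
    ∫ θ in (0:ℝ)..(2 * π), f t θ * ph g t θ = -∫ θ in (0:ℝ)..(2 * π), ph f t θ * g t θ

/-- **NFL** (100 lines).  Taylor expansion at a zero of order `k`, with the derivative (apply Taylor to `u` and to `u'`; `k - 1` is a natural number, for `k = 0` the term is `0`). -/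
def SpecNFL : Prop := ∀ (J : Set ℝ) (u : ℝ → ℝ) (t₀ : ℝ) (k : ℕ), IsOpen J → ContDiffOn ℝ ∞ u J → t₀ ∈ J →
  (∀ i < k, iteratedDeriv i u t₀ = 0) → iteratedDeriv k u t₀ ≠ 0 →
  ∃ c δ C : ℝ, c ≠ 0 ∧ 0 < δ ∧ 0 < C ∧ ∀ t ∈ Ioo 0 δ, |u (t₀ + t) - c * t ^ k| ≤ C * t ^ (k + 1) ∧
    |t * deriv u (t₀ + t) - k * c * t ^ k| ≤ C * t ^ (k + 1)

/-- **FLT** (from DR2; 200 lines).  Flat functions.  `est`: Taylor in `t` with the remainder of order `N` (bounded on `[t₀ - δ, t₀ + δ] × [0, 2π]`, then periodicity).  `conv`: for fixed `θ` the function of `t` is smooth and `O(|t - t₀|^N)` for all `N`: by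
induction all derivatives vanish (Taylor polynomial).  `fp`, `fh`, `mul`, `smul`, `inn`, `crs`: from the definition (Leibniz) or via `est`/`conv`.  `one`: continuity of `pt^[k] u` (zero for `t < t₀`). -/
structure SpecFLT : Prop where
  est : ∀ {V : Type} [NormedAddCommGroup V] [NormedSpace ℝ V] {J : Set ℝ} {u : ℝ → ℝ → V} {t₀ : ℝ}, IsOpen J → SJ J u → Per J u →
    t₀ ∈ J → Fl t₀ u → ∀ N : ℕ, ∃ C δ : ℝ, 0 < δ ∧ ∀ t, |t - t₀| < δ → ∀ θ, ‖u t θ‖ ≤ C * |t - t₀| ^ N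
  conv : ∀ {V : Type} [NormedAddCommGroup V] [NormedSpace ℝ V] {J : Set ℝ} {u : ℝ → ℝ → V} {t₀ : ℝ}, IsOpen J → SJ J u →
    t₀ ∈ J → (∀ (N : ℕ) (θ : ℝ), ∃ C δ : ℝ, 0 < δ ∧ ∀ t, |t - t₀| < δ → ‖u t θ‖ ≤ C * |t - t₀| ^ N) → Fl t₀ u
  fp : ∀ {V : Type} [NormedAddCommGroup V] [NormedSpace ℝ V] {u : ℝ → ℝ → V} {t₀ : ℝ}, Fl t₀ u → Fl t₀ (pt u)
  fh : ∀ {V : Type} [NormedAddCommGroup V] [NormedSpace ℝ V] {J : Set ℝ} {u : ℝ → ℝ → V} {t₀ : ℝ}, IsOpen J → SJ J u →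
    t₀ ∈ J → Fl t₀ u → Fl t₀ (ph u)
  add : ∀ {V : Type} [NormedAddCommGroup V] [NormedSpace ℝ V] {J : Set ℝ} {u v : ℝ → ℝ → V} {t₀ : ℝ}, IsOpen J → SJ J u → SJ J v →
    t₀ ∈ J → Fl t₀ u → Fl t₀ v → Fl t₀ (fun t θ => u t θ + v t θ)
  smul : ∀ {V : Type} [NormedAddCommGroup V] [NormedSpace ℝ V] {J : Set ℝ} {a : ℝ → ℝ → ℝ} {u : ℝ → ℝ → V} {t₀ : ℝ}, IsOpen J →
    SJ J a → SJ J u → t₀ ∈ J → Fl t₀ u → Fl t₀ (fun t θ => a t θ • u t θ)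
  inn : ∀ {J : Set ℝ} {u v : ℝ → ℝ → E3} {t₀ : ℝ}, IsOpen J → SJ J u → SJ J v → t₀ ∈ J → Fl t₀ u →
    Fl t₀ (fun t θ => ⟪u t θ, v t θ⟫_ℝ)
  crs : ∀ {J : Set ℝ} {u v : ℝ → ℝ → E3} {t₀ : ℝ}, IsOpen J → SJ J u → SJ J v → t₀ ∈ J → Fl t₀ u →
    Fl t₀ (fun t θ => cr (u t θ) (v t θ))
  one : ∀ {V : Type} [NormedAddCommGroup V] [NormedSpace ℝ V] {J : Set ℝ} {u : ℝ → ℝ → V} {t₀ δ : ℝ}, IsOpen J → SJ J u →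
    t₀ ∈ J → 0 < δ → (∀ t ∈ Ioo (t₀ - δ) t₀, ∀ θ, u t θ = 0) → Fl t₀ u
  eno : ∀ {V : Type} [NormedAddCommGroup V] [NormedSpace ℝ V] {J : Set ℝ} {u : ℝ → ℝ → V} {t₀ δ : ℝ}, IsOpen J → SJ J u →
    t₀ ∈ J → 0 < δ → (∀ t ∈ Ioo t₀ (t₀ + δ), ∀ θ, u t θ = 0) → Fl t₀ u

/-! ## Two abstract uniqueness lemmas -/

/-- **HYP** (from DR2, INT; 150 lines).  `K < 0`: energy.  `E(t) = ∫ (y² + V²) dθ`; `E' = 2∫ y (a y_θ + q V_θ + T₁) + V (a V_θ + q y_θ + T₂) = ∫ -a_θ (y² + V²) - 2 q_θ y V + 2 (y T₁ + V T₂)`, `|T_i| ≤ (C/t)(|y| + |V|)`, so `E' ≤ (M/t) E` with `M = 10 C`: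
`E t^{-M}` is antitone on `(0, δ)`, and it tends to `0` for `t → 0` because `E` is flat.  So `E = 0`, and `y = V = 0` by continuity. -/
def SpecHYP : Prop := ∀ (δ C : ℝ) (y V a q : ℝ → ℝ → ℝ), 0 < δ → 0 < C → SJ (Ioo 0 δ) y → SJ (Ioo 0 δ) V → SJ (Ioo 0 δ) a →
  SJ (Ioo 0 δ) q → Per (Ioo 0 δ) y → Per (Ioo 0 δ) V → Per (Ioo 0 δ) a → Per (Ioo 0 δ) q →
  (∀ t ∈ Ioo 0 δ, ∀ θ, |pt y t θ - a t θ * ph y t θ - q t θ * ph V t θ| ≤ C / t * (|y t θ| + |V t θ|)) →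
  (∀ t ∈ Ioo 0 δ, ∀ θ, |pt V t θ - a t θ * ph V t θ - q t θ * ph y t θ| ≤ C / t * (|y t θ| + |V t θ|)) →
  (∀ t ∈ Ioo 0 δ, ∀ θ, |ph a t θ| ≤ C / t) → (∀ t ∈ Ioo 0 δ, ∀ θ, |ph q t θ| ≤ C / t) →
  (∀ N : ℕ, ∃ D : ℝ, ∀ t ∈ Ioo 0 δ, ∀ θ, |y t θ| + |V t θ| ≤ D * t ^ N) →
  ∀ t ∈ Ioo 0 δ, ∀ θ, y t θ = 0 ∧ V t θ = 0

/-- **ELL** (from DR2, INT; 350 lines).  `K > 0`: FREQUENCY FUNCTION.  `|w|² = y² + V²`, `H = ∫ |w|²`, `Sw = (q V_θ, -q y_θ)`, `Φ = ∫ (q V_θ y - q y_θ V) = ⟨Sw, w⟩`, `‖·‖` = norm of `L²(0, 2π)`; `T = (y_t - a y_θ - q V_θ, V_t - a V_θ + q y_θ)`, `|T| ≤ (2C/t)|w|`; `T' = T - a_θ w/2`, `‖T'‖ ≤ (C₁/t) ‖w‖`.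
(1) `H' = 2∫ (y y_t + V V_t) = 2Φ + 2⟨w, T'⟩`.
(2) `Φ' = ∫ q_t (V_θ y - y_θ V) + 2∫ q (V_θ y_t - y_θ V_t) + ∫ q_θ (y_t V - y V_t)` (integrate `∫ q V_θt y`, `∫ q y_θt V` by parts in `θ`).  The second is `2‖Sw‖² + 2⟨Sw, T⟩ = 2‖Sw‖² + 2⟨Sw, T'⟩ + ∫ a_θ ⟨Sw, w⟩`.  The third: `y_t V - y V_t = -a (y V_θ - y_θ V) + q (V V_θ + y y_θ) + (T₁ V - y T₂)`,
so it is `≥ -(C + C/√t) ‖Sw‖ ‖w‖ - (2C²/t^{3/2}) H` (`|a q_θ| ≤ C q`, `|q_θ| ≤ C/√t`, `|q (V V_θ + y y_θ)| ≤ |Sw| |w|`).  The first is `(β/(2t)) Φ` up to `(1/(8t)) ‖Sw‖ ‖w‖`.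
(3) For small `t`: `Φ' ≥ 2‖Sw‖² + 2⟨Sw, T'⟩ + (β/(2t)) Φ - (1/(4t)) ‖Sw‖ ‖w‖ - (C₃/t²) H`.  `Λ = Φ/H` (where `H > 0`), `ξ = ‖Sw - Λw‖/‖w‖`, `ξ² = ‖Sw‖²/H - Λ²`, `‖Sw‖/‖w‖ ≤ ξ + |Λ|`:
`Λ' ≥ 2ξ² - (2C₁/t) ξ + (β/(2t)) Λ - (1/(4t)) (ξ + |Λ|) - C₃/t² ≥ (β/(2t)) Λ - (1/(4t)) |Λ| - C₂/t²`  (`2⟨T', Sw⟩ - 2Λ⟨T', w⟩ = 2⟨T', Sw - Λw⟩`).
(4) `G = tΛ`: where `G > 0`, `G' = Λ + tΛ' ≥ (1/t) ((1 + β/2 - 1/4) G - C₂) ≥ (1/t) (G/4 - C₂)` as `β ≥ -1`.  So on an interval `(t₃, t₂]` with `H > 0`: `G(t) ≤ G* := max (5C₂ + 1) (G(t₂))` (if `G(t) > G*` then `G' > 0` there and `G` cannot come down to `G(t₂)`).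
(5) `H' ≤ (2G* + 2C₁) H/t =: (M/t) H`: `H t^{-M}` is antitone, `H(t) ≥ H(t₂) (t/t₂)^M` on `(t₃, t₂]`.  So `t₃ = 0` (continuity), and `H` would not be flat.  So `H = 0` on `(0, δ')`. -/
def SpecELL : Prop := ∀ (δ C β : ℝ) (y V a q : ℝ → ℝ → ℝ), 0 < δ → 0 < C → -1 ≤ β → SJ (Ioo 0 δ) y → SJ (Ioo 0 δ) V →
  SJ (Ioo 0 δ) a → SJ (Ioo 0 δ) q → Per (Ioo 0 δ) y → Per (Ioo 0 δ) V → Per (Ioo 0 δ) a → Per (Ioo 0 δ) q →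
  (∀ t ∈ Ioo 0 δ, ∀ θ, 0 < q t θ) →
  (∀ t ∈ Ioo 0 δ, ∀ θ, |pt y t θ - a t θ * ph y t θ - q t θ * ph V t θ| ≤ C / t * (|y t θ| + |V t θ|)) →
  (∀ t ∈ Ioo 0 δ, ∀ θ, |pt V t θ - a t θ * ph V t θ + q t θ * ph y t θ| ≤ C / t * (|y t θ| + |V t θ|)) →
  (∀ t ∈ Ioo 0 δ, ∀ θ, |t * pt q t θ - β / 2 * q t θ| ≤ 1 / 8 * q t θ) →
  (∀ t ∈ Ioo 0 δ, ∀ θ, |ph a t θ| ≤ C) → (∀ t ∈ Ioo 0 δ, ∀ θ, |ph q t θ| ≤ C / √t) →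
  (∀ t ∈ Ioo 0 δ, ∀ θ, |a t θ * ph q t θ| ≤ C * q t θ) →
  (∀ N : ℕ, ∃ D : ℝ, ∀ t ∈ Ioo 0 δ, ∀ θ, |y t θ| + |V t θ| ≤ D * t ^ N) →
  ∃ δ' : ℝ, 0 < δ' ∧ δ' ≤ δ ∧ ∀ t ∈ Ioo 0 δ', ∀ θ, y t θ = 0 ∧ V t θ = 0

/-- **UNQ** (from DR2, HYP, ELL; 300 lines).  The Codazzi system `(ρn)_t = m_θ + ρ_t ℓ`, `(ρ² m)_t = ρ ℓ_θ`, closed by `ℓ = (D - ν²) n + 2νm`.  `V = m - νn`, `y = √|D| n`, `q = √|D|/ρ`, `a = ν/ρ`, `ς = sign D`.  `ℓ = (D + ν²) n + 2νV`,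
`n_t = (V_θ + ν n_θ + ν_θ n)/ρ + (ρ_t/ρ) ((D + ν² - 1) n + 2νV)`, `m_t = ℓ_θ/ρ - 2(ρ_t/ρ) m`,
`V_t = (D n_θ + ν V_θ)/ρ + c₁ n + c₂ V`, `c₁ = (D_θ + νν_θ)/ρ - (ρ_t/ρ)(2ν + ν(D + ν² - 1)) - ν_t`, `c₂ = 2ν_θ/ρ - (ρ_t/ρ)(2 + 2ν²)`.  With `n = y/√|D|`, `(√|D|)_t/√|D| = D_t/(2D)`:
`y_t = a y_θ + q V_θ + T₁`, `T₁ = [-νD_θ/(2Dρ) + ν_θ/ρ + (ρ_t/ρ)(D + ν² - 1) + D_t/(2D)] y + 2ν √|D| (ρ_t/ρ) V`;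
`V_t = a V_θ + ς q y_θ + T₂`, `T₂ = [-ς √|D| D_θ/(2Dρ) + c₁/√|D|] y + c₂ V`.  All coefficients are `O(1/t)` by the hypotheses.  `q_t/q = D_t/(2D) - ρ_t/ρ`, so `|t q_t - (β/2) q| ≤ (1/16 + C² t) q`;
`|q_θ| ≤ C' q ≤ C''/√t`, `|a q_θ| ≤ C' q`.  `y`, `V` are flat.  Shrink `δ`, apply HYP (`D > 0`) or ELL (`D < 0`). -/
def SpecUNQ : Prop := ∀ (δ C β : ℝ) (n m l ρ D ν : ℝ → ℝ → ℝ), 0 < δ → 0 < C → -1 ≤ β →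
  SJ (Ioo 0 δ) n → SJ (Ioo 0 δ) m → SJ (Ioo 0 δ) l → SJ (Ioo 0 δ) ρ → SJ (Ioo 0 δ) D → SJ (Ioo 0 δ) ν →
  Per (Ioo 0 δ) n → Per (Ioo 0 δ) m → Per (Ioo 0 δ) l → Per (Ioo 0 δ) ρ → Per (Ioo 0 δ) D → Per (Ioo 0 δ) ν →
  (∀ t ∈ Ioo 0 δ, ∀ θ, l t θ = (D t θ - ν t θ ^ 2) * n t θ + 2 * ν t θ * m t θ) →
  (∀ t ∈ Ioo 0 δ, ∀ θ, pt (fun t θ => ρ t θ * n t θ) t θ = ph m t θ + pt ρ t θ * l t θ) →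
  (∀ t ∈ Ioo 0 δ, ∀ θ, pt (fun t θ => ρ t θ ^ 2 * m t θ) t θ = ρ t θ * ph l t θ) →
  ((∀ t ∈ Ioo 0 δ, ∀ θ, 0 < D t θ) ∨ (∀ t ∈ Ioo 0 δ, ∀ θ, D t θ < 0)) →
  (∀ t ∈ Ioo 0 δ, ∀ θ, |D t θ| ≤ C / t) → (∀ t ∈ Ioo 0 δ, ∀ θ, |t * pt D t θ - β * D t θ| ≤ 1 / 8 * |D t θ|) →
  (∀ t ∈ Ioo 0 δ, ∀ θ, |ph D t θ| ≤ C * |D t θ|) →
  (∀ t ∈ Ioo 0 δ, ∀ θ, |ν t θ| ≤ C ∧ |ph ν t θ| ≤ C ∧ |ν t θ| ≤ C / t * √|D t θ| ∧ |pt ν t θ| ≤ C / t * √|D t θ| ∧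
    |ph ν t θ| ≤ C / t * √|D t θ|) →
  (∀ t ∈ Ioo 0 δ, ∀ θ, 1 / C ≤ ρ t θ ∧ ρ t θ ≤ C ∧ |pt ρ t θ| ≤ C ∧ |ph ρ t θ| ≤ C) →
  (∀ N : ℕ, ∃ B : ℝ, ∀ t ∈ Ioo 0 δ, ∀ θ, |n t θ| + |m t θ| ≤ B * t ^ N) →
  ∃ δ' : ℝ, 0 < δ' ∧ δ' ≤ δ ∧ ∀ t ∈ Ioo 0 δ', ∀ θ, n t θ = 0 ∧ m t θ = 0 ∧ l t θ = 0

/-- **RAT** (from DR2, NFL, FLT; 300 lines).  The coefficients near a parallel `t₀` of a surface of revolution.  `l₀ ~ c₂ t^i`, `n₀ ~ c₁ t^j` (`t` measured from `t₀`; NFL), `β = i - j ≥ -1`; `l`, `m`, `n` are flat at `t₀` with their derivatives (FLT.est for them, their `pt` and `ph`).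
`n_B = n₀ + n/2`, `l_B = l₀ + l/2`, `m_B = m/2`; `ν = m_B/n_B` is flat (divide by `t^j`), `D = (m_B² - l_B n_B)/n_B² = D₀ + F/(n_B² n₀)`, `D₀ = -l₀/n₀`, `F = m_B² n₀ + n_B (l₀ n/2 - n₀ l/2)` flat.  `|D₀| ~ |c₂/c₁| t^β`, `t D₀'/D₀ = t l₀'/l₀ - t n₀'/n₀ → β`,
and the flat corrections (also of `D_t`, `D_θ`, `ν_t`, `ν_θ`) are `≤ t^N` for every `N`, small against `t^β`, `√|D|/t`.  `C`, `δ` are chosen at the end. -/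
def SpecRAT : Prop := ∀ (J : Set ℝ) (t₀ : ℝ) (l₀ n₀ : ℝ → ℝ) (i j : ℕ) (l m n : ℝ → ℝ → ℝ), IsOpen J → t₀ ∈ J →
  ContDiffOn ℝ ∞ l₀ J → ContDiffOn ℝ ∞ n₀ J → j ≤ i + 1 →
  (∀ k < i, iteratedDeriv k l₀ t₀ = 0) → iteratedDeriv i l₀ t₀ ≠ 0 →
  (∀ k < j, iteratedDeriv k n₀ t₀ = 0) → iteratedDeriv j n₀ t₀ ≠ 0 →
  SJ J l → SJ J m → SJ J n → Per J l → Per J m → Per J n → Fl t₀ l → Fl t₀ m → Fl t₀ n →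
  ∃ δ C : ℝ, 0 < δ ∧ 0 < C ∧ (∀ t ∈ Ioo 0 δ, t₀ + t ∈ J) ∧ (∀ t ∈ Ioo 0 δ, ∀ θ, n₀ (t₀ + t) + n (t₀ + t) θ / 2 ≠ 0) ∧
    ∀ D ν : ℝ → ℝ → ℝ,
    (D = fun t θ => ((m (t₀ + t) θ / 2) ^ 2 - (l₀ (t₀ + t) + l (t₀ + t) θ / 2) * (n₀ (t₀ + t) + n (t₀ + t) θ / 2)) /
      (n₀ (t₀ + t) + n (t₀ + t) θ / 2) ^ 2) →
    (ν = fun t θ => (m (t₀ + t) θ / 2) / (n₀ (t₀ + t) + n (t₀ + t) θ / 2)) →
    SJ (Ioo 0 δ) D ∧ SJ (Ioo 0 δ) ν ∧ Per (Ioo 0 δ) D ∧ Per (Ioo 0 δ) ν ∧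
    ((∀ t ∈ Ioo 0 δ, ∀ θ, 0 < D t θ) ∨ (∀ t ∈ Ioo 0 δ, ∀ θ, D t θ < 0)) ∧
    (∀ t ∈ Ioo 0 δ, ∀ θ, |D t θ| ≤ C / t) ∧
    (∀ t ∈ Ioo 0 δ, ∀ θ, |t * pt D t θ - ((i:ℝ) - j) * D t θ| ≤ 1 / 8 * |D t θ|) ∧
    (∀ t ∈ Ioo 0 δ, ∀ θ, |ph D t θ| ≤ C * |D t θ|) ∧
    (∀ t ∈ Ioo 0 δ, ∀ θ, |ν t θ| ≤ C ∧ |ph ν t θ| ≤ C ∧ |ν t θ| ≤ C / t * √|D t θ| ∧ |pt ν t θ| ≤ C / t * √|D t θ| ∧
      |ph ν t θ| ≤ C / t * √|D t θ|)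

/-- **PRP** (from DR2, FLT; 120 lines).  Propagation.  `J` an open interval, `u` smooth, flat at `t₀`; if flatness at any `t₁ ∈ J` implies `u = 0` on a neighbourhood `(t₁ - δ, t₁ + δ)`, then `u = 0`: for `t₂ > t₀` in `J` let `s` be the supremum of the `t ≤ t₂` with `u = 0` on `[t₀, t]`;
`s ∈ J`, `u` is flat at `s` (`FLT.one`), contradiction unless `s = t₂`.  Same on the left. -/
def SpecPRP : Prop := ∀ {V : Type} [NormedAddCommGroup V] [NormedSpace ℝ V] (J : Set ℝ) (u : ℝ → ℝ → V) (t₀ : ℝ), IsOpen J →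
  J.OrdConnected → t₀ ∈ J → SJ J u → Fl t₀ u →
  (∀ t₁ ∈ J, Fl t₁ u → ∃ δ : ℝ, 0 < δ ∧ ∀ t ∈ Ioo (t₁ - δ) (t₁ + δ), t ∈ J → ∀ θ, u t θ = 0) →
  ∀ t ∈ J, ∀ θ, u t θ = 0

/-! ## Strips -/

/-- a strip with the metric `dt² + ρ² dθ²` -/
structure Str (J : Set ℝ) (ρ : ℝ → ℝ → ℝ) (Y : ℝ → ℝ → E3) : Prop where
  sm : SJ J Y
  per : Per J Y
  sr : SJ J ρ
  pos : ∀ t ∈ J, ∀ θ, 0 < ρ t θ
  tt : ∀ t ∈ J, ∀ θ, ⟪pt Y t θ, pt Y t θ⟫_ℝ = 1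
  th : ∀ t ∈ J, ∀ θ, ⟪pt Y t θ, ph Y t θ⟫_ℝ = 0
  hh : ∀ t ∈ J, ∀ θ, ⟪ph Y t θ, ph Y t θ⟫_ℝ = ρ t θ ^ 2

/-- unit normal -/
noncomputable def eN (ρ : ℝ → ℝ → ℝ) (Y : ℝ → ℝ → E3) (t θ : ℝ) : E3 := (ρ t θ)⁻¹ • cr (pt Y t θ) (ph Y t θ)
noncomputable def lf (ρ : ℝ → ℝ → ℝ) (Y : ℝ → ℝ → E3) (t θ : ℝ) : ℝ := ⟪pt (pt Y) t θ, eN ρ Y t θ⟫_ℝ
noncomputable def mf (ρ : ℝ → ℝ → ℝ) (Y : ℝ → ℝ → E3) (t θ : ℝ) : ℝ := (ρ t θ)⁻¹ * ⟪pt (ph Y) t θ, eN ρ Y t θ⟫_ℝ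
noncomputable def nf (ρ : ℝ → ℝ → ℝ) (Y : ℝ → ℝ → E3) (t θ : ℝ) : ℝ := (ρ t θ ^ 2)⁻¹ * ⟪ph (ph Y) t θ, eN ρ Y t θ⟫_ℝ

/-- **FRM** (from DR2, CRS; 250 lines).  Frame equations: `e₁ = Y_t`, `e₂ = Y_θ/ρ`, `N = e₁ × e₂` is an orthonormal frame (CRS.par, CRS.exp); `e₁_t = ℓN`, `e₂_t = mN`, `N_t = -ℓe₁ - me₂`, `e₁_θ = ρ_t e₂ + ρmN`, `e₂_θ = -ρ_t e₁ + ρnN`, `N_θ = -ρm e₁ - ρn e₂`
(`⟨Y_tt, Y_θ⟩ = -⟨Y_t, Y_tθ⟩ = 0`, `⟨Y_tθ, Y_θ⟩ = ρρ_t`, `⟨Y_θθ, Y_t⟩ = -ρρ_t`, `⟨Y_θθ, Y_θ⟩ = ρρ_θ`).  `N_tθ = N_θt` gives the two Codazzi equations, `e₁_tθ = e₁_θt` (component `e₂`) the Gauss equation. -/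
structure SpecFRM : Prop where
  sl : ∀ {J : Set ℝ} {ρ : ℝ → ℝ → ℝ} {Y : ℝ → ℝ → E3}, IsOpen J → Str J ρ Y → SJ J (lf ρ Y) ∧ SJ J (mf ρ Y) ∧ SJ J (nf ρ Y) ∧
    SJ J (eN ρ Y) ∧ Per J (lf ρ Y) ∧ Per J (mf ρ Y) ∧ Per J (nf ρ Y) ∧ Per J ρ
  on : ∀ {J : Set ℝ} {ρ : ℝ → ℝ → ℝ} {Y : ℝ → ℝ → E3}, IsOpen J → Str J ρ Y → ∀ t ∈ J, ∀ θ, ‖pt Y t θ‖ = 1 ∧
    ‖(ρ t θ)⁻¹ • ph Y t θ‖ = 1 ∧ ⟪pt Y t θ, (ρ t θ)⁻¹ • ph Y t θ⟫_ℝ = 0 ∧ eN ρ Y t θ = cr (pt Y t θ) ((ρ t θ)⁻¹ • ph Y t θ)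
  e1t : ∀ {J : Set ℝ} {ρ : ℝ → ℝ → ℝ} {Y : ℝ → ℝ → E3}, IsOpen J → Str J ρ Y → ∀ t ∈ J, ∀ θ,
    pt (pt Y) t θ = lf ρ Y t θ • eN ρ Y t θ
  e1h : ∀ {J : Set ℝ} {ρ : ℝ → ℝ → ℝ} {Y : ℝ → ℝ → E3}, IsOpen J → Str J ρ Y → ∀ t ∈ J, ∀ θ,
    ph (pt Y) t θ = (pt ρ t θ / ρ t θ) • ph Y t θ + (ρ t θ * mf ρ Y t θ) • eN ρ Y t θ
  e2h : ∀ {J : Set ℝ} {ρ : ℝ → ℝ → ℝ} {Y : ℝ → ℝ → E3}, IsOpen J → Str J ρ Y → ∀ t ∈ J, ∀ θ,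
    ph (ph Y) t θ = -(ρ t θ * pt ρ t θ) • pt Y t θ + (ph ρ t θ / ρ t θ) • ph Y t θ + (ρ t θ ^ 2 * nf ρ Y t θ) • eN ρ Y t θ
  nt : ∀ {J : Set ℝ} {ρ : ℝ → ℝ → ℝ} {Y : ℝ → ℝ → E3}, IsOpen J → Str J ρ Y → ∀ t ∈ J, ∀ θ,
    pt (eN ρ Y) t θ = -lf ρ Y t θ • pt Y t θ - (mf ρ Y t θ / ρ t θ) • ph Y t θ
  nh : ∀ {J : Set ℝ} {ρ : ℝ → ℝ → ℝ} {Y : ℝ → ℝ → E3}, IsOpen J → Str J ρ Y → ∀ t ∈ J, ∀ θ,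
    ph (eN ρ Y) t θ = -(ρ t θ * mf ρ Y t θ) • pt Y t θ - nf ρ Y t θ • ph Y t θ
  gauss : ∀ {J : Set ℝ} {ρ : ℝ → ℝ → ℝ} {Y : ℝ → ℝ → E3}, IsOpen J → Str J ρ Y → ∀ t ∈ J, ∀ θ,
    lf ρ Y t θ * nf ρ Y t θ - mf ρ Y t θ ^ 2 = -pt (pt ρ) t θ / ρ t θ
  cod1 : ∀ {J : Set ℝ} {ρ : ℝ → ℝ → ℝ} {Y : ℝ → ℝ → E3}, IsOpen J → Str J ρ Y → ∀ t ∈ J, ∀ θ,
    pt (fun t θ => ρ t θ * nf ρ Y t θ) t θ = ph (mf ρ Y) t θ + pt ρ t θ * lf ρ Y t θ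
  cod2 : ∀ {J : Set ℝ} {ρ : ℝ → ℝ → ℝ} {Y : ℝ → ℝ → E3}, IsOpen J → Str J ρ Y → ∀ t ∈ J, ∀ θ,
    pt (fun t θ => ρ t θ ^ 2 * mf ρ Y t θ) t θ = ρ t θ * ph (lf ρ Y) t θ

/-- **CON** (from DR2, CRS, FRM; 200 lines).  Equal forms: congruent.  `A(t, θ) v = ⟨v, e₁^Y⟩ e₁^X + ⟨v, e₂^Y⟩ e₂^X + ⟨v, N^Y⟩ N^X` has `A_t = A_θ = 0` by the frame equations (the coefficients are the same), so `A` is constant on `J × ℝ` (connected: first in `θ`, then in `t`), it is a linear isometry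
(CRS.mot at one point), and `(AY - X)_t = (AY - X)_θ = 0`. -/
def SpecCON : Prop := ∀ (J : Set ℝ) (ρ : ℝ → ℝ → ℝ) (X Y : ℝ → ℝ → E3), IsOpen J → J.OrdConnected → Str J ρ X → Str J ρ Y →
  (∀ t ∈ J, ∀ θ, lf ρ Y t θ = lf ρ X t θ ∧ mf ρ Y t θ = mf ρ X t θ ∧ nf ρ Y t θ = nf ρ X t θ) →
  ∃ (g : E3 ≃ₗᵢ[ℝ] E3) (b : E3), ∀ t ∈ J, ∀ θ, g (Y t θ) + b = X t θ

/-- **RFL** (from DR2; 120 lines).  Reflection `t → -t`: `pt` changes its sign, `N → -N`. -/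
def SpecRFL : Prop := ∀ (J : Set ℝ) (ρ : ℝ → ℝ → ℝ) (Y : ℝ → ℝ → E3), IsOpen J → Str J ρ Y →
  Str {t | -t ∈ J} (fun t θ => ρ (-t) θ) (fun t θ => Y (-t) θ) ∧
  (∀ t, -t ∈ J → ∀ θ, lf (fun t θ => ρ (-t) θ) (fun t θ => Y (-t) θ) t θ = -lf ρ Y (-t) θ ∧
    mf (fun t θ => ρ (-t) θ) (fun t θ => Y (-t) θ) t θ = mf ρ Y (-t) θ ∧
    nf (fun t θ => ρ (-t) θ) (fun t θ => Y (-t) θ) t θ = -nf ρ Y (-t) θ)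

/-- the surface of revolution -/
noncomputable def rv (r z : ℝ → ℝ) (t φ : ℝ) : E3 := !₂[r t * cos φ, r t * sin φ, z t]

/-- **REV** (from DR2; 200 lines).  `N = (-z' cos φ, -z' sin φ, r')`, `ℓ = κ = r'z'' - r''z'`, `m = 0`, `n = z'/r`; `κ z' = -r''` (use `r'² + z'² = 1`, `r'r'' + z'z'' = 0`).  Orders: `r'' = -κz'` is not flat at `t₁`, so neither `κ` nor `z'` is flat (Leibniz);
`z'' = r'κ`.  If `z'(t₁) = 0` then `r'(t₁) = ±1`, so near `t₁` `κ = z''/r'` and the order of `κ` at `t₁` is the order of `z'` minus `1`; `n = z'/r` has the order of `z'`. -/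
structure SpecREV : Prop where
  str : ∀ {J : Set ℝ} {r z : ℝ → ℝ}, IsOpen J → ContDiffOn ℝ ∞ r J → ContDiffOn ℝ ∞ z J → (∀ t ∈ J, 0 < r t) →
    (∀ t ∈ J, deriv r t ^ 2 + deriv z t ^ 2 = 1) → Str J (fun t _ => r t) (rv r z)
  frm : ∀ {J : Set ℝ} {r z : ℝ → ℝ}, IsOpen J → ContDiffOn ℝ ∞ r J → ContDiffOn ℝ ∞ z J → (∀ t ∈ J, 0 < r t) →
    (∀ t ∈ J, deriv r t ^ 2 + deriv z t ^ 2 = 1) → ∀ t ∈ J, ∀ φ,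
    lf (fun t _ => r t) (rv r z) t φ = deriv r t * deriv (deriv z) t - deriv (deriv r) t * deriv z t ∧
    mf (fun t _ => r t) (rv r z) t φ = 0 ∧ nf (fun t _ => r t) (rv r z) t φ = deriv z t / r t
  ord : ∀ {J : Set ℝ} {r z : ℝ → ℝ}, IsOpen J → ContDiffOn ℝ ∞ r J → ContDiffOn ℝ ∞ z J → (∀ t ∈ J, 0 < r t) →
    (∀ t ∈ J, deriv r t ^ 2 + deriv z t ^ 2 = 1) → ∀ t₁ ∈ J, (∃ k : ℕ, iteratedDeriv k (deriv (deriv r)) t₁ ≠ 0) →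
    ∃ i j : ℕ, j ≤ i + 1 ∧
      (∀ k < i, iteratedDeriv k (fun t => deriv r t * deriv (deriv z) t - deriv (deriv r) t * deriv z t) t₁ = 0) ∧
      iteratedDeriv i (fun t => deriv r t * deriv (deriv z) t - deriv (deriv r) t * deriv z t) t₁ ≠ 0 ∧
      (∀ k < j, iteratedDeriv k (fun t => deriv z t / r t) t₁ = 0) ∧ iteratedDeriv j (fun t => deriv z t / r t) t₁ ≠ 0

/-- **LCR** (from DR2, FLT, FRM, REV, RAT, UNQ; 150 lines).  Uniqueness to the right of a parallel where the difference of the forms is flat.  `l = lf Y - lf X` etc. satisfy the Codazzi equations (linear) and, from the two Gauss equations, `l n_B + n l_B = 2 m m_B` with `l_B = l₀ + l/2`, …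
so `l = (D - ν²) n + 2νm`, `D - ν² = -l_B/n_B`.  Translate to `t₀ = 0`: apply RAT and UNQ to `t ↦ l (t₀ + t)` etc. (`ρ = r (t₀ + t)`). -/
def SpecLCR : Prop := ∀ (J : Set ℝ) (r z : ℝ → ℝ) (Y : ℝ → ℝ → E3) (t₁ : ℝ), IsOpen J → ContDiffOn ℝ ∞ r J → ContDiffOn ℝ ∞ z J →
  (∀ t ∈ J, 0 < r t) → (∀ t ∈ J, deriv r t ^ 2 + deriv z t ^ 2 = 1) → Str J (fun t _ => r t) Y → t₁ ∈ J →
  (∃ k : ℕ, iteratedDeriv k (deriv (deriv r)) t₁ ≠ 0) →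
  Fl t₁ (fun t θ => lf (fun t _ => r t) Y t θ - lf (fun t _ => r t) (rv r z) t θ) →
  Fl t₁ (fun t θ => mf (fun t _ => r t) Y t θ - mf (fun t _ => r t) (rv r z) t θ) →
  Fl t₁ (fun t θ => nf (fun t _ => r t) Y t θ - nf (fun t _ => r t) (rv r z) t θ) →
  ∃ δ : ℝ, 0 < δ ∧ ∀ t ∈ Ioo t₁ (t₁ + δ), t ∈ J ∧ ∀ θ, lf (fun t _ => r t) Y t θ = lf (fun t _ => r t) (rv r z) t θ ∧
    mf (fun t _ => r t) Y t θ = mf (fun t _ => r t) (rv r z) t θ ∧ nf (fun t _ => r t) Y t θ = nf (fun t _ => r t) (rv r z) t θ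

/-- **GLB** (from DR2, FLT, FRM, REV, LCR, RFL, PRP, CON; 150 lines).  The left side by RFL (`r (-t)`, `z (-t)`: `rv` reflected is `rv` of the reflected profile), then PRP (for `u = !₂[l, m, n]` or three times), then CON. -/
def SpecGLB : Prop := ∀ (J : Set ℝ) (r z : ℝ → ℝ) (Y : ℝ → ℝ → E3) (t₀ : ℝ), IsOpen J → J.OrdConnected → ContDiffOn ℝ ∞ r J →
  ContDiffOn ℝ ∞ z J → (∀ t ∈ J, 0 < r t) → (∀ t ∈ J, deriv r t ^ 2 + deriv z t ^ 2 = 1) →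
  (∀ t ∈ J, ∃ k : ℕ, iteratedDeriv k (deriv (deriv r)) t ≠ 0) → Str J (fun t _ => r t) Y → t₀ ∈ J →
  Fl t₀ (fun t θ => lf (fun t _ => r t) Y t θ - lf (fun t _ => r t) (rv r z) t θ) →
  Fl t₀ (fun t θ => mf (fun t _ => r t) Y t θ - mf (fun t _ => r t) (rv r z) t θ) →
  Fl t₀ (fun t θ => nf (fun t _ => r t) Y t θ - nf (fun t _ => r t) (rv r z) t θ) →
  ∃ (g : E3 ≃ₗᵢ[ℝ] E3) (b : E3), ∀ t ∈ J, ∀ θ, g (Y t θ) + b = rv r z t θ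

end Rim478
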