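import Pool.Agent.Lib.MP_478c11_gt.U.PRP
import Pool.Agent.Lib.MP_478c11_gt.W.ISO
import Pool.Agent.Lib.MP_478c11_gt.U.RFL

section
set_option autoImplicit false

/-!
Module UNQ of part U of MP_478c11_gt: unique continuation for the Codazzi system.
-/

open Real MeasureTheory Set Filter Topology
open scoped ContDiff InnerProductSpace

namespace Rim478

namespace UNQM

open ELLM

section Ptw

variable {t C β e n m s ρ ν D nt nh mt mh st sh ρt ρh νt νh Dt Dh r : ℝ}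

/-- bounds of the derivatives of `s = √|D|` -/
lemma s_bounds (ht : 0 < t) (hs : 0 < s) (he : e ^ 2 = 1) (hsD : s * s = e * D)
    (hst : 2 * (s * st) = e * Dt) (hsh : 2 * (s * sh) = e * Dh)
    (hDt : |t * Dt - β * D| ≤ 1 / 8 * |D|) (hDh : |Dh| ≤ C * |D|) :
    |t * st - β / 2 * s| ≤ 1 / 16 * s ∧ |sh| ≤ C / 2 * s ∧ |D| = s * s ∧
      |st| ≤ (|β| + 1) / t * s := by
  have he1 : |e| = 1 := by
    have h := sq_abs e
    rw [he] at h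
    have h2 : |e| = 1 ∨ |e| = -1 := by
      have : (|e| - 1) * (|e| + 1) = 0 := by ring_nf; linarith
      rcases mul_eq_zero.1 this with h | h
      · left; linarith
      · right; linarith
    rcases h2 with h2 | h2
    · exact h2
    · have := abs_nonneg e; linarith
  have hD : |D| = s * s := by
    have : |e * D| = |s * s| := by rw [hsD]
    rw [abs_mul, he1, one_mul, abs_of_pos (mul_pos hs hs)] at this
    exact this
  have h1 : s * |t * st - β / 2 * s| ≤ s * (1 / 16 * s) := by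
    have h2 : s * (t * st - β / 2 * s) = e / 2 * (t * Dt - β * D) := by
      linear_combination t / 2 * hst - β / 2 * hsD
    have h3 : s * |t * st - β / 2 * s| = |e / 2 * (t * Dt - β * D)| := by
      rw [← h2, abs_mul, abs_of_pos hs]
    rw [h3, abs_mul, abs_div, he1, abs_of_pos (by norm_num : (0:ℝ) < 2)]
    rw [hD] at hDt
    nlinarith
  have h4 : |t * st - β / 2 * s| ≤ 1 / 16 * s := le_of_mul_le_mul_left h1 hs
  refine ⟨h4, ?_, hD, ?_⟩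
  · have h5 : s * |sh| ≤ s * (C / 2 * s) := by
      have h6 : s * |sh| = |e / 2 * Dh| := by
        have : s * sh = e / 2 * Dh := by linarith
        rw [← this, abs_mul, abs_of_pos hs]
      rw [h6, abs_mul, abs_div, he1, abs_of_pos (by norm_num : (0:ℝ) < 2)]
      rw [hD] at hDh
      nlinarith
    exact le_of_mul_le_mul_left h5 hs
  · rw [div_mul_eq_mul_div, le_div_iff₀ ht]
    have h7 : |t * st| ≤ |β / 2 * s| + 1 / 16 * s := by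
      have := abs_sub_abs_le_abs_sub (t * st) (β / 2 * s)
      linarith
    rw [abs_mul, abs_mul, abs_of_pos ht, abs_of_pos hs, abs_div,
      abs_of_pos (by norm_num : (0:ℝ) < 2)] at h7
    have h8 := abs_nonneg β
    nlinarith

lemma T1_bound (ht : 0 < t) (ht1 : t ≤ 1) (hC : 1 ≤ C) (hs : 0 < s) (hr : 0 < r) (hr1 : r ≤ C)
    (hrρ : r * ρ = 1) (hst : |st| ≤ (|β| + 1) / t * s) (hsh : |sh| ≤ C / 2 * s)
    (hsC : s ≤ C / t) (hD : |D| ≤ C / t) (hν : |ν| ≤ C) (hνh : |νh| ≤ C) (hρt : |ρt| ≤ C)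
    (hB : ρt * n + ρ * nt = mh + ρt * ((D - ν ^ 2) * n + 2 * ν * m)) :
    |st * n + s * nt - ν * r * (sh * n + s * nh) - s * r * (mh - νh * n - ν * nh)| ≤
      (|β| + 20 * C ^ 5) / t * (|s * n| + |m - ν * n|) := by
  have hC0 : 0 < C := by linarith
  have e1 : st * n + s * nt - ν * r * (sh * n + s * nh) - s * r * (mh - νh * n - ν * nh) =
      st * n + (-(ν * r * sh)) * n + (s * r * νh) * n + (s * (r * ρt * (D + ν ^ 2 - 1))) * n +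
        (2 * ν * s * (r * ρt)) * (m - ν * n) := by
    linear_combination (s * r) * hB - (s * nt) * hrρ
  rw [e1]
  have hrt : |r * ρt| ≤ C ^ 2 := by
    rw [abs_mul, abs_of_pos hr]
    nlinarith [abs_nonneg ρt]
  have b1 : |st * n| ≤ (|β| + 1) / t * |s * n| := by
    rw [abs_mul, abs_mul, abs_of_pos hs]
    nlinarith [abs_nonneg n, mul_le_mul_of_nonneg_right hst (abs_nonneg n)]
  have b2 : |(-(ν * r * sh)) * n| ≤ C ^ 5 / t * |s * n| := by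
    have h1 : |ν * r| ≤ C ^ 2 := by
      rw [abs_mul, abs_of_pos hr]
      nlinarith [abs_nonneg ν]
    have h2 : |ν * r * sh| ≤ C ^ 2 * (C / 2 * s) := by
      rw [abs_mul]
      exact mul_le_mul h1 hsh (abs_nonneg _) (by positivity)
    rw [abs_mul, abs_neg, abs_mul s n, abs_of_pos hs]
    have h3 : C ^ 2 * (C / 2 * s) ≤ C ^ 5 / t * s := by
      have h4 : C ^ 2 * (C / 2) ≤ C ^ 5 / t := by
        rw [le_div_iff₀ ht]
        have h5 : C ^ 3 ≤ C ^ 5 := pow_le_pow_right₀ hC (by norm_num)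
        nlinarith [pow_pos hC0 3]
      nlinarith
    calc |ν * r * sh| * |n| ≤ (C ^ 5 / t * s) * |n| :=
          mul_le_mul_of_nonneg_right (h2.trans h3) (abs_nonneg _)
      _ = _ := by ring
  have b3 : |(s * r * νh) * n| ≤ C ^ 5 / t * |s * n| := by
    have h1 : |r * νh| ≤ C ^ 2 := by
      rw [abs_mul, abs_of_pos hr]
      nlinarith [abs_nonneg νh]
    have h2 : C ^ 2 ≤ C ^ 5 / t := by
      rw [le_div_iff₀ ht]
      have h5 : C ^ 2 ≤ C ^ 5 := pow_le_pow_right₀ hC (by norm_num)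
      nlinarith [pow_pos hC0 2]
    have h3 : s * r * νh * n = (r * νh) * (s * n) := by ring
    rw [h3, abs_mul]
    exact mul_le_mul_of_nonneg_right (h1.trans h2) (abs_nonneg _)
  have b4 : |(s * (r * ρt * (D + ν ^ 2 - 1))) * n| ≤ 3 * C ^ 5 / t * |s * n| := by
    have h1 : |D + ν ^ 2 - 1| ≤ C / t + C ^ 2 + 1 := by
      have h2 : |ν ^ 2| ≤ C ^ 2 := by
        rw [abs_pow]; exact pow_le_pow_left₀ (abs_nonneg _) hν 2
      calc |D + ν ^ 2 - 1| ≤ |D + ν ^ 2| + |(1:ℝ)| := abs_sub _ _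
        _ ≤ |D| + |ν ^ 2| + 1 := by rw [abs_one]; linarith [abs_add_le D (ν ^ 2)]
        _ ≤ _ := by linarith
    have h3 : |r * ρt * (D + ν ^ 2 - 1)| ≤ 3 * C ^ 5 / t := by
      rw [abs_mul]
      have h4 : |r * ρt| * |D + ν ^ 2 - 1| ≤ C ^ 2 * (C / t + C ^ 2 + 1) :=
        mul_le_mul hrt h1 (abs_nonneg _) (by positivity)
      refine h4.trans ?_
      rw [le_div_iff₀ ht]
      have h5 : C ^ 2 * (C / t + C ^ 2 + 1) * t = C ^ 3 + C ^ 4 * t + C ^ 2 * t := by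
        field_simp
      rw [h5]
      have h6 : C ^ 3 ≤ C ^ 5 := pow_le_pow_right₀ hC (by norm_num)
      have h7 : C ^ 4 ≤ C ^ 5 := pow_le_pow_right₀ hC (by norm_num)
      have h8 : C ^ 2 ≤ C ^ 5 := pow_le_pow_right₀ hC (by norm_num)
      nlinarith [pow_pos hC0 4, pow_pos hC0 2]
    have h9 : (s * (r * ρt * (D + ν ^ 2 - 1))) * n = (r * ρt * (D + ν ^ 2 - 1)) * (s * n) := by ring
    rw [h9, abs_mul]
    exact mul_le_mul_of_nonneg_right h3 (abs_nonneg _)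
  have b5 : |(2 * ν * s * (r * ρt)) * (m - ν * n)| ≤ 2 * C ^ 5 / t * |m - ν * n| := by
    rw [abs_mul]
    apply mul_le_mul_of_nonneg_right _ (abs_nonneg _)
    have h1 : |2 * ν * s * (r * ρt)| = 2 * |ν| * s * |r * ρt| := by
      rw [abs_mul, abs_mul, abs_mul, abs_of_pos hs, abs_of_pos (by norm_num : (0:ℝ) < 2)]
    rw [h1]
    have h2 : 2 * |ν| * s * |r * ρt| ≤ 2 * C * (C / t) * C ^ 2 := by gcongr
    refine h2.trans ?_
    rw [le_div_iff₀ ht]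
    have h5 : 2 * C * (C / t) * C ^ 2 * t = 2 * C ^ 4 := by field_simp
    rw [h5]
    have h7 : C ^ 4 ≤ C ^ 5 := pow_le_pow_right₀ hC (by norm_num)
    linarith
  have hC5 : 1 ≤ C ^ 5 := one_le_pow₀ hC
  set P := |s * n| with hP
  set Q := |m - ν * n| with hQ
  have hP0 : 0 ≤ P := abs_nonneg _
  have hQ0 : 0 ≤ Q := abs_nonneg _
  have tri : |st * n + (-(ν * r * sh)) * n + (s * r * νh) * n +
      (s * (r * ρt * (D + ν ^ 2 - 1))) * n + (2 * ν * s * (r * ρt)) * (m - ν * n)| ≤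
      |st * n| + |(-(ν * r * sh)) * n| + |(s * r * νh) * n| +
      |(s * (r * ρt * (D + ν ^ 2 - 1))) * n| + |(2 * ν * s * (r * ρt)) * (m - ν * n)| := by
    refine (abs_add_le _ _).trans (add_le_add ?_ le_rfl)
    refine (abs_add_le _ _).trans (add_le_add ?_ le_rfl)
    refine (abs_add_le _ _).trans (add_le_add ?_ le_rfl)
    exact abs_add_le _ _
  refine tri.trans ?_
  have hfin : (|β| + 1) / t * P + C ^ 5 / t * P + C ^ 5 / t * P + 3 * C ^ 5 / t * P +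
      2 * C ^ 5 / t * Q ≤ (|β| + 20 * C ^ 5) / t * (P + Q) := by
    have e2 : (|β| + 1) / t * P + C ^ 5 / t * P + C ^ 5 / t * P + 3 * C ^ 5 / t * P +
      2 * C ^ 5 / t * Q = ((|β| + 1 + 5 * C ^ 5) * P + 2 * C ^ 5 * Q) / t := by ring
    have e3 : (|β| + 20 * C ^ 5) / t * (P + Q) = ((|β| + 20 * C ^ 5) * (P + Q)) / t := by ring
    rw [e2, e3]
    apply div_le_div_of_nonneg_right _ ht.le
    have := abs_nonneg β
    nlinarith [mul_nonneg hP0 (by linarith : (0:ℝ) ≤ C ^ 5 - 1), mul_nonneg this hQ0,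
      mul_nonneg hQ0 (by linarith : (0:ℝ) ≤ C ^ 5)]
  linarith

lemma T2_bound (ht : 0 < t) (ht1 : t ≤ 1) (hC : 1 ≤ C) (hs : 0 < s) (he : e ^ 2 = 1)
    (hr : 0 < r) (hr1 : r ≤ C)
    (hrρ : r * ρ = 1) (hsD : s * s = e * D) (hsh2 : 2 * (s * sh) = e * Dh)
    (hsC : s ≤ C / t) (hDabs : |D| = s * s) (hDh : |Dh| ≤ C * |D|) (hν : |ν| ≤ C)
    (hνh : |νh| ≤ C) (hν2 : |ν| ≤ C / t * s) (hνt2 : |νt| ≤ C / t * s) (hνh2 : |νh| ≤ C / t * s)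
    (hρt : |ρt| ≤ C)
    (hB : ρt * n + ρ * nt = mh + ρt * ((D - ν ^ 2) * n + 2 * ν * m))
    (hM : 2 * ρ * ρt * m + ρ ^ 2 * mt = ρ * ((Dh - 2 * ν * νh) * n + (D - ν ^ 2) * nh +
      2 * νh * m + 2 * ν * mh)) :
    |(mt - νt * n - ν * nt) - ν * r * (mh - νh * n - ν * nh) - e * (s * r) * (sh * n + s * nh)| ≤
      (|β| + 20 * C ^ 5) / t * (|s * n| + |m - ν * n|) := by
  have hC0 : 0 < C := by linarith
  have hM' : 2 * ρt * m + ρ * mt = (Dh - 2 * ν * νh) * n + (D - ν ^ 2) * nh +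
      2 * νh * m + 2 * ν * mh := by
    have hρ : ρ ≠ 0 := fun h => by rw [h, mul_zero] at hrρ; exact zero_ne_one hrρ
    apply mul_left_cancel₀ hρ
    linarith
  have e1 : (mt - νt * n - ν * nt) - ν * r * (mh - νh * n - ν * nh) -
        e * (s * r) * (sh * n + s * nh) =
      (r * (Dh / 2)) * n + (r * ν * νh) * n + (-νt) * n + (-(r * ρt * ν * D)) * n +
        (-(r * ρt * ν * (ν ^ 2 + 1))) * n +
        (2 * r * νh - 2 * (r * ρt) * (1 + ν ^ 2)) * (m - ν * n) := by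
    linear_combination r * hM' - (ν * r) * hB - (mt - ν * nt) * hrρ -
      (e * r * n / 2) * hsh2 - (r * n * Dh / 2) * he - (e * r * nh) * hsD - (r * nh * D) * he
  rw [e1]
  have hrt : |r * ρt| ≤ C ^ 2 := by
    rw [abs_mul, abs_of_pos hr]
    nlinarith [abs_nonneg ρt]
  have p2 : C ^ 2 ≤ C ^ 5 := pow_le_pow_right₀ hC (by norm_num)
  have p3 : C ^ 3 ≤ C ^ 5 := pow_le_pow_right₀ hC (by norm_num)
  have p4 : C ^ 4 ≤ C ^ 5 := pow_le_pow_right₀ hC (by norm_num)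
  have p1 : C ≤ C ^ 5 := le_self_pow₀ hC (by norm_num)
  have key : ∀ x K : ℝ, |x| ≤ K / t * s → |x * n| ≤ K / t * |s * n| := by
    intro x K hx
    rw [abs_mul, abs_mul, abs_of_pos hs]
    calc |x| * |n| ≤ (K / t * s) * |n| := mul_le_mul_of_nonneg_right hx (abs_nonneg _)
      _ = _ := by ring
  have b1 : |(r * (Dh / 2)) * n| ≤ C ^ 5 / t * |s * n| := by
    apply key
    rw [abs_mul, abs_of_pos hr, abs_div, abs_of_pos (by norm_num : (0:ℝ) < 2)]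
    rw [hDabs] at hDh
    calc r * (|Dh| / 2) ≤ C * (C * (s * (C / t)) / 2) := by
          gcongr
          exact hDh.trans (by gcongr)
      _ = C ^ 3 / 2 / t * s := by ring
      _ ≤ C ^ 5 / t * s := by
          gcongr
          have := pow_pos hC0 3
          linarith
  have b2 : |(r * ν * νh) * n| ≤ C ^ 5 / t * |s * n| := by
    apply key
    rw [abs_mul, abs_mul, abs_of_pos hr]
    calc r * |ν| * |νh| ≤ C * C * (C / t * s) := by gcongr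
      _ = C ^ 3 / t * s := by ring
      _ ≤ C ^ 5 / t * s := by gcongr
  have b3 : |(-νt) * n| ≤ C ^ 5 / t * |s * n| := by
    apply key
    rw [abs_neg]
    calc |νt| ≤ C / t * s := hνt2
      _ ≤ C ^ 5 / t * s := by gcongr
  have b4 : |(-(r * ρt * ν * D)) * n| ≤ C ^ 5 / t * |s * n| := by
    apply key
    rw [abs_neg, abs_mul, abs_mul, hDabs]
    calc |r * ρt| * |ν| * (s * s) ≤ C ^ 2 * C * (s * (C / t)) := by gcongr
      _ = C ^ 4 / t * s := by ring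
      _ ≤ C ^ 5 / t * s := by gcongr
  have b5 : |(-(r * ρt * ν * (ν ^ 2 + 1))) * n| ≤ 2 * C ^ 5 / t * |s * n| := by
    apply key
    rw [abs_neg, abs_mul, abs_mul]
    have h1 : |ν ^ 2 + 1| ≤ C ^ 2 + 1 := by
      rw [abs_of_nonneg (by positivity), ← sq_abs]
      have := pow_le_pow_left₀ (abs_nonneg _) hν 2
      linarith
    calc |r * ρt| * |ν| * |ν ^ 2 + 1| ≤ C ^ 2 * (C / t * s) * (C ^ 2 + 1) := by gcongr
      _ = (C ^ 5 + C ^ 3) / t * s := by ring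
      _ ≤ 2 * C ^ 5 / t * s := by
          gcongr
          linarith
  have b6 : |(2 * r * νh - 2 * (r * ρt) * (1 + ν ^ 2)) * (m - ν * n)| ≤
      6 * C ^ 5 / t * |m - ν * n| := by
    rw [abs_mul]
    apply mul_le_mul_of_nonneg_right _ (abs_nonneg _)
    have h1 : |1 + ν ^ 2| ≤ 1 + C ^ 2 := by
      rw [abs_of_nonneg (by positivity), ← sq_abs]
      have := pow_le_pow_left₀ (abs_nonneg _) hν 2
      linarith
    have h2 : |2 * r * νh - 2 * (r * ρt) * (1 + ν ^ 2)| ≤ 2 * C * C + 2 * C ^ 2 * (1 + C ^ 2) := by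
      calc |2 * r * νh - 2 * (r * ρt) * (1 + ν ^ 2)| ≤ |2 * r * νh| + |2 * (r * ρt) * (1 + ν ^ 2)| :=
            abs_sub _ _
        _ = 2 * r * |νh| + 2 * |r * ρt| * |1 + ν ^ 2| := by
            rw [abs_mul, abs_mul, abs_mul, abs_mul, abs_of_pos hr,
              abs_of_pos (by norm_num : (0:ℝ) < 2)]
        _ ≤ 2 * C * C + 2 * C ^ 2 * (1 + C ^ 2) := by gcongr
    refine h2.trans ?_
    rw [le_div_iff₀ ht]
    have h3 : 2 * C * C + 2 * C ^ 2 * (1 + C ^ 2) ≤ 6 * C ^ 5 := by nlinarith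
    have h4 : 0 ≤ 2 * C * C + 2 * C ^ 2 * (1 + C ^ 2) := by positivity
    nlinarith
  set P := |s * n| with hP
  set Q := |m - ν * n| with hQ
  have hP0 : 0 ≤ P := abs_nonneg _
  have hQ0 : 0 ≤ Q := abs_nonneg _
  have tri : |(r * (Dh / 2)) * n + (r * ν * νh) * n + (-νt) * n + (-(r * ρt * ν * D)) * n +
        (-(r * ρt * ν * (ν ^ 2 + 1))) * n +
        (2 * r * νh - 2 * (r * ρt) * (1 + ν ^ 2)) * (m - ν * n)| ≤
      |(r * (Dh / 2)) * n| + |(r * ν * νh) * n| + |(-νt) * n| + |(-(r * ρt * ν * D)) * n| +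
        |(-(r * ρt * ν * (ν ^ 2 + 1))) * n| +
        |(2 * r * νh - 2 * (r * ρt) * (1 + ν ^ 2)) * (m - ν * n)| := by
    refine (abs_add_le _ _).trans (add_le_add ?_ le_rfl)
    refine (abs_add_le _ _).trans (add_le_add ?_ le_rfl)
    refine (abs_add_le _ _).trans (add_le_add ?_ le_rfl)
    refine (abs_add_le _ _).trans (add_le_add ?_ le_rfl)
    exact abs_add_le _ _
  refine tri.trans ?_
  have hfin : C ^ 5 / t * P + C ^ 5 / t * P + C ^ 5 / t * P + C ^ 5 / t * P + 2 * C ^ 5 / t * P +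
      6 * C ^ 5 / t * Q ≤ (|β| + 20 * C ^ 5) / t * (P + Q) := by
    have e2 : C ^ 5 / t * P + C ^ 5 / t * P + C ^ 5 / t * P + C ^ 5 / t * P + 2 * C ^ 5 / t * P +
      6 * C ^ 5 / t * Q = (6 * C ^ 5 * P + 6 * C ^ 5 * Q) / t := by ring
    have e3 : (|β| + 20 * C ^ 5) / t * (P + Q) = ((|β| + 20 * C ^ 5) * (P + Q)) / t := by ring
    rw [e2, e3]
    apply div_le_div_of_nonneg_right _ ht.le
    have := abs_nonneg β
    have hC5 : 0 < C ^ 5 := by positivity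
    nlinarith [mul_nonneg this (add_nonneg hP0 hQ0), mul_nonneg hC5.le (add_nonneg hP0 hQ0)]
  linarith

/-- bounds of the coefficients `q = s r` and `a = ν r` -/
lemma aq_bounds {rt rh : ℝ} (ht : 0 < t) (htC : 16 * C ^ 2 * t ≤ 1) (hC : 1 ≤ C) (hs : 0 < s)
    (hr : 0 < r) (hr1 : r ≤ C) (hrt : rt = -(r * r * ρt)) (hrh : rh = -(r * r * ρh))
    (hst : |t * st - β / 2 * s| ≤ 1 / 16 * s) (hsh : |sh| ≤ C / 2 * s) (hs2 : s ≤ C / √t)
    (hν : |ν| ≤ C) (hνh : |νh| ≤ C) (hρt : |ρt| ≤ C) (hρh : |ρh| ≤ C) :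
    |t * (st * r + s * rt) - β / 2 * (s * r)| ≤ 1 / 8 * (s * r) ∧
      |νh * r + ν * rh| ≤ 2 * C ^ 4 ∧ |sh * r + s * rh| ≤ 2 * C ^ 4 / √t ∧
      |ν * r * (sh * r + s * rh)| ≤ 2 * C ^ 4 * (s * r) := by
  have hC0 : 0 < C := by linarith
  have hsr : 0 < s * r := mul_pos hs hr
  have hrr : |rh| ≤ r * C ^ 2 := by
    rw [hrh, abs_neg, abs_mul, abs_mul, abs_of_pos hr]
    calc r * r * |ρh| ≤ r * C * C := by gcongr
      _ = _ := by ring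
  have hqh : |sh * r + s * rh| ≤ 2 * C ^ 2 * (s * r) := by
    calc |sh * r + s * rh| ≤ |sh * r| + |s * rh| := abs_add_le _ _
      _ = |sh| * r + s * |rh| := by rw [abs_mul, abs_mul, abs_of_pos hr, abs_of_pos hs]
      _ ≤ C / 2 * s * r + s * (r * C ^ 2) := by gcongr
      _ = (C / 2 + C ^ 2) * (s * r) := by ring
      _ ≤ 2 * C ^ 2 * (s * r) := by
          apply mul_le_mul_of_nonneg_right _ hsr.le
          nlinarith
  refine ⟨?_, ?_, ?_, ?_⟩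
  · have e1 : t * (st * r + s * rt) - β / 2 * (s * r) =
        r * (t * st - β / 2 * s) - t * (s * r) * (r * ρt) := by rw [hrt]; ring
    rw [e1]
    have h1 : |r * ρt| ≤ C ^ 2 := by
      rw [abs_mul, abs_of_pos hr]
      nlinarith [abs_nonneg ρt]
    calc |r * (t * st - β / 2 * s) - t * (s * r) * (r * ρt)|
        ≤ |r * (t * st - β / 2 * s)| + |t * (s * r) * (r * ρt)| := abs_sub _ _
      _ = r * |t * st - β / 2 * s| + t * (s * r) * |r * ρt| := by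
          rw [abs_mul, abs_mul (t * (s * r)), abs_of_pos hr, abs_of_pos (mul_pos ht hsr)]
      _ ≤ r * (1 / 16 * s) + t * (s * r) * C ^ 2 := by gcongr
      _ ≤ 1 / 8 * (s * r) := by nlinarith
  · calc |νh * r + ν * rh| ≤ |νh * r| + |ν * rh| := abs_add_le _ _
      _ = |νh| * r + |ν| * |rh| := by rw [abs_mul, abs_mul, abs_of_pos hr]
      _ ≤ C * C + C * (C * C ^ 2) := by
          gcongr
          exact hrr.trans (by gcongr)
      _ ≤ 2 * C ^ 4 := by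
          have : C ^ 2 ≤ C ^ 4 := pow_le_pow_right₀ hC (by norm_num)
          nlinarith
  · refine hqh.trans ?_
    calc 2 * C ^ 2 * (s * r) ≤ 2 * C ^ 2 * (C / √t * C) := by gcongr
      _ = 2 * C ^ 4 / √t := by ring
  · rw [abs_mul, abs_mul, abs_of_pos hr]
    calc |ν| * r * |sh * r + s * rh| ≤ C * C * (2 * C ^ 2 * (s * r)) := by gcongr
      _ = 2 * C ^ 4 * (s * r) := by ring

end Ptw

/-- the reduction to the two abstract lemmas; `e = 1` for `D > 0` and `e = -1` for `D < 0` -/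
lemma core (hD : SpecDR2) (δ C β e : ℝ) (n m l ρ D ν : ℝ → ℝ → ℝ) (hδ : 0 < δ) (hC : 0 < C)
    (he : e ^ 2 = 1) (sn : SJ (Ioo 0 δ) n) (sm : SJ (Ioo 0 δ) m)
    (sρ : SJ (Ioo 0 δ) ρ) (sD : SJ (Ioo 0 δ) D) (sν : SJ (Ioo 0 δ) ν)
    (pn : Per (Ioo 0 δ) n) (pm : Per (Ioo 0 δ) m)
    (pρ : Per (Ioo 0 δ) ρ) (pD : Per (Ioo 0 δ) D) (pν : Per (Ioo 0 δ) ν)
    (A : ∀ t ∈ Ioo 0 δ, ∀ θ, l t θ = (D t θ - ν t θ ^ 2) * n t θ + 2 * ν t θ * m t θ)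
    (B : ∀ t ∈ Ioo 0 δ, ∀ θ,
      pt (fun t θ => ρ t θ * n t θ) t θ = ph m t θ + pt ρ t θ * l t θ)
    (M : ∀ t ∈ Ioo 0 δ, ∀ θ, pt (fun t θ => ρ t θ ^ 2 * m t θ) t θ = ρ t θ * ph l t θ)
    (hpos : ∀ t ∈ Ioo 0 δ, ∀ θ, 0 < e * D t θ)
    (D1 : ∀ t ∈ Ioo 0 δ, ∀ θ, |D t θ| ≤ C / t)
    (D2 : ∀ t ∈ Ioo 0 δ, ∀ θ, |t * pt D t θ - β * D t θ| ≤ 1 / 8 * |D t θ|)
    (D3 : ∀ t ∈ Ioo 0 δ, ∀ θ, |ph D t θ| ≤ C * |D t θ|)
    (N1 : ∀ t ∈ Ioo 0 δ, ∀ θ, |ν t θ| ≤ C ∧ |ph ν t θ| ≤ C ∧ |ν t θ| ≤ C / t * √|D t θ| ∧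
      |pt ν t θ| ≤ C / t * √|D t θ| ∧ |ph ν t θ| ≤ C / t * √|D t θ|)
    (R1 : ∀ t ∈ Ioo 0 δ, ∀ θ, 1 / C ≤ ρ t θ ∧ ρ t θ ≤ C ∧ |pt ρ t θ| ≤ C ∧ |ph ρ t θ| ≤ C)
    (F1 : ∀ N : ℕ, ∃ B : ℝ, ∀ t ∈ Ioo 0 δ, ∀ θ, |n t θ| + |m t θ| ≤ B * t ^ N) :
    ∃ (δ₁ C' : ℝ) (y V a q : ℝ → ℝ → ℝ), 0 < δ₁ ∧ δ₁ ≤ δ ∧ δ₁ ≤ 1 ∧ 0 < C' ∧ SJ (Ioo 0 δ₁) y ∧
      SJ (Ioo 0 δ₁) V ∧ SJ (Ioo 0 δ₁) a ∧ SJ (Ioo 0 δ₁) q ∧ Per (Ioo 0 δ₁) y ∧
      Per (Ioo 0 δ₁) V ∧ Per (Ioo 0 δ₁) a ∧ Per (Ioo 0 δ₁) q ∧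
      (∀ t ∈ Ioo 0 δ₁, ∀ θ, 0 < q t θ) ∧
      (∀ t ∈ Ioo 0 δ₁, ∀ θ, |pt y t θ - a t θ * ph y t θ - q t θ * ph V t θ| ≤
        C' / t * (|y t θ| + |V t θ|)) ∧
      (∀ t ∈ Ioo 0 δ₁, ∀ θ, |pt V t θ - a t θ * ph V t θ - e * q t θ * ph y t θ| ≤
        C' / t * (|y t θ| + |V t θ|)) ∧
      (∀ t ∈ Ioo 0 δ₁, ∀ θ, |t * pt q t θ - β / 2 * q t θ| ≤ 1 / 8 * q t θ) ∧
      (∀ t ∈ Ioo 0 δ₁, ∀ θ, |ph a t θ| ≤ C') ∧ (∀ t ∈ Ioo 0 δ₁, ∀ θ, |ph q t θ| ≤ C' / √t) ∧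
      (∀ t ∈ Ioo 0 δ₁, ∀ θ, |a t θ * ph q t θ| ≤ C' * q t θ) ∧
      (∀ N : ℕ, ∃ D : ℝ, ∀ t ∈ Ioo 0 δ₁, ∀ θ, |y t θ| + |V t θ| ≤ D * t ^ N) ∧
      (∀ t ∈ Ioo 0 δ₁, ∀ θ, y t θ = 0 ∧ V t θ = 0 → n t θ = 0 ∧ m t θ = 0 ∧ l t θ = 0) := by
  have hJ : IsOpen (Ioo 0 δ) := isOpen_Ioo
  -- C ≥ 1
  have hC1 : 1 ≤ C := by
    have h := R1 (δ / 2) ⟨by linarith, by linarith⟩ 0
    have h1 : 1 / C ≤ C := h.1.trans h.2.1
    rw [div_le_iff₀ hC] at h1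
    nlinarith
  set s : ℝ → ℝ → ℝ := fun t θ => √(e * D t θ) with hs
  set r : ℝ → ℝ → ℝ := fun t θ => (ρ t θ)⁻¹ with hr
  have ρpos : ∀ t ∈ Ioo 0 δ, ∀ θ, 0 < ρ t θ := fun t ht θ =>
    lt_of_lt_of_le (by positivity) (R1 t ht θ).1
  have ss : SJ (Ioo 0 δ) s := by
    apply ContDiffOn.sqrt
    · exact ContDiffOn.mul contDiffOn_const sD
    · rintro ⟨t, θ⟩ ⟨ht, _⟩
      exact (hpos t ht θ).ne'
  have sr : SJ (Ioo 0 δ) r := by
    apply ContDiffOn.inv sρ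
    rintro ⟨t, θ⟩ ⟨ht, _⟩
    exact (ρpos t ht θ).ne'
  have ps : Per (Ioo 0 δ) s := by
    intro t ht θ
    show √(e * D t (θ + 2 * π)) = √(e * D t θ)
    rw [pD t ht]
  have pr : Per (Ioo 0 δ) r := by
    intro t ht θ
    show (ρ t (θ + 2 * π))⁻¹ = (ρ t θ)⁻¹
    rw [pρ t ht]
  have s0 : ∀ t ∈ Ioo 0 δ, ∀ θ, 0 < s t θ := fun t ht θ => Real.sqrt_pos.2 (hpos t ht θ)
  have ssD : ∀ t ∈ Ioo 0 δ, ∀ θ, s t θ * s t θ = e * D t θ := fun t ht θ =>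
    Real.mul_self_sqrt (hpos t ht θ).le
  have rρ : ∀ t ∈ Ioo 0 δ, ∀ θ, r t θ * ρ t θ = 1 := fun t ht θ =>
    inv_mul_cancel₀ (ρpos t ht θ).ne'
  have cst : ∀ c : ℝ, SJ (Ioo 0 δ) (fun _ _ => c) := fun c => contDiffOn_const
  have ptc : ∀ (c t θ : ℝ), pt (fun _ _ => c) t θ = 0 := fun c t θ => by
    show deriv (fun _ => c) t = 0
    simp
  have phc : ∀ (c t θ : ℝ), ph (fun _ _ => c) t θ = 0 := fun c t θ => by
    show deriv (fun _ => c) θ = 0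
    simp
  have sst : ∀ t ∈ Ioo 0 δ, ∀ θ, 2 * (s t θ * pt s t θ) = e * pt D t θ := by
    intro t ht θ
    have h := hD.pcg hJ ssD t ht θ
    rw [pt_mul hD hJ ss ss ht, pt_mul hD hJ (cst e) sD ht, ptc] at h
    linarith
  have ssh : ∀ t ∈ Ioo 0 δ, ∀ θ, 2 * (s t θ * ph s t θ) = e * ph D t θ := by
    intro t ht θ
    have h := hD.hcg ssD t ht θ
    rw [ph_mul hD hJ ss ss ht, ph_mul hD hJ (cst e) sD ht, phc] at h
    linarith
  have rt : ∀ t ∈ Ioo 0 δ, ∀ θ, pt r t θ = -(r t θ * r t θ * pt ρ t θ) := by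
    intro t ht θ
    have h := hD.pcg (G := fun t θ => r t θ * ρ t θ) (H := fun _ _ => (1:ℝ)) hJ rρ t ht θ
    rw [pt_mul hD hJ sr sρ ht, ptc] at h
    have h2 := rρ t ht θ
    linear_combination r t θ * h - pt r t θ * h2
  have rh : ∀ t ∈ Ioo 0 δ, ∀ θ, ph r t θ = -(r t θ * r t θ * ph ρ t θ) := by
    intro t ht θ
    have h := hD.hcg (G := fun t θ => r t θ * ρ t θ) (H := fun _ _ => (1:ℝ)) rρ t ht θ
    rw [ph_mul hD hJ sr sρ ht, phc] at h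
    have h2 := rρ t ht θ
    linear_combination r t θ * h - ph r t θ * h2
  -- the equations
  have hB : ∀ t ∈ Ioo 0 δ, ∀ θ, pt ρ t θ * n t θ + ρ t θ * pt n t θ = ph m t θ +
      pt ρ t θ * ((D t θ - ν t θ ^ 2) * n t θ + 2 * ν t θ * m t θ) := by
    intro t ht θ
    have h := B t ht θ
    rw [pt_mul hD hJ sρ sn ht, A t ht θ] at h
    exact h
  have hl : ∀ t ∈ Ioo 0 δ, ∀ θ, ph l t θ = (ph D t θ - 2 * ν t θ * ph ν t θ) * n t θ +
      (D t θ - ν t θ ^ 2) * ph n t θ + 2 * ph ν t θ * m t θ + 2 * ν t θ * ph m t θ := by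
    intro t ht θ
    have h := hD.hcg (G := l) (H := fun t θ => (D t θ - ν t θ * ν t θ) * n t θ +
      (ν t θ * m t θ + ν t θ * m t θ)) (fun t ht θ => by rw [A t ht θ]; ring) t ht θ
    have k1 : SJ (Ioo 0 δ) (fun t θ => ν t θ * ν t θ) := sj_mul sν sν
    have k2 : SJ (Ioo 0 δ) (fun t θ => D t θ - ν t θ * ν t θ) := sj_sub sD k1
    have k3 : SJ (Ioo 0 δ) (fun t θ => ν t θ * m t θ) := sj_mul sν sm
    rw [h, ph_add hD hJ (sj_mul k2 sn) (sj_add k3 k3) ht, ph_mul hD hJ k2 sn ht,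
      ph_sub hD hJ sD k1 ht, ph_mul hD hJ sν sν ht, ph_add hD hJ k3 k3 ht, ph_mul hD hJ sν sm ht]
    ring
  have hM : ∀ t ∈ Ioo 0 δ, ∀ θ, 2 * ρ t θ * pt ρ t θ * m t θ + ρ t θ ^ 2 * pt m t θ =
      ρ t θ * ((ph D t θ - 2 * ν t θ * ph ν t θ) * n t θ +
      (D t θ - ν t θ ^ 2) * ph n t θ + 2 * ph ν t θ * m t θ + 2 * ν t θ * ph m t θ) := by
    intro t ht θ
    have h := M t ht θ
    have e1 : (fun t θ => ρ t θ ^ 2 * m t θ) = fun t θ => ρ t θ * ρ t θ * m t θ := by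
      funext t θ; ring
    rw [e1, pt_mul hD hJ (sj_mul sρ sρ) sm ht, pt_mul hD hJ sρ sρ ht, hl t ht θ] at h
    rw [← h]
    ring
  -- the new functions
  have sy : SJ (Ioo 0 δ) (fun t θ => s t θ * n t θ) := sj_mul ss sn
  have sνn : SJ (Ioo 0 δ) (fun t θ => ν t θ * n t θ) := sj_mul sν sn
  have sV : SJ (Ioo 0 δ) (fun t θ => m t θ - ν t θ * n t θ) := sj_sub sm sνn
  have sa : SJ (Ioo 0 δ) (fun t θ => ν t θ * r t θ) := sj_mul sν sr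
  have sq : SJ (Ioo 0 δ) (fun t θ => s t θ * r t θ) := sj_mul ss sr
  have py : Per (Ioo 0 δ) (fun t θ => s t θ * n t θ) := per_mul ps pn
  have pV : Per (Ioo 0 δ) (fun t θ => m t θ - ν t θ * n t θ) := per_sub pm (per_mul pν pn)
  have pa : Per (Ioo 0 δ) (fun t θ => ν t θ * r t θ) := per_mul pν pr
  have pq : Per (Ioo 0 δ) (fun t θ => s t θ * r t θ) := per_mul ps pr
  have hC5 : 1 ≤ C ^ 5 := one_le_pow₀ hC1
  have hC45 : C ^ 4 ≤ C ^ 5 := pow_le_pow_right₀ hC1 (by norm_num)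
  have hβ0 := abs_nonneg β
  set δ₁ : ℝ := min δ (min 1 (1 / (16 * C ^ 2))) with hδ₁
  have hδ₁0 : 0 < δ₁ := lt_min hδ (lt_min one_pos (by positivity))
  have hsub : ∀ t ∈ Ioo 0 δ₁, t ∈ Ioo 0 δ ∧ t ≤ 1 ∧ 16 * C ^ 2 * t ≤ 1 := by
    intro t ht
    have h2 := ht.2
    have h3 := lt_of_lt_of_le h2 (min_le_left _ _)
    have h4 := lt_of_lt_of_le h2 (le_trans (min_le_right _ _) (min_le_left _ _))
    have h5 := lt_of_lt_of_le h2 (le_trans (min_le_right _ _) (min_le_right _ _))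
    refine ⟨⟨ht.1, h3⟩, h4.le, ?_⟩
    rw [lt_div_iff₀ (by positivity)] at h5
    linarith
  have hsubset : Ioo 0 δ₁ ⊆ Ioo 0 δ := fun t ht => (hsub t ht).1
  have hmono : ∀ {f : ℝ → ℝ → ℝ}, SJ (Ioo 0 δ) f → SJ (Ioo 0 δ₁) f := fun hf =>
    ContDiffOn.mono hf (Set.prod_mono hsubset le_rfl)
  have hpmono : ∀ {f : ℝ → ℝ → ℝ}, Per (Ioo 0 δ) f → Per (Ioo 0 δ₁) f := fun hf t ht θ =>
    hf t (hsubset ht) θ
  -- bounds of s, r at a point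
  have bnd : ∀ t ∈ Ioo 0 δ₁, ∀ θ, |t * pt s t θ - β / 2 * s t θ| ≤ 1 / 16 * s t θ ∧
      |ph s t θ| ≤ C / 2 * s t θ ∧ |D t θ| = s t θ * s t θ ∧
      |pt s t θ| ≤ (|β| + 1) / t * s t θ ∧ s t θ ≤ C / t ∧ s t θ ≤ C / √t ∧ r t θ ≤ C ∧
      0 < r t θ ∧ √|D t θ| = s t θ := by
    intro t ht θ
    obtain ⟨htδ, ht1, _⟩ := hsub t ht
    have ht0 : 0 < t := ht.1
    obtain ⟨k1, k2, k3, k4⟩ := s_bounds (β := β) ht0 (s0 t htδ θ) he (ssD t htδ θ)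
      (sst t htδ θ) (ssh t htδ θ) (D2 t htδ θ) (D3 t htδ θ)
    have hs0 := s0 t htδ θ
    have h1 : s t θ * s t θ ≤ C / t := by rw [← k3]; exact D1 t htδ θ
    have hsq : s t θ ≤ √C / √t := by
      rw [← Real.sqrt_div hC.le]
      exact Real.le_sqrt_of_sq_le (by rw [_root_.sq]; exact h1)
    have hCC : √C ≤ C := by
      rw [Real.sqrt_le_left hC.le]
      nlinarith
    have ht2 : 0 < √t := Real.sqrt_pos.2 ht0
    have h2 : s t θ ≤ C / √t := hsq.trans (div_le_div_of_nonneg_right hCC ht2.le)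
    have h3 : C / √t ≤ C / t := by
      apply div_le_div_of_nonneg_left hC.le ht0
      rw [Real.le_sqrt' ht0]
      nlinarith
    refine ⟨k1, k2, k3, k4, h2.trans h3, h2, ?_, inv_pos.2 (ρpos t htδ θ), ?_⟩
    · have := (R1 t htδ θ).1
      rw [div_le_iff₀ hC] at this
      show (ρ t θ)⁻¹ ≤ C
      rw [inv_le_iff_one_le_mul₀ (ρpos t htδ θ)]
      linarith
    · rw [k3, Real.sqrt_mul_self hs0.le]
  have bnd2 : ∀ t ∈ Ioo 0 δ₁, ∀ θ,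
      |t * (pt s t θ * r t θ + s t θ * pt r t θ) - β / 2 * (s t θ * r t θ)| ≤
        1 / 8 * (s t θ * r t θ) ∧
      |ph ν t θ * r t θ + ν t θ * ph r t θ| ≤ 2 * C ^ 4 ∧
      |ph s t θ * r t θ + s t θ * ph r t θ| ≤ 2 * C ^ 4 / √t ∧
      |ν t θ * r t θ * (ph s t θ * r t θ + s t θ * ph r t θ)| ≤ 2 * C ^ 4 * (s t θ * r t θ) := by
    intro t ht θ
    obtain ⟨htδ, ht1, htC⟩ := hsub t ht
    obtain ⟨k1, k2, k3, k4, k5, k6, k7, k8, k9⟩ := bnd t ht θ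
    obtain ⟨ν1, ν2, ν3, ν4, ν5⟩ := N1 t htδ θ
    obtain ⟨_, _, R3, R4⟩ := R1 t htδ θ
    exact aq_bounds ht.1 htC hC1 (s0 t htδ θ) k8 k7 (rt t htδ θ) (rh t htδ θ) k1 k2 k6 ν1 ν2 R3 R4
  have dy : ∀ t ∈ Ioo 0 δ, ∀ θ, pt (fun t θ => s t θ * n t θ) t θ =
      pt s t θ * n t θ + s t θ * pt n t θ := fun t ht θ => pt_mul hD hJ ss sn ht θ
  have dyh : ∀ t ∈ Ioo 0 δ, ∀ θ, ph (fun t θ => s t θ * n t θ) t θ =
      ph s t θ * n t θ + s t θ * ph n t θ := fun t ht θ => ph_mul hD hJ ss sn ht θ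
  have dV : ∀ t ∈ Ioo 0 δ, ∀ θ, pt (fun t θ => m t θ - ν t θ * n t θ) t θ =
      pt m t θ - pt ν t θ * n t θ - ν t θ * pt n t θ := fun t ht θ => by
    rw [pt_sub hD hJ sm sνn ht, pt_mul hD hJ sν sn ht]; ring
  have dVh : ∀ t ∈ Ioo 0 δ, ∀ θ, ph (fun t θ => m t θ - ν t θ * n t θ) t θ =
      ph m t θ - ph ν t θ * n t θ - ν t θ * ph n t θ := fun t ht θ => by
    rw [ph_sub hD hJ sm sνn ht, ph_mul hD hJ sν sn ht]; ring
  refine ⟨δ₁, |β| + 20 * C ^ 5, fun t θ => s t θ * n t θ, fun t θ => m t θ - ν t θ * n t θ,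
    fun t θ => ν t θ * r t θ, fun t θ => s t θ * r t θ, hδ₁0, min_le_left _ _,
    le_trans (min_le_right _ _) (min_le_left _ _), by positivity,
    hmono sy, hmono sV, hmono sa, hmono sq, hpmono py, hpmono pV, hpmono pa, hpmono pq,
    ?_, ?_, ?_, ?_, ?_, ?_, ?_, ?_, ?_⟩
  · intro t ht θ
    exact mul_pos (s0 t (hsubset ht) θ) (bnd t ht θ).2.2.2.2.2.2.2.1
  · intro t ht θ
    obtain ⟨htδ, ht1, htC⟩ := hsub t ht
    obtain ⟨k1, k2, k3, k4, k5, k6, k7, k8, k9⟩ := bnd t ht θ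
    obtain ⟨ν1, ν2, ν3, ν4, ν5⟩ := N1 t htδ θ
    obtain ⟨_, _, R3, R4⟩ := R1 t htδ θ
    have h := T1_bound (β := β) ht.1 ht1 hC1 (s0 t htδ θ) k8 k7 (rρ t htδ θ) k4 k2 k5
      (D1 t htδ θ) ν1 ν2 R3 (hB t htδ θ) (nh := ph n t θ)
    rw [dy t htδ, dyh t htδ, dVh t htδ]
    exact h
  · intro t ht θ
    obtain ⟨htδ, ht1, htC⟩ := hsub t ht
    obtain ⟨k1, k2, k3, k4, k5, k6, k7, k8, k9⟩ := bnd t ht θ
    obtain ⟨ν1, ν2, ν3, ν4, ν5⟩ := N1 t htδ θ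
    obtain ⟨_, _, R3, R4⟩ := R1 t htδ θ
    rw [k9] at ν3 ν4 ν5
    have h := T2_bound (β := β) ht.1 ht1 hC1 (s0 t htδ θ) he k8 k7 (rρ t htδ θ) (ssD t htδ θ)
      (ssh t htδ θ) k5 k3 (D3 t htδ θ) ν1 ν2 ν3 ν4 ν5 R3 (hB t htδ θ) (hM t htδ θ)
    rw [dV t htδ, dyh t htδ, dVh t htδ]
    exact h
  · intro t ht θ
    obtain ⟨htδ, ht1, htC⟩ := hsub t ht
    have h := (bnd2 t ht θ).1
    rw [pt_mul hD hJ ss sr htδ]
    exact h
  · intro t ht θ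
    obtain ⟨htδ, ht1, htC⟩ := hsub t ht
    have h := (bnd2 t ht θ).2.1
    rw [ph_mul hD hJ sν sr htδ]
    linarith
  · intro t ht θ
    obtain ⟨htδ, ht1, htC⟩ := hsub t ht
    have h := (bnd2 t ht θ).2.2.1
    rw [ph_mul hD hJ ss sr htδ]
    exact h.trans (div_le_div_of_nonneg_right (by linarith) (Real.sqrt_nonneg _))
  · intro t ht θ
    obtain ⟨htδ, ht1, htC⟩ := hsub t ht
    have h := (bnd2 t ht θ).2.2.2
    rw [ph_mul hD hJ ss sr htδ]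
    refine h.trans (mul_le_mul_of_nonneg_right (by linarith) ?_)
    exact (mul_pos (s0 t htδ θ) (bnd t ht θ).2.2.2.2.2.2.2.1).le
  · intro N
    obtain ⟨B', hB'⟩ := F1 (N + 1)
    refine ⟨(1 + 2 * C) * |B'|, fun t ht θ => ?_⟩
    obtain ⟨htδ, ht1, htC⟩ := hsub t ht
    obtain ⟨k1, k2, k3, k4, k5, k6, k7, k8, k9⟩ := bnd t ht θ
    obtain ⟨ν1, _⟩ := N1 t htδ θ
    have h1 := hB' t htδ θ
    have hs0 := s0 t htδ θ
    have ht0 : 0 < t := ht.1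
    have hn := abs_nonneg (n t θ)
    have hm := abs_nonneg (m t θ)
    have h2 : |s t θ * n t θ| + |m t θ - ν t θ * n t θ| ≤
        (C / t + 1 + C) * (|n t θ| + |m t θ|) := by
      have h3 : |m t θ - ν t θ * n t θ| ≤ |m t θ| + C * |n t θ| := by
        refine (abs_sub _ _).trans ?_
        rw [abs_mul]
        have := mul_le_mul_of_nonneg_right ν1 hn
        linarith
      rw [abs_mul, abs_of_pos hs0]
      have h4 := mul_le_mul_of_nonneg_right k5 hn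
      have h5 : 0 ≤ C / t := by positivity
      nlinarith [mul_nonneg h5 hm, mul_nonneg hC.le hm]
    have h6 : (C / t + 1 + C) ≤ (1 + 2 * C) / t := by
      rw [le_div_iff₀ ht0]
      have : (C / t + 1 + C) * t = C + t + C * t := by field_simp
      rw [this]
      nlinarith
    have h7 : |n t θ| + |m t θ| ≤ |B'| * t ^ (N + 1) :=
      h1.trans (mul_le_mul_of_nonneg_right (le_abs_self _) (by positivity))
    calc |s t θ * n t θ| + |m t θ - ν t θ * n t θ| ≤ (C / t + 1 + C) * (|n t θ| + |m t θ|) := h2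
      _ ≤ (1 + 2 * C) / t * (|B'| * t ^ (N + 1)) := by gcongr
      _ = (1 + 2 * C) * |B'| * t ^ N := by
          rw [pow_succ]; field_simp
  · rintro t ht θ ⟨h1, h2⟩
    have htδ := hsubset ht
    have hn : n t θ = 0 := by
      rcases mul_eq_zero.1 h1 with h | h
      · exact absurd h (s0 t htδ θ).ne'
      · exact h
    have hm : m t θ = 0 := by
      have h3 : m t θ - ν t θ * n t θ = 0 := h2
      rw [hn, mul_zero, sub_zero] at h3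
      exact h3
    refine ⟨hn, hm, ?_⟩
    rw [A t htδ θ, hn, hm]; ring

end UNQM

open UNQM in
theorem specUNQ (hD : SpecDR2) (hH : SpecHYP) (hE : SpecELL) : SpecUNQ := by
  intro δ C β n m l ρ D ν hδ hC hβ sn sm sl sρ sD sν pn pm pl pρ pD pν A B M hsg D1 D2 D3 N1 R1 F1
  rcases hsg with hp | hp
  · obtain ⟨δ₁, C', y, V, a, q, h0, h1, h1', h2, sy, sV, sa, sq, py, pV, pa, pq, q0, T1, T2, q1,
      a1, q2, q3, fl, fin⟩ := core hD δ C β 1 n m l ρ D ν hδ hC (by norm_num) sn sm sρ sD sν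
        pn pm pρ pD pν A B M (fun t ht θ => by rw [one_mul]; exact hp t ht θ) D1 D2 D3 N1 R1 F1
    have h := hH δ₁ C' y V a q h0 h2 sy sV sa sq py pV pa pq T1
      (fun t ht θ => by have := T2 t ht θ; rw [one_mul] at this; exact this)
      (fun t ht θ => (a1 t ht θ).trans (by
        rw [le_div_iff₀ ht.1]
        nlinarith [ht.2]))
      (fun t ht θ => (q2 t ht θ).trans (by
        apply div_le_div_of_nonneg_left h2.le ht.1
        rw [Real.le_sqrt' ht.1]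
        nlinarith [ht.2, ht.1])) fl
    exact ⟨δ₁, h0, h1, fun t ht θ => fin t ht θ (h t ht θ)⟩
  · obtain ⟨δ₁, C', y, V, a, q, h0, h1, h1', h2, sy, sV, sa, sq, py, pV, pa, pq, q0, T1, T2, q1,
      a1, q2, q3, fl, fin⟩ := core hD δ C β (-1) n m l ρ D ν hδ hC (by norm_num) sn sm sρ sD sν
        pn pm pρ pD pν A B M (fun t ht θ => by have := hp t ht θ; linarith) D1 D2 D3 N1 R1 F1
    obtain ⟨δ', k0, k1, k2⟩ := hE δ₁ C' β y V a q h0 h2 hβ sy sV sa sq py pV pa pq q0 T1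
      (fun t ht θ => by
        have := T2 t ht θ
        have e1 : pt V t θ - a t θ * ph V t θ + q t θ * ph y t θ =
          pt V t θ - a t θ * ph V t θ - -1 * q t θ * ph y t θ := by ring
        rw [e1]; exact this) q1 a1 q2 q3 fl
    exact ⟨δ', k0, k1.trans h1, fun t ht θ =>
      fin t ⟨ht.1, lt_of_lt_of_le ht.2 k1⟩ θ (k2 t ht θ)⟩

end Rim478
end

section
set_option autoImplicit false

/-!
MP_478c11_gt (helper9): part U assembled.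
-/

namespace Rim478

theorem hDR2 : SpecDR2 := specDR2
theorem hFLT : SpecFLT := specFLT hDR2 hCRS
theorem hINT : SpecINT := specINT hDR2
theorem hFRM : SpecFRM := specFRM hDR2 hCRS
theorem hREV : SpecREV := specREV hDR2
theorem hUNQ : SpecUNQ := specUNQ hDR2 (specHYP hDR2 hINT) (specELL hDR2 hINT)
theorem hRAT : SpecRAT := specRAT hDR2 specNFL hFLT
theorem hLCR : SpecLCR := specLCR hDR2 hFLT hFRM hREV hRAT hUNQ
theorem hPRP : SpecPRP := specPRP hDR2 hFLT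
theorem hCON : SpecCON := specCON hDR2 hCRS hFRM
theorem hGLB : SpecGLB := specGLB hFLT hFRM hREV hLCR specRFL hPRP hCON

end Rim478
end

section
set_option autoImplicit false

/-!
MP_478c11_gt (helper9): bridge between the isolated rim theorem and part U.
-/

open Real MeasureTheory Set Filter Topology
open scoped ContDiff InnerProductSpace

namespace Rim478

/-- `ε`-close along `t = t₀` (six partial derivatives of order at most four) -/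
def ClJ (ε t₀ : ℝ) (X Y : ℝ → ℝ → E3) : Prop := ∀ θ,
  ‖ph Y t₀ θ - ph X t₀ θ‖ ≤ ε ∧ ‖ph (ph Y) t₀ θ - ph (ph X) t₀ θ‖ ≤ ε ∧ ‖pt Y t₀ θ - pt X t₀ θ‖ ≤ ε ∧
  ‖ph (ph (pt Y)) t₀ θ - ph (ph (pt X)) t₀ θ‖ ≤ ε ∧ ‖ph (ph (ph (pt Y))) t₀ θ - ph (ph (ph (pt X))) t₀ θ‖ ≤ ε ∧
  ‖pt (pt Y) t₀ θ - pt (pt X) t₀ θ‖ ≤ ε

namespace BRGM

open PAIM

/-- the reparametrization `t₀ + s δ sin (τ/δ)` -/
noncomputable def rp (t₀ s δ τ : ℝ) : ℝ := t₀ + s * (δ * sin (τ / δ))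

lemma rp_zero (t₀ s δ : ℝ) : rp t₀ s δ 0 = t₀ := by simp [rp]

lemma rp_sm (t₀ s δ : ℝ) : ContDiff ℝ ∞ (rp t₀ s δ) := by
  unfold rp
  fun_prop

lemma rp_der (t₀ s : ℝ) {δ : ℝ} (hδ : δ ≠ 0) (τ : ℝ) : HasDerivAt (rp t₀ s δ) (s * cos (τ / δ)) τ := by
  have h1 : HasDerivAt (fun τ : ℝ => τ / δ) (1 / δ) τ := (hasDerivAt_id τ).div_const δ
  have h2 := (((hasDerivAt_sin (τ / δ)).comp τ h1).const_mul δ).const_mul s
  have h3 := h2.const_add t₀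
  refine h3.congr_deriv ?_
  field_simp

lemma rp_der2 (s : ℝ) {δ : ℝ} (hδ : δ ≠ 0) (τ : ℝ) :
    HasDerivAt (fun τ => s * cos (τ / δ)) (-(s / δ) * sin (τ / δ)) τ := by
  have h1 : HasDerivAt (fun τ : ℝ => τ / δ) (1 / δ) τ := (hasDerivAt_id τ).div_const δ
  have h2 := ((hasDerivAt_cos (τ / δ)).comp τ h1).const_mul s
  refine h2.congr_deriv ?_
  field_simp

lemma rp_mem {t₀ s δ : ℝ} {J : Set ℝ} (hs : s = 1 ∨ s = -1) (hδ : 0 < δ) (hJ : Icc (t₀ - δ) (t₀ + δ) ⊆ J) (τ : ℝ) :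
    rp t₀ s δ τ ∈ J := by
  apply hJ
  have h1 := neg_one_le_sin (τ / δ)
  have h2 := sin_le_one (τ / δ)
  unfold rp
  rcases hs with rfl | rfl
  · constructor <;> nlinarith
  · constructor <;> nlinarith

/-- reparametrized strip -/
noncomputable def rY {V : Type} (t₀ s δ : ℝ) (Y : ℝ → ℝ → V) : ℝ → ℝ → V := fun τ θ => Y (rp t₀ s δ τ) θ

section
variable {V : Type} [NormedAddCommGroup V] [NormedSpace ℝ V] {t₀ s δ : ℝ} {J : Set ℝ} (hs : s = 1 ∨ s = -1)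
  (hδ : 0 < δ) (hJ : Icc (t₀ - δ) (t₀ + δ) ⊆ J) (oJ : IsOpen J)
include hs hδ hJ

lemma rY_sm {Y : ℝ → ℝ → V} (sY : SJ J Y) : S2 (rY t₀ s δ Y) := by
  have h : ContDiff ℝ ∞ (fun p : ℝ × ℝ => ((rp t₀ s δ p.1, p.2) : ℝ × ℝ)) :=
    ((rp_sm t₀ s δ).comp contDiff_fst).prodMk contDiff_snd
  have h2 := ContDiffOn.comp_contDiff (g := fun p : ℝ × ℝ => Y p.1 p.2) (s := J ×ˢ univ) sY h
    (fun p => ⟨rp_mem hs hδ hJ p.1, mem_univ _⟩)
  exact h2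

omit hs hδ hJ in
lemma rY_ph (Y : ℝ → ℝ → V) : ph (rY t₀ s δ Y) = rY t₀ s δ (ph Y) := rfl

include oJ in
lemma rY_pt {Y : ℝ → ℝ → V} (sY : SJ J Y) (τ θ : ℝ) :
    pt (rY t₀ s δ Y) τ θ = (s * cos (τ / δ)) • rY t₀ s δ (pt Y) τ θ := by
  have h1 := hDR2.hpt oJ sY (rp t₀ s δ τ) (rp_mem hs hδ hJ τ) θ
  have h2 := h1.scomp τ (rp_der t₀ s hδ.ne' τ)
  exact h2.deriv

end

section
variable {J : Set ℝ} {ρ : ℝ → ℝ → ℝ} {X Y : ℝ → ℝ → E3} {t₀ s δ : ℝ} (oJ : IsOpen J) (hs : s = 1 ∨ s = -1)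
  (hδ : 0 < δ) (hJ : Icc (t₀ - δ) (t₀ + δ) ⊆ J) (SX : Str J ρ X) (SY : Str J ρ Y)
include oJ hs hδ hJ SX SY

lemma rY_iso : Iso (rY t₀ s δ X) (rY t₀ s δ Y) where
  sm := rY_sm hs hδ hJ SY.sm
  per := fun τ θ => SY.per _ (rp_mem hs hδ hJ τ) θ
  gE := fun τ θ => by
    have m := rp_mem hs hδ hJ τ
    exact (SY.hh _ m θ).trans (SX.hh _ m θ).symm
  gF := fun τ θ => by
    have m := rp_mem hs hδ hJ τ
    rw [rY_pt hs hδ hJ oJ SY.sm, rY_pt hs hδ hJ oJ SX.sm, inner_smul_left, inner_smul_left]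
    congr 1
    exact (SY.th _ m θ).trans (SX.th _ m θ).symm
  gG := fun τ θ => by
    have m := rp_mem hs hδ hJ τ
    rw [rY_pt hs hδ hJ oJ SY.sm, rY_pt hs hδ hJ oJ SX.sm, inner_smul_left, inner_smul_left, inner_smul_right,
      inner_smul_right]
    congr 2
    exact (SY.tt _ m θ).trans (SX.tt _ m θ).symm

omit SX SY in
/-- derivatives at the rim -/
lemma at0s (sY : SJ J Y) (θ : ℝ) :
    pt (rY t₀ s δ Y) 0 θ = s • pt Y t₀ θ ∧ pt (pt (rY t₀ s δ Y)) 0 θ = pt (pt Y) t₀ θ := by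
  have e1 : pt (rY t₀ s δ Y) = fun τ θ => (s * cos (τ / δ)) • rY t₀ s δ (pt Y) τ θ := by
    funext τ θ
    exact rY_pt hs hδ hJ oJ sY τ θ
  have s2 := hDR2.spt oJ sY
  constructor
  · rw [e1]
    simp [rY, rp_zero]
  · rw [e1]
    have h1 : HasDerivAt (fun τ => rY t₀ s δ (pt Y) τ θ) ((s * cos (0 / δ)) • rY t₀ s δ (pt (pt Y)) 0 θ) 0 := by
      have h1 := hDR2.hpt oJ s2 (rp t₀ s δ 0) (rp_mem hs hδ hJ 0) θ
      exact h1.scomp 0 (rp_der t₀ s hδ.ne' 0)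
    have h2 := (rp_der2 s hδ.ne' 0).smul h1
    have h3 : pt (fun τ θ => (s * cos (τ / δ)) • rY t₀ s δ (pt Y) τ θ) 0 θ = _ := h2.deriv
    rw [h3]
    have ss : s * s = 1 := by rcases hs with rfl | rfl <;> norm_num
    simp only [zero_div, cos_zero, mul_one, sin_zero, mul_zero, zero_smul, add_zero, smul_smul, ss, one_smul, rY,
      rp_zero]

omit SX in
lemma at0 (θ : ℝ) : pt (rY t₀ s δ Y) 0 θ = s • pt Y t₀ θ ∧ pt (pt (rY t₀ s δ Y)) 0 θ = pt (pt Y) t₀ θ :=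
  at0s oJ hs hδ hJ SY.sm θ

end

lemma ph_smul2 (Z : ℝ → ℝ → E3) (c : ℝ → ℝ) : ph (fun τ θ => c τ • Z τ θ) = fun τ θ => c τ • ph Z τ θ := by
  funext τ θ
  unfold ph
  exact deriv_const_smul_field (c τ) (fun s => Z τ s)

section
variable {J : Set ℝ} {ρ : ℝ → ℝ → ℝ} {X Y : ℝ → ℝ → E3} {t₀ s δ : ℝ} (oJ : IsOpen J) (hs : s = 1 ∨ s = -1)
  (hδ : 0 < δ) (hJ : Icc (t₀ - δ) (t₀ + δ) ⊆ J) (SX : Str J ρ X) (SY : Str J ρ Y)
include oJ hs hδ hJ SY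

omit SY in
/-- the mixed derivatives at the rim -/
lemma at1s (sY : SJ J Y) (θ : ℝ) :
    ph (rY t₀ s δ Y) 0 θ = ph Y t₀ θ ∧ ph (ph (rY t₀ s δ Y)) 0 θ = ph (ph Y) t₀ θ ∧
    ph (ph (pt (rY t₀ s δ Y))) 0 θ = s • ph (ph (pt Y)) t₀ θ ∧
    ph (ph (ph (pt (rY t₀ s δ Y)))) 0 θ = s • ph (ph (ph (pt Y))) t₀ θ := by
  have e1 : pt (rY t₀ s δ Y) = fun τ θ => (s * cos (τ / δ)) • rY t₀ s δ (pt Y) τ θ := by
    funext τ θ
    exact rY_pt hs hδ hJ oJ sY τ θ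
  refine ⟨?_, ?_, ?_, ?_⟩
  · simp [rY_ph, rY, rp_zero]
  · simp [rY_ph, rY, rp_zero]
  · rw [e1, ph_smul2, ph_smul2]
    simp [rY_ph, rY, rp_zero]
  · rw [e1, ph_smul2, ph_smul2, ph_smul2]
    simp [rY_ph, rY, rp_zero]

lemma at1 (θ : ℝ) : ph (rY t₀ s δ Y) 0 θ = ph Y t₀ θ ∧ ph (ph (rY t₀ s δ Y)) 0 θ = ph (ph Y) t₀ θ ∧
    ph (ph (pt (rY t₀ s δ Y))) 0 θ = s • ph (ph (pt Y)) t₀ θ ∧
    ph (ph (ph (pt (rY t₀ s δ Y)))) 0 θ = s • ph (ph (ph (pt Y))) t₀ θ :=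
  at1s oJ hs hδ hJ SY.sm θ

include SX in
lemma cl_tr {ε : ℝ} (h : ClJ ε t₀ X Y) : Cl ε (rY t₀ s δ X) (rY t₀ s δ Y) := by
  intro θ
  obtain ⟨h1, h2, h3, h4, h5, h6⟩ := h θ
  obtain ⟨a1, a2, a3, a4⟩ := at1 oJ hs hδ hJ SX θ
  obtain ⟨b1, b2, b3, b4⟩ := at1 oJ hs hδ hJ SY θ
  obtain ⟨a5, a6⟩ := at0 oJ hs hδ hJ SX θ
  obtain ⟨b5, b6⟩ := at0 oJ hs hδ hJ SY θ
  have ns : ‖s‖ = 1 := by rcases hs with rfl | rfl <;> simp
  rw [a1, a2, a3, a4, b1, b2, b3, b4, a5, a6, b5, b6, ← smul_sub, ← smul_sub, ← smul_sub, norm_smul, norm_smul,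
    norm_smul, ns, one_mul, one_mul, one_mul]
  exact ⟨h1, h2, h3, h4, h5, h6⟩

end

/-- flatness goes back through the reparametrization -/
lemma fl_back {J : Set ℝ} {u : ℝ → ℝ → E3} {t₀ s δ : ℝ} (oJ : IsOpen J) (hs : s = 1 ∨ s = -1)
    (hδ : 0 < δ) (hJ : Icc (t₀ - δ) (t₀ + δ) ⊆ J) (su : SJ J u) (pu : Per J u)
    (h : Fl 0 (rY t₀ s δ u)) : Fl t₀ u := by
  have ht₀ : t₀ ∈ J := hJ ⟨by linarith, by linarith⟩
  have sr : SJ univ (rY t₀ s δ u) := (rY_sm hs hδ hJ su).contDiffOn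
  have pr : Per univ (rY t₀ s δ u) := fun τ _ θ => pu _ (rp_mem hs hδ hJ τ) θ
  apply hFLT.conv oJ su ht₀
  intro N θ
  obtain ⟨C, η, hη, hC⟩ := hFLT.est isOpen_univ sr pr (mem_univ 0) h N
  have hC0 : 0 ≤ |C| := abs_nonneg C
  refine ⟨|C| * 2 ^ N, min (δ / 2) (η / 2), by positivity, ?_⟩
  intro t ht
  have ht1 : |t - t₀| < δ / 2 := lt_of_lt_of_le ht (min_le_left _ _)
  have ht2 : |t - t₀| < η / 2 := lt_of_lt_of_le ht (min_le_right _ _)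
  -- the inverse
  set x := s * (t - t₀) / δ with hx
  have hxa : |x| = |t - t₀| / δ := by
    rw [hx, abs_div, abs_mul, abs_of_pos hδ]
    rcases hs with rfl | rfl <;> simp
  have hx1 : |x| ≤ 1 / 2 := by
    rw [hxa, div_le_iff₀ hδ]; linarith
  have hx2 := abs_le.mp hx1
  have e1 : sin (arcsin x) = x := sin_arcsin (by linarith) (by linarith)
  have e2 : rp t₀ s δ (δ * arcsin x) = t := by
    have ss : s * s = 1 := by rcases hs with rfl | rfl <;> norm_num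
    unfold rp
    rw [mul_div_cancel_left₀ _ hδ.ne', e1, hx]
    have : s * (δ * (s * (t - t₀) / δ)) = (s * s) * (t - t₀) := by field_simp
    rw [this, ss]; ring
  have e3 : |arcsin x| ≤ 2 * |x| := by
    -- `|y| ≤ 2 |sin y|` for `|y| ≤ π / 2`
    have hy := neg_pi_div_two_le_arcsin x
    have hy2 := arcsin_le_pi_div_two x
    have h3 : 2 / π * |arcsin x| ≤ |sin (arcsin x)| := mul_abs_le_abs_sin (abs_le.mpr ⟨by linarith, hy2⟩)
    rw [e1] at h3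
    have hpi : π ≤ 4 := pi_le_four
    have hpi0 := pi_pos
    have h4 : 1 / 2 ≤ 2 / π := by
      rw [div_le_div_iff₀ (by norm_num) hpi0]; linarith
    nlinarith [abs_nonneg (arcsin x)]
  have e4 : |δ * arcsin x - 0| ≤ 2 * |t - t₀| := by
    rw [sub_zero, abs_mul, abs_of_pos hδ]
    calc δ * |arcsin x| ≤ δ * (2 * |x|) := mul_le_mul_of_nonneg_left e3 hδ.le
      _ = 2 * |t - t₀| := by rw [hxa]; field_simp
  have e5 := hC (δ * arcsin x) (by linarith) θ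
  have e6 : rY t₀ s δ u (δ * arcsin x) θ = u t θ := by
    unfold rY
    rw [e2]
  rw [e6] at e5
  calc ‖u t θ‖ ≤ C * |δ * arcsin x - 0| ^ N := e5
    _ ≤ |C| * |δ * arcsin x - 0| ^ N := mul_le_mul_of_nonneg_right (le_abs_self C) (by positivity)
    _ ≤ |C| * (2 * |t - t₀|) ^ N := mul_le_mul_of_nonneg_left (pow_le_pow_left₀ (abs_nonneg _) e4 N) hC0
    _ = |C| * 2 ^ N * |t - t₀| ^ N := by rw [mul_pow]; ring

section
variable {V : Type} [NormedAddCommGroup V] [NormedSpace ℝ V] {J : Set ℝ} {t₀ : ℝ}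

lemma it_cg (oJ : IsOpen J) {u v : ℝ → ℝ → V} (h : ∀ t ∈ J, ∀ θ, u t θ = v t θ) (k : ℕ) :
    ∀ t ∈ J, ∀ θ, (pt^[k] u) t θ = (pt^[k] v) t θ := by
  induction k with
  | zero => exact h
  | succ n ih =>
    rw [Function.iterate_succ_apply', Function.iterate_succ_apply']
    exact hDR2.pcg oJ ih

lemma fl_cg (oJ : IsOpen J) (ht : t₀ ∈ J) {u v : ℝ → ℝ → V} (h : ∀ t ∈ J, ∀ θ, u t θ = v t θ) (hv : Fl t₀ v) :
    Fl t₀ u := by
  intro k θ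
  rw [it_cg oJ h k t₀ ht θ]
  exact hv k θ

lemma sj_sub {u v : ℝ → ℝ → V} (hu : SJ J u) (hv : SJ J v) : SJ J (fun t θ => u t θ - v t θ) :=
  ContDiffOn.sub (f := fun p : ℝ × ℝ => u p.1 p.2) (g := fun p : ℝ × ℝ => v p.1 p.2) hu hv

lemma sj_smul {a : ℝ → ℝ → ℝ} {u : ℝ → ℝ → V} (ha : SJ J a) (hu : SJ J u) : SJ J (fun t θ => a t θ • u t θ) :=
  ContDiffOn.smul (f := fun p : ℝ × ℝ => a p.1 p.2) (g := fun p : ℝ × ℝ => u p.1 p.2) ha hu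

lemma pt_sub (oJ : IsOpen J) {u v : ℝ → ℝ → V} (hu : SJ J u) (hv : SJ J v) :
    ∀ t ∈ J, ∀ θ, pt (fun t θ => u t θ - v t θ) t θ = pt u t θ - pt v t θ := fun t ht θ =>
  ((hDR2.hpt oJ hu t ht θ).sub (hDR2.hpt oJ hv t ht θ)).deriv

lemma ph_sub (oJ : IsOpen J) {u v : ℝ → ℝ → V} (hu : SJ J u) (hv : SJ J v) :
    ∀ t ∈ J, ∀ θ, ph (fun t θ => u t θ - v t θ) t θ = ph u t θ - ph v t θ := fun t ht θ =>
  ((hDR2.hph oJ hu t ht θ).sub (hDR2.hph oJ hv t ht θ)).deriv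

lemma it_sub (oJ : IsOpen J) (k : ℕ) : ∀ {u v : ℝ → ℝ → V}, SJ J u → SJ J v →
    ∀ t ∈ J, ∀ θ, (pt^[k] (fun t θ => u t θ - v t θ)) t θ = (pt^[k] u) t θ - (pt^[k] v) t θ := by
  induction k with
  | zero => intro u v _ _ t _ θ; rfl
  | succ n ih =>
    intro u v hu hv t ht θ
    rw [Function.iterate_succ_apply, Function.iterate_succ_apply, Function.iterate_succ_apply,
      ← ih (hDR2.spt oJ hu) (hDR2.spt oJ hv) t ht θ]
    exact it_cg oJ (pt_sub oJ hu hv) n t ht θ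

end

lemma cr_sub_left (a b c : E3) : cr (a - b) c = cr a c - cr b c := by
  ext i
  fin_cases i <;> simp [cr] <;> ring

lemma cr_sub_right (a b c : E3) : cr a (b - c) = cr a b - cr a c := by
  ext i
  fin_cases i <;> simp [cr] <;> ring

section
variable {J : Set ℝ} {ρ : ℝ → ℝ → ℝ} {t₀ : ℝ} (oJ : IsOpen J) (ht : t₀ ∈ J)
include oJ ht

omit ht in
lemma sj_eN {X : ℝ → ℝ → E3} (SX : Str J ρ X) : SJ J (eN ρ X) := (hFRM.sl oJ SX).2.2.2.1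

/-- flat contact of two strips gives flat contact of the normals -/
lemma fl_eN {X W : ℝ → ℝ → E3} (SX : Str J ρ X) (SW : Str J ρ W) (h : Fl t₀ (fun t θ => W t θ - X t θ)) :
    Fl t₀ (fun t θ => eN ρ W t θ - eN ρ X t θ) := by
  have sXt := hDR2.spt oJ SX.sm
  have sXh := hDR2.sph oJ SX.sm
  have sWt := hDR2.spt oJ SW.sm
  have sWh := hDR2.sph oJ SW.sm
  have f1 : Fl t₀ (fun t θ => pt W t θ - pt X t θ) :=
    fl_cg oJ ht (fun t h θ => (pt_sub oJ SW.sm SX.sm t h θ).symm) (hFLT.fp h)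
  have f2 : Fl t₀ (fun t θ => ph W t θ - ph X t θ) :=
    fl_cg oJ ht (fun t h θ => (ph_sub oJ SW.sm SX.sm t h θ).symm) (hFLT.fh oJ (sj_sub SW.sm SX.sm) ht h)
  have g1 : Fl t₀ (fun t θ => cr (pt W t θ - pt X t θ) (ph W t θ)) :=
    hFLT.crs oJ (sj_sub sWt sXt) sWh ht f1
  have g2 : Fl t₀ (fun t θ => cr (ph W t θ - ph X t θ) (pt X t θ)) :=
    hFLT.crs oJ (sj_sub sWh sXh) sXt ht f2
  have cru : ∀ {u v : ℝ → ℝ → E3}, SJ J u → SJ J v → SJ J (fun t θ => cr (u t θ) (v t θ)) := by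
    intro u v hu hv
    exact ContDiff.comp_contDiffOn (g := fun p : E3 × E3 => cr p.1 p.2)
      (f := fun p : ℝ × ℝ => (u p.1 p.2, v p.1 p.2)) hCRS.sm (ContDiffOn.prodMk hu hv)
  have s1 := cru (sj_sub sWt sXt) sWh
  have s2 := cru (sj_sub sWh sXh) sXt
  have cm : SJ J (fun (_ _ : ℝ) => (-1:ℝ)) := contDiffOn_const
  have g3 : Fl t₀ (fun t θ => (-1:ℝ) • cr (ph W t θ - ph X t θ) (pt X t θ)) := hFLT.smul oJ cm s2 ht g2
  have g4 := hFLT.add oJ s1 (sj_smul cm s2) ht g1 g3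
  have sri : SJ J (fun t θ => (ρ t θ)⁻¹) :=
    ContDiffOn.inv (f := fun p : ℝ × ℝ => ρ p.1 p.2) SX.sr (fun p hp => (SX.pos p.1 hp.1 p.2).ne')
  have s3 : SJ J (fun t θ => cr (pt W t θ - pt X t θ) (ph W t θ) +
      (-1:ℝ) • cr (ph W t θ - ph X t θ) (pt X t θ)) :=
    ContDiffOn.add (f := fun p : ℝ × ℝ => cr (pt W p.1 p.2 - pt X p.1 p.2) (ph W p.1 p.2))
      (g := fun p : ℝ × ℝ => (-1:ℝ) • cr (ph W p.1 p.2 - ph X p.1 p.2) (pt X p.1 p.2)) s1 (sj_smul cm s2)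
  have g5 := hFLT.smul oJ sri s3 ht g4
  refine fl_cg oJ ht (fun t _ θ => ?_) g5
  simp only [eN]
  rw [← smul_sub]
  congr 1
  rw [cr_sub_left, cr_sub_left, CLPM.cr_swap (pt X t θ) (ph W t θ), CLPM.cr_swap (pt X t θ) (ph X t θ)]
  module

/-- flat contact gives flat difference of `⟨a, N⟩` -/
lemma fl_inn {X W a c : ℝ → ℝ → E3} (SX : Str J ρ X) (SW : Str J ρ W) (h : Fl t₀ (fun t θ => W t θ - X t θ))
    (sa : SJ J a) (sc : SJ J c) (hac : Fl t₀ (fun t θ => a t θ - c t θ)) :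
    Fl t₀ (fun t θ => ⟪a t θ, eN ρ W t θ⟫_ℝ - ⟪c t θ, eN ρ X t θ⟫_ℝ) := by
  have f1 := fl_eN oJ ht SX SW h
  have sW := sj_eN oJ SW
  have sX := sj_eN oJ SX
  have g1 := hFLT.inn oJ (sj_sub sa sc) sW ht hac
  have g2 := hFLT.inn oJ (sj_sub sW sX) sc ht f1
  have s1 : SJ J (fun t θ => ⟪a t θ - c t θ, eN ρ W t θ⟫_ℝ) := ContDiffOn.inner ℝ (sj_sub sa sc) sW
  have s2 : SJ J (fun t θ => ⟪eN ρ W t θ - eN ρ X t θ, c t θ⟫_ℝ) := ContDiffOn.inner ℝ (sj_sub sW sX) sc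
  have g3 := hFLT.add oJ s1 s2 ht g1 g2
  refine fl_cg oJ ht (fun t _ θ => ?_) g3
  simp only [inner_sub_left]
  rw [real_inner_comm (c t θ) (eN ρ W t θ), real_inner_comm (c t θ) (eN ρ X t θ)]
  ring

lemma fl_forms {X W : ℝ → ℝ → E3} (SX : Str J ρ X) (SW : Str J ρ W) (h : Fl t₀ (fun t θ => W t θ - X t θ)) :
    Fl t₀ (fun t θ => lf ρ W t θ - lf ρ X t θ) ∧ Fl t₀ (fun t θ => mf ρ W t θ - mf ρ X t θ) ∧
    Fl t₀ (fun t θ => nf ρ W t θ - nf ρ X t θ) := by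
  have sXt := hDR2.spt oJ SX.sm
  have sXh := hDR2.sph oJ SX.sm
  have sWt := hDR2.spt oJ SW.sm
  have sWh := hDR2.sph oJ SW.sm
  have f1 : Fl t₀ (fun t θ => pt W t θ - pt X t θ) :=
    fl_cg oJ ht (fun t h θ => (pt_sub oJ SW.sm SX.sm t h θ).symm) (hFLT.fp h)
  have f2 : Fl t₀ (fun t θ => ph W t θ - ph X t θ) :=
    fl_cg oJ ht (fun t h θ => (ph_sub oJ SW.sm SX.sm t h θ).symm) (hFLT.fh oJ (sj_sub SW.sm SX.sm) ht h)
  have f11 : Fl t₀ (fun t θ => pt (pt W) t θ - pt (pt X) t θ) :=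
    fl_cg oJ ht (fun t h θ => (pt_sub oJ sWt sXt t h θ).symm) (hFLT.fp f1)
  have f12 : Fl t₀ (fun t θ => pt (ph W) t θ - pt (ph X) t θ) :=
    fl_cg oJ ht (fun t h θ => (pt_sub oJ sWh sXh t h θ).symm) (hFLT.fp f2)
  have f22 : Fl t₀ (fun t θ => ph (ph W) t θ - ph (ph X) t θ) :=
    fl_cg oJ ht (fun t h θ => (ph_sub oJ sWh sXh t h θ).symm) (hFLT.fh oJ (sj_sub sWh sXh) ht f2)
  have i1 := fl_inn oJ ht SX SW h (hDR2.spt oJ sWt) (hDR2.spt oJ sXt) f11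
  have i2 := fl_inn oJ ht SX SW h (hDR2.spt oJ sWh) (hDR2.spt oJ sXh) f12
  have i3 := fl_inn oJ ht SX SW h (hDR2.sph oJ sWh) (hDR2.sph oJ sXh) f22
  have sri : SJ J (fun t θ => (ρ t θ)⁻¹) :=
    ContDiffOn.inv (f := fun p : ℝ × ℝ => ρ p.1 p.2) SX.sr (fun p hp => (SX.pos p.1 hp.1 p.2).ne')
  have sri2 : SJ J (fun t θ => (ρ t θ ^ 2)⁻¹) :=
    ContDiffOn.inv (f := fun p : ℝ × ℝ => ρ p.1 p.2 ^ 2) (ContDiffOn.pow SX.sr 2)
      (fun p hp => (pow_pos (SX.pos p.1 hp.1 p.2) 2).ne')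
  have sW := sj_eN oJ SW
  have sX := sj_eN oJ SX
  have s2 : SJ J (fun t θ => ⟪pt (ph W) t θ, eN ρ W t θ⟫_ℝ - ⟪pt (ph X) t θ, eN ρ X t θ⟫_ℝ) :=
    sj_sub (ContDiffOn.inner ℝ (hDR2.spt oJ sWh) sW) (ContDiffOn.inner ℝ (hDR2.spt oJ sXh) sX)
  have s3 : SJ J (fun t θ => ⟪ph (ph W) t θ, eN ρ W t θ⟫_ℝ - ⟪ph (ph X) t θ, eN ρ X t θ⟫_ℝ) :=
    sj_sub (ContDiffOn.inner ℝ (hDR2.sph oJ sWh) sW) (ContDiffOn.inner ℝ (hDR2.sph oJ sXh) sX)
  refine ⟨i1, ?_, ?_⟩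
  · refine fl_cg oJ ht (fun t _ θ => ?_) (hFLT.smul oJ sri s2 ht i2)
    simp only [mf, smul_eq_mul]
    ring
  · refine fl_cg oJ ht (fun t _ θ => ?_) (hFLT.smul oJ sri2 s3 ht i3)
    simp only [nf, smul_eq_mul]
    ring

end

section
variable {J : Set ℝ} {ρ : ℝ → ℝ → ℝ} {Y : ℝ → ℝ → E3} (oJ : IsOpen J) (SY : Str J ρ Y) (g : E3 ≃ₗᵢ[ℝ] E3) (b : E3)
include oJ

lemma g_pt {Z : ℝ → ℝ → E3} (sZ : SJ J Z) : ∀ t ∈ J, ∀ θ, pt (fun t θ => g (Z t θ) + b) t θ = g (pt Z t θ) := by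
  intro t ht θ
  have h3 : HasDerivAt (fun s => g (Z s θ)) (g (pt Z t θ)) t :=
    (g.toContinuousLinearEquiv.toContinuousLinearMap.hasFDerivAt).comp_hasDerivAt t (hDR2.hpt oJ sZ t ht θ)
  exact (h3.add_const b).deriv

lemma g_ph {Z : ℝ → ℝ → E3} (sZ : SJ J Z) : ∀ t ∈ J, ∀ θ, ph (fun t θ => g (Z t θ) + b) t θ = g (ph Z t θ) := by
  intro t ht θ
  have h3 : HasDerivAt (fun s => g (Z t s)) (g (ph Z t θ)) θ :=
    (g.toContinuousLinearEquiv.toContinuousLinearMap.hasFDerivAt).comp_hasDerivAt θ (hDR2.hph oJ sZ t ht θ)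
  exact (h3.add_const b).deriv

lemma g_pt0 {Z : ℝ → ℝ → E3} (sZ : SJ J Z) : ∀ t ∈ J, ∀ θ, pt (fun t θ => g (Z t θ)) t θ = g (pt Z t θ) := by
  have := g_pt oJ g 0 sZ
  simpa using this

lemma g_ph0 {Z : ℝ → ℝ → E3} (sZ : SJ J Z) : ∀ t ∈ J, ∀ θ, ph (fun t θ => g (Z t θ)) t θ = g (ph Z t θ) := by
  have := g_ph oJ g 0 sZ
  simpa using this

omit oJ in
lemma g_sm {Z : ℝ → ℝ → E3} (sZ : SJ J Z) : SJ J (fun t θ => g (Z t θ) + b) := by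
  have h : ContDiffOn ℝ ∞ (fun p : ℝ × ℝ => g.toContinuousLinearEquiv.toContinuousLinearMap (Z p.1 p.2)) (J ×ˢ univ) :=
    (g.toContinuousLinearEquiv.toContinuousLinearMap.contDiff).comp_contDiffOn sZ
  exact h.add contDiffOn_const

include SY in
lemma g_str : Str J ρ (fun t θ => g (Y t θ) + b) where
  sm := g_sm g b SY.sm
  per := fun t ht θ => by
    have := SY.per t ht θ
    simp only [this]
  sr := SY.sr
  pos := SY.pos
  tt := fun t ht θ => by rw [g_pt oJ g b SY.sm t ht, g.inner_map_map]; exact SY.tt t ht θ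
  th := fun t ht θ => by rw [g_pt oJ g b SY.sm t ht, g_ph oJ g b SY.sm t ht, g.inner_map_map]; exact SY.th t ht θ
  hh := fun t ht θ => by rw [g_ph oJ g b SY.sm t ht, g.inner_map_map]; exact SY.hh t ht θ

variable (hg : ∀ x y, cr (g x) (g y) = g (cr x y))
include hg SY

lemma g_eN : ∀ t ∈ J, ∀ θ, eN ρ (fun t θ => g (Y t θ) + b) t θ = g (eN ρ Y t θ) := by
  intro t ht θ
  rw [eN, eN, g_pt oJ g b SY.sm t ht, g_ph oJ g b SY.sm t ht, hg, map_smul]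

lemma g_lf : ∀ t ∈ J, ∀ θ, lf ρ (fun t θ => g (Y t θ) + b) t θ = lf ρ Y t θ := by
  intro t ht θ
  have h := hDR2.pcg oJ (g_pt oJ g b SY.sm) t ht θ
  rw [g_pt0 oJ g (hDR2.spt oJ SY.sm) t ht] at h
  rw [lf, lf, h, g_eN oJ SY g b hg t ht, g.inner_map_map]

lemma g_mf : ∀ t ∈ J, ∀ θ, mf ρ (fun t θ => g (Y t θ) + b) t θ = mf ρ Y t θ := by
  intro t ht θ
  have h := hDR2.pcg oJ (g_ph oJ g b SY.sm) t ht θ
  rw [g_pt0 oJ g (hDR2.sph oJ SY.sm) t ht] at h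
  rw [mf, mf, h, g_eN oJ SY g b hg t ht, g.inner_map_map]

lemma g_nf : ∀ t ∈ J, ∀ θ, nf ρ (fun t θ => g (Y t θ) + b) t θ = nf ρ Y t θ := by
  intro t ht θ
  have h := hDR2.hcg (g_ph oJ g b SY.sm) t ht θ
  rw [g_ph0 oJ g (hDR2.sph oJ SY.sm) t ht] at h
  rw [nf, nf, h, g_eN oJ SY g b hg t ht, g.inner_map_map]

end

end BRGM

open BRGM PAIM in
/-- **the bridge**: closeness along a rim makes the difference of the second fundamental forms flat -/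
theorem bridge {J : Set ℝ} {ρ : ℝ → ℝ → ℝ} {X : ℝ → ℝ → E3} {t₀ s : ℝ} {R : ℝ → ℝ} {u₁ u₂ : E3} (oJ : IsOpen J)
    (ht : t₀ ∈ J) (SX : Str J ρ X) (hs : s = 1 ∨ s = -1) (h1 : ‖u₁‖ = 1) (h2 : ‖u₂‖ = 1) (h12 : ⟪u₁, u₂⟫_ℝ = 0)
    (Rpos : ∀ θ, 0 < R θ) (tan : ∀ θ, ph X t₀ θ = R θ • (cos θ • u₁ + sin θ • u₂))
    (nor : ∀ θ, pt X t₀ θ = s • (-sin θ • u₁ + cos θ • u₂)) (nd : ∀ θ, ⟪pt (pt X) t₀ θ, cr u₁ u₂⟫_ℝ ≠ 0) :
    ∃ ε : ℝ, 0 < ε ∧ ∀ Y : ℝ → ℝ → E3, Str J ρ Y → ClJ ε t₀ X Y →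
      Fl t₀ (fun t θ => lf ρ Y t θ - lf ρ X t θ) ∧ Fl t₀ (fun t θ => mf ρ Y t θ - mf ρ X t θ) ∧
      Fl t₀ (fun t θ => nf ρ Y t θ - nf ρ X t θ) := by
  obtain ⟨δ, hδ, hJ⟩ : ∃ δ : ℝ, 0 < δ ∧ Icc (t₀ - δ) (t₀ + δ) ⊆ J := by
    obtain ⟨η, hη, h⟩ := Metric.isOpen_iff.mp oJ t₀ ht
    refine ⟨η / 2, by positivity, fun x hx => h ?_⟩
    rw [Metric.mem_ball, Real.dist_eq, abs_lt]
    constructor <;> linarith [hx.1, hx.2]
  have ss : s * s = 1 := by rcases hs with rfl | rfl <;> norm_num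
  have F : Rim (rY t₀ s δ X) R u₁ u₂ := {
    sm := rY_sm hs hδ hJ SX.sm
    per := fun τ θ => SX.per _ (rp_mem hs hδ hJ τ) θ
    h1 := h1
    h2 := h2
    h12 := h12
    Rpos := Rpos
    tan := fun θ => by rw [(at1 oJ hs hδ hJ SX θ).1]; exact tan θ
    nor := fun θ => by rw [(at0 oJ hs hδ hJ SX θ).1, nor θ, smul_smul, ss, one_smul]
    nd := fun θ => by rw [(at0 oJ hs hδ hJ SX θ).2]; exact nd θ }
  obtain ⟨ε, hε, hY⟩ := iso F
  refine ⟨ε, hε, ?_⟩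
  intro Y SY hcl
  obtain ⟨g, b, hg, hk⟩ := hY (rY t₀ s δ Y) (rY_iso oJ hs hδ hJ SX SY) (cl_tr oJ hs hδ hJ SX SY hcl)
  have SW := g_str oJ SY g b
  have hW : Fl 0 (rY t₀ s δ (fun t θ => (g (Y t θ) + b) - X t θ)) := by
    intro k θ
    have e1 := it_sub (J := univ) isOpen_univ k (u := rY t₀ s δ (fun t θ => g (Y t θ) + b)) (v := rY t₀ s δ X)
      (rY_sm hs hδ hJ SW.sm).contDiffOn (rY_sm hs hδ hJ SX.sm).contDiffOn 0 (mem_univ 0) θ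
    have e2 : (pt^[k] (rY t₀ s δ (fun t θ => g (Y t θ) + b))) 0 θ = (pt^[k] (rY t₀ s δ X)) 0 θ := hk k θ
    rw [e2, sub_self] at e1
    exact e1
  have f0 := fl_back oJ hs hδ hJ (sj_sub SW.sm SX.sm)
    (fun t ht θ => by simp only [SY.per t ht θ, SX.per t ht θ]) hW
  obtain ⟨k1, k2, k3⟩ := fl_forms oJ ht SX SW f0
  refine ⟨?_, ?_, ?_⟩
  · refine fl_cg oJ ht (fun t h θ => ?_) k1
    rw [g_lf oJ SY g b hg t h θ]
  · refine fl_cg oJ ht (fun t h θ => ?_) k2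
    rw [g_mf oJ SY g b hg t h θ]
  · refine fl_cg oJ ht (fun t h θ => ?_) k3
    rw [g_nf oJ SY g b hg t h θ]

end Rim478
end
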