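import Pool.Agent.Lib.MP_478c11_gt.U.Spec

section
set_option autoImplicit false

/-! # MP_478c11_gt, part U, module CON (helper29): equal forms imply congruent -/

open Real MeasureTheory Set Filter Topology
open scoped ContDiff InnerProductSpace

namespace Rim478
namespace CONM

/-- the derivative of the frame comparison map vanishes -/
lemma der0 {v : E3} {a b c a' b' c' : ℝ → E3} {r : ℝ → ℝ} {r1 α β γ s : ℝ}
    (hr : HasDerivAt r r1 s) (h0 : r s ≠ 0)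
    (ha : HasDerivAt a (α • b s + β • c s) s)
    (hb : HasDerivAt b (-(α * r s ^ 2) • a s + (r1 / r s) • b s + γ • c s) s)
    (hc : HasDerivAt c (-β • a s - (γ / r s ^ 2) • b s) s)
    (ha' : HasDerivAt a' (α • b' s + β • c' s) s)
    (hb' : HasDerivAt b' (-(α * r s ^ 2) • a' s + (r1 / r s) • b' s + γ • c' s) s)
    (hc' : HasDerivAt c' (-β • a' s - (γ / r s ^ 2) • b' s) s) :
    HasDerivAt (fun s => ⟪v, a s⟫_ℝ • a' s + ((r s ^ 2)⁻¹ * ⟪v, b s⟫_ℝ) • b' s +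
      ⟪v, c s⟫_ℝ • c' s) 0 s := by
  have hv : HasDerivAt (fun _ : ℝ => v) 0 s := hasDerivAt_const s v
  have hr2 : HasDerivAt (fun s => (r s ^ 2)⁻¹) (-(2 * r s * r1) / (r s ^ 2) ^ 2) s := by
    have := (hr.pow 2).inv (pow_ne_zero 2 h0)
    refine this.congr_deriv ?_
    norm_num
  have h1 := (hv.inner ℝ ha).smul ha'
  have h2 := (hr2.mul (hv.inner ℝ hb)).smul hb'
  have h3 := (hv.inner ℝ hc).smul hc'
  refine ((h1.add h2).add h3).congr_deriv ?_
  simp only [inner_add_right, inner_sub_right, inner_smul_right, inner_neg_right, inner_zero_left, add_zero,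
    neg_smul, Pi.mul_apply]
  match_scalars <;> field_simp <;> ring

/-- the frame comparison map -/
noncomputable def fcm (ρ : ℝ → ℝ → ℝ) (X Y : ℝ → ℝ → E3) (v : E3) (t θ : ℝ) : E3 :=
  ⟪v, pt Y t θ⟫_ℝ • pt X t θ + ((ρ t θ ^ 2)⁻¹ * ⟪v, ph Y t θ⟫_ℝ) • ph X t θ +
    ⟪v, eN ρ Y t θ⟫_ℝ • eN ρ X t θ

lemma gcomb (g : E3 ≃ₗᵢ[ℝ] E3) {a b c a' b' c' : E3} (g1 : g a = a') (g2 : g b = b') (g3 : g c = c') (x y z : ℝ) :
    g (x • a + y • b + z • c) = x • a' + y • b' + z • c' := by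
  rw [map_add, map_add, map_smul, map_smul, map_smul, g1, g2, g3]

end CONM

open CONM in
theorem specCON (hDR2 : SpecDR2) (hCRS : SpecCRS) (hFRM : SpecFRM) : SpecCON := by
  intro J ρ X Y hJ hJc hX hY heq
  rcases J.eq_empty_or_nonempty with rfl | ⟨t₀, ht₀⟩
  · exact ⟨LinearIsometryEquiv.refl ℝ E3, 0, fun t ht => absurd ht (by simp)⟩
  -- derivative facts
  have hsX := hFRM.sl hJ hX
  have hsY := hFRM.sl hJ hY
  have dth : ∀ v : E3, ∀ t ∈ J, ∀ θ, HasDerivAt (fun s => fcm ρ X Y v t s) 0 θ := by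
    intro v t ht θ
    obtain ⟨el, em, en⟩ := heq t ht θ
    have h0 : ρ t θ ≠ 0 := (hX.pos t ht θ).ne'
    refine der0 (a := fun s => pt Y t s) (b := fun s => ph Y t s) (c := fun s => eN ρ Y t s)
      (a' := fun s => pt X t s) (b' := fun s => ph X t s) (c' := fun s => eN ρ X t s)
      (r := fun s => ρ t s) (r1 := ph ρ t θ) (α := pt ρ t θ / ρ t θ) (β := ρ t θ * mf ρ X t θ)
      (γ := ρ t θ ^ 2 * nf ρ X t θ) (hDR2.hph hJ hX.sr t ht θ) h0 ?_ ?_ ?_ ?_ ?_ ?_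
    · have := hDR2.hph hJ (hDR2.spt hJ hY.sm) t ht θ
      rwa [hFRM.e1h hJ hY t ht θ, em] at this
    · have := hDR2.hph hJ (hDR2.sph hJ hY.sm) t ht θ
      rw [hFRM.e2h hJ hY t ht θ, en] at this
      refine this.congr_deriv ?_
      match_scalars <;> field_simp
    · have := hDR2.hph hJ hsY.2.2.2.1 t ht θ
      rw [hFRM.nh hJ hY t ht θ, en, em] at this
      refine this.congr_deriv ?_
      match_scalars <;> field_simp
    · have := hDR2.hph hJ (hDR2.spt hJ hX.sm) t ht θ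
      rwa [hFRM.e1h hJ hX t ht θ] at this
    · have := hDR2.hph hJ (hDR2.sph hJ hX.sm) t ht θ
      rw [hFRM.e2h hJ hX t ht θ] at this
      refine this.congr_deriv ?_
      match_scalars <;> field_simp
    · have := hDR2.hph hJ hsX.2.2.2.1 t ht θ
      rw [hFRM.nh hJ hX t ht θ] at this
      refine this.congr_deriv ?_
      match_scalars <;> field_simp
  have dtt : ∀ v : E3, ∀ t ∈ J, ∀ θ, HasDerivAt (fun s => fcm ρ X Y v s θ) 0 t := by
    intro v t ht θ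
    obtain ⟨el, em, en⟩ := heq t ht θ
    have h0 : ρ t θ ≠ 0 := (hX.pos t ht θ).ne'
    refine der0 (a := fun s => pt Y s θ) (b := fun s => ph Y s θ) (c := fun s => eN ρ Y s θ)
      (a' := fun s => pt X s θ) (b' := fun s => ph X s θ) (c' := fun s => eN ρ X s θ)
      (r := fun s => ρ s θ) (r1 := pt ρ t θ) (α := 0) (β := lf ρ X t θ)
      (γ := ρ t θ * mf ρ X t θ) (hDR2.hpt hJ hX.sr t ht θ) h0 ?_ ?_ ?_ ?_ ?_ ?_
    · have := hDR2.hpt hJ (hDR2.spt hJ hY.sm) t ht θ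
      rw [hFRM.e1t hJ hY t ht θ, el] at this
      refine this.congr_deriv ?_
      simp
    · have := hDR2.hpt hJ (hDR2.sph hJ hY.sm) t ht θ
      rw [hDR2.comm hJ hY.sm t ht θ, hFRM.e1h hJ hY t ht θ, em] at this
      refine this.congr_deriv ?_
      simp
    · have := hDR2.hpt hJ hsY.2.2.2.1 t ht θ
      rw [hFRM.nt hJ hY t ht θ, el, em] at this
      refine this.congr_deriv ?_
      match_scalars <;> field_simp
    · have := hDR2.hpt hJ (hDR2.spt hJ hX.sm) t ht θ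
      rw [hFRM.e1t hJ hX t ht θ] at this
      refine this.congr_deriv ?_
      simp
    · have := hDR2.hpt hJ (hDR2.sph hJ hX.sm) t ht θ
      rw [hDR2.comm hJ hX.sm t ht θ, hFRM.e1h hJ hX t ht θ] at this
      refine this.congr_deriv ?_
      simp
    · have := hDR2.hpt hJ hsX.2.2.2.1 t ht θ
      rw [hFRM.nt hJ hX t ht θ] at this
      refine this.congr_deriv ?_
      match_scalars <;> field_simp
  -- functions with zero derivatives are constant
  have key : ∀ F : ℝ → ℝ → E3, (∀ t ∈ J, ∀ θ, HasDerivAt (fun s => F t s) 0 θ) →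
      (∀ t ∈ J, ∀ θ, HasDerivAt (fun s => F s θ) 0 t) → ∀ t ∈ J, ∀ θ, F t θ = F t₀ 0 := by
    intro F h1 h2 t ht θ
    have e1 : F t θ = F t 0 :=
      is_const_of_deriv_eq_zero (f := fun s => F t s) (fun s => (h1 t ht s).differentiableAt)
        (fun s => (h1 t ht s).deriv) θ 0
    have e2 : F t 0 = F t₀ 0 :=
      hJ.is_const_of_deriv_eq_zero (f := fun s => F s 0) hJc.isPreconnected
        (fun s hs => (h2 s hs 0).differentiableAt.differentiableWithinAt)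
        (fun s hs => (h2 s hs 0).deriv) ht ht₀
    rw [e1, e2]
  -- the isometry
  obtain ⟨oX1, oX2, oX12, oXN⟩ := hFRM.on hJ hX t₀ ht₀ 0
  obtain ⟨oY1, oY2, oY12, oYN⟩ := hFRM.on hJ hY t₀ ht₀ 0
  obtain ⟨g, g1, g2, g3⟩ := hCRS.mot _ _ _ _ oY1 oY2 oY12 oX1 oX2 oX12
  have hg : ∀ v : E3, ∀ t ∈ J, ∀ θ, fcm ρ X Y v t θ = g v := by
    intro v t ht θ
    rw [key (fcm ρ X Y v) (dth v) (dtt v) t ht θ]
    have hv := hCRS.exp _ _ oY1 oY2 oY12 v
    have h0 : ρ t₀ 0 ≠ 0 := (hX.pos t₀ ht₀ 0).ne'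
    have hgv : g v = ⟪v, pt Y t₀ 0⟫_ℝ • pt X t₀ 0 + ⟪v, (ρ t₀ 0)⁻¹ • ph Y t₀ 0⟫_ℝ • ((ρ t₀ 0)⁻¹ • ph X t₀ 0) +
        ⟪v, eN ρ Y t₀ 0⟫_ℝ • eN ρ X t₀ 0 := by
      conv_lhs => rw [hv]
      rw [gcomb g g1 g2 g3, ← oYN, ← oXN]
    rw [hgv]
    unfold fcm
    rw [inner_smul_right]
    match_scalars <;> field_simp
  have gpt : ∀ t ∈ J, ∀ θ, g (pt Y t θ) = pt X t θ := by
    intro t ht θ
    rw [← hg _ t ht θ]
    obtain ⟨o1, o2, o12, oN⟩ := hFRM.on hJ hY t ht θ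
    have hN : ⟪pt Y t θ, eN ρ Y t θ⟫_ℝ = 0 := by
      rw [oN, real_inner_comm, hCRS.o1]
    unfold fcm
    rw [hY.tt t ht θ, hY.th t ht θ, hN]
    simp
  have gph : ∀ t ∈ J, ∀ θ, g (ph Y t θ) = ph X t θ := by
    intro t ht θ
    rw [← hg _ t ht θ]
    have h0 : ρ t θ ≠ 0 := (hX.pos t ht θ).ne'
    have hN : ⟪ph Y t θ, eN ρ Y t θ⟫_ℝ = 0 := by
      unfold eN
      rw [inner_smul_right, real_inner_comm, hCRS.o2, mul_zero]
    have hth : ⟪ph Y t θ, pt Y t θ⟫_ℝ = 0 := by rw [real_inner_comm, hY.th t ht θ]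
    unfold fcm
    rw [hY.hh t ht θ, hth, hN, inv_mul_cancel₀ (pow_ne_zero 2 h0)]
    simp
  refine ⟨g, -(g (Y t₀ 0) - X t₀ 0), fun t ht θ => ?_⟩
  have hW := key (fun t θ => g (Y t θ) - X t θ) (fun t ht θ => by
      have a1 := (g.toContinuousLinearEquiv.toContinuousLinearMap.hasFDerivAt (x := Y t θ)).comp_hasDerivAt θ
        (hDR2.hph hJ hY.sm t ht θ)
      have a2 := hDR2.hph hJ hX.sm t ht θ
      refine (a1.sub a2).congr_deriv ?_
      have := gph t ht θ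
      simpa [sub_eq_zero] using this)
    (fun t ht θ => by
      have a1 := (g.toContinuousLinearEquiv.toContinuousLinearMap.hasFDerivAt (x := Y t θ)).comp_hasDerivAt t
        (hDR2.hpt hJ hY.sm t ht θ)
      have a2 := hDR2.hpt hJ hX.sm t ht θ
      refine (a1.sub a2).congr_deriv ?_
      have := gpt t ht θ
      simpa [sub_eq_zero] using this) t ht θ
  have hW' : g (Y t θ) - X t θ = g (Y t₀ 0) - X t₀ 0 := hW
  rw [← hW']
  abel

end Rim478
end

section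
set_option autoImplicit false

/-!
# DR2: partial derivatives on an open strip
-/

open Real MeasureTheory Set Filter Topology
open scoped ContDiff InnerProductSpace

namespace Rim478

namespace DR2M

section

variable {V : Type} [NormedAddCommGroup V] [NormedSpace ℝ V] {J : Set ℝ} {G H : ℝ → ℝ → V}

/-- uncurried function -/
def unc (G : ℝ → ℝ → V) : ℝ × ℝ → V := fun p => G p.1 p.2

theorem opn (hJ : IsOpen J) : IsOpen (J ×ˢ (univ : Set ℝ)) := hJ.prod isOpen_univ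

theorem nh (hJ : IsOpen J) {t : ℝ} (ht : t ∈ J) (θ : ℝ) : J ×ˢ (univ : Set ℝ) ∈ 𝓝 (t, θ) :=
  (opn hJ).mem_nhds ⟨ht, mem_univ _⟩

theorem at0 (hJ : IsOpen J) (hG : SJ J G) {t : ℝ} (ht : t ∈ J) (θ : ℝ) :
    ContDiffAt ℝ ∞ (unc G) (t, θ) := ContDiffOn.contDiffAt hG (nh hJ ht θ)

theorem hasF (hJ : IsOpen J) (hG : SJ J G) {t : ℝ} (ht : t ∈ J) (θ : ℝ) :
    HasFDerivAt (unc G) (fderiv ℝ (unc G) (t, θ)) (t, θ) :=
  ((at0 hJ hG ht θ).differentiableAt (by simp)).hasFDerivAt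

theorem hpt0 (hJ : IsOpen J) (hG : SJ J G) {t : ℝ} (ht : t ∈ J) (θ : ℝ) :
    HasDerivAt (fun s => G s θ) (fderiv ℝ (unc G) (t, θ) (1, 0)) t := by
  have h1 : HasDerivAt (fun s : ℝ => ((s, θ) : ℝ × ℝ)) (1, 0) t :=
    (hasDerivAt_id t).prodMk (hasDerivAt_const t θ)
  exact (hasF hJ hG ht θ).comp_hasDerivAt t h1

theorem hph0 (hJ : IsOpen J) (hG : SJ J G) {t : ℝ} (ht : t ∈ J) (θ : ℝ) :
    HasDerivAt (fun s => G t s) (fderiv ℝ (unc G) (t, θ) (0, 1)) θ := by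
  have h1 : HasDerivAt (fun s : ℝ => ((t, s) : ℝ × ℝ)) (0, 1) θ :=
    (hasDerivAt_const θ t).prodMk (hasDerivAt_id θ)
  exact (hasF hJ hG ht θ).comp_hasDerivAt θ h1

theorem pt_eq (hJ : IsOpen J) (hG : SJ J G) {t : ℝ} (ht : t ∈ J) (θ : ℝ) :
    pt G t θ = fderiv ℝ (unc G) (t, θ) (1, 0) := (hpt0 hJ hG ht θ).deriv

theorem ph_eq (hJ : IsOpen J) (hG : SJ J G) {t : ℝ} (ht : t ∈ J) (θ : ℝ) :
    ph G t θ = fderiv ℝ (unc G) (t, θ) (0, 1) := (hph0 hJ hG ht θ).deriv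

theorem smF (hJ : IsOpen J) (hG : SJ J G) (v : ℝ × ℝ) :
    ContDiffOn ℝ ∞ (fun p : ℝ × ℝ => fderiv ℝ (unc G) p v) (J ×ˢ univ) :=
  (ContDiffOn.fderiv_of_isOpen (f := unc G) (m := ∞) hG (opn hJ) (by simp)).clm_apply
    contDiffOn_const

theorem spt0 (hJ : IsOpen J) (hG : SJ J G) : SJ J (pt G) :=
  (smF hJ hG (1, 0)).congr fun p hp => pt_eq hJ hG hp.1 p.2

theorem sph0 (hJ : IsOpen J) (hG : SJ J G) : SJ J (ph G) :=
  (smF hJ hG (0, 1)).congr fun p hp => ph_eq hJ hG hp.1 p.2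

theorem second (hJ : IsOpen J) (hG : SJ J G) {t : ℝ} (ht : t ∈ J) (θ : ℝ) (v w : ℝ × ℝ) :
    fderiv ℝ (fun q : ℝ × ℝ => fderiv ℝ (unc G) q v) (t, θ) w =
      fderiv ℝ (fderiv ℝ (unc G)) (t, θ) w v := by
  have h1 : DifferentiableAt ℝ (fderiv ℝ (unc G)) (t, θ) :=
    ((ContDiffOn.fderiv_of_isOpen (f := unc G) (m := ∞) hG (opn hJ) (by simp)).contDiffAt
      (nh hJ ht θ)).differentiableAt (by simp)
  have h2 := h1.hasFDerivAt.clm_apply (hasFDerivAt_const v (t, θ))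
  rw [h2.fderiv]
  simp

theorem pcg0 (hJ : IsOpen J) (h : ∀ t ∈ J, ∀ θ, G t θ = H t θ) {t : ℝ} (ht : t ∈ J) (θ : ℝ) :
    pt G t θ = pt H t θ := by
  unfold pt
  apply Filter.EventuallyEq.deriv_eq
  filter_upwards [hJ.mem_nhds ht] with s hs
  exact h s hs θ

theorem comm0 (hJ : IsOpen J) (hG : SJ J G) {t : ℝ} (ht : t ∈ J) (θ : ℝ) :
    pt (ph G) t θ = ph (pt G) t θ := by
  rw [pt_eq hJ (sph0 hJ hG) ht, ph_eq hJ (spt0 hJ hG) ht]
  have e1 : unc (ph G) =ᶠ[𝓝 (t, θ)] fun p : ℝ × ℝ => fderiv ℝ (unc G) p (0, 1) := by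
    filter_upwards [nh hJ ht θ] with p hp
    exact ph_eq hJ hG hp.1 p.2
  have e2 : unc (pt G) =ᶠ[𝓝 (t, θ)] fun p : ℝ × ℝ => fderiv ℝ (unc G) p (1, 0) := by
    filter_upwards [nh hJ ht θ] with p hp
    exact pt_eq hJ hG hp.1 p.2
  rw [e1.fderiv_eq, e2.fderiv_eq, second hJ hG ht, second hJ hG ht]
  have h3 : IsSymmSndFDerivAt ℝ (unc G) (t, θ) :=
    (at0 hJ hG ht θ).isSymmSndFDerivAt (by
      rw [minSmoothness_of_isRCLikeNormedField]
      exact WithTop.coe_le_coe.2 (le_top (a := (2:ℕ∞))))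
  exact h3.eq (1, 0) (0, 1)

theorem perh0 (hG : Per J G) {t : ℝ} (ht : t ∈ J) (θ : ℝ) :
    ph G t (θ + 2 * π) = ph G t θ := by
  unfold ph
  rw [← deriv_comp_add_const]
  congr 1
  funext s
  exact hG t ht s

theorem cont0 (hG : SJ J G) {t : ℝ} (ht : t ∈ J) : ContDiff ℝ ∞ (fun θ => G t θ) := by
  have h1 : ContDiffOn ℝ ∞ (fun θ : ℝ => ((t, θ) : ℝ × ℝ)) univ :=
    (contDiff_const.prodMk contDiff_id).contDiffOn
  have h2 : MapsTo (fun θ : ℝ => ((t, θ) : ℝ × ℝ)) univ (J ×ˢ univ) := fun θ _ => ⟨ht, mem_univ _⟩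
  have h3 : ContDiffOn ℝ ∞ ((unc G) ∘ fun θ : ℝ => ((t, θ) : ℝ × ℝ)) univ :=
    ContDiffOn.comp (g := unc G) hG h1 h2
  exact contDiffOn_univ.1 h3

end

end DR2M

theorem specDR2 : SpecDR2 where
  spt := DR2M.spt0
  sph := DR2M.sph0
  hpt := fun hJ hG t ht θ => (DR2M.pt_eq hJ hG ht θ).symm ▸ DR2M.hpt0 hJ hG ht θ
  hph := fun hJ hG t ht θ => (DR2M.ph_eq hJ hG ht θ).symm ▸ DR2M.hph0 hJ hG ht θ
  comm := fun hJ hG t ht θ => DR2M.comm0 hJ hG ht θ
  pcg := fun hJ h t ht θ => DR2M.pcg0 hJ h ht θ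
  hcg := by
    intro V _ _ J G H h t ht θ
    unfold ph
    congr 1
    funext s
    exact h t ht s
  perp := by
    intro V _ _ J G hJ hG t ht θ
    unfold pt
    apply Filter.EventuallyEq.deriv_eq
    filter_upwards [hJ.mem_nhds ht] with s hs
    exact hG s hs θ
  perh := fun hG t ht θ => DR2M.perh0 hG ht θ
  cont := fun hG t ht => DR2M.cont0 hG ht

end Rim478
end

section
set_option autoImplicit false

/-!
Module ELL of part U of MP_478c11_gt: unique continuation for `K > 0`, by a frequency function.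
-/

open Real MeasureTheory Set Filter Topology
open scoped ContDiff InnerProductSpace

namespace Rim478

namespace ELLM

lemma sq_abs_add (Y V : ℝ) : (|Y| + |V|) ^ 2 ≤ 2 * (Y * Y + V * V) := by
  have h1 := sq_abs Y
  have h2 := sq_abs V
  nlinarith [sq_nonneg (|Y| - |V|)]

/-- the pointwise inequality -/
lemma pw (t C b L Y V yh Vh T1 T2 q qt qh A Ah r1 r2 : ℝ) (ht : 0 < t) (ht1 : t ≤ 1) (hC : 0 < C)
    (e1 : qt = b * q + r1 * q) (h1 : |r1| ≤ 1 / (8 * t)) (e2 : A * qh = r2 * q) (h2 : |r2| ≤ C)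
    (h3 : |qh| ≤ C / t) (h4 : |Ah| ≤ C) (h5 : |T1| ≤ C / t * (|Y| + |V|))
    (h6 : |T2| ≤ C / t * (|Y| + |V|)) :
    (b * L - |L| * (1 / (8 * t) + 2 * C) - ((4 * C + 1) ^ 2 / 2 + 2 * C ^ 2) / t ^ 2) *
        (Y * Y + V * V) ≤
      qt * (Vh * Y - yh * V) + 2 * q * ((A * yh + q * Vh + T1) * Vh - (A * Vh - q * yh + T2) * yh) +
        qh * (V * (A * yh + q * Vh + T1) - Y * (A * Vh - q * yh + T2)) -
        2 * L * (Y * (A * yh + q * Vh + T1) + V * (A * Vh - q * yh + T2)) +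
        L * (2 * A * (Y * yh + V * Vh) + Ah * (Y * Y + V * V)) -
        (2 * L + b) * (q * (Vh * Y - yh * V) - L * (Y * Y + V * V)) := by
  have hS := sq_abs_add Y V
  have hS0 : 0 ≤ |Y| + |V| := by positivity
  have hw0 : 0 ≤ Y * Y + V * V := by nlinarith [mul_self_nonneg Y, mul_self_nonneg V]
  have key : qt * (Vh * Y - yh * V) +
        2 * q * ((A * yh + q * Vh + T1) * Vh - (A * Vh - q * yh + T2) * yh) +
        qh * (V * (A * yh + q * Vh + T1) - Y * (A * Vh - q * yh + T2)) -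
        2 * L * (Y * (A * yh + q * Vh + T1) + V * (A * Vh - q * yh + T2)) +
        L * (2 * A * (Y * yh + V * Vh) + Ah * (Y * Y + V * V)) -
        (2 * L + b) * (q * (Vh * Y - yh * V) - L * (Y * Y + V * V)) =
      2 * ((q * Vh - L * Y) ^ 2 + (-(q * yh) - L * V) ^ 2) +
        (q * Vh - L * Y) * (2 * T1 + (r1 - r2) * Y + qh * V) +
        (-(q * yh) - L * V) * (2 * T2 + (r1 - r2) * V - qh * Y) +
        (r1 - r2) * L * (Y * Y + V * V) + qh * (T1 * V - T2 * Y) + L * Ah * (Y * Y + V * V) +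
        b * L * (Y * Y + V * V) := by
    linear_combination (Vh * Y - yh * V) * e1 + (V * yh - Y * Vh) * e2
  rw [key]
  have hCt : 0 ≤ C / t := by positivity
  have hCC : C ≤ C / t := by
    rw [le_div_iff₀ ht]; nlinarith
  -- the bounds of z1, z2
  set S := |Y| + |V| with hSdef
  have hYS : |Y| ≤ S := by rw [hSdef]; linarith [abs_nonneg V]
  have hVS : |V| ≤ S := by rw [hSdef]; linarith [abs_nonneg Y]
  have hr : |r1 - r2| ≤ 1 / (8 * t) + C := le_trans (abs_sub _ _) (add_le_add h1 h2)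
  have h8 : 1 / (8 * t) ≤ 1 / t := by
    apply one_div_le_one_div_of_le ht; linarith
  have hK : |r1 - r2| ≤ (C + 1) / t := by
    have : (C + 1) / t = C / t + 1 / t := add_div _ _ _
    rw [this]; linarith
  have hz1 : |2 * T1 + (r1 - r2) * Y + qh * V| ≤ (4 * C + 1) / t * S := by
    have a1 : |2 * T1 + (r1 - r2) * Y + qh * V| ≤ 2 * |T1| + |r1 - r2| * |Y| + |qh| * |V| := by
      calc |2 * T1 + (r1 - r2) * Y + qh * V| ≤ |2 * T1| + |(r1 - r2) * Y| + |qh * V| :=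
            abs_add_three _ _ _
        _ = _ := by rw [abs_mul, abs_mul, abs_mul, abs_of_pos (by norm_num : (0:ℝ) < 2)]
    have a2 : |r1 - r2| * |Y| ≤ (C + 1) / t * S := mul_le_mul hK hYS (abs_nonneg _) (by positivity)
    have a3 : |qh| * |V| ≤ C / t * S := mul_le_mul h3 hVS (abs_nonneg _) hCt
    have a4 : (4 * C + 1) / t * S = 2 * (C / t * S) + (C + 1) / t * S + C / t * S := by ring
    rw [a4]; linarith
  have hz2 : |2 * T2 + (r1 - r2) * V - qh * Y| ≤ (4 * C + 1) / t * S := by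
    have a1 : |2 * T2 + (r1 - r2) * V - qh * Y| ≤ 2 * |T2| + |r1 - r2| * |V| + |qh| * |Y| := by
      calc |2 * T2 + (r1 - r2) * V - qh * Y| ≤ |2 * T2 + (r1 - r2) * V| + |qh * Y| := abs_sub _ _
        _ ≤ |2 * T2| + |(r1 - r2) * V| + |qh * Y| := by linarith [abs_add_le (2 * T2) ((r1 - r2) * V)]
        _ = _ := by rw [abs_mul, abs_mul, abs_mul, abs_of_pos (by norm_num : (0:ℝ) < 2)]
    have a2 : |r1 - r2| * |V| ≤ (C + 1) / t * S := mul_le_mul hK hVS (abs_nonneg _) (by positivity)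
    have a3 : |qh| * |Y| ≤ C / t * S := mul_le_mul h3 hYS (abs_nonneg _) hCt
    have a4 : (4 * C + 1) / t * S = 2 * (C / t * S) + (C + 1) / t * S + C / t * S := by ring
    rw [a4]; linarith
  have hz : (2 * T1 + (r1 - r2) * Y + qh * V) ^ 2 + (2 * T2 + (r1 - r2) * V - qh * Y) ^ 2 ≤
      4 * ((4 * C + 1) ^ 2 / t ^ 2) * (Y * Y + V * V) := by
    have b1 : (2 * T1 + (r1 - r2) * Y + qh * V) ^ 2 ≤ ((4 * C + 1) / t * S) ^ 2 := by
      rw [← sq_abs]; exact pow_le_pow_left₀ (abs_nonneg _) hz1 2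
    have b2 : (2 * T2 + (r1 - r2) * V - qh * Y) ^ 2 ≤ ((4 * C + 1) / t * S) ^ 2 := by
      rw [← sq_abs]; exact pow_le_pow_left₀ (abs_nonneg _) hz2 2
    have b3 : ((4 * C + 1) / t * S) ^ 2 = (4 * C + 1) ^ 2 / t ^ 2 * S ^ 2 := by
      rw [mul_pow, div_pow]
    have b4 : (4 * C + 1) ^ 2 / t ^ 2 * S ^ 2 ≤ (4 * C + 1) ^ 2 / t ^ 2 * (2 * (Y * Y + V * V)) :=
      mul_le_mul_of_nonneg_left hS (by positivity)
    rw [b3] at b1 b2
    linarith
  have hA : -(((4 * C + 1) ^ 2 / t ^ 2) / 2 * (Y * Y + V * V)) ≤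
      2 * ((q * Vh - L * Y) ^ 2 + (-(q * yh) - L * V) ^ 2) +
        (q * Vh - L * Y) * (2 * T1 + (r1 - r2) * Y + qh * V) +
        (-(q * yh) - L * V) * (2 * T2 + (r1 - r2) * V - qh * Y) := by
    have c1 := sq_nonneg ((q * Vh - L * Y) + (2 * T1 + (r1 - r2) * Y + qh * V) / 4)
    have c2 := sq_nonneg ((-(q * yh) - L * V) + (2 * T2 + (r1 - r2) * V - qh * Y) / 4)
    nlinarith [hz, c1, c2]
  have hB : -(|L| * (1 / (8 * t) + C) * (Y * Y + V * V)) ≤ (r1 - r2) * L * (Y * Y + V * V) := by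
    have d1 : |(r1 - r2) * L| ≤ |L| * (1 / (8 * t) + C) := by
      rw [abs_mul, mul_comm]
      exact mul_le_mul_of_nonneg_left hr (abs_nonneg _)
    have d2 := (abs_le.1 d1).1
    nlinarith
  have hD : -(|L| * C * (Y * Y + V * V)) ≤ L * Ah * (Y * Y + V * V) := by
    have d1 : |L * Ah| ≤ |L| * C := by
      rw [abs_mul]
      exact mul_le_mul_of_nonneg_left h4 (abs_nonneg _)
    have d2 := (abs_le.1 d1).1
    nlinarith
  have hE : -(2 * (C ^ 2 / t ^ 2) * (Y * Y + V * V)) ≤ qh * (T1 * V - T2 * Y) := by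
    have d0 : |T1 * V - T2 * Y| ≤ C / t * S * S := by
      calc |T1 * V - T2 * Y| ≤ |T1 * V| + |T2 * Y| := abs_sub _ _
        _ = |T1| * |V| + |T2| * |Y| := by rw [abs_mul, abs_mul]
        _ ≤ C / t * S * |V| + C / t * S * |Y| := by gcongr
        _ = C / t * S * S := by rw [hSdef]; ring
    have d1 : |qh * (T1 * V - T2 * Y)| ≤ C / t * (C / t * S * S) := by
      rw [abs_mul]
      exact mul_le_mul h3 d0 (abs_nonneg _) hCt
    have d3 : C / t * (C / t * S * S) = C ^ 2 / t ^ 2 * S ^ 2 := by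
      field_simp
    have d4 : C ^ 2 / t ^ 2 * S ^ 2 ≤ C ^ 2 / t ^ 2 * (2 * (Y * Y + V * V)) :=
      mul_le_mul_of_nonneg_left hS (by positivity)
    have d2 := (abs_le.1 d1).1
    rw [d3] at d2
    linarith
  have hF : (b * L - |L| * (1 / (8 * t) + 2 * C) - ((4 * C + 1) ^ 2 / 2 + 2 * C ^ 2) / t ^ 2) *
        (Y * Y + V * V) = -(((4 * C + 1) ^ 2 / t ^ 2) / 2 * (Y * Y + V * V)) +
        -(|L| * (1 / (8 * t) + C) * (Y * Y + V * V)) + -(|L| * C * (Y * Y + V * V)) +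
        -(2 * (C ^ 2 / t ^ 2) * (Y * Y + V * V)) + b * L * (Y * Y + V * V) := by
    ring
  rw [hF]
  linarith

/-- pointwise bounds for `H'` -/
lemma pwH (t C Y V yh Vh T1 T2 q A Ah : ℝ) (ht : 0 < t) (ht1 : t ≤ 1) (hC : 0 < C)
    (h4 : |Ah| ≤ C) (h5 : |T1| ≤ C / t * (|Y| + |V|)) (h6 : |T2| ≤ C / t * (|Y| + |V|)) :
    |2 * (Y * (A * yh + q * Vh + T1) + V * (A * Vh - q * yh + T2)) -
      (2 * A * (Y * yh + V * Vh) + Ah * (Y * Y + V * V)) - 2 * (q * (Vh * Y - yh * V))| ≤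
      5 * C / t * (Y * Y + V * V) := by
  have hS := sq_abs_add Y V
  have hw0 : 0 ≤ Y * Y + V * V := by nlinarith [mul_self_nonneg Y, mul_self_nonneg V]
  have hCt : 0 ≤ C / t := by positivity
  have hCC : C ≤ C / t := by
    rw [le_div_iff₀ ht]; nlinarith
  have e : 2 * (Y * (A * yh + q * Vh + T1) + V * (A * Vh - q * yh + T2)) -
      (2 * A * (Y * yh + V * Vh) + Ah * (Y * Y + V * V)) - 2 * (q * (Vh * Y - yh * V)) =
      2 * (Y * T1 + V * T2) - Ah * (Y * Y + V * V) := by ring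
  rw [e]
  have a1 : |Y * T1 + V * T2| ≤ C / t * (|Y| + |V|) * (|Y| + |V|) := by
    calc |Y * T1 + V * T2| ≤ |Y * T1| + |V * T2| := abs_add_le _ _
      _ = |Y| * |T1| + |V| * |T2| := by rw [abs_mul, abs_mul]
      _ ≤ |Y| * (C / t * (|Y| + |V|)) + |V| * (C / t * (|Y| + |V|)) := by gcongr
      _ = _ := by ring
  have a2 : |Ah * (Y * Y + V * V)| ≤ C / t * (Y * Y + V * V) := by
    rw [abs_mul, abs_of_nonneg hw0]
    exact mul_le_mul_of_nonneg_right (le_trans h4 hCC) hw0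
  have a3 : C / t * (|Y| + |V|) * (|Y| + |V|) ≤ C / t * (2 * (Y * Y + V * V)) := by
    have : C / t * (|Y| + |V|) * (|Y| + |V|) = C / t * (|Y| + |V|) ^ 2 := by ring
    rw [this]
    exact mul_le_mul_of_nonneg_left hS hCt
  calc |2 * (Y * T1 + V * T2) - Ah * (Y * Y + V * V)|
      ≤ |2 * (Y * T1 + V * T2)| + |Ah * (Y * Y + V * V)| := abs_sub _ _
    _ = 2 * |Y * T1 + V * T2| + |Ah * (Y * Y + V * V)| := by
        rw [abs_mul, abs_of_pos (by norm_num : (0:ℝ) < 2)]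
    _ ≤ 2 * (C / t * (2 * (Y * Y + V * V))) + C / t * (Y * Y + V * V) := by linarith
    _ = 5 * C / t * (Y * Y + V * V) := by ring

/-! ## Calculus -/

section Clc

variable {J : Set ℝ} {f g y V q a : ℝ → ℝ → ℝ}

lemma sj_mul (hf : SJ J f) (hg : SJ J g) : SJ J (fun t θ => f t θ * g t θ) := ContDiffOn.mul hf hg
lemma sj_add (hf : SJ J f) (hg : SJ J g) : SJ J (fun t θ => f t θ + g t θ) := ContDiffOn.add hf hg
lemma sj_sub (hf : SJ J f) (hg : SJ J g) : SJ J (fun t θ => f t θ - g t θ) := ContDiffOn.sub hf hg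

lemma per_mul (hf : Per J f) (hg : Per J g) : Per J (fun t θ => f t θ * g t θ) := by
  intro t ht θ
  show f t (θ + 2 * π) * g t (θ + 2 * π) = _
  rw [hf t ht, hg t ht]
lemma per_add (hf : Per J f) (hg : Per J g) : Per J (fun t θ => f t θ + g t θ) := by
  intro t ht θ
  show f t (θ + 2 * π) + g t (θ + 2 * π) = _
  rw [hf t ht, hg t ht]
lemma per_sub (hf : Per J f) (hg : Per J g) : Per J (fun t θ => f t θ - g t θ) := by
  intro t ht θ
  show f t (θ + 2 * π) - g t (θ + 2 * π) = _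
  rw [hf t ht, hg t ht]

variable (hD : SpecDR2) (hI : SpecINT)
include hD

lemma pt_mul (hJ : IsOpen J) (hf : SJ J f) (hg : SJ J g) {t : ℝ} (ht : t ∈ J) (θ : ℝ) :
    pt (fun t θ => f t θ * g t θ) t θ = pt f t θ * g t θ + f t θ * pt g t θ := by
  have := ((hD.hpt hJ hf t ht θ).mul (hD.hpt hJ hg t ht θ)).deriv
  exact this

lemma pt_add (hJ : IsOpen J) (hf : SJ J f) (hg : SJ J g) {t : ℝ} (ht : t ∈ J) (θ : ℝ) :
    pt (fun t θ => f t θ + g t θ) t θ = pt f t θ + pt g t θ := by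
  have := ((hD.hpt hJ hf t ht θ).add (hD.hpt hJ hg t ht θ)).deriv
  exact this

lemma pt_sub (hJ : IsOpen J) (hf : SJ J f) (hg : SJ J g) {t : ℝ} (ht : t ∈ J) (θ : ℝ) :
    pt (fun t θ => f t θ - g t θ) t θ = pt f t θ - pt g t θ := by
  have := ((hD.hpt hJ hf t ht θ).sub (hD.hpt hJ hg t ht θ)).deriv
  exact this

lemma ph_mul (hJ : IsOpen J) (hf : SJ J f) (hg : SJ J g) {t : ℝ} (ht : t ∈ J) (θ : ℝ) :
    ph (fun t θ => f t θ * g t θ) t θ = ph f t θ * g t θ + f t θ * ph g t θ := by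
  have := ((hD.hph hJ hf t ht θ).mul (hD.hph hJ hg t ht θ)).deriv
  exact this

lemma ph_add (hJ : IsOpen J) (hf : SJ J f) (hg : SJ J g) {t : ℝ} (ht : t ∈ J) (θ : ℝ) :
    ph (fun t θ => f t θ + g t θ) t θ = ph f t θ + ph g t θ := by
  have := ((hD.hph hJ hf t ht θ).add (hD.hph hJ hg t ht θ)).deriv
  exact this

lemma ph_sub (hJ : IsOpen J) (hf : SJ J f) (hg : SJ J g) {t : ℝ} (ht : t ∈ J) (θ : ℝ) :
    ph (fun t θ => f t θ - g t θ) t θ = ph f t θ - ph g t θ := by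
  have := ((hD.hph hJ hf t ht θ).sub (hD.hph hJ hg t ht θ)).deriv
  exact this

lemma cts (hf : SJ J f) {t : ℝ} (ht : t ∈ J) : Continuous (fun θ => f t θ) :=
  (hD.cont hf t ht).continuous

end Clc

lemma int_ph {J : Set ℝ} {g : ℝ → ℝ → ℝ} (hI : SpecINT) (hJ : IsOpen J) (hg : SJ J g)
    (hgp : Per J g) {t : ℝ} (ht : t ∈ J) : ∫ θ in (0:ℝ)..(2 * π), ph g t θ = 0 := by
  have h1 : SJ J (fun _ _ => (1:ℝ)) := contDiffOn_const
  have h2 : Per J (fun _ _ => (1:ℝ)) := fun t _ θ => rfl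
  have := hI.ibp hJ h1 hg h2 hgp t ht
  have e : ∀ θ, ph (fun _ _ => (1:ℝ)) t θ = 0 := fun θ => by
    show deriv (fun _ => (1:ℝ)) θ = 0
    simp
  simpa [e] using this

noncomputable def HH (y V : ℝ → ℝ → ℝ) (t : ℝ) : ℝ :=
  ∫ θ in (0:ℝ)..(2 * π), (y t θ * y t θ + V t θ * V t θ)

noncomputable def PP (y V q : ℝ → ℝ → ℝ) (t : ℝ) : ℝ :=
  ∫ θ in (0:ℝ)..(2 * π), q t θ * (ph V t θ * y t θ - ph y t θ * V t θ)

noncomputable def dHH (y V : ℝ → ℝ → ℝ) (t : ℝ) : ℝ :=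
  ∫ θ in (0:ℝ)..(2 * π), 2 * (y t θ * pt y t θ + V t θ * pt V t θ)

noncomputable def dPP (y V q : ℝ → ℝ → ℝ) (t : ℝ) : ℝ :=
  ∫ θ in (0:ℝ)..(2 * π), (pt q t θ * (ph V t θ * y t θ - ph y t θ * V t θ) +
    2 * q t θ * (pt y t θ * ph V t θ - pt V t θ * ph y t θ) +
    ph q t θ * (V t θ * pt y t θ - y t θ * pt V t θ))

lemma HH_der (hD : SpecDR2) (hI : SpecINT) {J : Set ℝ} {y V : ℝ → ℝ → ℝ} (hJ : IsOpen J)
    (hy : SJ J y) (hV : SJ J V) {t : ℝ} (ht : t ∈ J) : HasDerivAt (HH y V) (dHH y V t) t := by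
  have hf : SJ J (fun t θ => y t θ * y t θ + V t θ * V t θ) := sj_add (sj_mul hy hy) (sj_mul hV hV)
  have h := hI.der hJ hf t ht
  have e : ∀ θ, pt (fun t θ => y t θ * y t θ + V t θ * V t θ) t θ =
      2 * (y t θ * pt y t θ + V t θ * pt V t θ) := by
    intro θ
    rw [pt_add hD hJ (sj_mul hy hy) (sj_mul hV hV) ht, pt_mul hD hJ hy hy ht, pt_mul hD hJ hV hV ht]
    ring
  simp only [e] at h
  exact h

lemma PP_der (hD : SpecDR2) (hI : SpecINT) {J : Set ℝ} {y V q : ℝ → ℝ → ℝ} (hJ : IsOpen J)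
    (hy : SJ J y) (hV : SJ J V) (hq : SJ J q) (py : Per J y) (pV : Per J V) (pq : Per J q)
    {t : ℝ} (ht : t ∈ J) : HasDerivAt (PP y V q) (dPP y V q t) t := by
  have hyh := hD.sph hJ hy
  have hVh := hD.sph hJ hV
  have hyt := hD.spt hJ hy
  have hVt := hD.spt hJ hV
  have hqt := hD.spt hJ hq
  have hqh := hD.sph hJ hq
  have s1 : SJ J (fun t θ => ph V t θ * y t θ) := sj_mul hVh hy
  have s2 : SJ J (fun t θ => ph y t θ * V t θ) := sj_mul hyh hV
  have hf : SJ J (fun t θ => q t θ * (ph V t θ * y t θ - ph y t θ * V t θ)) :=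
    sj_mul hq (sj_sub s1 s2)
  have h := hI.der hJ hf t ht
  have e : ∀ θ, pt (fun t θ => q t θ * (ph V t θ * y t θ - ph y t θ * V t θ)) t θ =
      pt q t θ * (ph V t θ * y t θ - ph y t θ * V t θ) +
      q t θ * (ph (pt V) t θ * y t θ + ph V t θ * pt y t θ -
        (ph (pt y) t θ * V t θ + ph y t θ * pt V t θ)) := by
    intro θ
    rw [pt_mul hD hJ hq (sj_sub s1 s2) ht, pt_sub hD hJ s1 s2 ht, pt_mul hD hJ hVh hy ht,
      pt_mul hD hJ hyh hV ht, hD.comm hJ hV t ht, hD.comm hJ hy t ht]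
  simp only [e] at h
  -- the total derivative
  have g1 : SJ J (fun t θ => q t θ * y t θ * pt V t θ) := sj_mul (sj_mul hq hy) hVt
  have g2 : SJ J (fun t θ => q t θ * V t θ * pt y t θ) := sj_mul (sj_mul hq hV) hyt
  have gp1 : Per J (fun t θ => q t θ * y t θ * pt V t θ) :=
    per_mul (per_mul pq py) (hD.perp hJ pV)
  have gp2 : Per J (fun t θ => q t θ * V t θ * pt y t θ) :=
    per_mul (per_mul pq pV) (hD.perp hJ py)
  have hz := int_ph hI hJ (sj_sub g1 g2) (per_sub gp1 gp2) ht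
  have e2 : ∀ θ, ph (fun t θ => q t θ * y t θ * pt V t θ - q t θ * V t θ * pt y t θ) t θ =
      ((ph q t θ * y t θ + q t θ * ph y t θ) * pt V t θ + q t θ * y t θ * ph (pt V) t θ) -
      ((ph q t θ * V t θ + q t θ * ph V t θ) * pt y t θ + q t θ * V t θ * ph (pt y) t θ) := by
    intro θ
    rw [ph_sub hD hJ g1 g2 ht, ph_mul hD hJ (sj_mul hq hy) hVt ht, ph_mul hD hJ hq hy ht,
      ph_mul hD hJ (sj_mul hq hV) hyt ht, ph_mul hD hJ hq hV ht]
  simp only [e2] at hz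
  have cy := cts hD hy ht
  have cV := cts hD hV ht
  have cq := cts hD hq ht
  have cyh := cts hD hyh ht
  have cVh := cts hD hVh ht
  have cqh := cts hD hqh ht
  have cyt := cts hD hyt ht
  have cVt := cts hD hVt ht
  have cqt := cts hD hqt ht
  have cyth := cts hD (hD.sph hJ hyt) ht
  have cVth := cts hD (hD.sph hJ hVt) ht
  have hval : ∫ θ in (0:ℝ)..(2 * π), (pt q t θ * (ph V t θ * y t θ - ph y t θ * V t θ) +
      q t θ * (ph (pt V) t θ * y t θ + ph V t θ * pt y t θ -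
        (ph (pt y) t θ * V t θ + ph y t θ * pt V t θ))) = dPP y V q t := by
    have hsub : (∫ θ in (0:ℝ)..(2 * π), (pt q t θ * (ph V t θ * y t θ - ph y t θ * V t θ) +
      q t θ * (ph (pt V) t θ * y t θ + ph V t θ * pt y t θ -
        (ph (pt y) t θ * V t θ + ph y t θ * pt V t θ)))) - dPP y V q t = 0 := by
      unfold dPP
      rw [← intervalIntegral.integral_sub]
      · refine Eq.trans ?_ hz
        apply intervalIntegral.integral_congr
        intro θ _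
        ring
      · exact Continuous.intervalIntegrable (by fun_prop) _ _
      · exact Continuous.intervalIntegrable (by fun_prop) _ _
    linarith
  rw [hval] at h
  exact h

lemma lin5 {F1 F2 F3 F4 F5 : ℝ → ℝ} (h1 : Continuous F1) (h2 : Continuous F2) (h3 : Continuous F3)
    (h4 : Continuous F4) (h5 : Continuous F5) (c2 c3 c4 c5 u v : ℝ) :
    ∫ x in u..v, (F1 x + c2 * F2 x + c3 * F3 x + c4 * F4 x + c5 * F5 x) =
      (∫ x in u..v, F1 x) + c2 * (∫ x in u..v, F2 x) + c3 * (∫ x in u..v, F3 x) +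
        c4 * (∫ x in u..v, F4 x) + c5 * ∫ x in u..v, F5 x := by
  rw [intervalIntegral.integral_add, intervalIntegral.integral_add, intervalIntegral.integral_add,
    intervalIntegral.integral_add, intervalIntegral.integral_const_mul,
    intervalIntegral.integral_const_mul, intervalIntegral.integral_const_mul,
    intervalIntegral.integral_const_mul]
  all_goals exact Continuous.intervalIntegrable (by fun_prop) _ _

lemma two_pi_nonneg : (0:ℝ) ≤ 2 * π := by positivity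

/-- the two inequalities at a fixed time -/
lemma fixed (hD : SpecDR2) (hI : SpecINT) {J : Set ℝ} {y V a q : ℝ → ℝ → ℝ} (hJ : IsOpen J)
    (hy : SJ J y) (hV : SJ J V) (ha : SJ J a) (hq : SJ J q) (py : Per J y) (pV : Per J V)
    (pa : Per J a) {t C β : ℝ} (htJ : t ∈ J) (ht : 0 < t) (ht1 : t ≤ 1) (hC : 0 < C)
    (q0 : ∀ θ, 0 < q t θ)
    (i1 : ∀ θ, |pt y t θ - a t θ * ph y t θ - q t θ * ph V t θ| ≤ C / t * (|y t θ| + |V t θ|))
    (i2 : ∀ θ, |pt V t θ - a t θ * ph V t θ + q t θ * ph y t θ| ≤ C / t * (|y t θ| + |V t θ|))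
    (i3 : ∀ θ, |t * pt q t θ - β / 2 * q t θ| ≤ 1 / 8 * q t θ)
    (i4 : ∀ θ, |ph a t θ| ≤ C) (i5 : ∀ θ, |ph q t θ| ≤ C / √t)
    (i6 : ∀ θ, |a t θ * ph q t θ| ≤ C * q t θ) :
    (∀ L : ℝ, (β / 2 / t * L - |L| * (1 / (8 * t) + 2 * C) -
        ((4 * C + 1) ^ 2 / 2 + 2 * C ^ 2) / t ^ 2) * HH y V t ≤
      dPP y V q t - L * dHH y V t - (2 * L + β / 2 / t) * (PP y V q t - L * HH y V t)) ∧
    |dHH y V t - 2 * PP y V q t| ≤ 5 * C / t * HH y V t := by
  have hyh := hD.sph hJ hy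
  have hVh := hD.sph hJ hV
  have hyt := hD.spt hJ hy
  have hVt := hD.spt hJ hV
  have hqt := hD.spt hJ hq
  have hqh := hD.sph hJ hq
  have hah := hD.sph hJ ha
  have cy := cts hD hy htJ
  have cV := cts hD hV htJ
  have cq := cts hD hq htJ
  have ca := cts hD ha htJ
  have cah := cts hD hah htJ
  have cyh := cts hD hyh htJ
  have cVh := cts hD hVh htJ
  have cqh := cts hD hqh htJ
  have cyt := cts hD hyt htJ
  have cVt := cts hD hVt htJ
  have cqt := cts hD hqt htJ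
  -- the integral of the total derivative of a (y^2 + V^2)
  have hz : ∫ θ in (0:ℝ)..(2 * π), (2 * a t θ * (y t θ * ph y t θ + V t θ * ph V t θ) +
      ph a t θ * (y t θ * y t θ + V t θ * V t θ)) = 0 := by
    have g1 : SJ J (fun t θ => a t θ * (y t θ * y t θ + V t θ * V t θ)) :=
      sj_mul ha (sj_add (sj_mul hy hy) (sj_mul hV hV))
    have gp1 : Per J (fun t θ => a t θ * (y t θ * y t θ + V t θ * V t θ)) :=
      per_mul pa (per_add (per_mul py py) (per_mul pV pV))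
    refine Eq.trans ?_ (int_ph hI hJ g1 gp1 htJ)
    apply intervalIntegral.integral_congr
    intro θ _
    show _ = ph (fun t θ => a t θ * (y t θ * y t θ + V t θ * V t θ)) t θ
    rw [ph_mul hD hJ ha (sj_add (sj_mul hy hy) (sj_mul hV hV)) htJ,
      ph_add hD hJ (sj_mul hy hy) (sj_mul hV hV) htJ, ph_mul hD hJ hy hy htJ,
      ph_mul hD hJ hV hV htJ]
    ring
  have hsq : C / √t ≤ C / t := by
    apply div_le_div_of_nonneg_left hC.le ht
    rw [Real.le_sqrt' ht]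
    nlinarith
  refine ⟨fun L => ?_, ?_⟩
  · have hlin := lin5 (F1 := fun θ => pt q t θ * (ph V t θ * y t θ - ph y t θ * V t θ) +
      2 * q t θ * (pt y t θ * ph V t θ - pt V t θ * ph y t θ) +
      ph q t θ * (V t θ * pt y t θ - y t θ * pt V t θ))
      (F2 := fun θ => 2 * (y t θ * pt y t θ + V t θ * pt V t θ))
      (F3 := fun θ => 2 * a t θ * (y t θ * ph y t θ + V t θ * ph V t θ) +
        ph a t θ * (y t θ * y t θ + V t θ * V t θ))
      (F4 := fun θ => q t θ * (ph V t θ * y t θ - ph y t θ * V t θ))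
      (F5 := fun θ => y t θ * y t θ + V t θ * V t θ)
      (by fun_prop) (by fun_prop) (by fun_prop) (by fun_prop) (by fun_prop)
      (-L) L (-(2 * L + β / 2 / t)) ((2 * L + β / 2 / t) * L) 0 (2 * π)
    have hrhs : dPP y V q t - L * dHH y V t - (2 * L + β / 2 / t) * (PP y V q t - L * HH y V t) =
        ∫ θ in (0:ℝ)..(2 * π), ((pt q t θ * (ph V t θ * y t θ - ph y t θ * V t θ) +
      2 * q t θ * (pt y t θ * ph V t θ - pt V t θ * ph y t θ) +
      ph q t θ * (V t θ * pt y t θ - y t θ * pt V t θ)) +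
        (-L) * (2 * (y t θ * pt y t θ + V t θ * pt V t θ)) +
        L * (2 * a t θ * (y t θ * ph y t θ + V t θ * ph V t θ) +
        ph a t θ * (y t θ * y t θ + V t θ * V t θ)) +
        (-(2 * L + β / 2 / t)) * (q t θ * (ph V t θ * y t θ - ph y t θ * V t θ)) +
        ((2 * L + β / 2 / t) * L) * (y t θ * y t θ + V t θ * V t θ)) := by
      rw [hlin, hz]
      unfold dPP dHH PP HH
      ring
    rw [hrhs]
    unfold HH
    rw [← intervalIntegral.integral_const_mul]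
    apply intervalIntegral.integral_mono_on two_pi_nonneg
    · exact Continuous.intervalIntegrable (by fun_prop) _ _
    · exact Continuous.intervalIntegrable (by fun_prop) _ _
    intro θ _
    have hq0 := q0 θ
    have h := pw t C (β / 2 / t) L (y t θ) (V t θ) (ph y t θ) (ph V t θ)
      (pt y t θ - a t θ * ph y t θ - q t θ * ph V t θ)
      (pt V t θ - a t θ * ph V t θ + q t θ * ph y t θ) (q t θ) (pt q t θ) (ph q t θ) (a t θ)
      (ph a t θ) (pt q t θ / q t θ - β / 2 / t) (a t θ * ph q t θ / q t θ) ht ht1 hC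
      (by field_simp; ring) ?_ (by field_simp) ?_ (le_trans (i5 θ) hsq) (i4 θ) (i1 θ) (i2 θ)
    · refine le_trans h (le_of_eq ?_)
      ring
    · have e : pt q t θ / q t θ - β / 2 / t = (t * pt q t θ - β / 2 * q t θ) / (t * q t θ) := by
        field_simp
      rw [e, abs_div, abs_of_pos (mul_pos ht hq0), div_le_div_iff₀ (mul_pos ht hq0) (by positivity)]
      have := i3 θ
      nlinarith
    · rw [abs_div, abs_of_pos hq0, div_le_iff₀ hq0]
      exact i6 θ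
  · have hlin : ∀ s : ℝ, dHH y V t - 2 * PP y V q t + s * HH y V t =
        ∫ θ in (0:ℝ)..(2 * π), (2 * (y t θ * pt y t θ + V t θ * pt V t θ) +
        (-1) * (2 * a t θ * (y t θ * ph y t θ + V t θ * ph V t θ) +
        ph a t θ * (y t θ * y t θ + V t θ * V t θ)) +
        (-2) * (q t θ * (ph V t θ * y t θ - ph y t θ * V t θ)) +
        s * (y t θ * y t θ + V t θ * V t θ) + 0 * (0:ℝ)) := by
      intro s
      have := lin5 (F1 := fun θ => 2 * (y t θ * pt y t θ + V t θ * pt V t θ))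
        (F2 := fun θ => 2 * a t θ * (y t θ * ph y t θ + V t θ * ph V t θ) +
          ph a t θ * (y t θ * y t θ + V t θ * V t θ))
        (F3 := fun θ => q t θ * (ph V t θ * y t θ - ph y t θ * V t θ))
        (F4 := fun θ => y t θ * y t θ + V t θ * V t θ) (F5 := fun _ => (0:ℝ))
        (by fun_prop) (by fun_prop) (by fun_prop) (by fun_prop) (by fun_prop)
        (-1) (-2) s 0 0 (2 * π)
      rw [this, hz]
      unfold dHH PP HH
      ring
    have hpw : ∀ θ : ℝ, |2 * (y t θ * pt y t θ + V t θ * pt V t θ) -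
        (2 * a t θ * (y t θ * ph y t θ + V t θ * ph V t θ) +
        ph a t θ * (y t θ * y t θ + V t θ * V t θ)) -
        2 * (q t θ * (ph V t θ * y t θ - ph y t θ * V t θ))| ≤
        5 * C / t * (y t θ * y t θ + V t θ * V t θ) := by
      intro θ
      have h := pwH t C (y t θ) (V t θ) (ph y t θ) (ph V t θ)
        (pt y t θ - a t θ * ph y t θ - q t θ * ph V t θ)
        (pt V t θ - a t θ * ph V t θ + q t θ * ph y t θ) (q t θ) (a t θ) (ph a t θ) ht ht1 hC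
        (i4 θ) (i1 θ) (i2 θ)
      convert h using 2
      ring
    rw [abs_le]
    constructor
    · have h1 : 0 ≤ dHH y V t - 2 * PP y V q t + (5 * C / t) * HH y V t := by
        rw [hlin]
        apply intervalIntegral.integral_nonneg two_pi_nonneg
        intro θ _
        have := (abs_le.1 (hpw θ)).1
        linarith
      linarith
    · have h1 : dHH y V t - 2 * PP y V q t + (-(5 * C / t)) * HH y V t ≤ 0 := by
        rw [hlin]
        have hz0 : ∫ θ in (0:ℝ)..(2 * π), (0:ℝ) = 0 := by simp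
        refine le_trans ?_ (le_of_eq hz0)
        apply intervalIntegral.integral_mono_on two_pi_nonneg
        · exact Continuous.intervalIntegrable (by fun_prop) _ _
        · exact Continuous.intervalIntegrable (by fun_prop) _ _
        intro θ _
        have := (abs_le.1 (hpw θ)).2
        linarith
      linarith

/-- if `F' > 0` wherever `F > 0`, and `F (t₂) ≤ 0`, then `F ≤ 0` before `t₂` -/
lemma barrier {F F' : ℝ → ℝ} {t₁ t₂ : ℝ} (h12 : t₁ ≤ t₂)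
    (hF : ∀ t ∈ Icc t₁ t₂, HasDerivAt F (F' t) t) (h2 : F t₂ ≤ 0)
    (hpos : ∀ t ∈ Icc t₁ t₂, 0 < F t → 0 < F' t) : F t₁ ≤ 0 := by
  by_contra hcon
  push Not at hcon
  have hcont : ContinuousOn F (Icc t₁ t₂) := fun t ht => (hF t ht).continuousAt.continuousWithinAt
  have hcl : IsClosed (Icc t₁ t₂ ∩ F ⁻¹' (Iic 0)) :=
    hcont.preimage_isClosed_of_isClosed isClosed_Icc isClosed_Iic
  have hcp : IsCompact (Icc t₁ t₂ ∩ F ⁻¹' (Iic 0)) :=
    IsCompact.of_isClosed_subset isCompact_Icc hcl inter_subset_left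
  obtain ⟨s, ⟨hs1, hs2⟩, hs3⟩ := hcp.exists_isLeast ⟨t₂, ⟨h12, le_refl _⟩, h2⟩
  have hs2' : F s ≤ 0 := hs2
  have hlt : t₁ < s := by
    rcases lt_or_eq_of_le hs1.1 with h | h
    · exact h
    · rw [← h] at hs2'; exact absurd hs2' (not_le.2 hcon)
  obtain ⟨c, hc, hc2⟩ := exists_hasDerivAt_eq_slope F F' hlt
    (hcont.mono (Icc_subset_Icc le_rfl hs1.2))
    (fun x hx => hF x ⟨hx.1.le, hx.2.le.trans hs1.2⟩)
  have hcI : c ∈ Icc t₁ t₂ := ⟨hc.1.le, hc.2.le.trans hs1.2⟩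
  have hFc : 0 < F c := by
    by_contra h
    push Not at h
    have := hs3 ⟨hcI, h⟩
    exact absurd this (not_le.2 hc.2)
  have h3 := hpos c hcI hFc
  rw [hc2] at h3
  have h4 : 0 < F s - F t₁ := by
    have h5 : 0 < s - t₁ := by linarith
    by_contra h6
    push Not at h6
    have := div_nonpos_of_nonpos_of_nonneg h6 h5.le
    linarith
  linarith

lemma HH_nonneg (y V : ℝ → ℝ → ℝ) (t : ℝ) : 0 ≤ HH y V t :=
  intervalIntegral.integral_nonneg two_pi_nonneg fun θ _ => by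
    nlinarith [mul_self_nonneg (y t θ), mul_self_nonneg (V t θ)]

/-- one step: `F' > 0` where `F > 0` -/
lemma step {C C2 β t G H P H' P' : ℝ} (ht : 0 < t) (hC : 0 < C) (hCt : 16 * C * t ≤ 1)
    (hβ : -1 ≤ β) (hC2 : 0 < C2) (hG1 : 4 * C2 ≤ G) (hG2 : 5 * C ≤ G) (hH : 0 ≤ H)
    (k1 : ∀ L : ℝ, (β / 2 / t * L - |L| * (1 / (8 * t) + 2 * C) - C2 / t ^ 2) * H ≤
      P' - L * H' - (2 * L + β / 2 / t) * (P - L * H))
    (k2 : |H' - 2 * P| ≤ 5 * C / t * H) (hF : 0 < t * P - G * H) :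
    0 < P + t * P' - G * H' := by
  have hGpos : 0 < G := by linarith
  have hP : 0 < P := by
    have : 0 < t * P := by nlinarith
    exact (pos_iff_pos_of_mul_pos this).1 ht
  rcases eq_or_lt_of_le hH with h0 | h0
  · exfalso
    rw [← h0] at k2
    have e1 : H' = 2 * P := by
      have : |H' - 2 * P| ≤ 0 := by simpa using k2
      have := abs_eq_zero.1 (le_antisymm this (abs_nonneg _))
      linarith
    have k := k1 ((P' - β / 2 / t * P + 1) / (4 * P))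
    rw [← h0, e1] at k
    have e2 : 4 * P * ((P' - β / 2 / t * P + 1) / (4 * P)) = P' - β / 2 / t * P + 1 := by
      field_simp
    nlinarith
  · set L := P / H with hL
    have hLH : L * H = P := by rw [hL]; field_simp
    have hLpos : 0 < L := div_pos hP h0
    have htL : G < t * L := by
      have h1 : G * H < t * L * H := by rw [mul_assoc, hLH]; linarith
      exact lt_of_mul_lt_mul_right h1 h0.le
    have k := k1 L
    rw [hLH, sub_self, mul_zero, sub_zero, abs_of_pos hLpos] at k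
    have hH' : 0 < H' := by
      have h1 := (abs_le.1 k2).1
      have h2 : 5 * C / t * H < 2 * P := by
        rw [← hLH, div_mul_eq_mul_div, div_lt_iff₀ ht]
        nlinarith
      linarith
    -- lower bound
    have k3 : (L * t / 4 - C2) * H ≤ t * (L * H + t * (P' - L * H')) := by
      have e : t * (L * H + t * ((β / 2 / t * L - L * (1 / (8 * t) + 2 * C) - C2 / t ^ 2) * H)) =
          (L * t * (1 + β / 2 - 1 / 8 - 2 * C * t) - C2) * H := by
        field_simp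
        ring
      have h3 : t * (L * H + t * ((β / 2 / t * L - L * (1 / (8 * t) + 2 * C) - C2 / t ^ 2) * H)) ≤
          t * (L * H + t * (P' - L * H')) := by
        gcongr
      refine le_trans ?_ h3
      rw [e]
      apply mul_le_mul_of_nonneg_right _ h0.le
      have h4 : L * t * (1 / 4) ≤ L * t * (1 + β / 2 - 1 / 8 - 2 * C * t) := by
        apply mul_le_mul_of_nonneg_left _ (by positivity)
        linarith
      linarith
    have k4 : 0 < (L * t / 4 - C2) * H := by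
      apply mul_pos _ h0
      nlinarith
    have k5 : 0 < L * H + t * (P' - L * H') := by
      have : 0 < t * (L * H + t * (P' - L * H')) := lt_of_lt_of_le k4 k3
      exact (pos_iff_pos_of_mul_pos this).1 ht
    have k6 : 0 ≤ (t * L - G) * H' := mul_nonneg (by linarith) hH'.le
    have e3 : P + t * P' - G * H' = L * H + t * (P' - L * H') + (t * L - G) * H' := by
      rw [hLH]; ring
    rw [e3]
    linarith

lemma zero_of_HH {y V : ℝ → ℝ → ℝ} {t : ℝ} (cy : Continuous fun θ => y t θ)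
    (cV : Continuous fun θ => V t θ) (py : ∀ θ, y t (θ + 2 * π) = y t θ)
    (pV : ∀ θ, V t (θ + 2 * π) = V t θ) (h : HH y V t = 0) (θ : ℝ) : y t θ = 0 ∧ V t θ = 0 := by
  have hper : Function.Periodic (fun θ => y t θ * y t θ + V t θ * V t θ) (2 * π) := by
    intro θ
    show y t (θ + 2 * π) * y t (θ + 2 * π) + V t (θ + 2 * π) * V t (θ + 2 * π) = _
    rw [py, pV]
  obtain ⟨s, hs, hs2⟩ := hper.exists_mem_Ico₀ (by positivity) θ
  have hs0 : y t s * y t s + V t s * V t s = 0 := by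
    by_contra hne
    have hpos : 0 < y t s * y t s + V t s * V t s :=
      lt_of_le_of_ne (by nlinarith [mul_self_nonneg (y t s), mul_self_nonneg (V t s)]) (Ne.symm hne)
    have : 0 < HH y V t := by
      unfold HH
      apply intervalIntegral.integral_pos (by positivity)
      · exact Continuous.continuousOn (by fun_prop)
      · intro x _
        nlinarith [mul_self_nonneg (y t x), mul_self_nonneg (V t x)]
      · exact ⟨s, ⟨hs.1, hs.2.le⟩, hpos⟩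
    linarith
  have h1 : y t θ * y t θ + V t θ * V t θ = 0 := by
    have h2 : y t θ * y t θ + V t θ * V t θ = y t s * y t s + V t s * V t s := hs2
    rw [h2, hs0]
  constructor
  · exact mul_self_eq_zero.1 (by nlinarith [mul_self_nonneg (y t θ), mul_self_nonneg (V t θ)])
  · exact mul_self_eq_zero.1 (by nlinarith [mul_self_nonneg (y t θ), mul_self_nonneg (V t θ)])

end ELLM

open ELLM in
theorem specELL (hD : SpecDR2) (hI : SpecINT) : SpecELL := by
  intro δ C β y V a q hδ hC hβ hy hV ha hq py pV pa pq q0 i1 i2 i3 i4 i5 i6 hfl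
  have hJ : IsOpen (Ioo 0 δ) := isOpen_Ioo
  set C2 : ℝ := (4 * C + 1) ^ 2 / 2 + 2 * C ^ 2 with hC2
  have hC2pos : 0 < C2 := by positivity
  refine ⟨min δ (min 1 (1 / (16 * C))), lt_min hδ (lt_min one_pos (by positivity)),
    min_le_left _ _, ?_⟩
  intro t₂ ht₂ θ
  have hlt : ∀ t, 0 < t → t ≤ t₂ → t ∈ Ioo 0 δ ∧ t ≤ 1 ∧ 16 * C * t ≤ 1 := by
    intro t h0 h1
    have h2 : t < min δ (min 1 (1 / (16 * C))) := lt_of_le_of_lt h1 ht₂.2
    have h3 := lt_of_lt_of_le h2 (min_le_left _ _)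
    have h4 := lt_of_lt_of_le h2 (le_trans (min_le_right _ _) (min_le_left _ _))
    have h5 := lt_of_lt_of_le h2 (le_trans (min_le_right _ _) (min_le_right _ _))
    refine ⟨⟨h0, h3⟩, h4.le, ?_⟩
    rw [lt_div_iff₀ (by positivity)] at h5
    linarith
  obtain ⟨hJ2, -, -⟩ := hlt t₂ ht₂.1 le_rfl
  refine zero_of_HH (cts hD hy hJ2) (cts hD hV hJ2) (py t₂ hJ2) (pV t₂ hJ2) ?_ θ
  by_contra hne
  have hpos : 0 < HH y V t₂ := lt_of_le_of_ne (HH_nonneg y V t₂) (Ne.symm hne)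
  have hfix : ∀ t, 0 < t → t ≤ t₂ → (∀ L : ℝ, (β / 2 / t * L - |L| * (1 / (8 * t) + 2 * C) -
        C2 / t ^ 2) * HH y V t ≤
      dPP y V q t - L * dHH y V t - (2 * L + β / 2 / t) * (PP y V q t - L * HH y V t)) ∧
    |dHH y V t - 2 * PP y V q t| ≤ 5 * C / t * HH y V t := by
    intro t h0 h1
    obtain ⟨h2, h3, h4⟩ := hlt t h0 h1
    exact fixed hD hI hJ hy hV ha hq py pV pa h2 h0 h3 hC (q0 t h2) (i1 t h2) (i2 t h2) (i3 t h2)
      (i4 t h2) (i5 t h2) (i6 t h2)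
  set G : ℝ := max (4 * C2) (max (5 * C) (t₂ * PP y V q t₂ / HH y V t₂)) with hG
  have hG1 : 4 * C2 ≤ G := le_max_left _ _
  have hG2 : 5 * C ≤ G := le_trans (le_max_left _ _) (le_max_right _ _)
  have hG3 : t₂ * PP y V q t₂ / HH y V t₂ ≤ G := le_trans (le_max_right _ _) (le_max_right _ _)
  have hFle : ∀ t, 0 < t → t ≤ t₂ → t * PP y V q t - G * HH y V t ≤ 0 := by
    intro t₁ h0 h1
    refine barrier (F := fun t => t * PP y V q t - G * HH y V t)
      (F' := fun t => PP y V q t + t * dPP y V q t - G * dHH y V t) h1 ?_ ?_ ?_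
    · intro t ht
      have htJ := (hlt t (lt_of_lt_of_le h0 ht.1) ht.2).1
      have d1 := (hasDerivAt_id t).mul (PP_der hD hI hJ hy hV hq py pV pq htJ)
      have d2 := (HH_der hD hI hJ hy hV htJ).const_mul G
      have d3 := d1.sub d2
      simp only [id_eq, one_mul] at d3
      exact d3
    · show t₂ * PP y V q t₂ - G * HH y V t₂ ≤ 0
      rw [div_le_iff₀ hpos] at hG3
      linarith
    · intro t ht hF
      have ht0 := lt_of_lt_of_le h0 ht.1
      obtain ⟨_, _, h4⟩ := hlt t ht0 ht.2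
      obtain ⟨k1, k2⟩ := hfix t ht0 ht.2
      exact step ht0 hC h4 hβ hC2pos hG1 hG2 (HH_nonneg y V t) k1 k2 hF
  -- doubling
  obtain ⟨N, hN⟩ := exists_nat_ge (2 * G + 5 * C + 1)
  have hN1 : 1 ≤ N := by
    have : (1:ℝ) ≤ N := by linarith
    exact_mod_cast this
  have hmono : ∀ t, 0 < t → t ≤ t₂ → HH y V t₂ / t₂ ^ N ≤ HH y V t / t ^ N := by
    intro t₁ h0 h1
    have hanti : AntitoneOn (fun t => HH y V t / t ^ N) (Icc t₁ t₂) := by
      have hd : ∀ t ∈ Icc t₁ t₂, HasDerivAt (fun t => HH y V t / t ^ N)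
          ((dHH y V t * t ^ N - HH y V t * (N * t ^ (N - 1))) / (t ^ N) ^ 2) t := by
        intro t ht
        have ht0 := lt_of_lt_of_le h0 ht.1
        exact (HH_der hD hI hJ hy hV (hlt t ht0 ht.2).1).div (hasDerivAt_pow N t)
          (pow_ne_zero _ ht0.ne')
      apply antitoneOn_of_deriv_nonpos (convex_Icc _ _)
      · intro t ht
        exact (hd t ht).continuousAt.continuousWithinAt
      · intro t ht
        rw [interior_Icc] at ht
        exact (hd t ⟨ht.1.le, ht.2.le⟩).differentiableAt.differentiableWithinAt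
      · intro t ht
        rw [interior_Icc] at ht
        have ht0 := lt_trans h0 ht.1
        rw [(hd t ⟨ht.1.le, ht.2.le⟩).deriv]
        apply div_nonpos_of_nonpos_of_nonneg _ (by positivity)
        obtain ⟨_, k2⟩ := hfix t ht0 ht.2.le
        have k3 := hFle t ht0 ht.2.le
        have k4 := (abs_le.1 k2).2
        have e : t ^ N = t * t ^ (N - 1) := by
          rw [← pow_succ']; congr 1; omega
        have k5 : t * dHH y V t ≤ N * HH y V t := by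
          have a1 : t * dHH y V t ≤ t * (2 * PP y V q t + 5 * C / t * HH y V t) := by
            gcongr; linarith
          have a2 : t * (2 * PP y V q t + 5 * C / t * HH y V t) =
              2 * (t * PP y V q t) + 5 * C * HH y V t := by
            field_simp
          have a3 := HH_nonneg y V t
          nlinarith
        have k6 : (0:ℝ) < t ^ (N - 1) := by positivity
        rw [e]
        nlinarith
    exact hanti ⟨le_rfl, h1⟩ ⟨h1, le_rfl⟩ h1
  obtain ⟨D, hD'⟩ := hfl N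
  have hsmall : ∀ t, 0 < t → t ≤ t₂ → HH y V t₂ / t₂ ^ N ≤ 2 * π * D ^ 2 * t ^ N := by
    intro t h0 h1
    refine le_trans (hmono t h0 h1) ?_
    rw [div_le_iff₀ (by positivity)]
    have htJ := (hlt t h0 h1).1
    have cy := cts hD hy htJ
    have cV := cts hD hV htJ
    have hb : HH y V t ≤ ∫ θ in (0:ℝ)..(2 * π), D ^ 2 * (t ^ N) ^ 2 := by
      unfold HH
      apply intervalIntegral.integral_mono_on two_pi_nonneg
      · exact Continuous.intervalIntegrable (by fun_prop) _ _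
      · exact Continuous.intervalIntegrable (by fun_prop) _ _
      intro θ _
      have h2 := hD' t htJ θ
      have h3 : (|y t θ| + |V t θ|) ^ 2 ≤ (D * t ^ N) ^ 2 :=
        pow_le_pow_left₀ (by positivity) h2 2
      have h4 := sq_abs (y t θ)
      have h5 := sq_abs (V t θ)
      nlinarith [mul_nonneg (abs_nonneg (y t θ)) (abs_nonneg (V t θ))]
    rw [intervalIntegral.integral_const] at hb
    simp only [sub_zero, smul_eq_mul] at hb
    nlinarith
  have hlim : Tendsto (fun t : ℝ => 2 * π * D ^ 2 * t ^ N) (𝓝[>] 0) (𝓝 0) := by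
    have h1 : Tendsto (fun t : ℝ => 2 * π * D ^ 2 * t ^ N) (𝓝 0) (𝓝 (2 * π * D ^ 2 * 0 ^ N)) :=
      (Continuous.tendsto (by fun_prop) 0)
    rw [zero_pow (by omega), mul_zero] at h1
    exact h1.mono_left nhdsWithin_le_nhds
  have hle : HH y V t₂ / t₂ ^ N ≤ 0 := by
    refine ge_of_tendsto hlim ?_
    have : ∀ᶠ t : ℝ in 𝓝[>] 0, t ∈ Ioo 0 t₂ := Ioo_mem_nhdsGT ht₂.1
    filter_upwards [this] with t ht
    exact hsmall t ht.1 ht.2.le
  have : 0 < HH y V t₂ / t₂ ^ N := div_pos hpos (pow_pos ht₂.1 _)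
  linarith

end Rim478
end

section
set_option autoImplicit false

/-!
# FLT: flat functions on a strip
-/

open Real MeasureTheory Set Filter Topology
open scoped ContDiff InnerProductSpace

namespace Rim478

namespace FLTM

section

variable {V : Type} [NormedAddCommGroup V] [NormedSpace ℝ V] {J : Set ℝ} {u v : ℝ → ℝ → V}
  {t₀ : ℝ}

theorem fp0 (h : Fl t₀ u) : Fl t₀ (pt u) := fun k θ => by
  have := h (k + 1) θ
  rwa [Function.iterate_succ_apply] at this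

theorem sk (hDR : SpecDR2) (hJ : IsOpen J) (hu : SJ J u) (k : ℕ) : SJ J (pt^[k] u) := by
  induction k with
  | zero => exact hu
  | succ k ih => rw [Function.iterate_succ_apply']; exact hDR.spt hJ ih

/-- iterates of `pt` are iterated derivatives -/
theorem itd (u : ℝ → ℝ → V) (k : ℕ) (t θ : ℝ) :
    (pt^[k] u) t θ = iteratedDeriv k (fun s => u s θ) t := by
  induction k generalizing t with
  | zero => rw [Function.iterate_zero, id_eq, iteratedDeriv_zero]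
  | succ k ih =>
    rw [Function.iterate_succ_apply', iteratedDeriv_succ]
    show deriv (fun s => (pt^[k] u) s θ) t = _
    congr 1
    funext s
    exact ih s

theorem sec (hu : SJ J u) (θ : ℝ) : ContDiffOn ℝ ∞ (fun t => u t θ) J := by
  have h1 : ContDiffOn ℝ ∞ (fun t : ℝ => ((t, θ) : ℝ × ℝ)) J :=
    (contDiff_id.prodMk contDiff_const).contDiffOn
  have h2 : MapsTo (fun t : ℝ => ((t, θ) : ℝ × ℝ)) J (J ×ˢ univ) := fun t ht => ⟨ht, mem_univ _⟩
  have h3 : ContDiffOn ℝ ∞ ((fun p : ℝ × ℝ => u p.1 p.2) ∘ fun t : ℝ => ((t, θ) : ℝ × ℝ)) J :=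
    ContDiffOn.comp (g := fun p : ℝ × ℝ => u p.1 p.2) hu h1 h2
  exact h3

/-- one integration step of the estimate -/
theorem step (hDR : SpecDR2) (hJ : IsOpen J) (hu : SJ J u) {δ C : ℝ} {N : ℕ} {θ : ℝ}
    (hδ : ∀ t, |t - t₀| < δ → t ∈ J) (h0 : u t₀ θ = 0)
    (h : ∀ t, |t - t₀| < δ → ‖pt u t θ‖ ≤ C * |t - t₀| ^ N) (t : ℝ) (ht : |t - t₀| < δ) :
    ‖u t θ‖ ≤ C * |t - t₀| ^ (N + 1) := by
  by_cases hne : t = t₀
  · subst hne
    rw [h0]
    simp
  have hpos : 0 < |t - t₀| := abs_pos.2 (sub_ne_zero.2 hne)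
  have hC : 0 ≤ C := by
    have h1 := (norm_nonneg _).trans (h t ht)
    by_contra hneg
    push Not at hneg
    have : C * |t - t₀| ^ N < 0 := mul_neg_of_neg_of_pos hneg (pow_pos hpos N)
    linarith
  have hseg : ∀ s ∈ uIcc t₀ t, |s - t₀| ≤ |t - t₀| := by
    intro s hs
    exact abs_sub_left_of_mem_uIcc hs
  have h1 := (convex_uIcc t₀ t).norm_image_sub_le_of_norm_hasDerivWithin_le
    (f := fun s => u s θ) (f' := fun s => pt u s θ) (C := C * |t - t₀| ^ N)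
    (fun s hs => (hDR.hpt hJ hu s (hδ s ((hseg s hs).trans_lt ht)) θ).hasDerivWithinAt)
    (fun s hs => (h s ((hseg s hs).trans_lt ht)).trans
      (mul_le_mul_of_nonneg_left (pow_le_pow_left₀ (abs_nonneg _) (hseg s hs) N) hC))
    left_mem_uIcc right_mem_uIcc
  simp only [h0, sub_zero, Real.norm_eq_abs] at h1
  calc ‖u t θ‖ ≤ C * |t - t₀| ^ N * |t - t₀| := h1
    _ = C * |t - t₀| ^ (N + 1) := by ring

/-- estimate for flat functions, `θ` fixed -/
theorem est1 (hDR : SpecDR2) (hJ : IsOpen J) (ht : t₀ ∈ J) (N : ℕ) :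
    ∀ u : ℝ → ℝ → V, SJ J u → Fl t₀ u → ∀ θ : ℝ, ∃ C δ : ℝ, 0 < δ ∧
      (∀ t, |t - t₀| < δ → t ∈ J) ∧ ∀ t, |t - t₀| < δ → ‖u t θ‖ ≤ C * |t - t₀| ^ N := by
  induction N with
  | zero =>
    intro u hu _ θ
    obtain ⟨ε, hε, hsub⟩ := Metric.isOpen_iff.1 hJ t₀ ht
    have hK : Metric.closedBall t₀ (ε / 2) ⊆ J :=
      (Metric.closedBall_subset_ball (by linarith)).trans hsub
    obtain ⟨C, hC⟩ := (isCompact_closedBall t₀ (ε / 2)).exists_bound_of_continuousOn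
      ((sec hu θ).continuousOn.mono hK)
    refine ⟨C, ε / 2, by positivity, ?_, ?_⟩
    · intro t h
      exact hK (by rw [Metric.mem_closedBall, Real.dist_eq]; exact h.le)
    · intro t h
      rw [pow_zero, mul_one]
      exact hC t (by rw [Metric.mem_closedBall, Real.dist_eq]; exact h.le)
  | succ N ih =>
    intro u hu hf θ
    obtain ⟨C, δ, hδ, hJδ, h⟩ := ih (pt u) (hDR.spt hJ hu) (fp0 hf) θ
    exact ⟨C, δ, hδ, hJδ, step hDR hJ hu hJδ (hf 0 θ) h⟩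

/-- estimate for flat periodic functions, uniform in `θ` -/
theorem est0 (hDR : SpecDR2) (hJ : IsOpen J) (ht : t₀ ∈ J) (N : ℕ) :
    ∀ u : ℝ → ℝ → V, SJ J u → Per J u → Fl t₀ u → ∃ C δ : ℝ, 0 < δ ∧
      (∀ t, |t - t₀| < δ → t ∈ J) ∧ ∀ t, |t - t₀| < δ → ∀ θ, ‖u t θ‖ ≤ C * |t - t₀| ^ N := by
  induction N with
  | zero =>
    intro u hu hp _
    obtain ⟨ε, hε, hsub⟩ := Metric.isOpen_iff.1 hJ t₀ ht
    have hK : Metric.closedBall t₀ (ε / 2) ⊆ J :=
      (Metric.closedBall_subset_ball (by linarith)).trans hsub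
    have hc : ContinuousOn (fun p : ℝ × ℝ => u p.1 p.2)
        (Metric.closedBall t₀ (ε / 2) ×ˢ Icc 0 (2 * π)) :=
      (ContDiffOn.continuousOn hu).mono (prod_mono hK (subset_univ _))
    obtain ⟨C, hC⟩ :=
      ((isCompact_closedBall t₀ (ε / 2)).prod isCompact_Icc).exists_bound_of_continuousOn hc
    refine ⟨C, ε / 2, by positivity, ?_, ?_⟩
    · intro t h
      exact hK (by rw [Metric.mem_closedBall, Real.dist_eq]; exact h.le)
    · intro t h θ
      rw [pow_zero, mul_one]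
      have htK : t ∈ Metric.closedBall t₀ (ε / 2) := by
        rw [Metric.mem_closedBall, Real.dist_eq]; exact h.le
      have hper : Function.Periodic (fun θ => u t θ) (2 * π) := fun θ => hp t (hK htK) θ
      obtain ⟨y, hy, he⟩ := hper.exists_mem_Ico₀ (by positivity) θ
      have : u t θ = u t y := he
      rw [this]
      exact hC (t, y) ⟨htK, ⟨hy.1, hy.2.le⟩⟩
  | succ N ih =>
    intro u hu hp hf
    obtain ⟨C, δ, hδ, hJδ, h⟩ := ih (pt u) (hDR.spt hJ hu) (hDR.perp hJ hp) (fp0 hf)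
    exact ⟨C, δ, hδ, hJδ, fun t ht' θ =>
      step hDR hJ hu hJδ (hf 0 θ) (fun s hs => h s hs θ) t ht'⟩

/-- Taylor expansion at a point where the first `k` derivatives vanish -/
theorem tay {w : ℝ → V} (k : ℕ) (hJ : IsOpen J) (hw : ContDiffOn ℝ ∞ w J) (ht : t₀ ∈ J)
    (h0 : ∀ i < k, iteratedDeriv i w t₀ = 0) :
    ∃ δ C : ℝ, 0 < δ ∧ 0 < C ∧ ∀ t ∈ Icc 0 δ,
      ‖w (t₀ + t) - (t ^ k / (k.factorial : ℝ)) • iteratedDeriv k w t₀‖ ≤ C * t ^ (k + 1) := by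
  obtain ⟨ε, hε, hsub⟩ := Metric.isOpen_iff.1 hJ t₀ ht
  set δ := ε / 2 with hδ
  have hδ0 : 0 < δ := by positivity
  have hI : Icc t₀ (t₀ + δ) ⊆ J := by
    intro x hx
    apply hsub
    rw [Metric.mem_ball, Real.dist_eq, abs_lt]
    constructor <;> [linarith [hx.1]; linarith [hx.2]]
  have hab : t₀ ≤ t₀ + δ := by linarith
  have hlt : t₀ < t₀ + δ := by linarith
  have hsm : ContDiffOn ℝ (k + 1) w (Icc t₀ (t₀ + δ)) := by
    have := (hw.mono hI).of_le (m := ((k + 1 : ℕ) : WithTop ℕ∞))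
      (by exact_mod_cast (WithTop.coe_le_coe.2 (le_top (a := ((k + 1 : ℕ) : ℕ∞)))))
    simpa using this
  obtain ⟨C, hC⟩ := exists_taylor_mean_remainder_bound hab hsm
  refine ⟨δ, |C| + 1, hδ0, by positivity, ?_⟩
  intro t ht'
  have hx : t₀ + t ∈ Icc t₀ (t₀ + δ) := ⟨by linarith [ht'.1], by linarith [ht'.2]⟩
  have h1 := hC (t₀ + t) hx
  have hT : taylorWithinEval w k (Icc t₀ (t₀ + δ)) t₀ (t₀ + t) =
      (t ^ k / (k.factorial : ℝ)) • iteratedDeriv k w t₀ := by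
    rw [taylor_within_apply, Finset.sum_range_succ, Finset.sum_eq_zero, zero_add]
    · rw [iteratedDerivWithin_eq_iteratedDeriv (uniqueDiffOn_Icc hlt)
        (((hw t₀ ht).contDiffAt (hJ.mem_nhds ht)).of_le
          (by exact_mod_cast (WithTop.coe_le_coe.2 (le_top (a := ((k : ℕ) : ℕ∞))))))
        (left_mem_Icc.2 hab)]
      congr 1
      rw [add_sub_cancel_left]
      field_simp
    · intro i hi
      rw [Finset.mem_range] at hi
      rw [iteratedDerivWithin_eq_iteratedDeriv (uniqueDiffOn_Icc hlt)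
        (((hw t₀ ht).contDiffAt (hJ.mem_nhds ht)).of_le
          (by exact_mod_cast (WithTop.coe_le_coe.2 (le_top (a := ((i : ℕ) : ℕ∞))))))
        (left_mem_Icc.2 hab), h0 i hi, smul_zero]
  rw [hT, add_sub_cancel_left] at h1
  refine h1.trans ?_
  have : 0 ≤ t ^ (k + 1) := pow_nonneg ht'.1 _
  nlinarith [le_abs_self C]

theorem conv0 (hJ : IsOpen J) (hu : SJ J u) (ht : t₀ ∈ J)
    (h : ∀ (N : ℕ) (θ : ℝ), ∃ C δ : ℝ, 0 < δ ∧ ∀ t, |t - t₀| < δ → ‖u t θ‖ ≤ C * |t - t₀| ^ N) :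
    Fl t₀ u := by
  intro k θ
  rw [itd]
  induction k using Nat.strong_induction_on with
  | _ k ih =>
    obtain ⟨δ₁, C₁, hδ₁, hC₁, h1⟩ := tay k hJ (sec hu θ) ht ih
    obtain ⟨C₂, δ₂, hδ₂, h2⟩ := h (k + 1) θ
    by_contra hne
    have hpos : 0 < ‖iteratedDeriv k (fun s => u s θ) t₀‖ := norm_pos_iff.2 hne
    set A := ‖iteratedDeriv k (fun s => u s θ) t₀‖ with hA
    have hk0 : (0 : ℝ) < (k.factorial : ℝ) := by exact_mod_cast k.factorial_pos
    set B := (C₁ + |C₂|) * (k.factorial : ℝ) + 1 with hB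
    have hB0 : 0 < B := by positivity
    obtain ⟨t, ht0, htδ₁, htδ₂, htA⟩ : ∃ t : ℝ, 0 < t ∧ t ≤ δ₁ ∧ t < δ₂ ∧ t * B < A := by
      refine ⟨min δ₁ (min (δ₂ / 2) (A / (2 * B))), by positivity, min_le_left _ _, ?_, ?_⟩
      · refine ((min_le_right _ _).trans (min_le_left _ _)).trans_lt (by linarith)
      · have : min δ₁ (min (δ₂ / 2) (A / (2 * B))) ≤ A / (2 * B) :=
          (min_le_right _ _).trans (min_le_right _ _)
        calc _ ≤ A / (2 * B) * B := mul_le_mul_of_nonneg_right this hB0.le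
          _ = A / 2 := by field_simp
          _ < A := by linarith
    have e1 := h1 t ⟨ht0.le, htδ₁⟩
    have e2 := h2 (t₀ + t) (by rw [add_sub_cancel_left, abs_of_pos ht0]; exact htδ₂)
    rw [add_sub_cancel_left, abs_of_pos ht0] at e2
    have hp : 0 < t ^ (k + 1) := pow_pos ht0 _
    have e3 : ‖(t ^ k / (k.factorial : ℝ)) • iteratedDeriv k (fun s => u s θ) t₀‖ ≤
        (C₁ + |C₂|) * t ^ (k + 1) := by
      have e4 : (t ^ k / (k.factorial : ℝ)) • iteratedDeriv k (fun s => u s θ) t₀ =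
          u (t₀ + t) θ - (u (t₀ + t) θ -
            (t ^ k / (k.factorial : ℝ)) • iteratedDeriv k (fun s => u s θ) t₀) := by
        rw [sub_sub_cancel]
      rw [e4]
      refine (norm_sub_le _ _).trans ?_
      have : C₂ * t ^ (k + 1) ≤ |C₂| * t ^ (k + 1) :=
        mul_le_mul_of_nonneg_right (le_abs_self _) hp.le
      linarith
    rw [norm_smul, Real.norm_eq_abs, abs_of_nonneg (by positivity)] at e3
    rw [← hA] at e3
    have e5 : A ≤ (C₁ + |C₂|) * (k.factorial : ℝ) * t := by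
      have hq : 0 < t ^ k / (k.factorial : ℝ) := by positivity
      have : t ^ k / (k.factorial : ℝ) * A ≤
          t ^ k / (k.factorial : ℝ) * ((C₁ + |C₂|) * (k.factorial : ℝ) * t) := by
        calc _ ≤ (C₁ + |C₂|) * t ^ (k + 1) := e3
          _ = _ := by field_simp; ring
      exact le_of_mul_le_mul_left this hq
    have e6 : (C₁ + |C₂|) * (k.factorial : ℝ) * t ≤ t * B := by
      rw [hB]; nlinarith
    linarith

/-- derivatives in `t` commute with `ph` -/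
theorem cm (hDR : SpecDR2) (hJ : IsOpen J) (hu : SJ J u) (k : ℕ) :
    ∀ t ∈ J, ∀ θ, (pt^[k] (ph u)) t θ = ph (pt^[k] u) t θ := by
  induction k with
  | zero => intro t _ θ; rfl
  | succ k ih =>
    intro t ht θ
    rw [Function.iterate_succ_apply', Function.iterate_succ_apply',
      hDR.pcg hJ ih t ht θ, hDR.comm hJ (sk hDR hJ hu k) t ht θ]

theorem fh0 (hDR : SpecDR2) (hJ : IsOpen J) (hu : SJ J u) (ht : t₀ ∈ J) (h : Fl t₀ u) :
    Fl t₀ (ph u) := by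
  intro k θ
  rw [cm hDR hJ hu k t₀ ht θ]
  show deriv (fun s => (pt^[k] u) t₀ s) θ = 0
  have : (fun s => (pt^[k] u) t₀ s) = fun _ => (0 : V) := funext fun s => h k s
  rw [this, deriv_const]

/-- a function which is zero on an open set has zero derivatives there -/
theorem zr (hDR : SpecDR2) {I : Set ℝ} (hI : IsOpen I) (h : ∀ t ∈ I, ∀ θ, u t θ = 0) (k : ℕ) :
    ∀ t ∈ I, ∀ θ, (pt^[k] u) t θ = 0 := by
  induction k with
  | zero => exact h
  | succ k ih =>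
    intro t ht θ
    rw [Function.iterate_succ_apply',
      hDR.pcg (H := fun _ _ => (0 : V)) hI ih t ht θ]
    show deriv (fun _ => (0 : V)) t = 0
    exact deriv_const _ _

theorem lim0 (hDR : SpecDR2) (hJ : IsOpen J) (hu : SJ J u) (ht : t₀ ∈ J) {I : Set ℝ}
    (hI : IsOpen I) (h : ∀ t ∈ I, ∀ θ, u t θ = 0) (hne : (𝓝[I] t₀).NeBot) : Fl t₀ u := by
  intro k θ
  have h1 : ContinuousAt (fun t => (pt^[k] u) t θ) t₀ :=
    (sec (sk hDR hJ hu k) θ).continuousOn.continuousAt (hJ.mem_nhds ht)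
  have h2 : Tendsto (fun t => (pt^[k] u) t θ) (𝓝[I] t₀) (𝓝 ((pt^[k] u) t₀ θ)) :=
    h1.mono_left nhdsWithin_le_nhds
  have h3 : Tendsto (fun t => (pt^[k] u) t θ) (𝓝[I] t₀) (𝓝 0) := by
    refine tendsto_const_nhds.congr' ?_
    filter_upwards [self_mem_nhdsWithin] with t hI'
    exact (zr hDR hI h k t hI' θ).symm
  exact tendsto_nhds_unique h2 h3

/-- products of a flat function with a smooth one -/
theorem bil (hDR : SpecDR2) {W X : Type} [NormedAddCommGroup W] [NormedSpace ℝ W]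
    [NormedAddCommGroup X] [NormedSpace ℝ X] {a : ℝ → ℝ → W} {w : ℝ → ℝ → X} (hJ : IsOpen J)
    (ha : SJ J a) (hu : SJ J u) (hw : SJ J w) (ht : t₀ ∈ J) (hf : Fl t₀ u)
    (hle : ∀ t ∈ J, ∀ θ, ‖w t θ‖ ≤ ‖a t θ‖ * ‖u t θ‖) : Fl t₀ w := by
  refine conv0 hJ hw ht fun N θ => ?_
  obtain ⟨C, δ, hδ, hJδ, h⟩ := est1 hDR hJ ht N u hu hf θ
  have hc : ContinuousAt (fun t => a t θ) t₀ :=
    (sec ha θ).continuousOn.continuousAt (hJ.mem_nhds ht)
  obtain ⟨η, hη, hb⟩ := Metric.continuousAt_iff.1 hc 1 one_pos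
  refine ⟨(‖a t₀ θ‖ + 1) * C, min δ η, lt_min hδ hη, fun t hlt => ?_⟩
  have h1 : |t - t₀| < δ := hlt.trans_le (min_le_left _ _)
  have h2 : |t - t₀| < η := hlt.trans_le (min_le_right _ _)
  have h3 : ‖a t θ‖ ≤ ‖a t₀ θ‖ + 1 := by
    have := hb (x := t) (by rw [Real.dist_eq]; exact h2)
    rw [dist_eq_norm] at this
    have h4 : ‖a t θ‖ ≤ ‖a t θ - a t₀ θ‖ + ‖a t₀ θ‖ := by
      have := norm_add_le (a t θ - a t₀ θ) (a t₀ θ)
      rwa [sub_add_cancel] at this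
    linarith
  calc ‖w t θ‖ ≤ ‖a t θ‖ * ‖u t θ‖ := hle t (hJδ t h1) θ
    _ ≤ (‖a t₀ θ‖ + 1) * (C * |t - t₀| ^ N) :=
        mul_le_mul h3 (h t h1) (norm_nonneg _) (by positivity)
    _ = (‖a t₀ θ‖ + 1) * C * |t - t₀| ^ N := by ring

end

theorem cr_le (hCRS : SpecCRS) (a b : E3) : ‖cr a b‖ ≤ ‖b‖ * ‖a‖ := by
  have h := hCRS.lag a b a b
  rw [real_inner_self_eq_norm_sq, real_inner_self_eq_norm_sq, real_inner_self_eq_norm_sq,
    real_inner_comm a b] at h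
  have h2 : ‖cr a b‖ ^ 2 ≤ (‖b‖ * ‖a‖) ^ 2 := by
    rw [h]
    nlinarith [sq_nonneg (⟪a, b⟫_ℝ)]
  exact abs_le_of_sq_le_sq' h2 (by positivity) |>.2

end FLTM

open FLTM in
theorem specFLT (hDR : SpecDR2) (hCRS : SpecCRS) : SpecFLT where
  est := by
    intro V _ _ J u t₀ hJ hu hp ht hf N
    obtain ⟨C, δ, hδ, -, h⟩ := est0 hDR hJ ht N u hu hp hf
    exact ⟨C, δ, hδ, h⟩
  conv := fun hJ hu ht h => conv0 hJ hu ht h
  fp := fun h => fp0 h
  fh := fun hJ hu ht h => fh0 hDR hJ hu ht h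
  add := by
    intro V _ _ J u v t₀ hJ hu hv ht hf hg
    refine conv0 hJ (ContDiffOn.add hu hv) ht fun N θ => ?_
    obtain ⟨C, δ, hδ, -, h⟩ := est1 hDR hJ ht N u hu hf θ
    obtain ⟨C', δ', hδ', -, h'⟩ := est1 hDR hJ ht N v hv hg θ
    refine ⟨C + C', min δ δ', lt_min hδ hδ', fun t hlt => ?_⟩
    have h1 := h t (hlt.trans_le (min_le_left _ _))
    have h2 := h' t (hlt.trans_le (min_le_right _ _))
    refine (norm_add_le _ _).trans ?_
    rw [add_mul]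
    exact add_le_add h1 h2
  smul := by
    intro V _ _ J a u t₀ hJ ha hu ht hf
    exact bil hDR hJ ha hu (ContDiffOn.smul ha hu) ht hf fun t _ θ => by rw [norm_smul]
  inn := by
    intro J u v t₀ hJ hu hv ht hf
    refine bil hDR hJ hv hu (ContDiffOn.inner ℝ hu hv) ht hf fun t _ θ => ?_
    rw [mul_comm]
    exact norm_inner_le_norm _ _
  crs := by
    intro J u v t₀ hJ hu hv ht hf
    have hs : SJ J (fun t θ => cr (u t θ) (v t θ)) :=
      hCRS.sm.comp_contDiffOn (ContDiffOn.prodMk hu hv)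
    exact bil hDR hJ hv hu hs ht hf fun t _ θ => cr_le hCRS _ _
  one := by
    intro V _ _ J u t₀ δ hJ hu ht hδ h
    refine lim0 hDR hJ hu ht isOpen_Ioo h ?_
    have : 𝓝[Ioo (t₀ - δ) t₀] t₀ = 𝓝[<] t₀ := nhdsWithin_Ioo_eq_nhdsLT (by linarith)
    rw [this]
    infer_instance
  eno := by
    intro V _ _ J u t₀ δ hJ hu ht hδ h
    refine lim0 hDR hJ hu ht isOpen_Ioo h ?_
    have : 𝓝[Ioo t₀ (t₀ + δ)] t₀ = 𝓝[>] t₀ := nhdsWithin_Ioo_eq_nhdsGT (by linarith)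
    rw [this]
    infer_instance

end Rim478
end

section
set_option autoImplicit false

/-!
Module FRM of MP_478c11_gt, part U (helper19): the frame equations of a strip, Gauss and Codazzi.
-/

open Real MeasureTheory Set Filter Topology
open scoped ContDiff InnerProductSpace

namespace Rim478

namespace FRMM

section cal
variable (hD : SpecDR2) {J : Set ℝ} (hJ : IsOpen J)
include hD hJ

lemma pinn {F G : ℝ → ℝ → E3} (hF : SJ J F) (hG : SJ J G) {t : ℝ} (ht : t ∈ J) (θ : ℝ) :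
    pt (fun t θ => ⟪F t θ, G t θ⟫_ℝ) t θ = ⟪F t θ, pt G t θ⟫_ℝ + ⟪pt F t θ, G t θ⟫_ℝ :=
  ((hD.hpt hJ hF t ht θ).inner ℝ (hD.hpt hJ hG t ht θ)).deriv

lemma hinn {F G : ℝ → ℝ → E3} (hF : SJ J F) (hG : SJ J G) {t : ℝ} (ht : t ∈ J) (θ : ℝ) :
    ph (fun t θ => ⟪F t θ, G t θ⟫_ℝ) t θ = ⟪F t θ, ph G t θ⟫_ℝ + ⟪ph F t θ, G t θ⟫_ℝ :=
  ((hD.hph hJ hF t ht θ).inner ℝ (hD.hph hJ hG t ht θ)).deriv

lemma pmul {f g : ℝ → ℝ → ℝ} (hf : SJ J f) (hg : SJ J g) {t : ℝ} (ht : t ∈ J) (θ : ℝ) :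
    pt (fun t θ => f t θ * g t θ) t θ = pt f t θ * g t θ + f t θ * pt g t θ :=
  ((hD.hpt hJ hf t ht θ).mul (hD.hpt hJ hg t ht θ)).deriv

lemma hmul {f g : ℝ → ℝ → ℝ} (hf : SJ J f) (hg : SJ J g) {t : ℝ} (ht : t ∈ J) (θ : ℝ) :
    ph (fun t θ => f t θ * g t θ) t θ = ph f t θ * g t θ + f t θ * ph g t θ :=
  ((hD.hph hJ hf t ht θ).mul (hD.hph hJ hg t ht θ)).deriv

lemma psmul {f : ℝ → ℝ → ℝ} {G : ℝ → ℝ → E3} (hf : SJ J f) (hG : SJ J G) {t : ℝ} (ht : t ∈ J) (θ : ℝ) :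
    HasDerivAt (fun s => f s θ • G s θ) (f t θ • pt G t θ + pt f t θ • G t θ) t :=
  (hD.hpt hJ hf t ht θ).smul (hD.hpt hJ hG t ht θ)

lemma hsmul {f : ℝ → ℝ → ℝ} {G : ℝ → ℝ → E3} (hf : SJ J f) (hG : SJ J G) {t : ℝ} (ht : t ∈ J) (θ : ℝ) :
    HasDerivAt (fun s => f t s • G t s) (f t θ • ph G t θ + ph f t θ • G t θ) θ :=
  (hD.hph hJ hf t ht θ).smul (hD.hph hJ hG t ht θ)

end cal

section sm
variable {J : Set ℝ}

lemma sinn {F G : ℝ → ℝ → E3} (hF : SJ J F) (hG : SJ J G) : SJ J (fun t θ => ⟪F t θ, G t θ⟫_ℝ) :=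
  ContDiffOn.inner ℝ hF hG

lemma scr (hC : SpecCRS) {F G : ℝ → ℝ → E3} (hF : SJ J F) (hG : SJ J G) : SJ J (fun t θ => cr (F t θ) (G t θ)) := by
  have := hC.sm.comp_contDiffOn (s := J ×ˢ univ) (f := fun p : ℝ × ℝ => (F p.1 p.2, G p.1 p.2)) (ContDiffOn.prodMk hF hG)
  exact this

lemma smulr {f g : ℝ → ℝ → ℝ} (hf : SJ J f) (hg : SJ J g) : SJ J (fun t θ => f t θ * g t θ) :=
  ContDiffOn.mul hf hg

lemma ssm {f : ℝ → ℝ → ℝ} {G : ℝ → ℝ → E3} (hf : SJ J f) (hG : SJ J G) : SJ J (fun t θ => f t θ • G t θ) :=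
  ContDiffOn.smul hf hG

lemma sinv {f : ℝ → ℝ → ℝ} (hf : SJ J f) (h0 : ∀ t ∈ J, ∀ θ, f t θ ≠ 0) : SJ J (fun t θ => (f t θ)⁻¹) :=
  ContDiffOn.inv hf (fun p hp => h0 p.1 hp.1 p.2)

end sm

lemma crsm (a b : E3) (c : ℝ) : cr a (c • b) = c • cr a b := by
  ext i
  fin_cases i <;> simp [cr] <;> ring

section strip
variable (hD : SpecDR2) (hC : SpecCRS) {J : Set ℝ} (hJ : IsOpen J) {ρ : ℝ → ℝ → ℝ} {Y : ℝ → ℝ → E3} (h : Str J ρ Y)

include h in
lemma rne {t : ℝ} (ht : t ∈ J) (θ : ℝ) : ρ t θ ≠ 0 := (h.pos t ht θ).ne'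

include h in
lemma srinv : SJ J (fun t θ => (ρ t θ)⁻¹) := sinv h.sr (fun _ ht θ => rne h ht θ)

include hD hC hJ h in
lemma sN : SJ J (eN ρ Y) := ssm (srinv h) (scr hC (hD.spt hJ h.sm) (hD.sph hJ h.sm))

include hD hC hJ h in
lemma sl : SJ J (lf ρ Y) := sinn (hD.spt hJ (hD.spt hJ h.sm)) (sN hD hC hJ h)

include hD hC hJ h in
lemma smm : SJ J (mf ρ Y) := smulr (srinv h) (sinn (hD.spt hJ (hD.sph hJ h.sm)) (sN hD hC hJ h))

include hD hC hJ h in
lemma sn : SJ J (nf ρ Y) := by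
  have h2 : SJ J (fun t θ => (ρ t θ ^ 2)⁻¹) :=
    sinv (ContDiffOn.pow h.sr 2) (fun t ht θ => pow_ne_zero 2 (rne h ht θ))
  exact smulr h2 (sinn (hD.sph hJ (hD.sph hJ h.sm)) (sN hD hC hJ h))

include hD h in
lemma pr : Per J ρ := by
  intro t ht θ
  have h1 := h.hh t ht (θ + 2 * π)
  have h2 := h.hh t ht θ
  have h3 := (hD.perh h.per) t ht θ
  rw [h3, h2] at h1
  have h4 := h.pos t ht θ
  have h5 := h.pos t ht (θ + 2 * π)
  nlinarith [sq_nonneg (ρ t θ - ρ t (θ + 2 * π)), mul_pos h4 h5]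

include hD hJ h in
lemma pN : Per J (eN ρ Y) := by
  intro t ht θ
  unfold eN
  rw [pr hD h t ht θ, hD.perp hJ h.per t ht θ, hD.perh h.per t ht θ]

include hD hJ h in
lemma pl : Per J (lf ρ Y) := by
  intro t ht θ
  unfold lf
  rw [pN hD hJ h t ht θ, hD.perp hJ (hD.perp hJ h.per) t ht θ]

include hD hJ h in
lemma pm : Per J (mf ρ Y) := by
  intro t ht θ
  unfold mf
  rw [pN hD hJ h t ht θ, hD.perp hJ (hD.perh h.per) t ht θ, pr hD h t ht θ]

include hD hJ h in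
lemma pn : Per J (nf ρ Y) := by
  intro t ht θ
  unfold nf
  rw [pN hD hJ h t ht θ, hD.perh (hD.perh h.per) t ht θ, pr hD h t ht θ]

/-! ### the frame is orthonormal -/

include h in
lemma n1 {t : ℝ} (ht : t ∈ J) (θ : ℝ) : ‖pt Y t θ‖ = 1 := by
  have h1 := h.tt t ht θ
  rw [real_inner_self_eq_norm_sq] at h1
  nlinarith [norm_nonneg (pt Y t θ)]

include h in
lemma n2 {t : ℝ} (ht : t ∈ J) (θ : ℝ) : ‖(ρ t θ)⁻¹ • ph Y t θ‖ = 1 := by
  have h1 := h.hh t ht θ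
  have h2 := h.pos t ht θ
  rw [real_inner_self_eq_norm_sq] at h1
  have h3 : ‖ph Y t θ‖ = ρ t θ := by nlinarith [norm_nonneg (ph Y t θ)]
  rw [norm_smul, h3, norm_inv, Real.norm_eq_abs, abs_of_pos h2, inv_mul_cancel₀ h2.ne']

include h in
lemma o12 {t : ℝ} (ht : t ∈ J) (θ : ℝ) : ⟪pt Y t θ, (ρ t θ)⁻¹ • ph Y t θ⟫_ℝ = 0 := by
  rw [real_inner_smul_right, h.th t ht θ, mul_zero]

lemma Neq (t θ : ℝ) : eN ρ Y t θ = cr (pt Y t θ) ((ρ t θ)⁻¹ • ph Y t θ) := by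
  rw [crsm]; rfl

include hC h in
lemma nN {t : ℝ} (ht : t ∈ J) (θ : ℝ) : ‖eN ρ Y t θ‖ = 1 := by
  rw [Neq]; exact hC.nrm _ _ (n1 h ht θ) (n2 h ht θ) (o12 h ht θ)

include hC in
lemma oN1 (t θ : ℝ) : ⟪eN ρ Y t θ, pt Y t θ⟫_ℝ = 0 := by
  unfold eN; rw [real_inner_smul_left, hC.o1, mul_zero]

include hC in
lemma oN2 (t θ : ℝ) : ⟪eN ρ Y t θ, ph Y t θ⟫_ℝ = 0 := by
  unfold eN; rw [real_inner_smul_left, hC.o2, mul_zero]

include hC h in
/-- expansion in the frame -/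
lemma exp {t : ℝ} (ht : t ∈ J) (θ : ℝ) (x : E3) :
    x = ⟪x, pt Y t θ⟫_ℝ • pt Y t θ + (⟪x, ph Y t θ⟫_ℝ / ρ t θ ^ 2) • ph Y t θ + ⟪x, eN ρ Y t θ⟫_ℝ • eN ρ Y t θ := by
  have h1 := hC.exp _ _ (n1 h ht θ) (n2 h ht θ) (o12 h ht θ) x
  rw [← Neq] at h1
  conv_lhs => rw [h1]
  congr 2
  rw [real_inner_smul_right, smul_smul]
  congr 1
  have := rne h ht θ
  field_simp

/-! ### first derivatives of the metric -/

include hD hJ h in
lemma a1 {t : ℝ} (ht : t ∈ J) (θ : ℝ) : ⟪pt (pt Y) t θ, pt Y t θ⟫_ℝ = 0 := by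
  have h1 := hD.pcg hJ (G := fun t θ => ⟪pt Y t θ, pt Y t θ⟫_ℝ) (H := fun _ _ => (1:ℝ)) (fun t ht θ => h.tt t ht θ) t ht θ
  rw [pinn hD hJ (hD.spt hJ h.sm) (hD.spt hJ h.sm) ht θ, real_inner_comm (pt (pt Y) t θ) (pt Y t θ)] at h1
  have h2 : pt (fun _ _ => (1:ℝ)) t θ = 0 := by unfold pt; simp
  linarith

include hD hJ h in
lemma a2 {t : ℝ} (ht : t ∈ J) (θ : ℝ) : ⟪ph (pt Y) t θ, pt Y t θ⟫_ℝ = 0 := by
  have h1 := hD.hcg (J := J) (G := fun t θ => ⟪pt Y t θ, pt Y t θ⟫_ℝ) (H := fun _ _ => (1:ℝ)) (fun t ht θ => h.tt t ht θ) t ht θ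
  rw [hinn hD hJ (hD.spt hJ h.sm) (hD.spt hJ h.sm) ht θ, real_inner_comm (ph (pt Y) t θ) (pt Y t θ)] at h1
  have h2 : ph (fun _ _ => (1:ℝ)) t θ = 0 := by unfold ph; simp
  linarith

include hD hJ h in
lemma a3 {t : ℝ} (ht : t ∈ J) (θ : ℝ) : ⟪ph (pt Y) t θ, ph Y t θ⟫_ℝ = ρ t θ * pt ρ t θ := by
  have h1 := hD.pcg hJ (G := fun t θ => ⟪ph Y t θ, ph Y t θ⟫_ℝ) (H := fun t θ => ρ t θ * ρ t θ)
    (fun t ht θ => by rw [h.hh t ht θ]; ring) t ht θ
  rw [pinn hD hJ (hD.sph hJ h.sm) (hD.sph hJ h.sm) ht θ, real_inner_comm (pt (ph Y) t θ) (ph Y t θ), hD.comm hJ h.sm t ht θ,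
    pmul hD hJ h.sr h.sr ht θ] at h1
  linarith

include hD hJ h in
lemma a4 {t : ℝ} (ht : t ∈ J) (θ : ℝ) : ⟪ph (ph Y) t θ, ph Y t θ⟫_ℝ = ρ t θ * ph ρ t θ := by
  have h1 := hD.hcg (J := J) (G := fun t θ => ⟪ph Y t θ, ph Y t θ⟫_ℝ) (H := fun t θ => ρ t θ * ρ t θ)
    (fun t ht θ => by rw [h.hh t ht θ]; ring) t ht θ
  rw [hinn hD hJ (hD.sph hJ h.sm) (hD.sph hJ h.sm) ht θ, real_inner_comm (ph (ph Y) t θ) (ph Y t θ),
    hmul hD hJ h.sr h.sr ht θ] at h1
  linarith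

include hD hJ h in
lemma a5 {t : ℝ} (ht : t ∈ J) (θ : ℝ) : ⟪pt (pt Y) t θ, ph Y t θ⟫_ℝ = 0 := by
  have h1 := hD.pcg hJ (G := fun t θ => ⟪pt Y t θ, ph Y t θ⟫_ℝ) (H := fun _ _ => (0:ℝ)) (fun t ht θ => h.th t ht θ) t ht θ
  rw [pinn hD hJ (hD.spt hJ h.sm) (hD.sph hJ h.sm) ht θ, hD.comm hJ h.sm t ht θ,
    real_inner_comm (ph (pt Y) t θ) (pt Y t θ), a2 hD hJ h ht θ] at h1
  have h2 : pt (fun _ _ => (0:ℝ)) t θ = 0 := by unfold pt; simp
  linarith

include hD hJ h in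
lemma a6 {t : ℝ} (ht : t ∈ J) (θ : ℝ) : ⟪ph (ph Y) t θ, pt Y t θ⟫_ℝ = -(ρ t θ * pt ρ t θ) := by
  have h1 := hD.hcg (J := J) (G := fun t θ => ⟪pt Y t θ, ph Y t θ⟫_ℝ) (H := fun _ _ => (0:ℝ)) (fun t ht θ => h.th t ht θ) t ht θ
  rw [hinn hD hJ (hD.spt hJ h.sm) (hD.sph hJ h.sm) ht θ, real_inner_comm (ph (ph Y) t θ) (pt Y t θ), a3 hD hJ h ht θ] at h1
  have h2 : ph (fun _ _ => (0:ℝ)) t θ = 0 := by unfold ph; simp
  linarith

/-! ### the components of the second derivatives along the normal -/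

lemma b1 (t θ : ℝ) : ⟪pt (pt Y) t θ, eN ρ Y t θ⟫_ℝ = lf ρ Y t θ := rfl

include hD hJ h in
lemma b2 {t : ℝ} (ht : t ∈ J) (θ : ℝ) : ⟪ph (pt Y) t θ, eN ρ Y t θ⟫_ℝ = ρ t θ * mf ρ Y t θ := by
  unfold mf
  rw [hD.comm hJ h.sm t ht θ, ← mul_assoc, mul_inv_cancel₀ (rne h ht θ), one_mul]

include h in
lemma b3 {t : ℝ} (ht : t ∈ J) (θ : ℝ) : ⟪ph (ph Y) t θ, eN ρ Y t θ⟫_ℝ = ρ t θ ^ 2 * nf ρ Y t θ := by
  unfold nf
  rw [← mul_assoc, mul_inv_cancel₀ (pow_ne_zero 2 (rne h ht θ)), one_mul]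

/-! ### the frame equations -/

include hD hC hJ h in
lemma e1t {t : ℝ} (ht : t ∈ J) (θ : ℝ) : pt (pt Y) t θ = lf ρ Y t θ • eN ρ Y t θ := by
  have h1 := exp hC h ht θ (pt (pt Y) t θ)
  rw [a1 hD hJ h ht θ, a5 hD hJ h ht θ, b1] at h1
  rw [h1]; simp

include hD hC hJ h in
lemma e1h {t : ℝ} (ht : t ∈ J) (θ : ℝ) :
    ph (pt Y) t θ = (pt ρ t θ / ρ t θ) • ph Y t θ + (ρ t θ * mf ρ Y t θ) • eN ρ Y t θ := by
  have h1 := exp hC h ht θ (ph (pt Y) t θ)
  rw [a2 hD hJ h ht θ, a3 hD hJ h ht θ, b2 hD hJ h ht θ, zero_smul, zero_add] at h1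
  rw [h1]
  have := rne h ht θ
  congr 2
  field_simp

include hD hC hJ h in
lemma e2h {t : ℝ} (ht : t ∈ J) (θ : ℝ) :
    ph (ph Y) t θ = -(ρ t θ * pt ρ t θ) • pt Y t θ + (ph ρ t θ / ρ t θ) • ph Y t θ + (ρ t θ ^ 2 * nf ρ Y t θ) • eN ρ Y t θ := by
  have h1 := exp hC h ht θ (ph (ph Y) t θ)
  rw [a6 hD hJ h ht θ, a4 hD hJ h ht θ, b3 h ht θ] at h1
  rw [h1]
  have := rne h ht θ
  congr 3
  field_simp

include hD hC hJ h in
lemma c1 {t : ℝ} (ht : t ∈ J) (θ : ℝ) : ⟪pt (eN ρ Y) t θ, eN ρ Y t θ⟫_ℝ = 0 := by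
  have hN := sN hD hC hJ h
  have h1 := hD.pcg hJ (G := fun t θ => ⟪eN ρ Y t θ, eN ρ Y t θ⟫_ℝ) (H := fun _ _ => (1:ℝ))
    (fun t ht θ => by rw [real_inner_self_eq_norm_sq, nN hC h ht θ]; norm_num) t ht θ
  rw [pinn hD hJ hN hN ht θ, real_inner_comm (pt (eN ρ Y) t θ) (eN ρ Y t θ)] at h1
  have h2 : pt (fun _ _ => (1:ℝ)) t θ = 0 := by unfold pt; simp
  linarith

include hD hC hJ h in
lemma c2 {t : ℝ} (ht : t ∈ J) (θ : ℝ) : ⟪ph (eN ρ Y) t θ, eN ρ Y t θ⟫_ℝ = 0 := by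
  have hN := sN hD hC hJ h
  have h1 := hD.hcg (J := J) (G := fun t θ => ⟪eN ρ Y t θ, eN ρ Y t θ⟫_ℝ) (H := fun _ _ => (1:ℝ))
    (fun t ht θ => by rw [real_inner_self_eq_norm_sq, nN hC h ht θ]; norm_num) t ht θ
  rw [hinn hD hJ hN hN ht θ, real_inner_comm (ph (eN ρ Y) t θ) (eN ρ Y t θ)] at h1
  have h2 : ph (fun _ _ => (1:ℝ)) t θ = 0 := by unfold ph; simp
  linarith

include hD hC hJ h in
lemma c3 {t : ℝ} (ht : t ∈ J) (θ : ℝ) : ⟪pt (eN ρ Y) t θ, pt Y t θ⟫_ℝ = -lf ρ Y t θ := by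
  have hN := sN hD hC hJ h
  have h1 := hD.pcg hJ (G := fun t θ => ⟪eN ρ Y t θ, pt Y t θ⟫_ℝ) (H := fun _ _ => (0:ℝ))
    (fun t _ θ => oN1 hC t θ) t ht θ
  rw [pinn hD hJ hN (hD.spt hJ h.sm) ht θ, real_inner_comm (pt (pt Y) t θ) (eN ρ Y t θ), b1] at h1
  have h2 : pt (fun _ _ => (0:ℝ)) t θ = 0 := by unfold pt; simp
  linarith

include hD hC hJ h in
lemma c4 {t : ℝ} (ht : t ∈ J) (θ : ℝ) : ⟪pt (eN ρ Y) t θ, ph Y t θ⟫_ℝ = -(ρ t θ * mf ρ Y t θ) := by
  have hN := sN hD hC hJ h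
  have h1 := hD.pcg hJ (G := fun t θ => ⟪eN ρ Y t θ, ph Y t θ⟫_ℝ) (H := fun _ _ => (0:ℝ))
    (fun t _ θ => oN2 hC t θ) t ht θ
  rw [pinn hD hJ hN (hD.sph hJ h.sm) ht θ, hD.comm hJ h.sm t ht θ, real_inner_comm (ph (pt Y) t θ) (eN ρ Y t θ),
    b2 hD hJ h ht θ] at h1
  have h2 : pt (fun _ _ => (0:ℝ)) t θ = 0 := by unfold pt; simp
  linarith

include hD hC hJ h in
lemma c5 {t : ℝ} (ht : t ∈ J) (θ : ℝ) : ⟪ph (eN ρ Y) t θ, pt Y t θ⟫_ℝ = -(ρ t θ * mf ρ Y t θ) := by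
  have hN := sN hD hC hJ h
  have h1 := hD.hcg (J := J) (G := fun t θ => ⟪eN ρ Y t θ, pt Y t θ⟫_ℝ) (H := fun _ _ => (0:ℝ))
    (fun t _ θ => oN1 hC t θ) t ht θ
  rw [hinn hD hJ hN (hD.spt hJ h.sm) ht θ, real_inner_comm (ph (pt Y) t θ) (eN ρ Y t θ), b2 hD hJ h ht θ] at h1
  have h2 : ph (fun _ _ => (0:ℝ)) t θ = 0 := by unfold ph; simp
  linarith

include hD hC hJ h in
lemma c6 {t : ℝ} (ht : t ∈ J) (θ : ℝ) : ⟪ph (eN ρ Y) t θ, ph Y t θ⟫_ℝ = -(ρ t θ ^ 2 * nf ρ Y t θ) := by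
  have hN := sN hD hC hJ h
  have h1 := hD.hcg (J := J) (G := fun t θ => ⟪eN ρ Y t θ, ph Y t θ⟫_ℝ) (H := fun _ _ => (0:ℝ))
    (fun t _ θ => oN2 hC t θ) t ht θ
  rw [hinn hD hJ hN (hD.sph hJ h.sm) ht θ, real_inner_comm (ph (ph Y) t θ) (eN ρ Y t θ), b3 h ht θ] at h1
  have h2 : ph (fun _ _ => (0:ℝ)) t θ = 0 := by unfold ph; simp
  linarith

include hD hC hJ h in
lemma nt {t : ℝ} (ht : t ∈ J) (θ : ℝ) :
    pt (eN ρ Y) t θ = -lf ρ Y t θ • pt Y t θ - (mf ρ Y t θ / ρ t θ) • ph Y t θ := by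
  have h1 := exp hC h ht θ (pt (eN ρ Y) t θ)
  rw [c3 hD hC hJ h ht θ, c4 hD hC hJ h ht θ, c1 hD hC hJ h ht θ, zero_smul, add_zero] at h1
  rw [h1, sub_eq_add_neg, ← neg_smul (mf ρ Y t θ / ρ t θ)]
  have := rne h ht θ
  congr 2
  field_simp

include hD hC hJ h in
lemma nh {t : ℝ} (ht : t ∈ J) (θ : ℝ) :
    ph (eN ρ Y) t θ = -(ρ t θ * mf ρ Y t θ) • pt Y t θ - nf ρ Y t θ • ph Y t θ := by
  have h1 := exp hC h ht θ (ph (eN ρ Y) t θ)
  rw [c5 hD hC hJ h ht θ, c6 hD hC hJ h ht θ, c2 hD hC hJ h ht θ, zero_smul, add_zero] at h1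
  rw [h1, sub_eq_add_neg, ← neg_smul (nf ρ Y t θ)]
  have := rne h ht θ
  congr 2
  field_simp

/-! ### Codazzi -/

include hD hC hJ h in
lemma pNh {t : ℝ} (ht : t ∈ J) (θ : ℝ) :
    pt (ph (eN ρ Y)) t θ = -((ρ t θ * mf ρ Y t θ) • pt (pt Y) t θ + pt (fun t θ => ρ t θ * mf ρ Y t θ) t θ • pt Y t θ) -
      (nf ρ Y t θ • ph (pt Y) t θ + pt (nf ρ Y) t θ • ph Y t θ) := by
  have h1 := hD.pcg hJ (G := ph (eN ρ Y)) (H := fun t θ => -((ρ t θ * mf ρ Y t θ) • pt Y t θ) - nf ρ Y t θ • ph Y t θ)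
    (fun t ht θ => by rw [nh hD hC hJ h ht θ, neg_smul]) t ht θ
  rw [h1]
  have h2 := ((psmul hD hJ (smulr h.sr (smm hD hC hJ h)) (hD.spt hJ h.sm) ht θ).neg.sub
    (psmul hD hJ (sn hD hC hJ h) (hD.sph hJ h.sm) ht θ)).deriv
  rw [hD.comm hJ h.sm t ht θ] at h2
  exact h2

include hD hC hJ h in
lemma hNt {t : ℝ} (ht : t ∈ J) (θ : ℝ) :
    ph (pt (eN ρ Y)) t θ = -(lf ρ Y t θ • ph (pt Y) t θ + ph (lf ρ Y) t θ • pt Y t θ) -
      ((mf ρ Y t θ * (ρ t θ)⁻¹) • ph (ph Y) t θ + ph (fun t θ => mf ρ Y t θ * (ρ t θ)⁻¹) t θ • ph Y t θ) := by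
  have h1 := hD.hcg (J := J) (G := pt (eN ρ Y)) (H := fun t θ => -(lf ρ Y t θ • pt Y t θ) - (mf ρ Y t θ * (ρ t θ)⁻¹) • ph Y t θ)
    (fun t ht θ => by rw [nt hD hC hJ h ht θ, neg_smul, div_eq_mul_inv]) t ht θ
  rw [h1]
  exact ((hsmul hD hJ (sl hD hC hJ h) (hD.spt hJ h.sm) ht θ).neg.sub
    (hsmul hD hJ (smulr (smm hD hC hJ h) (srinv h)) (hD.sph hJ h.sm) ht θ)).deriv

include hD hC hJ h in
lemma cod2 {t : ℝ} (ht : t ∈ J) (θ : ℝ) :
    pt (fun t θ => ρ t θ ^ 2 * mf ρ Y t θ) t θ = ρ t θ * ph (lf ρ Y) t θ := by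
  have h0 := hD.comm hJ (sN hD hC hJ h) t ht θ
  rw [pNh hD hC hJ h ht θ, hNt hD hC hJ h ht θ] at h0
  have h1 := congrArg (fun x => ⟪x, pt Y t θ⟫_ℝ) h0
  simp only [inner_sub_left, inner_neg_left, inner_add_left, real_inner_smul_left] at h1
  rw [a1 hD hJ h ht θ, a2 hD hJ h ht θ, h.tt t ht θ, a6 hD hJ h ht θ, real_inner_comm (pt Y t θ) (ph Y t θ), h.th t ht θ,
    pmul hD hJ h.sr (smm hD hC hJ h) ht θ] at h1
  have h2 : pt (fun t θ => ρ t θ ^ 2 * mf ρ Y t θ) t θ =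
      (pt ρ t θ * ρ t θ + ρ t θ * pt ρ t θ) * mf ρ Y t θ + (ρ t θ * ρ t θ) * pt (mf ρ Y) t θ := by
    have := pmul hD hJ (smulr h.sr h.sr) (smm hD hC hJ h) ht θ
    rw [pmul hD hJ h.sr h.sr ht θ] at this
    rw [← this]
    congr 1
    funext t θ
    ring
  rw [h2]
  have hr := rne h ht θ
  have h3 : mf ρ Y t θ * (ρ t θ)⁻¹ * -(ρ t θ * pt ρ t θ) = -(mf ρ Y t θ * pt ρ t θ) := by field_simp
  rw [h3] at h1
  linear_combination (-(ρ t θ)) * h1

include hD hC hJ h in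
lemma cod1 {t : ℝ} (ht : t ∈ J) (θ : ℝ) :
    pt (fun t θ => ρ t θ * nf ρ Y t θ) t θ = ph (mf ρ Y) t θ + pt ρ t θ * lf ρ Y t θ := by
  have h0 := hD.comm hJ (sN hD hC hJ h) t ht θ
  rw [pNh hD hC hJ h ht θ, hNt hD hC hJ h ht θ] at h0
  have h1 := congrArg (fun x => ⟪x, ph Y t θ⟫_ℝ) h0
  simp only [inner_sub_left, inner_neg_left, inner_add_left, real_inner_smul_left] at h1
  have hr := rne h ht θ
  have h4 : ph (fun t θ => mf ρ Y t θ * (ρ t θ)⁻¹) t θ = ph (mf ρ Y) t θ * (ρ t θ)⁻¹ + mf ρ Y t θ * (-ph ρ t θ / ρ t θ ^ 2) := by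
    have := hmul hD hJ (smm hD hC hJ h) (srinv h) ht θ
    rw [this]
    congr 2
    exact ((hD.hph hJ h.sr t ht θ).inv hr).deriv
  rw [a5 hD hJ h ht θ, a3 hD hJ h ht θ, h.th t ht θ, a4 hD hJ h ht θ, h.hh t ht θ, h4] at h1
  rw [pmul hD hJ h.sr (sn hD hC hJ h) ht θ]
  have h5 : ρ t θ * (pt ρ t θ * nf ρ Y t θ + ρ t θ * pt (nf ρ Y) t θ) = ρ t θ * (ph (mf ρ Y) t θ + pt ρ t θ * lf ρ Y t θ) := by
    field_simp at h1
    linear_combination -h1
  exact mul_left_cancel₀ hr h5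

include hD hC hJ h in
lemma gauss {t : ℝ} (ht : t ∈ J) (θ : ℝ) :
    lf ρ Y t θ * nf ρ Y t θ - mf ρ Y t θ ^ 2 = -pt (pt ρ) t θ / ρ t θ := by
  have hr := rne h ht θ
  have h0 := hD.comm hJ (hD.spt hJ h.sm) t ht θ
  have h1 := hD.pcg hJ (G := ph (pt Y)) (H := fun t θ => (pt ρ t θ * (ρ t θ)⁻¹) • ph Y t θ + (ρ t θ * mf ρ Y t θ) • eN ρ Y t θ)
    (fun t ht θ => by rw [e1h hD hC hJ h ht θ, div_eq_mul_inv]) t ht θ
  have h2 := ((psmul hD hJ (smulr (hD.spt hJ h.sr) (srinv h)) (hD.sph hJ h.sm) ht θ).add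
    (psmul hD hJ (smulr h.sr (smm hD hC hJ h)) (sN hD hC hJ h) ht θ)).deriv
  have h3 := hD.hcg (J := J) (G := pt (pt Y)) (H := fun t θ => lf ρ Y t θ • eN ρ Y t θ)
    (fun t ht θ => e1t hD hC hJ h ht θ) t ht θ
  have h4 := (hsmul hD hJ (sl hD hC hJ h) (sN hD hC hJ h) ht θ).deriv
  have h5 : pt (fun t θ => pt ρ t θ * (ρ t θ)⁻¹) t θ = pt (pt ρ) t θ * (ρ t θ)⁻¹ + pt ρ t θ * (-pt ρ t θ / ρ t θ ^ 2) := by
    have := pmul hD hJ (hD.spt hJ h.sr) (srinv h) ht θ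
    rw [this]
    congr 2
    exact ((hD.hpt hJ h.sr t ht θ).inv hr).deriv
  have h6 : (pt ρ t θ * (ρ t θ)⁻¹) • pt (ph Y) t θ + pt (fun t θ => pt ρ t θ * (ρ t θ)⁻¹) t θ • ph Y t θ +
      ((ρ t θ * mf ρ Y t θ) • pt (eN ρ Y) t θ + pt (fun t θ => ρ t θ * mf ρ Y t θ) t θ • eN ρ Y t θ) =
      lf ρ Y t θ • ph (eN ρ Y) t θ + ph (lf ρ Y) t θ • eN ρ Y t θ := by
    rw [← h2, ← h4]
    rw [h1, h3] at h0
    exact h0
  have h7 := congrArg (fun x => ⟪x, ph Y t θ⟫_ℝ) h6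
  simp only [inner_add_left, real_inner_smul_left] at h7
  rw [hD.comm hJ h.sm t ht θ, a3 hD hJ h ht θ, h.hh t ht θ, c4 hD hC hJ h ht θ, c6 hD hC hJ h ht θ, oN2 hC t θ, h5] at h7
  rw [eq_div_iff hr]
  have h8 : ρ t θ * ((lf ρ Y t θ * nf ρ Y t θ - mf ρ Y t θ ^ 2) * ρ t θ) = ρ t θ * (-pt (pt ρ) t θ) := by
    field_simp at h7
    linear_combination h7
  exact mul_left_cancel₀ hr h8

end strip

end FRMM

open FRMM in
theorem specFRM (hDR2 : SpecDR2) (hCRS : SpecCRS) : SpecFRM where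
  sl := fun hJ h => ⟨sl hDR2 hCRS hJ h, smm hDR2 hCRS hJ h, sn hDR2 hCRS hJ h, sN hDR2 hCRS hJ h, pl hDR2 hJ h, pm hDR2 hJ h,
    pn hDR2 hJ h, pr hDR2 h⟩
  on := fun _ h t ht θ => ⟨n1 h ht θ, n2 h ht θ, o12 h ht θ, Neq t θ⟩
  e1t := fun hJ h _ ht θ => FRMM.e1t hDR2 hCRS hJ h ht θ
  e1h := fun hJ h _ ht θ => FRMM.e1h hDR2 hCRS hJ h ht θ
  e2h := fun hJ h _ ht θ => FRMM.e2h hDR2 hCRS hJ h ht θ
  nt := fun hJ h _ ht θ => FRMM.nt hDR2 hCRS hJ h ht θ
  nh := fun hJ h _ ht θ => FRMM.nh hDR2 hCRS hJ h ht θ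
  gauss := fun hJ h _ ht θ => FRMM.gauss hDR2 hCRS hJ h ht θ
  cod1 := fun hJ h _ ht θ => FRMM.cod1 hDR2 hCRS hJ h ht θ
  cod2 := fun hJ h _ ht θ => FRMM.cod2 hDR2 hCRS hJ h ht θ

end Rim478
end

section
set_option autoImplicit false

open Real MeasureTheory Set Filter Topology
open scoped ContDiff InnerProductSpace

namespace Rim478

namespace GLBM

/-- the three functions as one vector -/
noncomputable def vec (l m n : ℝ → ℝ → ℝ) (t θ : ℝ) : E3 := !₂[l t θ, m t θ, n t θ]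

lemma vec_sj {J : Set ℝ} {l m n : ℝ → ℝ → ℝ} (hl : SJ J l) (hm : SJ J m) (hn : SJ J n) : SJ J (vec l m n) := by
  unfold SJ at *
  rw [contDiffOn_euclidean]
  intro i
  fin_cases i
  · simpa [vec] using hl
  · simpa [vec] using hm
  · simpa [vec] using hn

lemma vec_norm_le (l m n : ℝ → ℝ → ℝ) (t θ : ℝ) : ‖vec l m n t θ‖ ≤ |l t θ| + |m t θ| + |n t θ| := by
  rw [EuclideanSpace.norm_eq, Fin.sum_univ_three]
  have h0 := abs_nonneg (l t θ)
  have h1 := abs_nonneg (m t θ)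
  have h2 := abs_nonneg (n t θ)
  refine Real.sqrt_le_iff.mpr ⟨by positivity, ?_⟩
  simp only [vec, Real.norm_eq_abs, PiLp.toLp_apply]
  show |l t θ| ^ 2 + |m t θ| ^ 2 + |n t θ| ^ 2 ≤ _
  nlinarith [mul_nonneg h0 h1, mul_nonneg h0 h2, mul_nonneg h1 h2]

lemma vec_fl (hF : SpecFLT) {J : Set ℝ} {l m n : ℝ → ℝ → ℝ} {t₀ : ℝ} (hJ : IsOpen J) (h0 : t₀ ∈ J)
    (hl : SJ J l) (hm : SJ J m) (hn : SJ J n) (pl : Per J l) (pm : Per J m) (pn : Per J n)
    (fl : Fl t₀ l) (fm : Fl t₀ m) (fn : Fl t₀ n) : Fl t₀ (vec l m n) := by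
  refine hF.conv hJ (vec_sj hl hm hn) h0 ?_
  intro N θ
  obtain ⟨C1, d1, hd1, e1⟩ := hF.est hJ hl pl h0 fl N
  obtain ⟨C2, d2, hd2, e2⟩ := hF.est hJ hm pm h0 fm N
  obtain ⟨C3, d3, hd3, e3⟩ := hF.est hJ hn pn h0 fn N
  refine ⟨C1 + C2 + C3, min d1 (min d2 d3), lt_min hd1 (lt_min hd2 hd3), ?_⟩
  intro t ht
  have ht1 : |t - t₀| < d1 := lt_of_lt_of_le ht (min_le_left _ _)
  have ht2 : |t - t₀| < d2 := lt_of_lt_of_le ht (le_trans (min_le_right _ _) (min_le_left _ _))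
  have ht3 : |t - t₀| < d3 := lt_of_lt_of_le ht (le_trans (min_le_right _ _) (min_le_right _ _))
  have a1 := e1 t ht1 θ
  have a2 := e2 t ht2 θ
  have a3 := e3 t ht3 θ
  rw [Real.norm_eq_abs] at a1 a2 a3
  calc ‖vec l m n t θ‖ ≤ |l t θ| + |m t θ| + |n t θ| := vec_norm_le l m n t θ
    _ ≤ C1 * |t - t₀| ^ N + C2 * |t - t₀| ^ N + C3 * |t - t₀| ^ N := by linarith
    _ = (C1 + C2 + C3) * |t - t₀| ^ N := by ring

lemma sj_const {J : Set ℝ} (c : E3) : SJ J (fun _ _ => c) := contDiffOn_const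

/-- flat components -/
lemma comp_fl (hF : SpecFLT) {J : Set ℝ} {l m n : ℝ → ℝ → ℝ} {t₀ : ℝ} (hJ : IsOpen J) (h0 : t₀ ∈ J)
    (hu : SJ J (vec l m n)) (f : Fl t₀ (vec l m n)) : Fl t₀ l ∧ Fl t₀ m ∧ Fl t₀ n := by
  have key : ∀ i : Fin 3, Fl t₀ (fun t θ => ⟪vec l m n t θ, EuclideanSpace.single i (1:ℝ)⟫_ℝ) := fun i =>
    hF.inn hJ hu (sj_const _) h0 f
  refine ⟨?_, ?_, ?_⟩
  · have := key 0
    simpa [vec, EuclideanSpace.inner_single_right] using this
  · have := key 1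
    simpa [vec, EuclideanSpace.inner_single_right] using this
  · have := key 2
    simpa [vec, EuclideanSpace.inner_single_right] using this

lemma vec_zero {l m n : ℝ → ℝ → ℝ} {t θ : ℝ} (h : vec l m n t θ = 0) : l t θ = 0 ∧ m t θ = 0 ∧ n t θ = 0 := by
  have h0 := congrArg (fun v : E3 => v 0) h
  have h1 := congrArg (fun v : E3 => v 1) h
  have h2 := congrArg (fun v : E3 => v 2) h
  simp [vec] at h0 h1 h2
  exact ⟨h0, h1, h2⟩

lemma zero_vec {l m n : ℝ → ℝ → ℝ} {t θ : ℝ} (h0 : l t θ = 0) (h1 : m t θ = 0) (h2 : n t θ = 0) : vec l m n t θ = 0 := by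
  ext i
  fin_cases i <;> simp [vec, h0, h1, h2]

lemma sj_sub {J : Set ℝ} {f g : ℝ → ℝ → ℝ} (hf : SJ J f) (hg : SJ J g) : SJ J (fun t θ => f t θ - g t θ) :=
  ContDiffOn.sub hf hg

lemma per_sub {J : Set ℝ} {f g : ℝ → ℝ → ℝ} (hf : Per J f) (hg : Per J g) : Per J (fun t θ => f t θ - g t θ) := by
  intro t ht θ
  show f t (θ + 2 * π) - g t (θ + 2 * π) = _
  rw [hf t ht θ, hg t ht θ]

/-- flatness after reflection -/
lemma refl_fl (hF : SpecFLT) {J : Set ℝ} {u v : ℝ → ℝ → ℝ} {t₀ : ℝ} (hJ : IsOpen J) (h0 : t₀ ∈ J)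
    (hu : SJ J u) (pu : Per J u) (fu : Fl t₀ u) (hv : SJ {t | -t ∈ J} v)
    (huv : ∀ t, -t ∈ J → ∀ θ, |v t θ| = |u (-t) θ|) : Fl (-t₀) v := by
  have hJ' : IsOpen {t : ℝ | -t ∈ J} := hJ.preimage continuous_neg
  refine hF.conv hJ' hv (by simpa using h0) ?_
  intro N θ
  obtain ⟨C1, d1, hd1, e1⟩ := hF.est hJ hu pu h0 fu N
  obtain ⟨d2, hd2, e2⟩ := Metric.isOpen_iff.mp hJ t₀ h0
  refine ⟨C1, min d1 d2, lt_min hd1 hd2, ?_⟩
  intro t ht
  have ht' : |-t - t₀| = |t - -t₀| := by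
    rw [← abs_neg]; congr 1; ring
  have ht1 : |-t - t₀| < d1 := by rw [ht']; exact lt_of_lt_of_le ht (min_le_left _ _)
  have ht2 : |-t - t₀| < d2 := by rw [ht']; exact lt_of_lt_of_le ht (min_le_right _ _)
  have hm : -t ∈ J := e2 (by rw [Metric.mem_ball, Real.dist_eq]; exact ht2)
  have a1 := e1 (-t) ht1 θ
  rw [Real.norm_eq_abs] at a1 ⊢
  rw [huv t hm θ, ← ht']
  exact a1

lemma deriv_neg_fun (f : ℝ → ℝ) : deriv (fun t => f (-t)) = fun t => -deriv f (-t) := by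
  funext t
  exact deriv_comp_neg f t

lemma deriv2_neg_fun (f : ℝ → ℝ) : deriv (deriv (fun t => f (-t))) = fun t => deriv (deriv f) (-t) := by
  rw [deriv_neg_fun]
  funext t
  have h : deriv (fun t => -deriv f (-t)) t = -deriv (fun t => deriv f (-t)) t := deriv.fun_neg
  rw [h, deriv_neg_fun (deriv f)]
  ring

end GLBM

open GLBM

theorem specGLB (hF : SpecFLT) (hR : SpecFRM) (hV : SpecREV) (hL : SpecLCR) (hX : SpecRFL)
    (hP : SpecPRP) (hC : SpecCON) : SpecGLB := by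
  intro J r z Y t₀ hJ hoc hr hz rpos uni hk sY ht₀ fl fm fn
  have sX : Str J (fun t _ => r t) (rv r z) := hV.str hJ hr hz rpos uni
  obtain ⟨slY, smY, snY, -, plY, pmY, pnY, -⟩ := hR.sl hJ sY
  obtain ⟨slX, smX, snX, -, plX, pmX, pnX, -⟩ := hR.sl hJ sX
  set ρ : ℝ → ℝ → ℝ := fun t _ => r t with hρ
  set l : ℝ → ℝ → ℝ := fun t θ => lf ρ Y t θ - lf ρ (rv r z) t θ with hl
  set m : ℝ → ℝ → ℝ := fun t θ => mf ρ Y t θ - mf ρ (rv r z) t θ with hm
  set n : ℝ → ℝ → ℝ := fun t θ => nf ρ Y t θ - nf ρ (rv r z) t θ with hn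
  have sl : SJ J l := sj_sub slY slX
  have sm : SJ J m := sj_sub smY smX
  have sn : SJ J n := sj_sub snY snX
  have pl : Per J l := per_sub plY plX
  have pm : Per J m := per_sub pmY pmX
  have pn : Per J n := per_sub pnY pnX
  -- the local statement
  have loc : ∀ t₁ ∈ J, Fl t₁ (vec l m n) → ∃ δ : ℝ, 0 < δ ∧ ∀ t ∈ Ioo (t₁ - δ) (t₁ + δ), t ∈ J → ∀ θ, vec l m n t θ = 0 := by
    intro t₁ ht₁ hfl
    obtain ⟨f1, f2, f3⟩ := comp_fl hF hJ ht₁ (vec_sj sl sm sn) hfl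
    obtain ⟨δ₁, hδ₁, E1⟩ := hL J r z Y t₁ hJ hr hz rpos uni sY ht₁ (hk t₁ ht₁) f1 f2 f3
    -- left side
    have hJ' : IsOpen {t : ℝ | -t ∈ J} := hJ.preimage continuous_neg
    have hr' : ContDiffOn ℝ ∞ (fun t => r (-t)) {t : ℝ | -t ∈ J} :=
      hr.comp contDiff_neg.contDiffOn (fun t ht => ht)
    have hz' : ContDiffOn ℝ ∞ (fun t => z (-t)) {t : ℝ | -t ∈ J} :=
      hz.comp contDiff_neg.contDiffOn (fun t ht => ht)
    obtain ⟨sY', EY⟩ := hX J ρ Y hJ sY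
    obtain ⟨sX', EX⟩ := hX J ρ (rv r z) hJ sX
    have uni' : ∀ t ∈ {t : ℝ | -t ∈ J}, deriv (fun t => r (-t)) t ^ 2 + deriv (fun t => z (-t)) t ^ 2 = 1 := by
      intro t ht
      rw [deriv_neg_fun, deriv_neg_fun]
      have := uni (-t) ht
      simpa using this
    obtain ⟨slY', smY', snY', -⟩ := hR.sl hJ' sY'
    obtain ⟨slX', smX', snX', -⟩ := hR.sl hJ' sX'
    have hk' : ∃ k : ℕ, iteratedDeriv k (deriv (deriv (fun t => r (-t)))) (-t₁) ≠ 0 := by
      obtain ⟨k, hk⟩ := hk t₁ ht₁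
      refine ⟨k, ?_⟩
      rw [deriv2_neg_fun, iteratedDeriv_comp_neg, neg_neg]
      intro h
      apply hk
      rcases Nat.even_or_odd k with he | ho
      · rw [he.neg_one_pow, one_smul] at h; exact h
      · rw [ho.neg_one_pow, neg_one_smul, neg_eq_zero] at h; exact h
    have hmem : -t₁ ∈ {t : ℝ | -t ∈ J} := by simpa using ht₁
    obtain ⟨δ₂, hδ₂, E2⟩ := hL {t : ℝ | -t ∈ J} (fun t => r (-t)) (fun t => z (-t)) (fun t θ => Y (-t) θ) (-t₁) hJ' hr' hz'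
      (fun t ht => rpos (-t) ht) uni' sY' hmem hk'
      (refl_fl hF hJ ht₁ sl pl f1 (sj_sub slY' slX') (by
        intro t ht θ
        have h1 := (EY t ht θ).1
        have h2 := (EX t ht θ).1
        show |lf (fun t θ => ρ (-t) θ) (fun t θ => Y (-t) θ) t θ - lf (fun t θ => ρ (-t) θ) (fun t θ => rv r z (-t) θ) t θ| = _
        rw [h1, h2, hl]
        show |-lf ρ Y (-t) θ - -lf ρ (rv r z) (-t) θ| = |lf ρ Y (-t) θ - lf ρ (rv r z) (-t) θ|
        rw [← abs_neg]; congr 1; ring))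
      (refl_fl hF hJ ht₁ sm pm f2 (sj_sub smY' smX') (by
        intro t ht θ
        have h1 := (EY t ht θ).2.1
        have h2 := (EX t ht θ).2.1
        show |mf (fun t θ => ρ (-t) θ) (fun t θ => Y (-t) θ) t θ - mf (fun t θ => ρ (-t) θ) (fun t θ => rv r z (-t) θ) t θ| = _
        rw [h1, h2, hm]))
      (refl_fl hF hJ ht₁ sn pn f3 (sj_sub snY' snX') (by
        intro t ht θ
        have h1 := (EY t ht θ).2.2
        have h2 := (EX t ht θ).2.2
        show |nf (fun t θ => ρ (-t) θ) (fun t θ => Y (-t) θ) t θ - nf (fun t θ => ρ (-t) θ) (fun t θ => rv r z (-t) θ) t θ| = _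
        rw [h1, h2, hn]
        show |-nf ρ Y (-t) θ - -nf ρ (rv r z) (-t) θ| = |nf ρ Y (-t) θ - nf ρ (rv r z) (-t) θ|
        rw [← abs_neg]; congr 1; ring))
    refine ⟨min δ₁ δ₂, lt_min hδ₁ hδ₂, ?_⟩
    intro t ht htJ θ
    rcases lt_trichotomy t t₁ with h | h | h
    · -- left
      have hs : -t ∈ Ioo (-t₁) (-t₁ + δ₂) := by
        have := ht.1
        have h3 := min_le_right δ₁ δ₂
        constructor <;> linarith
      obtain ⟨-, E⟩ := E2 (-t) hs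
      have hh : -(-t) ∈ J := by rw [neg_neg]; exact htJ
      obtain ⟨e1, e2, e3⟩ := E θ
      have y := EY (-t) hh θ
      have x := EX (-t) hh θ
      rw [neg_neg] at y x
      apply zero_vec
      · show lf ρ Y t θ - lf ρ (rv r z) t θ = 0
        have q : lf (fun t θ => ρ (-t) θ) (fun t θ => Y (-t) θ) (-t) θ = lf (fun t θ => ρ (-t) θ) (fun t θ => rv r z (-t) θ) (-t) θ := e1
        rw [y.1, x.1] at q
        linarith
      · show mf ρ Y t θ - mf ρ (rv r z) t θ = 0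
        have q : mf (fun t θ => ρ (-t) θ) (fun t θ => Y (-t) θ) (-t) θ = mf (fun t θ => ρ (-t) θ) (fun t θ => rv r z (-t) θ) (-t) θ := e2
        rw [y.2.1, x.2.1] at q
        linarith
      · show nf ρ Y t θ - nf ρ (rv r z) t θ = 0
        have q : nf (fun t θ => ρ (-t) θ) (fun t θ => Y (-t) θ) (-t) θ = nf (fun t θ => ρ (-t) θ) (fun t θ => rv r z (-t) θ) (-t) θ := e3
        rw [y.2.2, x.2.2] at q
        linarith
    · subst h
      have := hfl 0 θ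
      simpa using this
    · obtain ⟨-, E⟩ := E1 t ⟨h, lt_of_lt_of_le ht.2 (by have := min_le_left δ₁ δ₂; linarith)⟩
      obtain ⟨e1, e2, e3⟩ := E θ
      exact zero_vec (sub_eq_zero.mpr e1) (sub_eq_zero.mpr e2) (sub_eq_zero.mpr e3)
  have hall := hP J (vec l m n) t₀ hJ hoc ht₀ (vec_sj sl sm sn) (vec_fl hF hJ ht₀ sl sm sn pl pm pn fl fm fn) loc
  refine hC J ρ (rv r z) Y hJ hoc sX sY ?_
  intro t ht θ
  obtain ⟨a, b, c⟩ := vec_zero (hall t ht θ)
  exact ⟨sub_eq_zero.mp a, sub_eq_zero.mp b, sub_eq_zero.mp c⟩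

end Rim478
end

section
set_option autoImplicit false

/-!
# MP_478c11_gt, part U: HYP (energy estimate)
-/

open Real MeasureTheory Set Filter Topology
open scoped ContDiff InnerProductSpace

namespace Rim478

namespace HYPM

theorem sj_mul {J : Set ℝ} {f g : ℝ → ℝ → ℝ} (hf : SJ J f) (hg : SJ J g) :
    SJ J (fun t θ => f t θ * g t θ) := by
  unfold SJ at *
  exact hf.mul hg

theorem sj_add {J : Set ℝ} {f g : ℝ → ℝ → ℝ} (hf : SJ J f) (hg : SJ J g) :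
    SJ J (fun t θ => f t θ + g t θ) := by
  unfold SJ at *
  exact hf.add hg

/-- pointwise bound for the density -/
theorem dens (c y V yt Vt yh Vh a q ah qh : ℝ) (hc : 0 ≤ c)
    (h1 : |yt - a * yh - q * Vh| ≤ c * (|y| + |V|))
    (h2 : |Vt - a * Vh - q * yh| ≤ c * (|y| + |V|)) (h3 : |ah| ≤ c) (h4 : |qh| ≤ c) :
    (yt * y + y * yt + (Vt * V + V * Vt)) -
      (a * (yh * y + y * yh + (Vh * V + V * Vh)) + ah * (y * y + V * V)) -
      2 * (q * (yh * V + y * Vh) + qh * (y * V)) ≤ 6 * c * (y * y + V * V) := by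
  have e : (yt * y + y * yt + (Vt * V + V * Vt)) -
      (a * (yh * y + y * yh + (Vh * V + V * Vh)) + ah * (y * y + V * V)) -
      2 * (q * (yh * V + y * Vh) + qh * (y * V)) =
      2 * y * (yt - a * yh - q * Vh) + 2 * V * (Vt - a * Vh - q * yh) - ah * (y * y + V * V)
        - 2 * qh * (y * V) := by ring
  rw [e]
  have k1 : 2 * y * (yt - a * yh - q * Vh) ≤ 2 * |y| * (c * (|y| + |V|)) := by
    calc 2 * y * (yt - a * yh - q * Vh) ≤ |2 * y * (yt - a * yh - q * Vh)| := le_abs_self _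
      _ = 2 * |y| * |yt - a * yh - q * Vh| := by
          rw [abs_mul, abs_mul, abs_two]
      _ ≤ 2 * |y| * (c * (|y| + |V|)) := by gcongr
  have k2 : 2 * V * (Vt - a * Vh - q * yh) ≤ 2 * |V| * (c * (|y| + |V|)) := by
    calc 2 * V * (Vt - a * Vh - q * yh) ≤ |2 * V * (Vt - a * Vh - q * yh)| := le_abs_self _
      _ = 2 * |V| * |Vt - a * Vh - q * yh| := by
          rw [abs_mul, abs_mul, abs_two]
      _ ≤ 2 * |V| * (c * (|y| + |V|)) := by gcongr
  have k3 : -(ah * (y * y + V * V)) ≤ c * (y * y + V * V) := by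
    have : -ah ≤ c := (neg_le_abs ah).trans h3
    have h0 : 0 ≤ y * y + V * V := add_nonneg (mul_self_nonneg _) (mul_self_nonneg _)
    nlinarith
  have k4 : -(2 * qh * (y * V)) ≤ 2 * c * (|y| * |V|) := by
    calc -(2 * qh * (y * V)) ≤ |2 * qh * (y * V)| := neg_le_abs _
      _ = 2 * |qh| * (|y| * |V|) := by
          rw [abs_mul, abs_mul, abs_mul, abs_two]
      _ ≤ 2 * c * (|y| * |V|) := by gcongr
  have hy2 : |y| * |y| = y * y := abs_mul_abs_self y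
  have hV2 : |V| * |V| = V * V := abs_mul_abs_self V
  have k5 : 2 * (|y| * |V|) ≤ y * y + V * V := by
    nlinarith [sq_nonneg (|y| - |V|)]
  have k6 : c * (2 * (|y| * |V|)) ≤ c * (y * y + V * V) := mul_le_mul_of_nonneg_left k5 hc
  nlinarith

end HYPM

open HYPM in
/-- **HYP**. -/
theorem specHYP (hD : SpecDR2) (hI : SpecINT) : SpecHYP := by
  intro δ C y V a q hδ hC hy hV ha hq py pV pa pq h1 h2 h3 h4 h5
  have hJ : IsOpen (Ioo (0 : ℝ) δ) := isOpen_Ioo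
  -- the density
  set f : ℝ → ℝ → ℝ := fun t θ => y t θ * y t θ + V t θ * V t θ with hf
  have hfs : SJ (Ioo 0 δ) f := sj_add (sj_mul hy hy) (sj_mul hV hV)
  have hfp : Per (Ioo 0 δ) f := by
    intro t ht θ
    simp only [hf, py t ht θ, pV t ht θ]
  have hgs : SJ (Ioo 0 δ) (fun t θ => y t θ * V t θ) := sj_mul hy hV
  have hgp : Per (Ioo 0 δ) (fun t θ => y t θ * V t θ) := by
    intro t ht θ
    simp only [py t ht θ, pV t ht θ]
  set E : ℝ → ℝ := fun t => ∫ θ in (0:ℝ)..(2 * π), f t θ with hE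
  have hpi : (0 : ℝ) ≤ 2 * π := by positivity
  have cc : ∀ {G : ℝ → ℝ → ℝ}, SJ (Ioo 0 δ) G → ∀ t ∈ Ioo 0 δ, Continuous (fun θ => G t θ) :=
    fun hG t ht => (hD.cont hG t ht).continuous
  have hf0 : ∀ t θ, 0 ≤ f t θ := fun t θ =>
    add_nonneg (mul_self_nonneg _) (mul_self_nonneg _)
  have hE0 : ∀ t, 0 ≤ E t := fun t =>
    intervalIntegral.integral_nonneg hpi fun θ _ => hf0 t θ
  -- derivative of E
  have hEd : ∀ t ∈ Ioo 0 δ, HasDerivAt E (∫ θ in (0:ℝ)..(2 * π), pt f t θ) t :=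
    fun t ht => hI.der hJ hfs t ht
  have hptf : ∀ t ∈ Ioo 0 δ, ∀ θ, pt f t θ = pt y t θ * y t θ + y t θ * pt y t θ +
      (pt V t θ * V t θ + V t θ * pt V t θ) := by
    intro t ht θ
    have k1 := hD.hpt hJ hy t ht θ
    have k2 := hD.hpt hJ hV t ht θ
    exact ((k1.mul k1).add (k2.mul k2)).deriv
  have hphf : ∀ t ∈ Ioo 0 δ, ∀ θ, ph f t θ = ph y t θ * y t θ + y t θ * ph y t θ +
      (ph V t θ * V t θ + V t θ * ph V t θ) := by
    intro t ht θ
    have k1 := hD.hph hJ hy t ht θ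
    have k2 := hD.hph hJ hV t ht θ
    exact ((k1.mul k1).add (k2.mul k2)).deriv
  have hphg : ∀ t ∈ Ioo 0 δ, ∀ θ, ph (fun t θ => y t θ * V t θ) t θ =
      ph y t θ * V t θ + y t θ * ph V t θ := by
    intro t ht θ
    have k1 := hD.hph hJ hy t ht θ
    have k2 := hD.hph hJ hV t ht θ
    exact (k1.mul k2).deriv
  have hEle : ∀ t ∈ Ioo 0 δ, ∫ θ in (0:ℝ)..(2 * π), pt f t θ ≤ 6 * (C / t) * E t := by
    intro t ht
    have hct : 0 ≤ C / t := div_nonneg hC.le ht.1.le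
    have i1 := hI.ibp hJ ha hfs pa hfp t ht
    have i2 := hI.ibp hJ hq hgs pq hgp t ht
    have c1 : Continuous (fun θ => pt f t θ) := cc (hD.spt hJ hfs) t ht
    have c2 : Continuous (fun θ => a t θ * ph f t θ) := (cc ha t ht).mul (cc (hD.sph hJ hfs) t ht)
    have c3 : Continuous (fun θ => ph a t θ * f t θ) := (cc (hD.sph hJ ha) t ht).mul (cc hfs t ht)
    have c4 : Continuous (fun θ => q t θ * ph (fun t θ => y t θ * V t θ) t θ) :=
      (cc hq t ht).mul (cc (hD.sph hJ hgs) t ht)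
    have c5 : Continuous (fun θ => ph q t θ * (y t θ * V t θ)) :=
      (cc (hD.sph hJ hq) t ht).mul (cc hgs t ht)
    have c6 : Continuous (fun θ => f t θ) := cc hfs t ht
    have e1 : ∫ θ in (0:ℝ)..(2 * π), (pt f t θ - (a t θ * ph f t θ + ph a t θ * f t θ) -
        2 * (q t θ * ph (fun t θ => y t θ * V t θ) t θ + ph q t θ * (y t θ * V t θ))) =
        ∫ θ in (0:ℝ)..(2 * π), pt f t θ := by
      have k1 : Continuous (fun θ => a t θ * ph f t θ + ph a t θ * f t θ) := c2.add c3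
      have k2 : Continuous (fun θ => pt f t θ - (a t θ * ph f t θ + ph a t θ * f t θ)) :=
        c1.sub k1
      have k3 : Continuous (fun θ => q t θ * ph (fun t θ => y t θ * V t θ) t θ +
        ph q t θ * (y t θ * V t θ)) := c4.add c5
      have k4 : Continuous (fun θ => 2 * (q t θ * ph (fun t θ => y t θ * V t θ) t θ +
        ph q t θ * (y t θ * V t θ))) := continuous_const.mul k3
      rw [intervalIntegral.integral_sub (k2.intervalIntegrable _ _) (k4.intervalIntegrable _ _),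
        intervalIntegral.integral_sub (c1.intervalIntegrable _ _) (k1.intervalIntegrable _ _),
        intervalIntegral.integral_const_mul,
        intervalIntegral.integral_add (c2.intervalIntegrable _ _) (c3.intervalIntegrable _ _),
        intervalIntegral.integral_add (c4.intervalIntegrable _ _) (c5.intervalIntegrable _ _),
        i1, i2]
      ring
    rw [← e1, hE, ← intervalIntegral.integral_const_mul]
    refine intervalIntegral.integral_mono_on hpi ?_ ?_ ?_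
    · exact ((c1.sub (c2.add c3)).sub (continuous_const.mul (c4.add c5))).intervalIntegrable _ _
    · exact (continuous_const.mul c6).intervalIntegrable _ _
    · intro θ _
      rw [hptf t ht θ, hphf t ht θ, hphg t ht θ]
      have := dens (C / t) (y t θ) (V t θ) (pt y t θ) (pt V t θ) (ph y t θ) (ph V t θ) (a t θ)
        (q t θ) (ph a t θ) (ph q t θ) hct (h1 t ht θ) (h2 t ht θ) (h3 t ht θ) (h4 t ht θ)
      exact this
  -- Gronwall
  obtain ⟨M, hM⟩ := exists_nat_ge (6 * C)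
  have hanti : AntitoneOn (fun t => E t / t ^ M) (Ioo 0 δ) := by
    have hder : ∀ t ∈ Ioo 0 δ, HasDerivAt (fun t => E t / t ^ M)
        (((∫ θ in (0:ℝ)..(2 * π), pt f t θ) * t ^ M - E t * (M * t ^ (M - 1))) / (t ^ M) ^ 2) t := by
      intro t ht
      exact (hEd t ht).div (hasDerivAt_pow M t) (pow_ne_zero _ ht.1.ne')
    refine antitoneOn_of_deriv_nonpos (convex_Ioo 0 δ) ?_ ?_ ?_
    · exact fun t ht => (hder t ht).continuousAt.continuousWithinAt
    · rw [interior_Ioo]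
      exact fun t ht => (hder t ht).differentiableAt.differentiableWithinAt
    · rw [interior_Ioo]
      intro t ht
      rw [(hder t ht).deriv]
      refine div_nonpos_of_nonpos_of_nonneg ?_ (by positivity)
      have ht0 := ht.1
      have hle := hEle t ht
      rcases Nat.eq_zero_or_pos M with hM0 | hM0
      · subst hM0
        have : C ≤ 0 := by
          have : 6 * C ≤ 0 := by simpa using hM
          linarith
        linarith
      · have hp : t ^ M = t ^ (M - 1) * t := by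
          rw [← pow_succ, Nat.sub_add_cancel hM0]
        have hk : (∫ θ in (0:ℝ)..(2 * π), pt f t θ) * t ≤ M * E t := by
          calc (∫ θ in (0:ℝ)..(2 * π), pt f t θ) * t ≤ (6 * (C / t) * E t) * t :=
                mul_le_mul_of_nonneg_right hle ht0.le
            _ = 6 * C * E t := by field_simp
            _ ≤ M * E t := mul_le_mul_of_nonneg_right hM (hE0 t)
        rw [hp]
        have hpp : 0 ≤ t ^ (M - 1) := by positivity
        nlinarith [mul_le_mul_of_nonneg_left hk hpp]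
  obtain ⟨D, hDb⟩ := h5 M
  have hEb : ∀ t ∈ Ioo 0 δ, E t / t ^ M ≤ 2 * π * (D * D) * t ^ M := by
    intro t ht
    have ht0 := ht.1
    have hle : E t ≤ ∫ _θ in (0:ℝ)..(2 * π), (D * t ^ M) * (D * t ^ M) := by
      refine intervalIntegral.integral_mono_on hpi ((cc hfs t ht).intervalIntegrable _ _)
        (continuous_const.intervalIntegrable _ _) fun θ _ => ?_
      have hb := hDb t ht θ
      have hs : 0 ≤ |y t θ| + |V t θ| := by positivity
      calc f t θ = |y t θ| * |y t θ| + |V t θ| * |V t θ| := by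
            simp only [hf, abs_mul_abs_self]
        _ ≤ (|y t θ| + |V t θ|) * (|y t θ| + |V t θ|) := by
            nlinarith [mul_nonneg (abs_nonneg (y t θ)) (abs_nonneg (V t θ))]
        _ ≤ (D * t ^ M) * (D * t ^ M) := mul_self_le_mul_self hs hb
    rw [intervalIntegral.integral_const, smul_eq_mul, sub_zero] at hle
    rw [div_le_iff₀ (by positivity)]
    calc E t ≤ 2 * π * (D * t ^ M * (D * t ^ M)) := hle
      _ = 2 * π * (D * D) * t ^ M * t ^ M := by ring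
  have hEzero : ∀ t ∈ Ioo 0 δ, E t ≤ 0 := by
    intro t ht
    have ht0 := ht.1
    have hM1 : M ≠ 0 := by
      rintro rfl
      have : 6 * C ≤ 0 := by simpa using hM
      linarith
    have hlim : Tendsto (fun s : ℝ => 2 * π * (D * D) * s ^ M) (𝓝[>] 0) (𝓝 0) := by
      have hc : Continuous (fun s : ℝ => 2 * π * (D * D) * s ^ M) := by fun_prop
      have := (hc.tendsto 0).mono_left (nhdsWithin_le_nhds (s := Ioi (0 : ℝ)))
      simpa [hM1] using this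
    have hev : ∀ᶠ s in 𝓝[>] (0 : ℝ), E t / t ^ M ≤ 2 * π * (D * D) * s ^ M := by
      filter_upwards [Ioo_mem_nhdsGT ht0] with s hs
      have hsδ : s ∈ Ioo 0 δ := ⟨hs.1, hs.2.trans ht.2⟩
      exact (hanti hsδ ht hs.2.le).trans (hEb s hsδ)
    have h6 := ge_of_tendsto hlim hev
    by_contra hcon
    rw [not_le] at hcon
    have : 0 < E t / t ^ M := div_pos hcon (by positivity)
    linarith
  -- conclusion
  intro t ht θ
  have hcont : Continuous (fun θ => f t θ) := cc hfs t ht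
  have hz : ∀ θ ∈ Icc (0 : ℝ) (2 * π), f t θ = 0 := by
    intro θ hθ
    by_contra hne
    have hpos : 0 < f t θ := lt_of_le_of_ne (hf0 t θ) (Ne.symm hne)
    have := intervalIntegral.integral_pos (by positivity : (0 : ℝ) < 2 * π) hcont.continuousOn
      (fun x _ => hf0 t x) ⟨θ, hθ, hpos⟩
    have h7 := hEzero t ht
    simp only [hE] at h7
    linarith
  have hper : Function.Periodic (fun θ => f t θ) (2 * π) := fun θ => hfp t ht θ
  obtain ⟨θ', hθ', heq⟩ := hper.exists_mem_Ico₀ (by positivity : (0 : ℝ) < 2 * π) θ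
  have h8 : f t θ = 0 := by
    have := hz θ' ⟨hθ'.1, hθ'.2.le⟩
    have heq' : f t θ = f t θ' := heq
    rw [heq']
    exact this
  simp only [hf] at h8
  have h9 := mul_self_nonneg (y t θ)
  have h10 := mul_self_nonneg (V t θ)
  constructor
  · exact mul_self_eq_zero.1 (by linarith)
  · exact mul_self_eq_zero.1 (by linarith)

end Rim478
end

section
set_option autoImplicit false

/-!
# INT: integrals over a period
-/

open Real MeasureTheory Set Filter Topology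
open scoped ContDiff InnerProductSpace

namespace Rim478

namespace INTM

theorem joint {J : Set ℝ} {f : ℝ → ℝ → ℝ} (hf : SJ J f) :
    ContinuousOn (fun p : ℝ × ℝ => f p.1 p.2) (J ×ˢ univ) := ContDiffOn.continuousOn hf

theorem der0 (hDR : SpecDR2) {J : Set ℝ} {f : ℝ → ℝ → ℝ} (hJ : IsOpen J) (hf : SJ J f) {t : ℝ}
    (ht : t ∈ J) :
    HasDerivAt (fun s => ∫ θ in (0:ℝ)..(2 * π), f s θ) (∫ θ in (0:ℝ)..(2 * π), pt f t θ) t := by
  obtain ⟨ε, hε, hsub⟩ := Metric.isOpen_iff.1 hJ t ht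
  set δ := ε / 2 with hδ
  have hδ0 : 0 < δ := by positivity
  have hK : Metric.closedBall t δ ⊆ J :=
    (Metric.closedBall_subset_ball (by linarith)).trans hsub
  have hpi : (0:ℝ) ≤ 2 * π := by positivity
  -- a bound for the derivative
  have hc : ContinuousOn (fun p : ℝ × ℝ => pt f p.1 p.2) (Metric.closedBall t δ ×ˢ Icc 0 (2 * π)) :=
    (joint (hDR.spt hJ hf)).mono (prod_mono hK (subset_univ _))
  obtain ⟨C, hC⟩ := ((isCompact_closedBall t δ).prod isCompact_Icc).exists_bound_of_continuousOn hc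
  have hcont : ∀ s ∈ J, Continuous (fun θ => f s θ) := fun s hs => (hDR.cont hf s hs).continuous
  have hcont' : ∀ s ∈ J, Continuous (fun θ => pt f s θ) := fun s hs =>
    (hDR.cont (hDR.spt hJ hf) s hs).continuous
  refine (intervalIntegral.hasDerivAt_integral_of_dominated_loc_of_deriv_le
    (F := fun s θ => f s θ) (F' := fun s θ => pt f s θ) (bound := fun _ => C)
    (s := Metric.ball t δ) (Metric.ball_mem_nhds t hδ0) ?_ ?_ ?_ ?_ ?_ ?_).2
  · filter_upwards [Metric.ball_mem_nhds t hδ0] with s hs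
    exact (hcont s (hK (Metric.ball_subset_closedBall hs))).aestronglyMeasurable
  · exact (hcont t ht).intervalIntegrable _ _
  · exact (hcont' t ht).aestronglyMeasurable
  · refine Eventually.of_forall fun θ hθ s hs => ?_
    rw [uIoc_of_le hpi] at hθ
    exact hC (s, θ) ⟨Metric.ball_subset_closedBall hs, ⟨hθ.1.le, hθ.2⟩⟩
  · exact intervalIntegrable_const
  · refine Eventually.of_forall fun θ _ s hs => ?_
    exact hDR.hpt hJ hf s (hK (Metric.ball_subset_closedBall hs)) θ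

end INTM

theorem specINT (hDR : SpecDR2) : SpecINT where
  der := fun hJ hf t ht => INTM.der0 hDR hJ hf ht
  ibp := by
    intro J f g hJ hf hg pf pg t ht
    have h1 := intervalIntegral.integral_mul_deriv_eq_deriv_mul (a := 0) (b := 2 * π)
      (u := fun θ => f t θ) (v := fun θ => g t θ) (u' := fun θ => ph f t θ)
      (v' := fun θ => ph g t θ) (fun θ _ => hDR.hph hJ hf t ht θ)
      (fun θ _ => hDR.hph hJ hg t ht θ)
      ((hDR.cont (hDR.sph hJ hf) t ht).continuous.intervalIntegrable _ _)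
      ((hDR.cont (hDR.sph hJ hg) t ht).continuous.intervalIntegrable _ _)
    have h2 : f t (2 * π) = f t 0 := by
      have := pf t ht 0
      rwa [zero_add] at this
    have h3 : g t (2 * π) = g t 0 := by
      have := pg t ht 0
      rwa [zero_add] at this
    rw [h1, h2, h3]
    ring

end Rim478
end

section
set_option autoImplicit false

/-! # MP_478c11_gt, part U, module LCR (helper29): uniqueness to the right of a parallel -/

open Real MeasureTheory Set Filter Topology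
open scoped ContDiff InnerProductSpace

namespace Rim478
namespace LCRM

section
variable {V : Type} [NormedAddCommGroup V] [NormedSpace ℝ V]

lemma pt_shift (G : ℝ → ℝ → V) (a t θ : ℝ) : pt (fun t θ => G (a + t) θ) t θ = pt G (a + t) θ := by
  unfold pt
  exact deriv_comp_const_add (fun s => G s θ) a t

lemma SJ_shift {J I : Set ℝ} {G : ℝ → ℝ → V} {a : ℝ} (h : SJ J G) (hI : ∀ t ∈ I, a + t ∈ J) :
    SJ I (fun t θ => G (a + t) θ) := by
  unfold SJ at h ⊢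
  have h2 : ContDiffOn ℝ ∞ (fun p : ℝ × ℝ => (a + p.1, p.2)) (I ×ˢ univ) := by
    apply ContDiff.contDiffOn
    fun_prop
  exact h.comp h2 (fun p hp => ⟨hI p.1 hp.1, mem_univ _⟩)

lemma SJ_mono {J I : Set ℝ} {G : ℝ → ℝ → V} (h : SJ J G) (hI : I ⊆ J) : SJ I G :=
  ContDiffOn.mono h (prod_mono hI le_rfl)

lemma SJ_sub {J : Set ℝ} {F G : ℝ → ℝ → V} (hF : SJ J F) (hG : SJ J G) :
    SJ J (fun t θ => F t θ - G t θ) := ContDiffOn.sub hF hG

lemma SJ_mul {J : Set ℝ} {F G : ℝ → ℝ → ℝ} (hF : SJ J F) (hG : SJ J G) :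
    SJ J (fun t θ => F t θ * G t θ) := ContDiffOn.mul hF hG

lemma pt_sub (hDR2 : SpecDR2) {J : Set ℝ} {F G : ℝ → ℝ → V} (hJ : IsOpen J) (hF : SJ J F) (hG : SJ J G)
    {t : ℝ} (ht : t ∈ J) (θ : ℝ) : pt (fun t θ => F t θ - G t θ) t θ = pt F t θ - pt G t θ :=
  ((hDR2.hpt hJ hF t ht θ).sub (hDR2.hpt hJ hG t ht θ)).deriv

lemma ph_sub (hDR2 : SpecDR2) {J : Set ℝ} {F G : ℝ → ℝ → V} (hJ : IsOpen J) (hF : SJ J F) (hG : SJ J G)
    {t : ℝ} (ht : t ∈ J) (θ : ℝ) : ph (fun t θ => F t θ - G t θ) t θ = ph F t θ - ph G t θ :=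
  ((hDR2.hph hJ hF t ht θ).sub (hDR2.hph hJ hG t ht θ)).deriv

omit [NormedAddCommGroup V] [NormedSpace ℝ V] in
lemma per_red {J : Set ℝ} {u : ℝ → ℝ → V} (hp : Per J u) {t : ℝ} (ht : t ∈ J) (θ : ℝ) :
    ∃ θ' ∈ Icc (0:ℝ) (2 * π), u t θ = u t θ' := by
  have h : Function.Periodic (fun s => u t s) (2 * π) := fun s => hp t ht s
  obtain ⟨y, hy, e⟩ := h.exists_mem_Ico₀ (by positivity) θ
  exact ⟨y, Ico_subset_Icc_self hy, e⟩

/-- a smooth periodic function is bounded on compact intervals -/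
lemma bdd {J : Set ℝ} {u : ℝ → ℝ → V} (h : SJ J u) (hp : Per J u) {a b : ℝ} (hab : Icc a b ⊆ J) :
    ∃ M : ℝ, 0 ≤ M ∧ ∀ t ∈ Icc a b, ∀ θ, ‖u t θ‖ ≤ M := by
  have hc : ContinuousOn (fun p : ℝ × ℝ => u p.1 p.2) (Icc a b ×ˢ Icc (0:ℝ) (2 * π)) :=
    (ContDiffOn.continuousOn h).mono (prod_mono hab (subset_univ _))
  have hk : IsCompact (Icc a b ×ˢ Icc (0:ℝ) (2 * π)) := isCompact_Icc.prod isCompact_Icc
  obtain ⟨M, hM⟩ := hk.exists_bound_of_continuousOn hc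
  refine ⟨max M 0, le_max_right _ _, fun t ht θ => ?_⟩
  obtain ⟨θ', hθ', e⟩ := per_red hp (hab ht) θ
  rw [e]
  exact (hM (t, θ') ⟨ht, hθ'⟩).trans (le_max_left _ _)

/-- flat estimates on a fixed interval -/
lemma flat_est (hFLT : SpecFLT) {J : Set ℝ} {u : ℝ → ℝ → V} {t₁ δ : ℝ} (hJ : IsOpen J) (h : SJ J u) (hp : Per J u)
    (ht : t₁ ∈ J) (hf : Fl t₁ u) (hδ : ∀ t ∈ Icc t₁ (t₁ + δ), t ∈ J) (N : ℕ) :
    ∃ B : ℝ, ∀ t ∈ Ioo 0 δ, ∀ θ, ‖u (t₁ + t) θ‖ ≤ B * t ^ N := by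
  obtain ⟨C, d, hd, hC⟩ := hFLT.est hJ h hp ht hf N
  obtain ⟨M, hM0, hM⟩ := bdd h hp (a := t₁) (b := t₁ + δ) hδ
  refine ⟨max C (M / d ^ N), fun t ht θ => ?_⟩
  have ht0 : 0 < t := ht.1
  rcases lt_or_ge t d with h1 | h1
  · have := hC (t₁ + t) (by rw [add_sub_cancel_left, abs_of_pos ht0]; exact h1) θ
    rw [add_sub_cancel_left, abs_of_pos ht0] at this
    exact this.trans (mul_le_mul_of_nonneg_right (le_max_left _ _) (by positivity))
  · have h2 := hM (t₁ + t) ⟨by linarith, by linarith [ht.2]⟩ θ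
    refine h2.trans ?_
    calc M = M / d ^ N * d ^ N := by field_simp
      _ ≤ M / d ^ N * t ^ N := by
          apply mul_le_mul_of_nonneg_left _ (by positivity)
          exact pow_le_pow_left₀ hd.le h1 N
      _ ≤ max C (M / d ^ N) * t ^ N := mul_le_mul_of_nonneg_right (le_max_right _ _) (by positivity)

end

end LCRM

open LCRM in
theorem specLCR (hDR2 : SpecDR2) (hFLT : SpecFLT) (hFRM : SpecFRM) (hREV : SpecREV) (hRAT : SpecRAT)
    (hUNQ : SpecUNQ) : SpecLCR := by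
  intro J r z Y t₁ hJ hr hz hpos hunit hY ht₁ hord hFl hFm hFn
  set ρ : ℝ → ℝ → ℝ := fun t _ => r t with hρ
  set X : ℝ → ℝ → E3 := rv r z with hXdef
  have hX : Str J ρ X := hREV.str hJ hr hz hpos hunit
  have hfr := hREV.frm hJ hr hz hpos hunit
  obtain ⟨i, j, hij, hi0, hi1, hj0, hj1⟩ := hREV.ord hJ hr hz hpos hunit t₁ ht₁ hord
  obtain ⟨sXl, sXm, sXn, sXN, pXl, pXm, pXn, pρ⟩ := hFRM.sl hJ hX
  obtain ⟨sYl, sYm, sYn, sYN, pYl, pYm, pYn, -⟩ := hFRM.sl hJ hY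
  set l : ℝ → ℝ → ℝ := fun t θ => lf ρ Y t θ - lf ρ X t θ with hl
  set m : ℝ → ℝ → ℝ := fun t θ => mf ρ Y t θ - mf ρ X t θ with hm
  set n : ℝ → ℝ → ℝ := fun t θ => nf ρ Y t θ - nf ρ X t θ with hn
  have sl : SJ J l := SJ_sub sYl sXl
  have sm : SJ J m := SJ_sub sYm sXm
  have sn : SJ J n := SJ_sub sYn sXn
  have pl : Per J l := fun t ht θ => by simp only [hl]; rw [pYl t ht, pXl t ht]
  have pm : Per J m := fun t ht θ => by simp only [hm]; rw [pYm t ht, pXm t ht]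
  have pn : Per J n := fun t ht θ => by simp only [hn]; rw [pYn t ht, pXn t ht]
  have inf1 : (∞ : WithTop ℕ∞) + 1 ≤ ∞ := le_refl _
  have hr1 : ContDiffOn ℝ ∞ (deriv r) J := hr.deriv_of_isOpen hJ inf1
  have hr2 : ContDiffOn ℝ ∞ (deriv (deriv r)) J := hr1.deriv_of_isOpen hJ inf1
  have hz1 : ContDiffOn ℝ ∞ (deriv z) J := hz.deriv_of_isOpen hJ inf1
  have hz2 : ContDiffOn ℝ ∞ (deriv (deriv z)) J := hz1.deriv_of_isOpen hJ inf1
  set l₀ : ℝ → ℝ := fun t => deriv r t * deriv (deriv z) t - deriv (deriv r) t * deriv z t with hl₀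
  set n₀ : ℝ → ℝ := fun t => deriv z t / r t with hn₀
  have sl₀ : ContDiffOn ℝ ∞ l₀ J := (hr1.mul hz2).sub (hr2.mul hz1)
  have sn₀ : ContDiffOn ℝ ∞ n₀ J := hz1.div hr (fun t ht => (hpos t ht).ne')
  obtain ⟨δ, C, hδ, hC, hδJ, hnB, hDν⟩ := hRAT J t₁ l₀ n₀ i j l m n hJ ht₁ sl₀ sn₀ hij hi0 hi1 hj0 hj1 sl sm sn
    pl pm pn hFl hFm hFn
  set D : ℝ → ℝ → ℝ := fun t θ => ((m (t₁ + t) θ / 2) ^ 2 - (l₀ (t₁ + t) + l (t₁ + t) θ / 2) *
    (n₀ (t₁ + t) + n (t₁ + t) θ / 2)) / (n₀ (t₁ + t) + n (t₁ + t) θ / 2) ^ 2 with hD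
  set ν : ℝ → ℝ → ℝ := fun t θ => (m (t₁ + t) θ / 2) / (n₀ (t₁ + t) + n (t₁ + t) θ / 2) with hν
  obtain ⟨sD, sν, pD, pν, hsgn, hD1, hD2, hD3, hν1⟩ := hDν D ν rfl rfl
  -- bounds of r near t₁
  have hrc : ContinuousAt r t₁ := (hr.continuousOn).continuousAt (hJ.mem_nhds ht₁)
  have hr0 : 0 < r t₁ := hpos t₁ ht₁
  have hev : ∀ᶠ t in 𝓝 t₁, r t₁ / 2 < r t ∧ r t < 2 * r t₁ := by
    have h1 : ∀ᶠ t in 𝓝 t₁, r t₁ / 2 < r t := hrc.eventually (lt_mem_nhds (by linarith))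
    have h2 : ∀ᶠ t in 𝓝 t₁, r t < 2 * r t₁ := hrc.eventually (gt_mem_nhds (by linarith))
    exact h1.and h2
  obtain ⟨d, hd, hdr⟩ := Metric.eventually_nhds_iff.mp hev
  -- the constants
  set δ₁ : ℝ := min (δ / 2) d with hδ₁
  have hδ₁0 : 0 < δ₁ := lt_min (by linarith) hd
  have hδ₁δ : δ₁ < δ := lt_of_le_of_lt (min_le_left _ _) (by linarith)
  have hsub : Ioo 0 δ₁ ⊆ Ioo 0 δ := Ioo_subset_Ioo le_rfl hδ₁δ.le
  set C₁ : ℝ := max C (max 1 (max (2 * r t₁) (2 / r t₁))) with hC₁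
  have hC₁0 : 0 < C₁ := lt_of_lt_of_le hC (le_max_left _ _)
  have hCC : C ≤ C₁ := le_max_left _ _
  have hC1 : 1 ≤ C₁ := (le_max_left _ _).trans (le_max_right _ _)
  have hC2 : 2 * r t₁ ≤ C₁ := (le_max_left _ _).trans ((le_max_right _ _).trans (le_max_right _ _))
  have hC3 : 2 / r t₁ ≤ C₁ := (le_max_right _ _).trans ((le_max_right _ _).trans (le_max_right _ _))
  have hJ1 : ∀ t ∈ Ioo 0 δ₁, t₁ + t ∈ J := fun t ht => hδJ t (hsub ht)
  have hIcc : ∀ t ∈ Icc t₁ (t₁ + δ₁), t ∈ J := by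
    intro t ht
    rcases eq_or_lt_of_le ht.1 with h | h
    · rw [← h]; exact ht₁
    · have := hδJ (t - t₁) ⟨by linarith, by linarith [ht.2]⟩
      rwa [add_sub_cancel] at this
  have hβ : (-1 : ℝ) ≤ (i:ℝ) - j := by
    have : (j:ℝ) ≤ i + 1 := by exact_mod_cast hij
    linarith
  have hdiv : ∀ t ∈ Ioo 0 δ₁, C / t ≤ C₁ / t := fun t ht =>
    div_le_div_of_nonneg_right hCC ht.1.le
  obtain ⟨δ', hδ'0, hδ'δ, hfin⟩ := hUNQ δ₁ C₁ ((i:ℝ) - j) (fun t θ => n (t₁ + t) θ) (fun t θ => m (t₁ + t) θ)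
    (fun t θ => l (t₁ + t) θ) (fun t θ => ρ (t₁ + t) θ) D ν hδ₁0 hC₁0 hβ
    (SJ_shift sn hJ1) (SJ_shift sm hJ1) (SJ_shift sl hJ1) (SJ_shift hX.sr hJ1) (SJ_mono sD hsub) (SJ_mono sν hsub)
    (fun t ht θ => pn _ (hJ1 t ht) θ) (fun t ht θ => pm _ (hJ1 t ht) θ) (fun t ht θ => pl _ (hJ1 t ht) θ)
    (fun t ht θ => rfl) (fun t ht θ => pD t (hsub ht) θ) (fun t ht θ => pν t (hsub ht) θ)
    (by
      -- the algebraic relation
      intro t ht θ
      have hJt := hJ1 t ht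
      have gX := hFRM.gauss hJ hX _ hJt θ
      have gY := hFRM.gauss hJ hY _ hJt θ
      obtain ⟨f1, f2, f3⟩ := hfr _ hJt θ
      have hb := hnB t (hsub ht) θ
      have e1 : lf ρ X (t₁ + t) θ = l₀ (t₁ + t) := f1
      have e2 : mf ρ X (t₁ + t) θ = 0 := f2
      have e3 : nf ρ X (t₁ + t) θ = n₀ (t₁ + t) := f3
      have eY1 : lf ρ Y (t₁ + t) θ = l₀ (t₁ + t) + l (t₁ + t) θ := by simp only [hl]; rw [e1]; ring
      have eY2 : mf ρ Y (t₁ + t) θ = m (t₁ + t) θ := by simp only [hm]; rw [e2]; ring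
      have eY3 : nf ρ Y (t₁ + t) θ = n₀ (t₁ + t) + n (t₁ + t) θ := by simp only [hn]; rw [e3]; ring
      rw [← gX, e1, e2, e3, eY1, eY2, eY3] at gY
      simp only [hD, hν]
      generalize l (t₁ + t) θ = L at *
      generalize m (t₁ + t) θ = M at *
      generalize n (t₁ + t) θ = NN at *
      generalize l₀ (t₁ + t) = L0 at *
      generalize n₀ (t₁ + t) = N0 at *
      obtain ⟨B, hB⟩ : ∃ B, B = N0 + NN / 2 := ⟨_, rfl⟩
      rw [← hB] at hb ⊢
      have key : L * B = -((L0 + L / 2) * NN) + M ^ 2 := by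
        rw [hB]; linear_combination gY
      have k2 : L = (-((L0 + L / 2) * NN) + M ^ 2) / B := by
        rw [← key]; field_simp
      have k3 : ((M / 2) ^ 2 - (L0 + L / 2) * B) / B ^ 2 - (M / 2 / B) ^ 2 = -(L0 + L / 2) / B := by
        field_simp; ring
      rw [k3]
      conv_lhs => rw [k2]
      field_simp)
    (by
      intro t ht θ
      have hJt := hJ1 t ht
      have gX := hFRM.cod1 hJ hX _ hJt θ
      have gY := hFRM.cod1 hJ hY _ hJt θ
      have e1 : (fun t θ => ρ (t₁ + t) θ * n (t₁ + t) θ) =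
          fun t θ => (fun t θ => ρ t θ * nf ρ Y t θ - ρ t θ * nf ρ X t θ) (t₁ + t) θ := by
        funext t θ; simp only [hn]; ring
      have e3 : pt (fun t θ => ρ (t₁ + t) θ * n (t₁ + t) θ) t θ = pt (fun t θ => ρ t θ * nf ρ Y t θ) (t₁ + t) θ -
          pt (fun t θ => ρ t θ * nf ρ X t θ) (t₁ + t) θ := by
        rw [e1]
        exact (pt_shift (fun t θ => ρ t θ * nf ρ Y t θ - ρ t θ * nf ρ X t θ) t₁ t θ).trans
          (pt_sub hDR2 hJ (SJ_mul hX.sr sYn) (SJ_mul hX.sr sXn) hJt θ)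
      rw [e3, gX, gY, pt_shift ρ]
      have e2 : ph (fun t θ => m (t₁ + t) θ) t θ = ph m (t₁ + t) θ := rfl
      rw [e2]
      simp only [hm]
      rw [ph_sub hDR2 hJ sYm sXm hJt]
      simp only [hl]
      ring)
    (by
      intro t ht θ
      have hJt := hJ1 t ht
      have gX := hFRM.cod2 hJ hX _ hJt θ
      have gY := hFRM.cod2 hJ hY _ hJt θ
      have e1 : (fun t θ => ρ (t₁ + t) θ ^ 2 * m (t₁ + t) θ) =
          fun t θ => (fun t θ => ρ t θ ^ 2 * mf ρ Y t θ - ρ t θ ^ 2 * mf ρ X t θ) (t₁ + t) θ := by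
        funext t θ; simp only [hm]; ring
      have s2 : SJ J (fun t θ => ρ t θ ^ 2) := ContDiffOn.pow hX.sr 2
      have e3 : pt (fun t θ => ρ (t₁ + t) θ ^ 2 * m (t₁ + t) θ) t θ =
          pt (fun t θ => ρ t θ ^ 2 * mf ρ Y t θ) (t₁ + t) θ -
          pt (fun t θ => ρ t θ ^ 2 * mf ρ X t θ) (t₁ + t) θ := by
        rw [e1]
        exact (pt_shift (fun t θ => ρ t θ ^ 2 * mf ρ Y t θ - ρ t θ ^ 2 * mf ρ X t θ) t₁ t θ).trans
          (pt_sub hDR2 hJ (SJ_mul s2 sYm) (SJ_mul s2 sXm) hJt θ)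
      rw [e3, gX, gY]
      have e2 : ph (fun t θ => l (t₁ + t) θ) t θ = ph l (t₁ + t) θ := rfl
      rw [e2]
      simp only [hl]
      rw [ph_sub hDR2 hJ sYl sXl hJt]
      ring)
    (by
      rcases hsgn with h | h
      · exact Or.inl fun t ht θ => h t (hsub ht) θ
      · exact Or.inr fun t ht θ => h t (hsub ht) θ)
    (fun t ht θ => (hD1 t (hsub ht) θ).trans (hdiv t ht))
    (fun t ht θ => hD2 t (hsub ht) θ)
    (fun t ht θ => (hD3 t (hsub ht) θ).trans (mul_le_mul_of_nonneg_right hCC (abs_nonneg _)))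
    (fun t ht θ => by
      obtain ⟨a1, a2, a3, a4, a5⟩ := hν1 t (hsub ht) θ
      have hs : 0 ≤ √|D t θ| := Real.sqrt_nonneg _
      have hm := mul_le_mul_of_nonneg_right (hdiv t ht) hs
      exact ⟨a1.trans hCC, a2.trans hCC, a3.trans hm, a4.trans hm, a5.trans hm⟩)
    (fun t ht θ => by
      have hJt := hJ1 t ht
      have hdd : dist (t₁ + t) t₁ < d := by
        rw [Real.dist_eq, add_sub_cancel_left, abs_of_pos ht.1]
        exact lt_of_lt_of_le ht.2 (min_le_right _ _)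
      obtain ⟨b1, b2⟩ := hdr hdd
      refine ⟨?_, ?_, ?_, ?_⟩
      · have h1 : 1 / C₁ ≤ r t₁ / 2 := by
          rw [div_le_iff₀ hC₁0]
          have := mul_le_mul_of_nonneg_left hC3 (by positivity : 0 ≤ r t₁ / 2)
          have h2 : r t₁ / 2 * (2 / r t₁) = 1 := by field_simp
          linarith
        exact h1.trans b1.le
      · exact b2.le.trans hC2
      · rw [pt_shift ρ]
        have h1 : pt ρ (t₁ + t) θ = deriv r (t₁ + t) := rfl
        rw [h1]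
        have h2 := hunit _ hJt
        have h3 : |deriv r (t₁ + t)| ≤ 1 := by
          rw [abs_le]
          constructor <;> nlinarith [sq_nonneg (deriv z (t₁ + t))]
        exact h3.trans hC1
      · have h1 : ph (fun t θ => ρ (t₁ + t) θ) t θ = 0 := by
          unfold ph
          simp only [hρ]
          exact deriv_const θ _
        rw [h1, abs_zero]
        exact hC₁0.le)
    (fun N => by
      obtain ⟨B1, hB1⟩ := flat_est hFLT hJ sn pn ht₁ hFn hIcc N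
      obtain ⟨B2, hB2⟩ := flat_est hFLT hJ sm pm ht₁ hFm hIcc N
      refine ⟨B1 + B2, fun t ht θ => ?_⟩
      have h1 := hB1 t ht θ
      have h2 := hB2 t ht θ
      rw [Real.norm_eq_abs] at h1 h2
      linarith)
  refine ⟨δ', hδ'0, fun t ht => ?_⟩
  have ht' : t - t₁ ∈ Ioo 0 δ' := ⟨by linarith [ht.1], by linarith [ht.2]⟩
  have ht'' : t - t₁ ∈ Ioo 0 δ₁ := ⟨ht'.1, ht'.2.trans_le hδ'δ⟩
  have hJt := hJ1 _ ht''
  rw [add_sub_cancel] at hJt
  refine ⟨hJt, fun θ => ?_⟩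
  obtain ⟨c1, c2, c3⟩ := hfin _ ht' θ
  simp only [add_sub_cancel] at c1 c2 c3
  exact ⟨sub_eq_zero.mp c3, sub_eq_zero.mp c2, sub_eq_zero.mp c1⟩

end Rim478
end

section
set_option autoImplicit false

/-!
# NFL: Taylor expansion at a zero of finite order
-/

open Real MeasureTheory Set Filter Topology
open scoped ContDiff InnerProductSpace

namespace Rim478

namespace NFLM

/-- Taylor expansion at a point where the first `k` derivatives vanish -/
theorem tay {V : Type} [NormedAddCommGroup V] [NormedSpace ℝ V] {J : Set ℝ} {u : ℝ → V} {t₀ : ℝ}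
    (k : ℕ) (hJ : IsOpen J) (hu : ContDiffOn ℝ ∞ u J) (ht : t₀ ∈ J)
    (h0 : ∀ i < k, iteratedDeriv i u t₀ = 0) :
    ∃ δ C : ℝ, 0 < δ ∧ 0 < C ∧ ∀ t ∈ Icc 0 δ,
      ‖u (t₀ + t) - (t ^ k / (k.factorial : ℝ)) • iteratedDeriv k u t₀‖ ≤ C * t ^ (k + 1) := by
  obtain ⟨ε, hε, hsub⟩ := Metric.isOpen_iff.1 hJ t₀ ht
  set δ := ε / 2 with hδ
  have hδ0 : 0 < δ := by positivity
  have hI : Icc t₀ (t₀ + δ) ⊆ J := by
    intro x hx
    apply hsub
    rw [Metric.mem_ball, Real.dist_eq, abs_lt]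
    constructor <;> [linarith [hx.1]; linarith [hx.2]]
  have hab : t₀ ≤ t₀ + δ := by linarith
  have hlt : t₀ < t₀ + δ := by linarith
  have hsm : ContDiffOn ℝ (k + 1) u (Icc t₀ (t₀ + δ)) := by
    have := (hu.mono hI).of_le (m := ((k + 1 : ℕ) : WithTop ℕ∞))
      (by exact_mod_cast (WithTop.coe_le_coe.2 (le_top (a := ((k + 1 : ℕ) : ℕ∞)))))
    simpa using this
  obtain ⟨C, hC⟩ := exists_taylor_mean_remainder_bound hab hsm
  refine ⟨δ, |C| + 1, hδ0, by positivity, ?_⟩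
  intro t ht'
  have hx : t₀ + t ∈ Icc t₀ (t₀ + δ) := ⟨by linarith [ht'.1], by linarith [ht'.2]⟩
  have h1 := hC (t₀ + t) hx
  have hT : taylorWithinEval u k (Icc t₀ (t₀ + δ)) t₀ (t₀ + t) =
      (t ^ k / (k.factorial : ℝ)) • iteratedDeriv k u t₀ := by
    rw [taylor_within_apply, Finset.sum_range_succ, Finset.sum_eq_zero, zero_add]
    · rw [iteratedDerivWithin_eq_iteratedDeriv (uniqueDiffOn_Icc hlt)
        (((hu t₀ ht).contDiffAt (hJ.mem_nhds ht)).of_le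
          (by exact_mod_cast (WithTop.coe_le_coe.2 (le_top (a := ((k : ℕ) : ℕ∞))))))
        (left_mem_Icc.2 hab)]
      congr 1
      rw [add_sub_cancel_left]
      field_simp
    · intro i hi
      rw [Finset.mem_range] at hi
      rw [iteratedDerivWithin_eq_iteratedDeriv (uniqueDiffOn_Icc hlt)
        (((hu t₀ ht).contDiffAt (hJ.mem_nhds ht)).of_le
          (by exact_mod_cast (WithTop.coe_le_coe.2 (le_top (a := ((i : ℕ) : ℕ∞))))))
        (left_mem_Icc.2 hab), h0 i hi, smul_zero]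
  rw [hT, add_sub_cancel_left] at h1
  refine h1.trans ?_
  have : 0 ≤ t ^ (k + 1) := pow_nonneg ht'.1 _
  nlinarith [le_abs_self C]

end NFLM

theorem specNFL : SpecNFL := by
  intro J u t₀ k hJ hu ht h0 hk
  obtain ⟨δ₁, C₁, hδ₁, hC₁, h1⟩ := NFLM.tay k hJ hu ht h0
  have hu' : ContDiffOn ℝ ∞ (deriv u) J := ContDiffOn.deriv_of_isOpen hu hJ (by simp)
  have hk0 : (0 : ℝ) < (k.factorial : ℝ) := by exact_mod_cast k.factorial_pos
  set c := iteratedDeriv k u t₀ / (k.factorial : ℝ) with hc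
  have hc0 : c ≠ 0 := div_ne_zero hk hk0.ne'
  -- the derivative
  have h2 : ∃ δ₂ C₂ : ℝ, 0 < δ₂ ∧ 0 < C₂ ∧ ∀ t ∈ Icc 0 δ₂,
      |t * deriv u (t₀ + t) - k * c * t ^ k| ≤ C₂ * t ^ (k + 1) := by
    rcases Nat.eq_zero_or_pos k with hk1 | hk1
    · subst hk1
      obtain ⟨δ₂, C₂, hδ₂, hC₂, h2⟩ := NFLM.tay 0 hJ hu' ht (by simp)
      refine ⟨δ₂, C₂ * δ₂ + |deriv u t₀|, hδ₂, by positivity, ?_⟩
      intro t ht'
      have h3 := h2 t ht'
      simp only [pow_zero, Nat.factorial_zero, Nat.cast_one, div_one, one_smul, zero_add, pow_one,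
        iteratedDeriv_zero, Real.norm_eq_abs] at h3
      have h4 : |deriv u (t₀ + t)| ≤ C₂ * δ₂ + |deriv u t₀| := by
        have h5 : deriv u (t₀ + t) = (deriv u (t₀ + t) - deriv u t₀) + deriv u t₀ := by ring
        rw [h5]
        refine (abs_add_le _ _).trans ?_
        have : C₂ * t ≤ C₂ * δ₂ := mul_le_mul_of_nonneg_left ht'.2 hC₂.le
        linarith
      simp only [Nat.cast_zero, zero_mul, sub_zero, zero_add, pow_one]
      rw [abs_mul, abs_of_nonneg ht'.1, mul_comm]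
      exact mul_le_mul_of_nonneg_right h4 ht'.1
    · obtain ⟨m, rfl⟩ : ∃ m, k = m + 1 := ⟨k - 1, by omega⟩
      obtain ⟨δ₂, C₂, hδ₂, hC₂, h2⟩ := NFLM.tay m hJ hu' ht (by
        intro i hi
        rw [← iteratedDeriv_succ']
        exact h0 (i + 1) (by omega))
      refine ⟨δ₂, C₂, hδ₂, hC₂, ?_⟩
      intro t ht'
      have h3 := h2 t ht'
      rw [← iteratedDeriv_succ', Real.norm_eq_abs, smul_eq_mul] at h3
      have h4 : t * deriv u (t₀ + t) - ((m + 1 : ℕ) : ℝ) * c * t ^ (m + 1) =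
          t * (deriv u (t₀ + t) - t ^ m / (m.factorial : ℝ) * iteratedDeriv (m + 1) u t₀) := by
        rw [hc, Nat.factorial_succ]
        have : (m.factorial : ℝ) ≠ 0 := by exact_mod_cast m.factorial_pos.ne'
        have h6 : ((m : ℝ) + 1) ≠ 0 := by positivity
        push_cast
        field_simp
        ring
      rw [h4, abs_mul, abs_of_nonneg ht'.1]
      calc t * |deriv u (t₀ + t) - t ^ m / (m.factorial : ℝ) * iteratedDeriv (m + 1) u t₀|
          ≤ t * (C₂ * t ^ (m + 1)) := mul_le_mul_of_nonneg_left h3 ht'.1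
        _ = C₂ * t ^ (m + 1 + 1) := by ring
  obtain ⟨δ₂, C₂, hδ₂, hC₂, h2⟩ := h2
  refine ⟨c, min δ₁ δ₂, max C₁ C₂, hc0, lt_min hδ₁ hδ₂, lt_max_of_lt_left hC₁, ?_⟩
  intro t ht'
  have hp : 0 ≤ t ^ (k + 1) := pow_nonneg ht'.1.le _
  constructor
  · have h3 := h1 t ⟨ht'.1.le, (ht'.2.trans_le (min_le_left _ _)).le⟩
    rw [Real.norm_eq_abs, smul_eq_mul] at h3
    have h4 : t ^ k / (k.factorial : ℝ) * iteratedDeriv k u t₀ = c * t ^ k := by
      rw [hc]; ring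
    rw [h4] at h3
    exact h3.trans (mul_le_mul_of_nonneg_right (le_max_left _ _) hp)
  · have h3 := h2 t ⟨ht'.1.le, (ht'.2.trans_le (min_le_right _ _)).le⟩
    exact h3.trans (mul_le_mul_of_nonneg_right (le_max_right _ _) hp)

end Rim478
end

section
set_option autoImplicit false

/-!
# MP_478c11_gt, part U: PRP (propagation)
-/

open Real MeasureTheory Set Filter Topology
open scoped ContDiff InnerProductSpace

namespace Rim478

/-- **PRP**. -/
theorem specPRP (hD : SpecDR2) (hF : SpecFLT) : SpecPRP := by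
  intro V _ _ J u t₀ hJ hJc ht₀ hu hfl hloc
  set Z : Set ℝ := {t | t ∈ J ∧ Fl t u} with hZ
  have hsj : ∀ k : ℕ, SJ J (pt^[k] u) := by
    intro k
    induction k with
    | zero => exact hu
    | succ k ih =>
      rw [Function.iterate_succ_apply']
      exact hD.spt hJ ih
  have hZopen : IsOpen Z := by
    rw [Metric.isOpen_iff]
    rintro t₁ ⟨ht₁, hfl₁⟩
    obtain ⟨δ, hδ, hz⟩ := hloc t₁ ht₁ hfl₁
    obtain ⟨ε, hε, hball⟩ := Metric.isOpen_iff.1 hJ t₁ ht₁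
    refine ⟨min δ ε, lt_min hδ hε, ?_⟩
    intro t ht
    rw [Metric.mem_ball, Real.dist_eq, abs_lt] at ht
    have h1 : min δ ε ≤ δ := min_le_left _ _
    have h2 : min δ ε ≤ ε := min_le_right _ _
    have htJ : t ∈ J := by
      apply hball
      rw [Metric.mem_ball, Real.dist_eq, abs_lt]
      constructor <;> linarith [ht.1, ht.2]
    refine ⟨htJ, ?_⟩
    have hη : 0 < t - (t₁ - min δ ε) := by linarith [ht.1]
    refine hF.one hJ hu htJ hη ?_
    intro s hs θ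
    have hs1 : t₁ - min δ ε < s := by
      have := hs.1
      linarith
    have hs2 : s < t₁ + min δ ε := by
      have := hs.2
      linarith [ht.2]
    refine hz s ⟨by linarith, by linarith⟩ ?_ θ
    apply hball
    rw [Metric.mem_ball, Real.dist_eq, abs_lt]
    constructor <;> linarith
  have hZcl : closure Z ∩ J ⊆ Z := by
    rintro t ⟨htc, htJ⟩
    refine ⟨htJ, ?_⟩
    intro k θ
    have hc : ContinuousAt (fun s => (pt^[k] u) s θ) t := (hD.hpt hJ (hsj k) t htJ θ).continuousAt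
    have hcl : IsClosed ({0} : Set V) := isClosed_singleton
    have hmem : (fun s => (pt^[k] u) s θ) t ∈ closure ({0} : Set V) := by
      have h := mem_closure_image hc htc
      refine closure_mono ?_ h
      rintro _ ⟨s, hs, rfl⟩
      exact hs.2 k θ
    rw [hcl.closure_eq] at hmem
    exact hmem
  have hsub : J ⊆ Z :=
    hJc.isPreconnected.subset_of_closure_inter_subset hZopen ⟨t₀, ht₀, ht₀, hfl⟩ hZcl
  intro t ht θ
  obtain ⟨δ, hδ, hz⟩ := hloc t ht (hsub ht).2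
  exact hz t ⟨by linarith, by linarith⟩ ht θ

end Rim478
end
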